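import Pool.Agent.TUR.Defs

/-!
# TUR / TUN : Turan for `K_4` and Mantel, in the language of families of pairs

`turan4`: strong induction on `W.card`.  If `E` has no triangle, use `mantel` (`4 E ≤ W^2`).
Otherwise let `x,y,z` be a triangle of `E`, `W' = W \ {x,y,z}` (`|W'| = |W| - 3`), `E'` the pairs of
`E` inside `W'`.  Every `w ∈ W'` is adjacent to at most two of `x,y,z` (no `K_4`), so
`|E| ≤ |E'| + 2 |W'| + 3`, and `3|E'| ≤ |W'|^2`, `|W'|^2 + 6|W'| + 9 = |W|^2`.
`mantel`: the same with an edge `x,y`: `|E| ≤ |E'| + |W'| + 1`, `4|E'| ≤ |W'|^2`,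
`|W'|^2 + 4|W'| + 4 = |W|^2`.
(Alternatively deduce both from Mathlib's Turan theorem for `SimpleGraph`.)
-/

namespace Pool.Agent.TUR

open Finset

variable {V : Type} [DecidableEq V]

private theorem tun_step (W T : Finset V) (E : Finset (Finset V)) (hE : E ⊆ W.powersetCard 2) (m : ℕ)
    (h : ∀ w ∈ W \ T, (T.filter (fun v => ({v, w} : Finset V) ∈ E)).card ≤ m) :
    E.card ≤ (E.filter (fun p => Disjoint p T)).card + m * (W \ T).card + (T.powersetCard 2).card := by
  have h1 : E ⊆ (E.filter (fun p => Disjoint p T)) ∪ (E.filter (fun p => ¬ Disjoint p T ∧ ¬ p ⊆ T))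
      ∪ T.powersetCard 2 := by
    intro p hp
    have hp2 := mem_powersetCard.1 (hE hp)
    by_cases h2 : Disjoint p T
    · exact mem_union_left _ (mem_union_left _ (mem_filter.2 ⟨hp, h2⟩))
    · by_cases h3 : p ⊆ T
      · exact mem_union_right _ (mem_powersetCard.2 ⟨h3, hp2.2⟩)
      · exact mem_union_left _ (mem_union_right _ (mem_filter.2 ⟨hp, h2, h3⟩))
  have h4 : (E.filter (fun p => ¬ Disjoint p T ∧ ¬ p ⊆ T)).card ≤ m * ((W \ T).powersetCard 1).card := by
    refine card_le_mul_card_image_of_maps_to (f := fun p => p \ T) ?_ m ?_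
    · intro p hp
      obtain ⟨hpE, hd, hs⟩ := mem_filter.1 hp
      have hp2 := mem_powersetCard.1 (hE hpE)
      refine mem_powersetCard.2 ⟨sdiff_subset_sdiff hp2.1 (Subset.refl _), ?_⟩
      have e1 : (p \ T).Nonempty := by
        rw [nonempty_iff_ne_empty]
        intro e
        exact hs (sdiff_eq_empty_iff_subset.1 e)
      have e2 : (p ∩ T).Nonempty := by
        rw [nonempty_iff_ne_empty]
        intro e
        exact hd (disjoint_iff_inter_eq_empty.2 e)
      have e3 := card_sdiff_add_card_inter p T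
      have e4 := e1.card_pos
      have e5 := e2.card_pos
      omega
    · intro b hb
      obtain ⟨hbW, hb1⟩ := mem_powersetCard.1 hb
      obtain ⟨w, rfl⟩ := card_eq_one.1 hb1
      have hw : w ∈ W \ T := hbW (mem_singleton_self w)
      have hwT : w ∉ T := (mem_sdiff.1 hw).2
      refine le_trans (card_le_card (t := (T.filter (fun v => ({v, w} : Finset V) ∈ E)).image
        (fun v => ({v, w} : Finset V))) ?_) (card_image_le.trans (h w hw))
      intro p hp
      obtain ⟨hp1, hp2⟩ := mem_filter.1 hp
      obtain ⟨hpE, hd, hs⟩ := mem_filter.1 hp1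
      have hpc := (mem_powersetCard.1 (hE hpE)).2
      have hwp : w ∈ p := by
        have : w ∈ p \ T := by rw [hp2]; exact mem_singleton_self w
        exact (mem_sdiff.1 this).1
      obtain ⟨v, hv⟩ : (p ∩ T).Nonempty := by
        rw [nonempty_iff_ne_empty]
        intro e
        exact hd (disjoint_iff_inter_eq_empty.2 e)
      obtain ⟨hvp, hvT⟩ := mem_inter.1 hv
      have hvw : v ≠ w := fun e => hwT (e ▸ hvT)
      have hpe : ({v, w} : Finset V) = p := by
        refine eq_of_subset_of_card_le ?_ ?_
        · intro x hx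
          rcases mem_insert.1 hx with rfl | hx
          · exact hvp
          · rw [mem_singleton.1 hx]
            exact hwp
        · rw [hpc, card_pair hvw]
      exact mem_image.2 ⟨v, mem_filter.2 ⟨hvT, by rw [hpe]; exact hpE⟩, hpe⟩
  have h5 : ((W \ T).powersetCard 1).card = (W \ T).card := by
    rw [card_powersetCard, Nat.choose_one_right]
  rw [h5] at h4
  refine (card_le_card h1).trans ((card_union_le _ _).trans ?_)
  exact Nat.add_le_add_right ((card_union_le _ _).trans (Nat.add_le_add_left h4 _)) _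

private theorem tun_sub (W T : Finset V) (E : Finset (Finset V)) (hE : E ⊆ W.powersetCard 2) :
    E.filter (fun p => Disjoint p T) ⊆ (W \ T).powersetCard 2 := by
  intro p hp
  obtain ⟨hpE, hd⟩ := mem_filter.1 hp
  obtain ⟨h1, h2⟩ := mem_powersetCard.1 (hE hpE)
  exact mem_powersetCard.2 ⟨fun x hx => mem_sdiff.2 ⟨h1 hx, fun hxT =>
    (disjoint_left.1 hd) hx hxT⟩, h2⟩

private theorem mantel_aux (n : ℕ) : ∀ (W : Finset V) (E : Finset (Finset V)), W.card = n →
    E ⊆ W.powersetCard 2 → NoK3 E → 4 * E.card ≤ W.card ^ 2 := by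
  induction n using Nat.strong_induction_on with
  | _ n ih =>
    intro W E hn hE hK
    rcases E.eq_empty_or_nonempty with he | ⟨p, hp⟩
    · subst he
      simp
    obtain ⟨hpW, hpc⟩ := mem_powersetCard.1 (hE hp)
    obtain ⟨x, y, hxy, rfl⟩ := card_eq_two.1 hpc
    set T : Finset V := {x, y} with hT
    have hTc : T.card = 2 := card_pair hxy
    have hs := tun_step W T E hE 1 (by
      intro w hw
      by_contra hc
      have h1 : T.filter (fun v => ({v, w} : Finset V) ∈ E) = T :=
        eq_of_subset_of_card_le (filter_subset _ _) (by omega)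
      have h2 : ∀ v ∈ T, ({v, w} : Finset V) ∈ E := fun v hv => by
        rw [← h1] at hv
        exact (mem_filter.1 hv).2
      have hwT : w ∉ T := (mem_sdiff.1 hw).2
      have hxT : x ∈ T := mem_insert_self _ _
      have hyT : y ∈ T := mem_insert_of_mem (mem_singleton_self _)
      exact hK x y w hxy (fun e => hwT (e ▸ hxT)) (fun e => hwT (e ▸ hyT)) hp (h2 x hxT) (h2 y hyT))
    have hc : (W \ T).card + 2 = W.card := by
      rw [← hTc]
      exact card_sdiff_add_card_eq_card hpW
    have hi := ih (W \ T).card (by omega) (W \ T) (E.filter (fun p => Disjoint p T)) rfl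
      (tun_sub W T E hE) (fun a b c h1 h2 h3 h4 h5 h6 => hK a b c h1 h2 h3 (mem_filter.1 h4).1
        (mem_filter.1 h5).1 (mem_filter.1 h6).1)
    have hp2 : (T.powersetCard 2).card = 1 := by
      rw [card_powersetCard, hTc]
      rfl
    rw [hp2] at hs
    rw [← hc]
    nlinarith

theorem mantel (W : Finset V) (E : Finset (Finset V)) (hE : E ⊆ W.powersetCard 2)
    (hK : NoK3 E) : 4 * E.card ≤ W.card ^ 2 :=
  mantel_aux W.card W E rfl hE hK

private theorem turan4_aux (n : ℕ) : ∀ (W : Finset V) (E : Finset (Finset V)), W.card = n →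
    E ⊆ W.powersetCard 2 → NoK4 E → 3 * E.card ≤ W.card ^ 2 := by
  induction n using Nat.strong_induction_on with
  | _ n ih =>
    intro W E hn hE hK
    by_cases h3 : NoK3 E
    · have := mantel W E hE h3
      omega
    unfold NoK3 at h3
    push Not at h3
    obtain ⟨x, y, z, hxy, hxz, hyz, exy, exz, eyz, _⟩ := h3
    set T : Finset V := {x, y, z} with hT
    have hTc : T.card = 3 := card_eq_three.2 ⟨x, y, z, hxy, hxz, hyz, rfl⟩
    have hTW : T ⊆ W := by
      intro v hv
      rcases mem_insert.1 hv with rfl | hv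
      · exact (mem_powersetCard.1 (hE exy)).1 (mem_insert_self _ _)
      rcases mem_insert.1 hv with rfl | hv
      · exact (mem_powersetCard.1 (hE exy)).1 (mem_insert_of_mem (mem_singleton_self _))
      · rw [mem_singleton.1 hv]
        exact (mem_powersetCard.1 (hE exz)).1 (mem_insert_of_mem (mem_singleton_self _))
    have hs := tun_step W T E hE 2 (by
      intro w hw
      by_contra hc
      have h1 : T.filter (fun v => ({v, w} : Finset V) ∈ E) = T :=
        eq_of_subset_of_card_le (filter_subset _ _) (by omega)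
      have h2 : ∀ v ∈ T, ({v, w} : Finset V) ∈ E := fun v hv => by
        rw [← h1] at hv
        exact (mem_filter.1 hv).2
      have hwT : w ∉ T := (mem_sdiff.1 hw).2
      have hxT : x ∈ T := mem_insert_self _ _
      have hyT : y ∈ T := mem_insert_of_mem (mem_insert_self _ _)
      have hzT : z ∈ T := mem_insert_of_mem (mem_insert_of_mem (mem_singleton_self _))
      exact hK x y z w hxy hxz (fun e => hwT (e ▸ hxT)) hyz (fun e => hwT (e ▸ hyT))
        (fun e => hwT (e ▸ hzT)) exy exz (h2 x hxT) eyz (h2 y hyT) (h2 z hzT))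
    have hc : (W \ T).card + 3 = W.card := by
      rw [← hTc]
      exact card_sdiff_add_card_eq_card hTW
    have hi := ih (W \ T).card (by omega) (W \ T) (E.filter (fun p => Disjoint p T)) rfl
      (tun_sub W T E hE) (fun a b c d h1 h2 h3 h4 h5 h6 k1 k2 k3 k4 k5 k6 => hK a b c d h1 h2 h3 h4 h5 h6
        (mem_filter.1 k1).1 (mem_filter.1 k2).1 (mem_filter.1 k3).1 (mem_filter.1 k4).1
        (mem_filter.1 k5).1 (mem_filter.1 k6).1)
    have hp2 : (T.powersetCard 2).card = 3 := by
      rw [card_powersetCard, hTc]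
      rfl
    rw [hp2] at hs
    rw [← hc]
    nlinarith

theorem turan4 (W : Finset V) (E : Finset (Finset V)) (hE : E ⊆ W.powersetCard 2)
    (hK : NoK4 E) : 3 * E.card ≤ W.card ^ 2 :=
  turan4_aux W.card W E rfl hE hK

end Pool.Agent.TUR
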