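import Pool.Agent.TUR.DUB
import Pool.Agent.TUR.TUN

/-!
# TUR / ABO : the number of edges inside `VM M`

Claim: for all `M' ⊆ M`, `2 * AA H M' + 3 * (Gam X H M M').card ≤ 2 * M'.card ^ 3`.
Induction on `M'.card`.  `M' = ∅`: `AA = 0` (an edge has 3 elements).  Step: choose `e ∈ M'`,
`M'' = M'.erase e`, `s = M'.card`.

* `AA H M' = AA H M'' + D`, where `D` is the number of `h ∈ H`, `h ⊆ VM M'`, meeting `e`
  (`VM M' = VM M'' ∪ e`, disjoint).  Apply `dub` to `H' = H.filter (· ⊆ VM M')`, which is `Good` on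
  `VM M'` (`Good.filter`): `D ≤ 1 + ∑ x ∈ VM M'', dg H' e x + |Lk H' e (VM M'')|`, and
  `dg H' ≤ dg H`, `Lk H' ⊆ Lk H`.
* `∑ x ∈ VM M'', dg H e x = ∑ f ∈ M'', ∑ x ∈ f, dg H e x`; each inner sum is `≤ 3` (`dg_sum_le`),
  and it is `0` if `(e,f) ∈ Gam X H M M'` (`dg_zero_of_off`; an `o ∈ OO X M` is in no member of `M`).
  So with `γ = #{f ∈ M'' : (e,f) ∈ Gam}`: the sum is at most `3 (s-1-γ)`.
* `Lk H e (VM M'') ⊆ Lk H e (VM (M.erase e))` has no `K_4` and `|VM M''| = 3(s-1)`, so by `turan4`
  `3 |Lk| ≤ 9 (s-1)^2`.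
* `Gam` is symmetric (`off_comm`), so `|Gam M'| = |Gam M''| + 2γ`.
Together `2 AA(M') + 3|Gam M'| ≤ 2(s-1)^3 + 2(1 + 3(s-1) - 3γ + 3(s-1)^2) + 6γ = 2 s^3`.
-/

namespace Pool.Agent.TUR

open Finset

variable {V : Type} [DecidableEq V] {X : Finset V} {H M : Finset (Finset V)} {t m : ℕ}

private theorem abo_step (hC : Cfg X H M t m) (hK : ∀ e ∈ M, NoK4 (Lk H e (VM (M.erase e))))
    {e : Finset V} {M' : Finset (Finset V)} (heM' : e ∉ M') (hM' : M' ⊆ M) (he : e ∈ M)
    (ih : 2 * AA H M' + 3 * (Gam X H M M').card ≤ 2 * M'.card ^ 3) :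
    2 * AA H (insert e M') + 3 * (Gam X H M (insert e M')).card ≤ 2 * (M'.card + 1) ^ 3 := by
  classical
  have hdis : ∀ f ∈ M', Disjoint e f := fun f hf =>
    hC.mat.2 e he f (hM' hf) (fun h => heM' (h ▸ hf))
  have hVe : Disjoint e (VM M') := by
    rw [Finset.disjoint_left]
    intro x hx hx'
    obtain ⟨f, hf, hxf⟩ := mem_VM.1 hx'
    exact Finset.disjoint_left.1 (hdis f hf) hx hxf
  have hVI : VM (insert e M') = e ∪ VM M' := by
    ext x
    rw [mem_VM, Finset.mem_union, mem_VM]
    constructor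
    · rintro ⟨f, hf, hx⟩
      rcases Finset.mem_insert.1 hf with rfl | hf
      · exact Or.inl hx
      · exact Or.inr ⟨f, hf, hx⟩
    · rintro (hx | ⟨f, hf, hx⟩)
      · exact ⟨e, Finset.mem_insert_self _ _, hx⟩
      · exact ⟨f, Finset.mem_insert_of_mem hf, hx⟩
  have hVd : VM (insert e M') \ e = VM M' := by
    rw [hVI]
    ext x
    rw [Finset.mem_sdiff, Finset.mem_union]
    constructor
    · rintro ⟨h1 | h1, h2⟩
      · exact absurd h1 h2
      · exact h1
    · intro h1
      exact ⟨Or.inr h1, fun h2 => Finset.disjoint_left.1 hVe h2 h1⟩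
  set H' := H.filter (fun h => h ⊆ VM (insert e M')) with hH'
  have hG' : Good (VM (insert e M')) H' := hC.good.filter _ fun h _ h1 => h1
  have heH : e ∈ H := hC.mat.1 he
  have heH' : e ∈ H' := Finset.mem_filter.2 ⟨heH, subset_VM (Finset.mem_insert_self _ _)⟩
  -- step 1
  have s1 : AA H (insert e M') ≤ AA H M' + meet H' e := by
    unfold AA meet
    rw [← Finset.card_union_add_card_inter]
    refine le_trans (Finset.card_le_card ?_) (Nat.le_add_right _ _)
    intro h hh
    by_cases hd : Disjoint h e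
    · refine Finset.mem_union_left _ (Finset.mem_filter.2 ⟨(Finset.mem_filter.1 hh).1, ?_⟩)
      intro x hx
      have h1 := (Finset.mem_filter.1 hh).2 hx
      rw [hVI, Finset.mem_union] at h1
      rcases h1 with h1 | h1
      · exact absurd h1 (Finset.disjoint_left.1 hd hx)
      · exact h1
    · exact Finset.mem_union_right _ (Finset.mem_filter.2 ⟨hh, hd⟩)
  -- step 2
  have s2 := dub hG' heH'
  rw [hVd] at s2
  -- step 3
  set R : Finset V → Prop := fun f => ∃ o ∈ OO X M, off H e f o = 3 with hR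
  have s3 : ∑ x ∈ VM M', dg H' e x + 3 * (M'.filter R).card ≤ 3 * M'.card := by
    have h1 : ∑ x ∈ VM M', dg H' e x ≤ ∑ x ∈ VM M', dg H e x := by
      refine Finset.sum_le_sum fun x _ => ?_
      unfold dg
      refine Finset.card_le_card fun r hr => ?_
      rw [Finset.mem_filter] at hr ⊢
      exact ⟨hr.1, (Finset.mem_filter.1 hr.2).1⟩
    have h2 : ∑ x ∈ VM M', dg H e x = ∑ f ∈ M', ∑ x ∈ f, dg H e x := by
      unfold VM
      rw [Finset.sum_biUnion]
      · rfl
      · intro f hf g hg hfg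
        exact hC.mat.2 f (hM' hf) g (hM' hg) hfg
    have h3 : 3 * (M'.filter R).card = ∑ f ∈ M', (if R f then 3 else 0) := by
      rw [Finset.sum_ite, Finset.sum_const_zero, Finset.sum_const, smul_eq_mul]
      ring
    have h4 : 3 * M'.card = ∑ f ∈ M', 3 := by
      rw [Finset.sum_const, smul_eq_mul]
      ring
    rw [h3, h4]
    refine le_trans (Nat.add_le_add_right (h1.trans_eq h2) _) ?_
    rw [← Finset.sum_add_distrib]
    refine Finset.sum_le_sum fun f hf => ?_
    have hfH := hC.mat.1 (hM' hf)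
    split_ifs with hRf
    · obtain ⟨o, ho, h3⟩ := hRf
      rw [mem_OO] at ho
      rw [dg_zero_of_off hC.good heH hfH (hdis f hf) (ho.2 e he) (ho.2 f (hM' hf)) h3]
    · rw [add_zero]
      exact dg_sum_le hC.good heH hfH (hdis f hf)
  -- step 4
  have s4 : (Gam X H M (insert e M')).card ≤ (Gam X H M M').card + 2 * (M'.filter R).card := by
    unfold Gam
    rw [Finset.offDiag_insert heM', Finset.filter_union, Finset.filter_union]
    have h1 : (({e} ×ˢ M').filter (fun q => ∃ o ∈ OO X M, off H q.1 q.2 o = 3)).card ≤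
        (M'.filter R).card := by
      refine Finset.card_le_card_of_injOn Prod.snd ?_ ?_
      · intro q hq
        rw [Finset.mem_coe, Finset.mem_filter, Finset.mem_product, Finset.mem_singleton] at hq
        rw [Finset.mem_coe, Finset.mem_filter]
        refine ⟨hq.1.2, ?_⟩
        rw [hR]
        obtain ⟨o, ho, h3⟩ := hq.2
        rw [hq.1.1] at h3
        exact ⟨o, ho, h3⟩
      · intro q hq q' hq' hqq
        rw [Finset.mem_coe, Finset.mem_filter, Finset.mem_product, Finset.mem_singleton] at hq hq'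
        exact Prod.ext (hq.1.1.trans hq'.1.1.symm) hqq
    have h2 : ((M' ×ˢ {e}).filter (fun q => ∃ o ∈ OO X M, off H q.1 q.2 o = 3)).card ≤
        (M'.filter R).card := by
      refine Finset.card_le_card_of_injOn Prod.fst ?_ ?_
      · intro q hq
        rw [Finset.mem_coe, Finset.mem_filter, Finset.mem_product, Finset.mem_singleton] at hq
        rw [Finset.mem_coe, Finset.mem_filter]
        refine ⟨hq.1.1, ?_⟩
        rw [hR]
        obtain ⟨o, ho, h3⟩ := hq.2
        rw [hq.1.2, off_comm] at h3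
        exact ⟨o, ho, h3⟩
      · intro q hq q' hq' hqq
        rw [Finset.mem_coe, Finset.mem_filter, Finset.mem_product, Finset.mem_singleton] at hq hq'
        exact Prod.ext hqq (hq.1.2.trans hq'.1.2.symm)
    refine le_trans (Finset.card_union_le _ _) ?_
    refine le_trans (Nat.add_le_add_right (Finset.card_union_le _ _) _) ?_
    omega
  -- step 5
  have s5 : 3 * (Lk H' e (VM M')).card ≤ (3 * M'.card) ^ 2 := by
    have h1 : Lk H' e (VM M') ⊆ Lk H e (VM (M.erase e)) := by
      intro p hp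
      rw [mem_Lk] at hp ⊢
      obtain ⟨h1, h2, x, hx, h3⟩ := hp
      refine ⟨h1.trans ?_, h2, x, hx, (Finset.mem_filter.1 h3).1⟩
      intro y hy
      obtain ⟨f, hf, hyf⟩ := mem_VM.1 hy
      exact mem_VM.2 ⟨f, Finset.mem_erase.2 ⟨fun h => heM' (h ▸ hf), hM' hf⟩, hyf⟩
    have h2 := turan4 (VM M') (Lk H' e (VM M')) (fun p hp => by
      rw [mem_Lk] at hp
      exact Finset.mem_powersetCard.2 ⟨hp.1, hp.2.1⟩) ((hK e he).mono h1)
    rwa [(hC.mat.subset hM').card_VM hC.good] at h2
  have e1 : (3 * M'.card) ^ 2 = 9 * M'.card ^ 2 := by ring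
  have e2 : 2 * (M'.card + 1) ^ 3 = 2 * M'.card ^ 3 + 6 * M'.card ^ 2 + 6 * M'.card + 2 := by ring
  rw [e2]
  rw [e1] at s5
  omega

theorem abound (hC : Cfg X H M t m) (hK : ∀ e ∈ M, NoK4 (Lk H e (VM (M.erase e)))) :
    2 * AA H M + 3 * (Gam X H M M).card ≤ 2 * t ^ 3 := by
  classical
  have key : ∀ M' : Finset (Finset V), M' ⊆ M →
      2 * AA H M' + 3 * (Gam X H M M').card ≤ 2 * M'.card ^ 3 := by
    intro M'
    induction M' using Finset.induction_on with
    | empty =>
      intro _
      have h1 : AA H (∅ : Finset (Finset V)) = 0 := by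
        unfold AA
        rw [Finset.card_eq_zero, Finset.filter_eq_empty_iff]
        intro h hh hs
        have h2 : VM (∅ : Finset (Finset V)) = ∅ := by
          unfold VM
          rw [Finset.biUnion_empty]
        rw [h2, Finset.subset_empty] at hs
        have h3 := hC.good.card3 h hh
        rw [hs, Finset.card_empty] at h3
        omega
      have h2 : Gam X H M ∅ = ∅ := by
        unfold Gam
        rw [Finset.offDiag_empty, Finset.filter_empty]
      rw [h1, h2]
      simp
    | insert e M' heM' ih =>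
      intro hs
      have he : e ∈ M := hs (Finset.mem_insert_self _ _)
      have hM' : M' ⊆ M := (Finset.subset_insert _ _).trans hs
      rw [Finset.card_insert_of_notMem heM']
      exact abo_step hC hK heM' hM' he (ih hM')
  have := key M (Finset.Subset.refl _)
  rwa [hC.cardM] at this

end Pool.Agent.TUR
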