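import Pool.Agent.TUR.Defs

/-!
# TUR / AUG : augmentation (exchange) lemmas

`hC : Cfg X H M t m`: `M` is a matching of size `t` of `H`, every matching has size `≤ t`.

`aug`: put `M' = (M \ S) ∪ K`.  A member `h` of `M \ S` is disjoint from `VM S` (members of `M` are
pairwise disjoint) and from `OO X M`, hence from every member of `K`.  So `M'` is a matching, and
`M \ S` and `K` are disjoint families (a common member would be disjoint from itself, but it has 3
elements).  `t ≥ |M'| = t - |S| + |K|`.
`aug0`: `S = ∅, K = {h}`.  `aug2`: `S = {e}, K = {h1,h2}` (`h1 ≠ h2` since they are disjoint and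
nonempty).  `aug3`: `S = {e,f}`, `K = {h1,h2,h3}`.
-/

namespace Pool.Agent.TUR

open Finset

variable {V : Type} [DecidableEq V] {X : Finset V} {H M : Finset (Finset V)} {t m : ℕ}

theorem aug (hC : Cfg X H M t m) {S K : Finset (Finset V)} (hS : S ⊆ M) (hK : Mat H K)
    (hsub : ∀ h ∈ K, h ⊆ VM S ∪ OO X M) : K.card ≤ S.card := by
  have key : ∀ g ∈ M \ S, ∀ h ∈ K, Disjoint g h := by
    intro g hg h hh
    rw [Finset.mem_sdiff] at hg
    rw [Finset.disjoint_left]
    intro x hxg hxh
    rcases Finset.mem_union.1 (hsub h hh hxh) with h1 | h1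
    · obtain ⟨e, he, hxe⟩ := mem_VM.1 h1
      have hne : g ≠ e := by
        rintro rfl
        exact hg.2 he
      exact Finset.disjoint_left.1 (hC.mat.2 g hg.1 e (hS he) hne) hxg hxe
    · exact (mem_OO.1 h1).2 g hg.1 hxg
  have hM' : Mat H ((M \ S) ∪ K) := by
    refine ⟨Finset.union_subset (Finset.sdiff_subset.trans hC.mat.1) hK.1, ?_⟩
    intro a ha b hb hab
    rcases Finset.mem_union.1 ha with h1 | h1 <;> rcases Finset.mem_union.1 hb with h2 | h2
    · exact hC.mat.2 a (Finset.mem_sdiff.1 h1).1 b (Finset.mem_sdiff.1 h2).1 hab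
    · exact key a h1 b h2
    · exact (key b h2 a h1).symm
    · exact hK.2 a h1 b h2 hab
  have hd : Disjoint (M \ S) K := by
    rw [Finset.disjoint_left]
    intro g hg hgK
    have h1 := key g hg g hgK
    rw [disjoint_self, Finset.bot_eq_empty] at h1
    have h2 := hC.card_e (Finset.mem_sdiff.1 hg).1
    rw [h1, Finset.card_empty] at h2
    omega
  have h1 := hC.max _ hM'
  rw [Finset.card_union_of_disjoint hd] at h1
  have h2 := Finset.card_sdiff_add_card_eq_card hS
  have h3 := hC.cardM
  omega

theorem aug0 (hC : Cfg X H M t m) {h : Finset V} (hh : h ∈ H) (hs : h ⊆ OO X M) : False := by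
  have h1 : Mat H {h} := by
    refine ⟨Finset.singleton_subset_iff.2 hh, fun a ha b hb hab => ?_⟩
    rw [Finset.mem_singleton] at ha hb
    exact (hab (ha.trans hb.symm)).elim
  have h2 := aug hC (S := ∅) (K := {h}) (Finset.empty_subset _) h1 (by
    intro g hg
    rw [Finset.mem_singleton] at hg
    rw [hg]
    exact hs.trans Finset.subset_union_right)
  rw [Finset.card_singleton, Finset.card_empty] at h2
  omega

private theorem AUG_ne (hC : Cfg X H M t m) {h1 h2 : Finset V} (hh1 : h1 ∈ H) (hd : Disjoint h1 h2) : h1 ≠ h2 := by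
  rintro rfl
  rw [disjoint_self, Finset.bot_eq_empty] at hd
  have h2 := hC.good.card3 h1 hh1
  rw [hd, Finset.card_empty] at h2
  omega

theorem aug2 (hC : Cfg X H M t m) {e : Finset V} (he : e ∈ M) {h1 h2 : Finset V} (hh1 : h1 ∈ H)
    (hh2 : h2 ∈ H) (s1 : h1 ⊆ e ∪ OO X M) (s2 : h2 ⊆ e ∪ OO X M) (hd : Disjoint h1 h2) :
    False := by
  have hne : h1 ≠ h2 := AUG_ne hC hh1 hd
  have hm : Mat H {h1, h2} := by
    refine ⟨?_, fun a ha b hb hab => ?_⟩
    · intro a ha
      rw [Finset.mem_insert, Finset.mem_singleton] at ha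
      rcases ha with rfl | rfl
      · exact hh1
      · exact hh2
    · rw [Finset.mem_insert, Finset.mem_singleton] at ha hb
      rcases ha with rfl | rfl <;> rcases hb with rfl | rfl
      · exact (hab rfl).elim
      · exact hd
      · exact hd.symm
      · exact (hab rfl).elim
  have h3 := aug hC (S := {e}) (K := {h1, h2}) (Finset.singleton_subset_iff.2 he) hm (by
    have hv : VM {e} = e := by simp [VM]
    rw [hv]
    intro g hg
    rw [Finset.mem_insert, Finset.mem_singleton] at hg
    rcases hg with rfl | rfl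
    · exact s1
    · exact s2)
  rw [Finset.card_singleton, Finset.card_pair hne] at h3
  omega

theorem aug3 (hC : Cfg X H M t m) {e f : Finset V} (he : e ∈ M) (hf : f ∈ M) (hef : e ≠ f)
    {h1 h2 h3 : Finset V} (hh1 : h1 ∈ H) (hh2 : h2 ∈ H) (hh3 : h3 ∈ H)
    (s1 : h1 ⊆ e ∪ f ∪ OO X M) (s2 : h2 ⊆ e ∪ f ∪ OO X M) (s3 : h3 ⊆ e ∪ f ∪ OO X M)
    (h12 : Disjoint h1 h2) (h13 : Disjoint h1 h3) (h23 : Disjoint h2 h3) : False := by
  have n12 : h1 ≠ h2 := AUG_ne hC hh1 h12
  have n13 : h1 ≠ h3 := AUG_ne hC hh1 h13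
  have n23 : h2 ≠ h3 := AUG_ne hC hh2 h23
  have hm : Mat H {h1, h2, h3} := by
    refine ⟨?_, fun a ha b hb hab => ?_⟩
    · intro a ha
      rw [Finset.mem_insert, Finset.mem_insert, Finset.mem_singleton] at ha
      rcases ha with rfl | rfl | rfl
      · exact hh1
      · exact hh2
      · exact hh3
    · rw [Finset.mem_insert, Finset.mem_insert, Finset.mem_singleton] at ha hb
      rcases ha with rfl | rfl | rfl <;> rcases hb with rfl | rfl | rfl
      · exact (hab rfl).elim
      · exact h12
      · exact h13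
      · exact h12.symm
      · exact (hab rfl).elim
      · exact h23
      · exact h13.symm
      · exact h23.symm
      · exact (hab rfl).elim
  have h4 := aug hC (S := {e, f}) (K := {h1, h2, h3}) (by
    intro a ha
    rw [Finset.mem_insert, Finset.mem_singleton] at ha
    rcases ha with rfl | rfl
    · exact he
    · exact hf) hm (by
    have hv : VM {e, f} = e ∪ f := by simp [VM]
    rw [hv]
    intro g hg
    rw [Finset.mem_insert, Finset.mem_insert, Finset.mem_singleton] at hg
    rcases hg with rfl | rfl | rfl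
    · exact s1
    · exact s2
    · exact s3)
  have h5 : ({h1, h2, h3} : Finset (Finset V)).card = 3 := Finset.card_eq_three.2 ⟨h1, h2, h3, n12, n13, n23, rfl⟩
  rw [h5, Finset.card_pair hef] at h4
  omega

end Pool.Agent.TUR
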