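import Pool.Agent.TUR.AUG

/-!
# TUR / DECA : the edges with exactly one uncovered vertex

`dec_split`: every edge `h` has `|h ∩ OO X M| ≤ 3`; `= 0` means `h ⊆ VM M` (as `h ⊆ X`), `= 3` means
`h ⊆ OO X M`, impossible by `aug0`.
`dec_one`: an edge with `|h ∩ O| = 1` is `h = {o,x,y}`, `o ∈ O`, `x ∈ e ∈ M`, `y ∈ f ∈ M`.
For fixed `o`: if `e = f`, then `h = insert o (e.erase r)` with `r` the third vertex of `e`: counted by
`dg H e o`; if `e ≠ f` then `(x,y)` is counted in `off H e f o` and `(y,x)` in `off H f e o`.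
So twice the number of such edges is at most (in fact equal to) `2 ∑ dg + ∑ off`.
(For instance: the number of `h` with `h ∩ O = {o}` is the number of 2-sets `p ⊆ VM M` with
`insert o p ∈ H`; twice this is the number of ordered pairs `(x,y)`, `x ≠ y ∈ VM M`, with
`{o,x,y} ∈ H`; split by the members containing `x` and `y`; for `x,y ∈ e` the ordered pairs are
two for each `r`.)
-/

namespace Pool.Agent.TUR

open Finset

variable {V : Type} [DecidableEq V] {X : Finset V} {H M : Finset (Finset V)} {t m : ℕ}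

private theorem mem_VM_of (hC : Cfg X H M t m) {h : Finset V} (hh : h ∈ H) {x : V} (hx : x ∈ h)
    (hn : x ∉ OO X M) : x ∈ VM M := by
  by_contra hc
  exact hn (Finset.mem_sdiff.2 ⟨hC.good.sub h hh hx, hc⟩)

private theorem not_OO_of_VM {x : V} (hx : x ∈ VM M) : x ∉ OO X M := by
  intro h
  exact (Finset.mem_sdiff.1 h).2 hx

theorem dec_split (hC : Cfg X H M t m) :
    H.card = AA H M + (H.filter (fun h => (h ∩ OO X M).card = 1)).card +
      (H.filter (fun h => (h ∩ OO X M).card = 2)).card := by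
  unfold AA
  rw [Finset.card_filter, Finset.card_filter, Finset.card_filter, ← Finset.sum_add_distrib,
    ← Finset.sum_add_distrib, Finset.card_eq_sum_ones]
  refine Finset.sum_congr rfl fun h hh => ?_
  have h3 := hC.good.card3 h hh
  have hle : (h ∩ OO X M).card ≤ 3 := h3 ▸ Finset.card_le_card Finset.inter_subset_left
  have hne3 : (h ∩ OO X M).card ≠ 3 := by
    intro hc
    have heq : h ∩ OO X M = h :=
      Finset.eq_of_subset_of_card_le Finset.inter_subset_left (by rw [hc, h3])
    exact aug0 hC hh (Finset.inter_eq_left.1 heq)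
  have h0 : h ⊆ VM M ↔ (h ∩ OO X M).card = 0 := by
    rw [Finset.card_eq_zero, Finset.eq_empty_iff_forall_notMem]
    constructor
    · intro hs x hx
      rw [Finset.mem_inter] at hx
      exact not_OO_of_VM (hs hx.1) hx.2
    · intro hs x hx
      exact mem_VM_of hC hh hx (fun hO => hs x (Finset.mem_inter.2 ⟨hx, hO⟩))
  have hcases : (h ∩ OO X M).card = 0 ∨ (h ∩ OO X M).card = 1 ∨ (h ∩ OO X M).card = 2 := by
    omega
  rcases hcases with hc | hc | hc
  · rw [if_pos (h0.2 hc), if_neg (by omega), if_neg (by omega)]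
  · rw [if_neg (by rw [h0]; omega), if_pos hc, if_neg (by omega)]
  · rw [if_neg (by rw [h0]; omega), if_neg (by omega), if_pos hc]

/-- ordered triples -/
private def TT (X : Finset V) (H M : Finset (Finset V)) : Finset (V × V × V) :=
  (OO X M ×ˢ (VM M ×ˢ VM M)).filter
    (fun q => q.2.1 ≠ q.2.2 ∧ ({q.1, q.2.1, q.2.2} : Finset V) ∈ H)

private theorem two_mul_le_TT (hC : Cfg X H M t m) :
    2 * (H.filter (fun h => (h ∩ OO X M).card = 1)).card ≤ (TT X H M).card := by
  have hmaps : ∀ q ∈ TT X H M, ({q.1, q.2.1, q.2.2} : Finset V) ∈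
      H.filter (fun h => (h ∩ OO X M).card = 1) := by
    rintro ⟨o, x, y⟩ hq
    simp only [TT, Finset.mem_filter, Finset.mem_product] at hq
    obtain ⟨⟨ho, hx, hy⟩, -, hH⟩ := hq
    rw [Finset.mem_filter]
    refine ⟨hH, ?_⟩
    rw [Finset.card_eq_one]
    refine ⟨o, ?_⟩
    ext z
    simp only [Finset.mem_inter, Finset.mem_insert, Finset.mem_singleton]
    constructor
    · rintro ⟨rfl | rfl | rfl, hz⟩
      · rfl
      · exact absurd hz (not_OO_of_VM hx)
      · exact absurd hz (not_OO_of_VM hy)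
    · rintro rfl
      exact ⟨Or.inl rfl, ho⟩
  rw [Finset.card_eq_sum_card_fiberwise hmaps, mul_comm, ← smul_eq_mul]
  refine Finset.card_nsmul_le_sum _ _ _ fun h hh => ?_
  rw [Finset.mem_filter] at hh
  obtain ⟨hH, h1⟩ := hh
  obtain ⟨o, ho⟩ := Finset.card_eq_one.1 h1
  have hoO : o ∈ h ∩ OO X M := by rw [ho]; simp
  rw [Finset.mem_inter] at hoO
  have hc2 : (h.erase o).card = 2 := by
    rw [Finset.card_erase_of_mem hoO.1, hC.good.card3 h hH]
  obtain ⟨x, y, hxy, hexy⟩ := Finset.card_eq_two.1 hc2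
  have hx : x ∈ h.erase o := by rw [hexy]; simp
  have hy : y ∈ h.erase o := by rw [hexy]; simp
  have key : ∀ z ∈ h.erase o, z ∈ VM M := by
    intro z hz
    rw [Finset.mem_erase] at hz
    refine mem_VM_of hC hH hz.2 (fun hO => hz.1 ?_)
    have : z ∈ h ∩ OO X M := Finset.mem_inter.2 ⟨hz.2, hO⟩
    rw [ho] at this
    exact Finset.mem_singleton.1 this
  have heq : ({o, x, y} : Finset V) = h := by
    rw [← Finset.insert_erase hoO.1, hexy]
  have hsub : ({(o, x, y), (o, y, x)} : Finset (V × V × V)) ⊆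
      (TT X H M).filter (fun q => ({q.1, q.2.1, q.2.2} : Finset V) = h) := by
    intro q hq
    simp only [Finset.mem_insert, Finset.mem_singleton] at hq
    rcases hq with rfl | rfl
    · simp only [TT, Finset.mem_filter, Finset.mem_product]
      exact ⟨⟨⟨hoO.2, key x hx, key y hy⟩, hxy, heq ▸ hH⟩, heq⟩
    · have heq' : ({o, y, x} : Finset V) = h := by rw [← heq, Finset.pair_comm]
      simp only [TT, Finset.mem_filter, Finset.mem_product]
      exact ⟨⟨⟨hoO.2, key y hy, key x hx⟩, hxy.symm, heq' ▸ hH⟩, heq'⟩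
  have hcp : ({(o, x, y), (o, y, x)} : Finset (V × V × V)).card = 2 := by
    rw [Finset.card_pair]
    intro hh
    simp only [Prod.mk.injEq, true_and] at hh
    exact hxy hh.1
  rw [← hcp]
  exact Finset.card_le_card hsub

/-- the indicator -/
private def FF (H : Finset (Finset V)) (o x y : V) : ℕ :=
  if x ≠ y ∧ ({o, x, y} : Finset V) ∈ H then 1 else 0

private theorem FF_comm (o x y : V) : FF H o x y = FF H o y x := by
  unfold FF
  rw [Finset.pair_comm x y]
  simp only [ne_comm]

private theorem FF_self (o x : V) : FF H o x x = 0 := by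
  unfold FF
  simp

private theorem card_TT : (TT X H M).card =
    ∑ o ∈ OO X M, ∑ x ∈ VM M, ∑ y ∈ VM M, FF H o x y := by
  unfold TT
  rw [Finset.card_filter, Finset.sum_product]
  refine Finset.sum_congr rfl fun o _ => ?_
  rw [Finset.sum_product]
  rfl

private theorem sum_VM (hC : Cfg X H M t m) (f : V → ℕ) :
    ∑ x ∈ VM M, f x = ∑ e ∈ M, ∑ x ∈ e, f x := by
  unfold VM
  rw [Finset.sum_biUnion]
  · rfl
  · intro e he f hf hef
    exact hC.mat.2 e he f hf hef

private theorem diag_le (hC : Cfg X H M t m) {e : Finset V} (he : e ∈ M) (o : V) :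
    ∑ x ∈ e, ∑ y ∈ e, FF H o x y ≤ 2 * dg H e o := by
  obtain ⟨a, b, c, hab, hac, hbc, rfl⟩ := hC.good.exists_eq (hC.mat.1 he)
  have hsum : ∀ f : V → ℕ, ∑ x ∈ ({a, b, c} : Finset V), f x = f a + f b + f c := by
    intro f
    rw [Finset.sum_insert (by simp [hab, hac]), Finset.sum_insert (by simp [hbc]),
      Finset.sum_singleton]
    ring
  unfold dg
  rw [Finset.card_filter, hsum, hsum, hsum, hsum, hsum]
  have ea : ({a, b, c} : Finset V).erase a = {b, c} := by
    rw [Finset.erase_insert (by simp [hab, hac])]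
  have eb : ({a, b, c} : Finset V).erase b = {a, c} := by
    rw [Finset.insert_comm, Finset.erase_insert (by simp [hab.symm, hbc])]
  have ec : ({a, b, c} : Finset V).erase c = {a, b} := by
    rw [Finset.pair_comm b c, Finset.insert_comm,
      Finset.erase_insert (by simp [hac.symm, hbc.symm])]
  rw [ea, eb, ec, FF_self, FF_self, FF_self, FF_comm o b a, FF_comm o c a, FF_comm o c b]
  unfold FF
  simp only [ne_eq, hab, hac, hbc, not_false_eq_true, true_and]
  omega

theorem dec_one (hC : Cfg X H M t m) :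
    2 * (H.filter (fun h => (h ∩ OO X M).card = 1)).card ≤
      ∑ o ∈ OO X M, (2 * ∑ e ∈ M, dg H e o + ∑ q ∈ M.offDiag, off H q.1 q.2 o) := by
  refine (two_mul_le_TT hC).trans ?_
  rw [card_TT]
  refine Finset.sum_le_sum fun o _ => ?_
  have h1 : ∑ x ∈ VM M, ∑ y ∈ VM M, FF H o x y =
      ∑ q ∈ M ×ˢ M, ∑ x ∈ q.1, ∑ y ∈ q.2, FF H o x y := by
    rw [sum_VM hC, Finset.sum_product]
    refine Finset.sum_congr rfl fun e _ => ?_
    rw [Finset.sum_comm (s := M)]
    exact Finset.sum_congr rfl fun x _ => sum_VM hC _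
  have hdisj : Disjoint M.diag M.offDiag := Finset.disjoint_diag_offDiag M
  rw [h1, ← Finset.diag_union_offDiag M, Finset.sum_union hdisj, Finset.mul_sum]
  refine add_le_add ?_ ?_
  · rw [Finset.sum_diag]
    exact Finset.sum_le_sum fun e he => diag_le hC he o
  · refine Finset.sum_le_sum fun q _ => ?_
    unfold off
    rw [Finset.card_filter, Finset.sum_product]
    refine Finset.sum_le_sum fun x _ => Finset.sum_le_sum fun y _ => ?_
    unfold FF
    by_cases hc : ({o, x, y} : Finset V) ∈ H
    · simp only [hc, and_true, if_true]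
      split_ifs <;> omega
    · simp [hc]

end Pool.Agent.TUR
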