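import Pool.Agent.TUR.Defs

/-!
# TUR / LOC : local structure of an `F5`-free 3-graph around one or two edges

Everything follows from `Good.key`: `abc, abd ∈ H`, `cde ∈ H` imply `e = a ∨ e = b`
(use `Ed.swap12, Ed.swap23, Ed.rot, Ed.rot', Ed.swap13` to permute the arguments of `Ed`).

* `lk_color`: if `p ≠ q`, let `r` be the third vertex of `e = {p,q,r}`.  `xyp, xyq ∈ H` and
  `pqr ∈ H` give `r = x` or `r = y`, but `x, y ∉ e`.
* `lk_tri`: `pxy, pxz ∈ H`, `yzq ∈ H` give `q = p` or `q = x`; `q ∈ e`, `x ∉ e`.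
* `off_mat`: `opx, opx' ∈ H`, `x ≠ x'` in `f = {x,x',x''} ∈ H` give `x'' = o` or `x'' = p`; but
  `x'' ∈ f`, `o ∉ f`, `p ∉ f`.
* `dg_sum_le`: for every `r ∈ e` there is at most one `x ∈ f` with `insert x (e.erase r) ∈ H`:
  `e = {p,q,r}`, `pqx, pqx' ∈ H`, `f = {x,x',x''}` give `x'' ∈ {p,q}`, impossible since `e, f` are
  disjoint.  So `∑ x ∈ f, dg H e x` (= number of pairs `(r,x)`) is at most `e.card = 3`.
* `off_comm`: swap the two coordinates.
* `off_add_dg`: if `r ∈ e` is counted in `dg H e o`, i.e. `opq ∈ H` (`e = {p,q,r}`), then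
  no `orx ∈ H` with `x ∉ e`: `pqo, pqr ∈ H`, `orx ∈ H` give `x ∈ {p,q}`.  So the `p ∈ e` which occur
  in pairs counted by `off H e f o` are not counted by `dg H e o`; and every `p` occurs in at most
  one pair of `off` (`off_mat`).  Hence `off + dg ≤ e.card = 3`.
* `off_eq3`: if `off H e f o = 3`, then by `off_mat` and pigeonhole every `p ∈ e` has a partner
  `x ∈ f` with `opx ∈ H`, and also every `x ∈ f` has a partner `p ∈ e` (use `off_comm`).
* `dg_zero_of_off`: let `off H e f o = 3` and `pqx ∈ H` with `e = {p,q,r}`, `x ∈ f`.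
  Let `y ∈ e` be the partner of `x`: `oyx ∈ H`.  If `y = p`: `pxq, pxo ∈ H`, and `q` has a partner
  `x' ∈ f` (`oqx' ∈ H`): `x' ∈ {p,x}`, so `x' = x` (as `x' ∈ f`, `p ∉ f`), but then `p, q` are both
  partners of `x`, contradiction with `off_mat` (for `f, e` swapped).  Similarly `y = q`.
  If `y = r`: `pqr, pqx ∈ H` and `rxo ∈ H` give `o ∈ {p,q}`, contradiction with `o ∉ e`.
-/

namespace Pool.Agent.TUR

open Finset

variable {V : Type} [DecidableEq V] {X : Finset V} {H : Finset (Finset V)}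

private theorem loc_third (hG : Good X H) {e : Finset V} (he : e ∈ H) {p q : V} (hp : p ∈ e)
    (hq : q ∈ e) (hpq : p ≠ q) : ∃ r ∈ e, Ed H p q r := by
  have h3 := hG.card3 e he
  have h1 : ((e.erase p).erase q).card = 1 := by
    rw [Finset.card_erase_of_mem (Finset.mem_erase.2 ⟨hpq.symm, hq⟩), Finset.card_erase_of_mem hp, h3]
  obtain ⟨r, hr⟩ := Finset.card_eq_one.1 h1
  have hre : r ∈ (e.erase p).erase q := by rw [hr]; exact Finset.mem_singleton_self r
  have hre' : r ∈ e := Finset.mem_of_mem_erase (Finset.mem_of_mem_erase hre)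
  refine ⟨r, hre', ?_⟩
  have h2 : ({p, q, r} : Finset V) = e := by
    rw [← hr, Finset.insert_erase (Finset.mem_erase.2 ⟨hpq.symm, hq⟩), Finset.insert_erase hp]
  unfold Ed
  rw [h2]
  exact he

private theorem loc_split (hG : Good X H) {e : Finset V} (he : e ∈ H) {r : V} (hr : r ∈ e) :
    ∃ p q : V, p ≠ q ∧ p ∈ e ∧ q ∈ e ∧ e.erase r = {p, q} ∧ e = {p, q, r} ∧ Ed H p q r := by
  have h3 := hG.card3 e he
  have h2 : (e.erase r).card = 2 := by rw [Finset.card_erase_of_mem hr, h3]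
  obtain ⟨p, q, hpq, hpq'⟩ := Finset.card_eq_two.1 h2
  have hp : p ∈ e.erase r := by rw [hpq']; simp
  have hq : q ∈ e.erase r := by rw [hpq']; simp
  have he' : e = {p, q, r} := by
    rw [← Finset.insert_erase hr, hpq', Finset.insert_comm r p, Finset.pair_comm r q]
  refine ⟨p, q, hpq, Finset.mem_of_mem_erase hp, Finset.mem_of_mem_erase hq, hpq', he', ?_⟩
  unfold Ed
  rw [← he']
  exact he

theorem lk_color (hG : Good X H) {e : Finset V} (he : e ∈ H) {p q x y : V} (hp : p ∈ e)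
    (hq : q ∈ e) (hx : x ∉ e) (hy : y ∉ e) (h1 : Ed H p x y) (h2 : Ed H q x y) : p = q := by
  by_contra hpq
  obtain ⟨r, hr, h3⟩ := loc_third hG he hp hq hpq
  rcases hG.key h1.rot h2.rot h3 with h | h
  · exact hx (h ▸ hr)
  · exact hy (h ▸ hr)

theorem lk_tri (hG : Good X H) {e : Finset V} {p q x y z : V}
    (hq : q ∈ e) (hx : x ∉ e) (h1 : Ed H p x y) (h2 : Ed H p x z) (h3 : Ed H q y z) : q = p := by
  rcases hG.key h1 h2 h3.rot with h | h
  · exact h
  · exact absurd (h ▸ hq) hx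

theorem off_mat (hG : Good X H) {f : Finset V} (hf : f ∈ H) {o p x x' : V} (hp : p ∉ f)
    (ho : o ∉ f) (hx : x ∈ f) (hx' : x' ∈ f) (h1 : Ed H o p x) (h2 : Ed H o p x') : x = x' := by
  by_contra hne
  obtain ⟨r, hr, h3⟩ := loc_third hG hf hx hx' hne
  rcases hG.key h1 h2 h3 with h | h
  · exact ho (h ▸ hr)
  · exact hp (h ▸ hr)

theorem dg_sum_le (hG : Good X H) {e f : Finset V} (he : e ∈ H) (hf : f ∈ H)
    (hd : Disjoint e f) : ∑ x ∈ f, dg H e x ≤ 3 := by
  unfold dg
  simp only [Finset.card_filter]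
  rw [Finset.sum_comm]
  have h3 := hG.card3 e he
  calc ∑ r ∈ e, ∑ x ∈ f, (if insert x (e.erase r) ∈ H then 1 else 0) ≤ ∑ r ∈ e, 1 := by
        refine Finset.sum_le_sum fun r hr => ?_
        rw [← Finset.card_filter, Finset.card_le_one]
        intro x hx x' hx'
        rw [Finset.mem_filter] at hx hx'
        obtain ⟨p, q, hpq, hp, hq, hpq', -, -⟩ := loc_split hG he hr
        have h1 : Ed H x p q := by
          unfold Ed
          rw [← hpq']
          exact hx.2
        have h2 : Ed H x' p q := by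
          unfold Ed
          rw [← hpq']
          exact hx'.2
        exact off_mat hG hf (Finset.disjoint_left.1 hd hq) (Finset.disjoint_left.1 hd hp) hx.1 hx'.1
          h1.rot h2.rot
    _ = 3 := by rw [Finset.sum_const, h3]; rfl

theorem dg_le (hG : Good X H) {e : Finset V} (he : e ∈ H) (x : V) : dg H e x ≤ 3 := by
  rw [← hG.card3 e he]
  exact Finset.card_filter_le _ _

theorem off_comm (H : Finset (Finset V)) (e f : Finset V) (x : V) :
    off H e f x = off H f e x := by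
  unfold off
  refine Finset.card_nbij' Prod.swap Prod.swap ?_ ?_ ?_ ?_
  · intro q hq
    simp only [Finset.coe_filter, Finset.mem_product, Set.mem_ofPred_eq] at hq ⊢
    refine ⟨⟨hq.1.2, hq.1.1⟩, ?_⟩
    simp only [Prod.fst_swap, Prod.snd_swap]
    rw [Finset.pair_comm]
    exact hq.2
  · intro q hq
    simp only [Finset.coe_filter, Finset.mem_product, Set.mem_ofPred_eq] at hq ⊢
    refine ⟨⟨hq.1.2, hq.1.1⟩, ?_⟩
    simp only [Prod.fst_swap, Prod.snd_swap]
    rw [Finset.pair_comm]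
    exact hq.2
  · intro q _
    exact Prod.swap_swap q
  · intro q _
    exact Prod.swap_swap q

private theorem loc_img (hG : Good X H) {e f : Finset V} (hf : f ∈ H)
    (hd : Disjoint e f) {o : V} (ho' : o ∉ f) :
    off H e f o = (((e ×ˢ f).filter (fun q => ({o, q.1, q.2} : Finset V) ∈ H)).image Prod.fst).card := by
  unfold off
  rw [Finset.card_image_of_injOn]
  rintro ⟨p, x⟩ hp ⟨p', x'⟩ hp' hpp
  simp only [Finset.coe_filter, Finset.mem_product, Set.mem_ofPred_eq] at hp hp'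
  simp only at hpp
  subst hpp
  have := off_mat hG hf (Finset.disjoint_left.1 hd hp.1.1) ho' hp.1.2 hp'.1.2 hp.2 hp'.2
  rw [this]

private theorem loc_mem_img {e f : Finset V} {o p : V}
    (hp : p ∈ ((e ×ˢ f).filter (fun q => ({o, q.1, q.2} : Finset V) ∈ H)).image Prod.fst) :
    p ∈ e ∧ ∃ x ∈ f, Ed H o p x := by
  rw [Finset.mem_image] at hp
  obtain ⟨⟨p', x⟩, h1, rfl⟩ := hp
  rw [Finset.mem_filter, Finset.mem_product] at h1
  exact ⟨h1.1.1, x, h1.1.2, h1.2⟩

theorem off_add_dg (hG : Good X H) {e f : Finset V} (he : e ∈ H) (hf : f ∈ H)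
    (hd : Disjoint e f) {o : V} (ho : o ∉ e) (ho' : o ∉ f) : off H e f o + dg H e o ≤ 3 := by
  rw [loc_img hG hf hd ho']
  unfold dg
  rw [← Finset.card_union_of_disjoint, ← hG.card3 e he]
  · refine Finset.card_le_card ?_
    refine Finset.union_subset ?_ (Finset.filter_subset _ _)
    intro p hp
    exact (loc_mem_img hp).1
  · rw [Finset.disjoint_left]
    intro r hr hr'
    obtain ⟨hre, x, hx, h1⟩ := loc_mem_img hr
    rw [Finset.mem_filter] at hr'
    obtain ⟨p, q, hpq, hp, hq, hpq', -, h2⟩ := loc_split hG he hre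
    have h3 : Ed H o p q := by
      unfold Ed
      rw [← hpq']
      exact hr'.2
    rcases hG.key h3.rot h2 h1 with h | h
    · exact Finset.disjoint_left.1 hd hp (h ▸ hx)
    · exact Finset.disjoint_left.1 hd hq (h ▸ hx)

theorem off_le (hG : Good X H) {e f : Finset V} (he : e ∈ H) (hf : f ∈ H)
    (hd : Disjoint e f) {o : V} (ho : o ∉ e) (ho' : o ∉ f) : off H e f o ≤ 3 :=
  (Nat.le_add_right _ _).trans (off_add_dg hG he hf hd ho ho')

private theorem loc_eq3 (hG : Good X H) {e f : Finset V} (he : e ∈ H) (hf : f ∈ H)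
    (hd : Disjoint e f) {o : V} (ho' : o ∉ f) (h3 : off H e f o = 3) :
    ∀ p ∈ e, ∃ x ∈ f, Ed H o p x := by
  rw [loc_img hG hf hd ho'] at h3
  have hsub : ((e ×ˢ f).filter (fun q => ({o, q.1, q.2} : Finset V) ∈ H)).image Prod.fst ⊆ e :=
    fun p hp => (loc_mem_img hp).1
  have heq := Finset.eq_of_subset_of_card_le hsub (by rw [h3, hG.card3 e he])
  intro p hp
  rw [← heq] at hp
  exact (loc_mem_img hp).2

theorem off_eq3 (hG : Good X H) {e f : Finset V} (he : e ∈ H) (hf : f ∈ H)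
    (hd : Disjoint e f) {o : V} (ho : o ∉ e) (ho' : o ∉ f) (h3 : off H e f o = 3) :
    (∀ p ∈ e, ∃ x ∈ f, Ed H o p x) ∧ (∀ x ∈ f, ∃ p ∈ e, Ed H o p x) := by
  refine ⟨loc_eq3 hG he hf hd ho' h3, ?_⟩
  intro x hx
  obtain ⟨p, hp, h⟩ := loc_eq3 hG hf he hd.symm ho (by rw [← off_comm]; exact h3) x hx
  exact ⟨p, hp, h.swap23⟩

theorem dg_zero_of_off (hG : Good X H) {e f : Finset V} (he : e ∈ H) (hf : f ∈ H)
    (hd : Disjoint e f) {o : V} (ho : o ∉ e) (ho' : o ∉ f) (h3 : off H e f o = 3) :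
    ∑ x ∈ f, dg H e x = 0 := by
  obtain ⟨hA, hB⟩ := off_eq3 hG he hf hd ho ho' h3
  refine Finset.sum_eq_zero fun x hx => ?_
  unfold dg
  rw [Finset.card_eq_zero, Finset.filter_eq_empty_iff]
  intro r hr hr'
  obtain ⟨p, q, hpq, hp, hq, hpq', he', h2⟩ := loc_split hG he hr
  have h4 : Ed H x p q := by
    unfold Ed
    rw [← hpq']
    exact hr'
  have hxe : x ∉ e := Finset.disjoint_right.1 hd hx
  have key : ∀ p q : V, p ∈ e → q ∈ e → p ≠ q → Ed H x p q → ¬ Ed H o p x := by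
    intro p q hp hq hpq h4 h5
    obtain ⟨x', hx', h6⟩ := hA q hq
    rcases hG.key h4.swap12 (h5.rot) h6.swap12 with h | h
    · exact Finset.disjoint_left.1 hd hp (h ▸ hx')
    · subst h
      exact hpq (off_mat hG he hxe ho hp hq h5.swap23 h6.swap23)
  obtain ⟨y, hy, h5⟩ := hB x hx
  rw [he', Finset.mem_insert, Finset.mem_insert, Finset.mem_singleton] at hy
  rcases hy with rfl | rfl | rfl
  · exact key y q hp hq hpq h4 h5
  · exact key y p hq hp hpq.symm h4.swap23 h5
  · rcases hG.key h2 h4.rot h5.rot with h | h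
    · exact ho (h ▸ hp)
    · exact ho (h ▸ hq)

end Pool.Agent.TUR
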