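import Pool.Agent.TUR.DECA
import Pool.Agent.TUR.LOC

/-!
# TUR / DECB : the edges with exactly two uncovered vertices, and the decomposition of `H.card`

`dec_two`: an edge with `|h ∩ O| = 2` is `h = insert x p`, `p ⊆ O` a pair, `x ∈ e ∈ M` (`x ∈ VM M`
since `h ⊆ X`).  So `h` is in the image of `Lk H e O` ... For fixed `e` the edges with
`h ∩ e ≠ ∅, |h ∩ O| = 2` map injectively to `Lk H e O` by `h ↦ h ∩ O` (`lk_color`: `x` is determined
by `p`).
`dec`: put `dec_split`, `dec_one`, `dec_two` together.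
-/

namespace Pool.Agent.TUR

open Finset

variable {V : Type} [DecidableEq V] {X : Finset V} {H M : Finset (Finset V)} {t m : ℕ}


private theorem decb_eq (hG : Good X H) {h : Finset V} (hh : h ∈ H) {O : Finset V}
    (h2 : (h ∩ O).card = 2) {x : V} (hx : x ∈ h) (hxO : x ∉ O) : insert x (h ∩ O) = h := by
  apply Finset.eq_of_subset_of_card_le
  · intro y hy
    rcases Finset.mem_insert.1 hy with rfl | hy
    · exact hx
    · exact (Finset.mem_inter.1 hy).1
  · rw [hG.card3 h hh, Finset.card_insert_of_notMem (fun hx' => hxO (Finset.mem_inter.1 hx').2), h2]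

private theorem decb_e (hC : Cfg X H M t m) {e : Finset V} (he : e ∈ M) :
    (H.filter (fun h => (h ∩ OO X M).card = 2 ∧ ¬ Disjoint h e)).card ≤ (Lk H e (OO X M)).card := by
  apply Finset.card_le_card_of_injOn (fun h => h ∩ OO X M)
  · intro h hh
    obtain ⟨hH, h2, hd⟩ := by simpa using hh
    obtain ⟨x, hxh, hxe⟩ := Finset.not_disjoint_iff.1 hd
    have hxO : x ∉ OO X M := fun hx => (mem_OO.1 hx).2 e he hxe
    have : h ∩ OO X M ∈ Lk H e (OO X M) := by
      rw [mem_Lk]
      exact ⟨Finset.inter_subset_right, h2, x, hxe, by rw [decb_eq hC.good hH h2 hxh hxO]; exact hH⟩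
    simpa using this
  · intro h hh h' hh' heq
    obtain ⟨hH, h2, hd⟩ := by simpa using hh
    obtain ⟨hH', h2', hd'⟩ := by simpa using hh'
    obtain ⟨x, hxh, hxe⟩ := Finset.not_disjoint_iff.1 hd
    obtain ⟨x', hxh', hxe'⟩ := Finset.not_disjoint_iff.1 hd'
    have hxO : x ∉ OO X M := fun hx => (mem_OO.1 hx).2 e he hxe
    have hxO' : x' ∉ OO X M := fun hx => (mem_OO.1 hx).2 e he hxe'
    have e1 := decb_eq hC.good hH h2 hxh hxO
    have e2 := decb_eq hC.good hH' h2' hxh' hxO'
    have heq' : h ∩ OO X M = h' ∩ OO X M := heq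
    rw [← heq'] at e2
    obtain ⟨y, z, hyz, hp⟩ := Finset.card_eq_two.1 h2
    have hy : y ∉ e := by
      have : y ∈ h ∩ OO X M := by rw [hp]; simp
      exact (mem_OO.1 (Finset.mem_inter.1 this).2).2 e he
    have hz : z ∉ e := by
      have : z ∈ h ∩ OO X M := by rw [hp]; simp
      exact (mem_OO.1 (Finset.mem_inter.1 this).2).2 e he
    have f1 : Ed H x y z := by
      unfold Ed
      rw [← hp, e1]; exact hH
    have f2 : Ed H x' y z := by
      unfold Ed
      rw [← hp, e2]; exact hH'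
    have hxx := lk_color hC.good (hC.mat.1 he) hxe hxe' hy hz f1 f2
    rw [← e1, ← e2, hxx]

theorem dec_two (hC : Cfg X H M t m) :
    (H.filter (fun h => (h ∩ OO X M).card = 2)).card ≤ ∑ e ∈ M, (Lk H e (OO X M)).card := by
  have hsub : H.filter (fun h => (h ∩ OO X M).card = 2) ⊆
      M.biUnion (fun e => H.filter (fun h => (h ∩ OO X M).card = 2 ∧ ¬ Disjoint h e)) := by
    intro h hh
    obtain ⟨hH, h2⟩ := Finset.mem_filter.1 hh
    have h3 := hC.good.card3 h hH
    have hex : ∃ x ∈ h, x ∉ OO X M := by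
      by_contra hno
      push Not at hno
      have : h ∩ OO X M = h := Finset.inter_eq_left.2 hno
      rw [this] at h2
      omega
    obtain ⟨x, hxh, hxO⟩ := hex
    have hxX := hC.good.sub h hH hxh
    have hxM : ∃ e ∈ M, x ∈ e := by
      by_contra hno
      push Not at hno
      exact hxO (mem_OO.2 ⟨hxX, hno⟩)
    obtain ⟨e, he, hxe⟩ := hxM
    rw [Finset.mem_biUnion]
    exact ⟨e, he, Finset.mem_filter.2 ⟨hH, h2, Finset.not_disjoint_iff.2 ⟨x, hxh, hxe⟩⟩⟩
  calc (H.filter (fun h => (h ∩ OO X M).card = 2)).card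
      ≤ (M.biUnion (fun e => H.filter (fun h => (h ∩ OO X M).card = 2 ∧ ¬ Disjoint h e))).card :=
        Finset.card_le_card hsub
    _ ≤ ∑ e ∈ M, (H.filter (fun h => (h ∩ OO X M).card = 2 ∧ ¬ Disjoint h e)).card :=
        Finset.card_biUnion_le
    _ ≤ ∑ e ∈ M, (Lk H e (OO X M)).card := Finset.sum_le_sum (fun e he => decb_e hC he)

theorem dec (hC : Cfg X H M t m) :
    2 * H.card ≤ 2 * AA H M +
      ∑ o ∈ OO X M, (2 * ∑ e ∈ M, dg H e o + ∑ q ∈ M.offDiag, off H q.1 q.2 o) +
      2 * ∑ e ∈ M, (Lk H e (OO X M)).card := by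
  have h1 := dec_split hC
  have h2 := dec_one hC
  have h3 := dec_two hC
  rw [h1]
  omega

end Pool.Agent.TUR
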