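import Pool.Agent.TUR.Defs

/-!
# TUR / DEL : minimum degree and edge degree of a minimal counterexample

`exists_max`: every finite family has a maximum matching (e.g. `Finset.exists_max_image` over
`H.powerset.filter (Mat H ·)`, classical; the empty family is a matching).

`min_deg`: let `v ∈ X`, `H' = H.filter (v ∉ ·)`, `X' = X.erase v`; `Good X' H'` (`Good.filter`),
`H'.card + deg H v = H.card`.  Let `M'` be a maximum matching of `H'`, `t' = M'.card`.
`t' ≤ t` (a matching of `H'` is one of `H`), and `t' ≥ t - 1` (remove from `M` the member containing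
`v`, if any).
* `t' = t`: `3t ≤ X'.card` (`Mat.card_VM`), so `m ≥ 1` and `Cfg X' H' M' t (m-1)`.  By `ih2`
  `H'.card ≤ gg t (m-1)`, so `deg H v ≥ gg t m + 1 - gg t (m-1) = t ⌊(2t+m)/2⌋ + 1 = dl t m`
  (`(N)^2/4 - (N-1)^2/4 = N/2`).
* `t' = t-1`: `X'.card = 3(t-1) + (m+2)`, by `ih1` `H'.card ≤ gg (t-1) (m+2) = (t-1) (2t+m)^2/4`, so
  `deg H v ≥ (2t+m)^2/4 + 1 ≥ t ⌊(2t+m)/2⌋ + 1` (`N^2/4 = ⌊N/2⌋⌈N/2⌉`, `⌈N/2⌉ ≥ t` for `N = 2t+m`).

`edge_deg`: `H' = H.filter (Disjoint · e)`, `X' = X \ e` (`3(t-1)+m` vertices, `e ⊆ X`),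
`M' = M.erase e` is a matching of `H'` and it is maximum: a matching of `H'` of size `≥ t` together
with `e` is a matching of `H` of size `≥ t+1`.  So `H'.card ≤ gg (t-1) m`;
`H.card = H'.card + meet H e`.
-/

namespace Pool.Agent.TUR

open Finset

variable {V : Type} [DecidableEq V] {X : Finset V} {H M : Finset (Finset V)} {t m : ℕ}

theorem exists_max (H : Finset (Finset V)) :
    ∃ M : Finset (Finset V), Mat H M ∧ ∀ M' : Finset (Finset V), Mat H M' → M'.card ≤ M.card := by
  classical
  obtain ⟨M, hM, hmax⟩ := Finset.exists_max_image (H.powerset.filter fun M => Mat H M) Finset.card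
    ⟨∅, by
      rw [Finset.mem_filter]
      refine ⟨Finset.empty_mem_powerset _, Finset.empty_subset _, ?_⟩
      intro e he
      simp at he⟩
  rw [Finset.mem_filter] at hM
  refine ⟨M, hM.2, fun M' hM' => hmax M' ?_⟩
  rw [Finset.mem_filter, Finset.mem_powerset]
  exact ⟨hM'.1, hM'⟩

private lemma del_sub {H H' M : Finset (Finset V)} (h : H' ⊆ H) (hM : Mat H' M) : Mat H M :=
  ⟨hM.1.trans h, hM.2⟩

private lemma del_arith1 (t m : ℕ) (hm : 1 ≤ m) : gg t m + 1 = gg t (m - 1) + dl t m := by
  obtain ⟨m, rfl⟩ : ∃ k, m = k + 1 := ⟨m - 1, by omega⟩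
  unfold gg dl
  have h1 : (2 * t + (m + 1)) ^ 2 / 4 = (2 * t + m) ^ 2 / 4 + (2 * t + (m + 1)) / 2 := by
    rcases Nat.even_or_odd' m with ⟨k, hk | hk⟩
    · subst hk
      have e1 : (2 * t + (2 * k + 1)) ^ 2 = 4 * ((t + k) ^ 2 + (t + k)) + 1 := by ring
      have e2 : (2 * t + 2 * k) ^ 2 = 4 * (t + k) ^ 2 := by ring
      rw [e1, e2]
      omega
    · subst hk
      have e1 : (2 * t + (2 * k + 1 + 1)) ^ 2 = 4 * ((t + k) ^ 2 + (t + k) + (t + k + 1)) := by ring
      have e2 : (2 * t + (2 * k + 1)) ^ 2 = 4 * ((t + k) ^ 2 + (t + k)) + 1 := by ring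
      rw [e1, e2]
      omega
  have h2 : (2 * t + (m + 1)) / 2 = t + (m + 1) / 2 := by omega
  rw [Nat.add_sub_cancel, h1, h2, Nat.mul_add, Nat.mul_add]
  omega

private lemma del_arith2 (t m : ℕ) (ht : 1 ≤ t) : gg t m + 1 = gg (t - 1) (m + 2) + ((2 * t + m) ^ 2 / 4 + 1) := by
  obtain ⟨t, rfl⟩ : ∃ k, t = k + 1 := ⟨t - 1, by omega⟩
  unfold gg
  have e1 : 2 * (t + 1 - 1) + (m + 2) = 2 * (t + 1) + m := by omega
  rw [e1, Nat.add_sub_cancel, Nat.add_mul]
  omega

private lemma del_arith3 (t m : ℕ) : dl t m ≤ (2 * t + m) ^ 2 / 4 + 1 := by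
  unfold dl
  rcases Nat.even_or_odd' m with ⟨k, hk | hk⟩
  · subst hk
    have e1 : (2 * t + 2 * k) ^ 2 = 4 * (t * t + 2 * (t * k) + k * k) := by ring
    have e2 : 2 * k / 2 = k := by omega
    rw [e1, e2]
    have : 4 * (t * t + 2 * (t * k) + k * k) / 4 = t * t + 2 * (t * k) + k * k := by omega
    rw [this]
    have := Nat.zero_le (t * k)
    have := Nat.zero_le (k * k)
    omega
  · subst hk
    have e1 : (2 * t + (2 * k + 1)) ^ 2 = 4 * (t * t + 2 * (t * k) + k * k + t + k) + 1 := by ring
    have e2 : (2 * k + 1) / 2 = k := by omega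
    rw [e1, e2]
    have : (4 * (t * t + 2 * (t * k) + k * k + t + k) + 1) / 4 = t * t + 2 * (t * k) + k * k + t + k := by omega
    rw [this]
    have := Nat.zero_le (t * k)
    have := Nat.zero_le (k * k)
    omega

theorem min_deg (hC : Cfg X H M t m) (ht : 1 ≤ t) (ih1 : PS V (t - 1) (m + 2))
    (ih2 : 1 ≤ m → PS V t (m - 1)) (hbig : gg t m < H.card) : ∀ v ∈ X, dl t m ≤ deg H v := by
  intro v hv
  set H' : Finset (Finset V) := H.filter fun h => v ∉ h with hH'
  have hsub : H' ⊆ H := Finset.filter_subset _ _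
  have hG' : Good (X.erase v) H' := hC.good.filter (fun h => v ∉ h) (by
    intro h hh hvh x hx
    exact Finset.mem_erase.2 ⟨fun hxv => hvh (hxv ▸ hx), hC.good.sub h hh hx⟩)
  have hcard : H'.card + deg H v = H.card := by
    have := Finset.card_filter_add_card_filter_not (s := H) (p := fun h => v ∈ h)
    change deg H v + H'.card = H.card at this
    omega
  obtain ⟨M', hM', hmax'⟩ := exists_max H'
  have hle : M'.card ≤ t := hC.max M' (del_sub hsub hM')
  have hge : t ≤ M'.card + 1 := by
    have hMf : Mat H' (M.filter fun e => v ∉ e) := by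
      refine ⟨fun e he => ?_, fun e he f hf hef => ?_⟩
      · rw [Finset.mem_filter] at he
        exact Finset.mem_filter.2 ⟨hC.mat.1 he.1, he.2⟩
      · rw [Finset.mem_filter] at he hf
        exact hC.mat.2 e he.1 f hf.1 hef
    have h1 := hmax' _ hMf
    have h2 := Finset.card_filter_add_card_filter_not (s := M) (p := fun h => v ∈ h)
    have h3 : (M.filter fun e => v ∈ e).card ≤ 1 := by
      rw [Finset.card_le_one]
      intro e he f hf
      rw [Finset.mem_filter] at he hf
      by_contra hef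
      exact (Finset.disjoint_left.1 (hC.mat.2 e he.1 f hf.1 hef)) he.2 hf.2
    have h4 := hC.cardM
    omega
  have hXc : (X.erase v).card = 3 * t + m - 1 := by
    rw [Finset.card_erase_of_mem hv, hC.cardX]
  have hcase : M'.card = t ∨ M'.card = t - 1 := by omega
  rcases hcase with hc | hc
  · have h3t : 3 * t ≤ (X.erase v).card := by
      have h1 := hM'.card_VM hG'
      have h2 : (VM M').card ≤ (X.erase v).card := by
        apply Finset.card_le_card
        intro x hx
        obtain ⟨e, he, hxe⟩ := mem_VM.1 hx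
        exact hG'.sub e (hM'.1 he) hxe
      rw [hc] at h1
      omega
    have hm : 1 ≤ m := by omega
    have hC' : Cfg (X.erase v) H' M' t (m - 1) :=
      ⟨hG', hM', hc, fun M'' hM'' => hc ▸ hmax' M'' hM'', by omega⟩
    have h1 := ih2 hm _ _ _ hC'
    have h2 := del_arith1 t m hm
    omega
  · have hC' : Cfg (X.erase v) H' M' (t - 1) (m + 2) :=
      ⟨hG', hM', hc, fun M'' hM'' => hc ▸ hmax' M'' hM'', by omega⟩
    have h1 := ih1 _ _ _ hC'
    have h2 := del_arith2 t m ht
    have h3 := del_arith3 t m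
    omega

theorem edge_deg (hC : Cfg X H M t m) {e : Finset V} (he : e ∈ M) (ih : PS V (t - 1) m)
    (hbig : gg t m < H.card) : gg t m + 1 ≤ gg (t - 1) m + meet H e := by
  set H' : Finset (Finset V) := H.filter fun h => Disjoint h e with hH'
  have hsub : H' ⊆ H := Finset.filter_subset _ _
  have e3 := hC.card_e he
  have heX := hC.good.sub e (hC.mat.1 he)
  have hG' : Good (X \ e) H' := hC.good.filter (fun h => Disjoint h e) (by
    intro h hh hd x hx
    exact Finset.mem_sdiff.2 ⟨hC.good.sub h hh hx, fun hxe => (Finset.disjoint_left.1 hd) hx hxe⟩)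
  have hcard : H'.card + meet H e = H.card := by
    have := Finset.card_filter_add_card_filter_not (s := H) (p := fun h => Disjoint h e)
    change H'.card + meet H e = H.card at this
    exact this
  have ht1 : 1 ≤ t := by
    rw [← hC.cardM]
    exact Finset.card_pos.2 ⟨e, he⟩
  have hXc : (X \ e).card = 3 * t + m - 3 := by
    rw [Finset.card_sdiff_of_subset heX, hC.cardX, e3]
  have hne : e.Nonempty := Finset.card_pos.1 (by omega)
  have hM' : Mat H' (M.erase e) := by
    refine ⟨fun f hf => ?_, fun f hf g hg hfg => ?_⟩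
    · rw [Finset.mem_erase] at hf
      exact Finset.mem_filter.2 ⟨hC.mat.1 hf.2, hC.mat.2 f hf.2 e he hf.1⟩
    · rw [Finset.mem_erase] at hf hg
      exact hC.mat.2 f hf.2 g hg.2 hfg
  have hC' : Cfg (X \ e) H' (M.erase e) (t - 1) m := by
    refine ⟨hG', hM', ?_, ?_, by omega⟩
    · rw [Finset.card_erase_of_mem he, hC.cardM]
    · intro M'' hM''
      have hnot : e ∉ M'' := by
        intro h
        have := (Finset.mem_filter.1 (hM''.1 h)).2
        rw [disjoint_self] at this
        exact hne.ne_empty this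
      have hins : Mat H (insert e M'') := by
        refine ⟨fun f hf => ?_, fun f hf g hg hfg => ?_⟩
        · rcases Finset.mem_insert.1 hf with hf1 | hf1
          · rw [hf1]; exact hC.mat.1 he
          · exact hsub (hM''.1 hf1)
        · rcases Finset.mem_insert.1 hf with hf1 | hf1
          · rcases Finset.mem_insert.1 hg with hg1 | hg1
            · exact absurd (hf1.trans hg1.symm) hfg
            · rw [hf1]; exact ((Finset.mem_filter.1 (hM''.1 hg1)).2).symm
          · rcases Finset.mem_insert.1 hg with hg1 | hg1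
            · rw [hg1]; exact (Finset.mem_filter.1 (hM''.1 hf1)).2
            · exact hM''.2 f hf1 g hg1 hfg
      have := hC.max _ hins
      rw [Finset.card_insert_of_notMem hnot] at this
      omega
  have h1 := ih _ _ _ hC'
  omega

end Pool.Agent.TUR
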