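import Pool.Agent.TUR.LOC

/-!
# TUR / DUB : number of edges meeting an edge `e`

`e ∈ H`.  Every `h ∈ H` meeting `e` has `|h ∩ e| ∈ {1,2,3}` (and `h ⊆ X`, `h.card = 3`).
* `|h ∩ e| = 3`: `h = e`.  One edge.
* `|h ∩ e| = 2`: `h = insert x (e.erase r)` with `x ∈ X \ e`, `r ∈ e`; the number of these is at most
  the number of pairs `(x,r)`, which is `∑ x ∈ X \ e, dg H e x` (the map `h ↦ (x,r)` is injective;
  or: the family is contained in a `biUnion` of images).
* `|h ∩ e| = 1`: `h = {p,x,y}` with `p ∈ e` and `{x,y} ∈ Lk H e (X \ e)`; the map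
  `h ↦ h \ e` is injective by `lk_color` and has values in `Lk H e (X \ e)`.
-/

namespace Pool.Agent.TUR

open Finset

variable {V : Type} [DecidableEq V] {X : Finset V} {H : Finset (Finset V)}

private lemma dub_two {h e : Finset V} (h3 : h.card = 3) (e3 : e.card = 3) (h2 : (h ∩ e).card = 2) :
    ∃ x r, x ∈ h ∧ x ∉ e ∧ r ∈ e ∧ h = insert x (e.erase r) := by
  have c1 : (h \ e).card = 1 := by
    have := Finset.card_sdiff_add_card_inter h e
    omega
  have c2 : (e \ h).card = 1 := by
    have := Finset.card_sdiff_add_card_inter e h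
    rw [Finset.inter_comm] at this
    omega
  obtain ⟨x, hx⟩ := Finset.card_eq_one.1 c1
  obtain ⟨r, hr⟩ := Finset.card_eq_one.1 c2
  have hx' : x ∈ h \ e := by rw [hx]; exact Finset.mem_singleton_self x
  have hr' : r ∈ e \ h := by rw [hr]; exact Finset.mem_singleton_self r
  rw [Finset.mem_sdiff] at hx' hr'
  refine ⟨x, r, hx'.1, hx'.2, hr'.1, ?_⟩
  ext y
  rw [Finset.mem_insert, Finset.mem_erase]
  constructor
  · intro hy
    by_cases hye : y ∈ e
    · right
      refine ⟨?_, hye⟩
      rintro rfl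
      exact hr'.2 hy
    · left
      have : y ∈ h \ e := Finset.mem_sdiff.2 ⟨hy, hye⟩
      rw [hx] at this
      exact Finset.mem_singleton.1 this
  · rintro (rfl | ⟨hyr, hye⟩)
    · exact hx'.1
    · by_contra hyh
      have : y ∈ e \ h := Finset.mem_sdiff.2 ⟨hye, hyh⟩
      rw [hr] at this
      exact hyr (Finset.mem_singleton.1 this)

private lemma dub_one {h e : Finset V} (h3 : h.card = 3) (h2 : (h ∩ e).card = 1) :
    ∃ p a b, p ∈ e ∧ a ∉ e ∧ b ∉ e ∧ a ≠ b ∧ h \ e = {a, b} ∧ h = {p, a, b} := by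
  have c1 : (h \ e).card = 2 := by
    have := Finset.card_sdiff_add_card_inter h e
    omega
  obtain ⟨a, b, hab, hx⟩ := Finset.card_eq_two.1 c1
  obtain ⟨p, hp⟩ := Finset.card_eq_one.1 h2
  have hp' : p ∈ h ∩ e := by rw [hp]; exact Finset.mem_singleton_self p
  have ha : a ∈ h \ e := by rw [hx]; simp
  have hb : b ∈ h \ e := by rw [hx]; simp
  refine ⟨p, a, b, (Finset.mem_inter.1 hp').2, (Finset.mem_sdiff.1 ha).2, (Finset.mem_sdiff.1 hb).2,
    hab, hx, ?_⟩
  rw [← Finset.sdiff_union_inter h e, hx, hp]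
  ext y
  simp only [Finset.mem_union, Finset.mem_insert, Finset.mem_singleton]
  tauto

theorem dub (hG : Good X H) {e : Finset V} (he : e ∈ H) :
    meet H e ≤ 1 + ∑ x ∈ X \ e, dg H e x + (Lk H e (X \ e)).card := by
  have e3 := hG.card3 e he
  set S2 : Finset (Finset V) := (X \ e).biUnion fun x =>
    (e.filter (fun r => insert x (e.erase r) ∈ H)).image fun r => insert x (e.erase r) with hS2
  set A3 : Finset (Finset V) := H.filter fun h => (h ∩ e).card = 1 with hA3
  have hcov : H.filter (fun h => ¬ Disjoint h e) ⊆ ({e} ∪ S2) ∪ A3 := by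
    intro h hh
    rw [Finset.mem_filter] at hh
    obtain ⟨hH, hd⟩ := hh
    have h3 := hG.card3 h hH
    have hpos : 0 < (h ∩ e).card := by
      rw [Finset.card_pos]
      exact Finset.not_disjoint_iff_nonempty_inter.1 hd
    have hle : (h ∩ e).card ≤ 3 := h3 ▸ Finset.card_le_card Finset.inter_subset_left
    rw [Finset.mem_union, Finset.mem_union]
    have hcases : (h ∩ e).card = 1 ∨ (h ∩ e).card = 2 ∨ (h ∩ e).card = 3 := by omega
    rcases hcases with hc | hc | hc
    · right
      exact Finset.mem_filter.2 ⟨hH, hc⟩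
    · left; right
      obtain ⟨x, r, hxh, hxe, hre, heq⟩ := dub_two h3 e3 hc
      rw [hS2, Finset.mem_biUnion]
      refine ⟨x, Finset.mem_sdiff.2 ⟨hG.sub h hH hxh, hxe⟩, ?_⟩
      rw [Finset.mem_image]
      refine ⟨r, Finset.mem_filter.2 ⟨hre, ?_⟩, heq.symm⟩
      rw [← heq]
      exact hH
    · left; left
      rw [Finset.mem_singleton]
      have e1 : h ∩ e = h := Finset.eq_of_subset_of_card_le Finset.inter_subset_left (by omega)
      have e2 : h ∩ e = e := Finset.eq_of_subset_of_card_le Finset.inter_subset_right (by omega)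
      exact e1.symm.trans e2
  have c2 : S2.card ≤ ∑ x ∈ X \ e, dg H e x := by
    rw [hS2]
    refine Finset.card_biUnion_le.trans (Finset.sum_le_sum fun x _ => ?_)
    exact Finset.card_image_le
  have c3 : A3.card ≤ (Lk H e (X \ e)).card := by
    refine Finset.card_le_card_of_injOn (fun h => h \ e) ?_ ?_
    · intro h hh
      have hh' := Finset.mem_filter.1 hh
      obtain ⟨p, a, b, hp, ha, hb, hab, hd, heq⟩ := dub_one (hG.card3 h hh'.1) hh'.2
      show h \ e ∈ Lk H e (X \ e)
      rw [hd, pair_mem_Lk hab]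
      have hX := hG.sub h hh'.1
      have hEd : Ed H p a b := by
        unfold Ed
        rw [← heq]
        exact hh'.1
      obtain ⟨m1, m2, m3⟩ := hG.mem hEd
      exact ⟨Finset.mem_sdiff.2 ⟨m2, ha⟩, Finset.mem_sdiff.2 ⟨m3, hb⟩, p, hp, hEd⟩
    · intro h hh h' hh' hhh
      have k := Finset.mem_filter.1 hh
      have k' := Finset.mem_filter.1 hh'
      obtain ⟨p, a, b, hp, ha, hb, hab, hd, heq⟩ := dub_one (hG.card3 h k.1) k.2
      obtain ⟨q, a', b', hq, ha', hb', hab', hd', heq'⟩ := dub_one (hG.card3 h' k'.1) k'.2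
      have hsd : h \ e = h' \ e := hhh
      have hEd : Ed H p a b := by
        unfold Ed
        rw [← heq]
        exact k.1
      have heq2 : h' = {q, a, b} := by
        rw [heq']
        have : ({a', b'} : Finset V) = {a, b} := by rw [← hd', ← hsd, hd]
        rw [this]
      have hEd' : Ed H q a b := by
        unfold Ed
        rw [← heq2]
        exact k'.1
      have hpq := lk_color hG he hp hq ha hb hEd hEd'
      rw [heq, heq2, hpq]
  calc meet H e ≤ (({e} ∪ S2) ∪ A3).card := Finset.card_le_card hcov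
    _ ≤ ({e} ∪ S2).card + A3.card := Finset.card_union_le _ _
    _ ≤ (({e} : Finset (Finset V)).card + S2.card) + A3.card :=
        Nat.add_le_add_right (Finset.card_union_le _ _) _
    _ ≤ 1 + ∑ x ∈ X \ e, dg H e x + (Lk H e (X \ e)).card := by
        rw [Finset.card_singleton]
        omega

end Pool.Agent.TUR
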