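import Mathlib

/-!
Project TUR (MP_e17149_co): definitions.

A 3-graph is a finite family `H` of 3-element subsets of a vertex set `X`.
-/

namespace Pool.Agent.TUR

open Finset

variable {V : Type} [DecidableEq V]

/-- No generalised triangle: no `abc, abd, cde` with five distinct vertices. -/
def F5Free (H : Finset (Finset V)) : Prop :=
  ∀ a b c d e : V, a ≠ b → a ≠ c → a ≠ d → a ≠ e → b ≠ c → b ≠ d → b ≠ e →
    c ≠ d → c ≠ e → d ≠ e →
    ({a, b, c} : Finset V) ∈ H → ({a, b, d} : Finset V) ∈ H →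
    ({c, d, e} : Finset V) ∈ H → False

/-- `H` is an `F5`-free 3-graph on the vertex set `X`. -/
structure Good (X : Finset V) (H : Finset (Finset V)) : Prop where
  card3 : ∀ h ∈ H, h.card = 3
  sub : ∀ h ∈ H, h ⊆ X
  f5 : F5Free H

/-- `abc` is an edge. -/
def Ed (H : Finset (Finset V)) (a b c : V) : Prop := ({a, b, c} : Finset V) ∈ H

/-- `M` is a matching of `H`. -/
def Mat (H M : Finset (Finset V)) : Prop :=
  M ⊆ H ∧ ∀ e ∈ M, ∀ f ∈ M, e ≠ f → Disjoint e f

/-- `M` is a maximum matching, of size `t`, of the `F5`-free 3-graph `H` on `3t+m` vertices. -/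
structure Cfg (X : Finset V) (H M : Finset (Finset V)) (t m : ℕ) : Prop where
  good : Good X H
  mat : Mat H M
  cardM : M.card = t
  max : ∀ M' : Finset (Finset V), Mat H M' → M'.card ≤ t
  cardX : X.card = 3 * t + m

/-- vertices of a matching (or of any family) -/
def VM (M : Finset (Finset V)) : Finset V := M.biUnion id

/-- vertices not covered by the matching -/
def OO (X : Finset V) (M : Finset (Finset V)) : Finset V := X \ VM M

/-- degree of a vertex -/
def deg (H : Finset (Finset V)) (v : V) : ℕ := (H.filter (fun h => v ∈ h)).card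

/-- number of edges meeting the set `S` -/
def meet (H : Finset (Finset V)) (S : Finset V) : ℕ := (H.filter (fun h => ¬ Disjoint h S)).card

/-- number of edges of `H` consisting of `x` and two vertices of `e` (for `e.card = 3`, `x ∉ e`) -/
def dg (H : Finset (Finset V)) (e : Finset V) (x : V) : ℕ :=
  (e.filter (fun r => insert x (e.erase r) ∈ H)).card

/-- number of edges consisting of `x`, a vertex of `e` and a vertex of `f` -/
def off (H : Finset (Finset V)) (e f : Finset V) (x : V) : ℕ :=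
  ((e ×ˢ f).filter (fun q => ({x, q.1, q.2} : Finset V) ∈ H)).card

/-- the pairs in `W` forming an edge with some vertex of `e` -/
def Lk (H : Finset (Finset V)) (e W : Finset V) : Finset (Finset V) :=
  (W.powersetCard 2).filter (fun p => ∃ x ∈ e, insert x p ∈ H)

/-- number of edges inside the vertex set of `M` -/
def AA (H M : Finset (Finset V)) : ℕ := (H.filter (fun h => h ⊆ VM M)).card

/-- ordered pairs of members of `M'` for which some uncovered vertex `o` (with respect to `M`)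
has `off = 3` -/
def Gam (X : Finset V) (H M M' : Finset (Finset V)) : Finset (Finset V × Finset V) :=
  M'.offDiag.filter (fun q => ∃ o ∈ OO X M, off H q.1 q.2 o = 3)

/-- number of vertices `o` in `O` with `dg H e o = 0` -/
def zE (H : Finset (Finset V)) (e O : Finset V) : ℕ := (O.filter (fun o => dg H e o = 0)).card

/-- number of members `e` of `M` with `dg H e o = 0` -/
def zO (H M : Finset (Finset V)) (o : V) : ℕ := (M.filter (fun e => dg H e o = 0)).card

/-- weight of an `off` value -/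
def yy (k : ℕ) : ℤ := if k = 3 then 3 else (k : ℤ) - 2

/-- the graph `E` (a family of pairs) has no `K_4` -/
def NoK4 (E : Finset (Finset V)) : Prop :=
  ∀ w1 w2 w3 w4 : V, w1 ≠ w2 → w1 ≠ w3 → w1 ≠ w4 → w2 ≠ w3 → w2 ≠ w4 → w3 ≠ w4 →
    ({w1, w2} : Finset V) ∈ E → ({w1, w3} : Finset V) ∈ E → ({w1, w4} : Finset V) ∈ E →
    ({w2, w3} : Finset V) ∈ E → ({w2, w4} : Finset V) ∈ E → ({w3, w4} : Finset V) ∈ E → False

/-- the graph `E` (a family of pairs) has no triangle -/
def NoK3 (E : Finset (Finset V)) : Prop :=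
  ∀ x y z : V, x ≠ y → x ≠ z → y ≠ z →
    ({x, y} : Finset V) ∈ E → ({x, z} : Finset V) ∈ E → ({y, z} : Finset V) ∈ E → False

/-- `w1 w2 w3 w4` span a `K_4` in the link of `a` -/
structure Mono (H : Finset (Finset V)) (a w1 w2 w3 w4 : V) : Prop where
  nd : [a, w1, w2, w3, w4].Nodup
  e12 : Ed H a w1 w2
  e13 : Ed H a w1 w3
  e14 : Ed H a w1 w4
  e23 : Ed H a w2 w3
  e24 : Ed H a w2 w4
  e34 : Ed H a w3 w4

/-- the seven lines of a Fano plane -/
structure Fano (H : Finset (Finset V)) (a b c w1 w2 w3 w4 : V) : Prop where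
  nd : [a, b, c, w1, w2, w3, w4].Nodup
  abc : Ed H a b c
  a12 : Ed H a w1 w2
  a34 : Ed H a w3 w4
  b13 : Ed H b w1 w3
  b24 : Ed H b w2 w4
  c14 : Ed H c w1 w4
  c23 : Ed H c w2 w3

/-- the extremal number `t ⌊(n-t)^2/4⌋` with `n = 3t+m` -/
def gg (t m : ℕ) : ℕ := t * ((2 * t + m) ^ 2 / 4)

/-- the minimum degree of a minimal counterexample -/
def dl (t m : ℕ) : ℕ := t * t + t * (m / 2) + 1

/-- the dense region -/
def Rg (t m : ℕ) : Prop :=
  m ≤ 8 ∨ (m * m / 4 + 5 < 2 * m + 2 * t ∧ ¬ (t = 5 ∧ m = 9) ∧ ¬ (t = 7 ∧ m = 11) ∧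
    ¬ (t = 8 ∧ m = 11))

/-- the main statement for matching number `t` and `3t+m` vertices -/
def PS (V : Type) [DecidableEq V] (t m : ℕ) : Prop :=
  ∀ (X : Finset V) (H M : Finset (Finset V)), Cfg X H M t m → H.card ≤ gg t m

/-! ### basic API -/

theorem Ed.swap12 {H : Finset (Finset V)} {a b c : V} (h : Ed H a b c) : Ed H b a c := by
  unfold Ed at *; rwa [Finset.insert_comm]

theorem Ed.swap23 {H : Finset (Finset V)} {a b c : V} (h : Ed H a b c) : Ed H a c b := by
  unfold Ed at *; rwa [Finset.pair_comm]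

theorem Ed.rot {H : Finset (Finset V)} {a b c : V} (h : Ed H a b c) : Ed H b c a :=
  h.swap12.swap23

theorem Ed.rot' {H : Finset (Finset V)} {a b c : V} (h : Ed H a b c) : Ed H c a b :=
  h.rot.rot

theorem Ed.swap13 {H : Finset (Finset V)} {a b c : V} (h : Ed H a b c) : Ed H c b a :=
  h.rot.swap12

theorem card_three_iff_ne {a b c : V} (h : ({a, b, c} : Finset V).card = 3) :
    a ≠ b ∧ a ≠ c ∧ b ≠ c := by
  refine ⟨?_, ?_, ?_⟩
  · rintro rfl
    have : ({a, a, c} : Finset V).card ≤ 2 := by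
      rw [Finset.insert_eq_of_mem (by simp)]; exact Finset.card_le_two
    omega
  · rintro rfl
    have : ({a, b, a} : Finset V).card ≤ 2 := by
      rw [Finset.insert_eq_of_mem (by simp)]; exact Finset.card_le_two
    omega
  · rintro rfl
    have : ({a, b, b} : Finset V).card ≤ 2 := by
      rw [Finset.insert_eq_of_mem (a := b) (by simp)]; exact Finset.card_le_two
    omega

theorem Good.ne {X : Finset V} {H : Finset (Finset V)} (hG : Good X H) {a b c : V}
    (h : Ed H a b c) : a ≠ b ∧ a ≠ c ∧ b ≠ c :=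
  card_three_iff_ne (hG.card3 _ h)

theorem Good.mem {X : Finset V} {H : Finset (Finset V)} (hG : Good X H) {a b c : V}
    (h : Ed H a b c) : a ∈ X ∧ b ∈ X ∧ c ∈ X := by
  have := hG.sub _ h
  refine ⟨this ?_, this ?_, this ?_⟩ <;> simp

/-- The key local rule: if `abc, abd` are edges then every edge `cde` has
`e = a` or `e = b`. -/
theorem Good.key {X : Finset V} {H : Finset (Finset V)} (hG : Good X H) {a b c d e : V}
    (h1 : Ed H a b c) (h2 : Ed H a b d) (h3 : Ed H c d e) : e = a ∨ e = b := by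
  by_contra hne
  rw [not_or] at hne
  obtain ⟨n1, n2, n3⟩ := hG.ne h1
  obtain ⟨n4, n5, n6⟩ := hG.ne h2
  obtain ⟨n7, n8, n9⟩ := hG.ne h3
  exact hG.f5 a b c d e n1 n2 n5 (Ne.symm hne.1) n3 n6 (Ne.symm hne.2) n7 n8 n9 h1 h2 h3

theorem Good.exists_eq {X : Finset V} {H : Finset (Finset V)} (hG : Good X H) {h : Finset V}
    (hh : h ∈ H) : ∃ a b c : V, a ≠ b ∧ a ≠ c ∧ b ≠ c ∧ h = {a, b, c} := by
  obtain ⟨a, b, c, h1, h2, h3, h4⟩ := Finset.card_eq_three.1 (hG.card3 h hh)
  exact ⟨a, b, c, h1, h2, h3, h4⟩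

theorem mem_VM {M : Finset (Finset V)} {x : V} : x ∈ VM M ↔ ∃ e ∈ M, x ∈ e := by
  simp [VM]

theorem subset_VM {M : Finset (Finset V)} {e : Finset V} (he : e ∈ M) : e ⊆ VM M := by
  intro x hx; exact mem_VM.2 ⟨e, he, hx⟩

theorem mem_OO {X : Finset V} {M : Finset (Finset V)} {x : V} :
    x ∈ OO X M ↔ x ∈ X ∧ ∀ e ∈ M, x ∉ e := by
  simp only [OO, Finset.mem_sdiff, mem_VM, not_exists, not_and]

theorem Cfg.card_e {X : Finset V} {H M : Finset (Finset V)} {t m : ℕ} (hC : Cfg X H M t m)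
    {e : Finset V} (he : e ∈ M) : e.card = 3 := hC.good.card3 e (hC.mat.1 he)

theorem Mat.card_VM {X : Finset V} {H M : Finset (Finset V)} (hG : Good X H) (hM : Mat H M) :
    (VM M).card = 3 * M.card := by
  unfold VM
  rw [Finset.card_biUnion]
  · rw [Finset.sum_congr rfl (fun e he => (by simpa using hG.card3 e (hM.1 he) :
      (id e : Finset V).card = 3))]
    simp [mul_comm]
  · intro e he f hf hef
    exact hM.2 e he f hf hef

theorem Cfg.card_VM {X : Finset V} {H M : Finset (Finset V)} {t m : ℕ} (hC : Cfg X H M t m) :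
    (VM M).card = 3 * t := by
  rw [hC.mat.card_VM hC.good, hC.cardM]

theorem Cfg.VM_sub {X : Finset V} {H M : Finset (Finset V)} {t m : ℕ} (hC : Cfg X H M t m) :
    VM M ⊆ X := by
  intro x hx
  obtain ⟨e, he, hxe⟩ := mem_VM.1 hx
  exact hC.good.sub e (hC.mat.1 he) hxe

theorem Cfg.card_OO {X : Finset V} {H M : Finset (Finset V)} {t m : ℕ} (hC : Cfg X H M t m) :
    (OO X M).card = m := by
  unfold OO
  rw [Finset.card_sdiff_of_subset hC.VM_sub, hC.cardX, hC.card_VM]
  omega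

theorem Mat.subset {H M M' : Finset (Finset V)} (hM : Mat H M) (h : M' ⊆ M) : Mat H M' :=
  ⟨h.trans hM.1, fun e he f hf hef => hM.2 e (h he) f (h hf) hef⟩

theorem mem_Lk {H : Finset (Finset V)} {e W p : Finset V} :
    p ∈ Lk H e W ↔ p ⊆ W ∧ p.card = 2 ∧ ∃ x ∈ e, insert x p ∈ H := by
  simp only [Lk, Finset.mem_filter, Finset.mem_powersetCard, and_assoc]

theorem pair_mem_Lk {H : Finset (Finset V)} {e W : Finset V} {x y : V} (hxy : x ≠ y) :
    ({x, y} : Finset V) ∈ Lk H e W ↔ x ∈ W ∧ y ∈ W ∧ ∃ p ∈ e, Ed H p x y := by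
  rw [mem_Lk]
  constructor
  · rintro ⟨h1, -, p, hp, h⟩
    exact ⟨h1 (by simp), h1 (by simp), p, hp, h⟩
  · rintro ⟨h1, h2, p, hp, h⟩
    refine ⟨?_, Finset.card_pair hxy, p, hp, h⟩
    intro z hz
    rw [Finset.mem_insert, Finset.mem_singleton] at hz
    rcases hz with rfl | rfl
    · exact h1
    · exact h2

theorem Lk_mono {H : Finset (Finset V)} {e W W' : Finset V} (h : W ⊆ W') :
    Lk H e W ⊆ Lk H e W' := by
  intro p hp
  rw [mem_Lk] at *
  exact ⟨hp.1.trans h, hp.2⟩

theorem NoK4.mono {E E' : Finset (Finset V)} (h : NoK4 E') (hE : E ⊆ E') : NoK4 E :=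
  fun w1 w2 w3 w4 a b c d e f h1 h2 h3 h4 h5 h6 =>
    h w1 w2 w3 w4 a b c d e f (hE h1) (hE h2) (hE h3) (hE h4) (hE h5) (hE h6)

theorem Good.filter {X Y : Finset V} {H : Finset (Finset V)} (hG : Good X H)
    (P : Finset V → Prop) [DecidablePred P] (hP : ∀ h ∈ H, P h → h ⊆ Y) :
    Good Y (H.filter P) where
  card3 := fun h hh => hG.card3 h (Finset.mem_filter.1 hh).1
  sub := fun h hh => hP h (Finset.mem_filter.1 hh).1 (Finset.mem_filter.1 hh).2
  f5 := fun a b c d e n1 n2 n3 n4 n5 n6 n7 n8 n9 n10 h1 h2 h3 =>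
    hG.f5 a b c d e n1 n2 n3 n4 n5 n6 n7 n8 n9 n10 (Finset.mem_filter.1 h1).1
      (Finset.mem_filter.1 h2).1 (Finset.mem_filter.1 h3).1

theorem gg_eq (t m : ℕ) : gg t m = t ^ 3 + t ^ 2 * m + t * (m ^ 2 / 4) := by
  unfold gg
  have h : (2 * t + m) ^ 2 = 4 * (t ^ 2 + t * m) + m ^ 2 := by ring
  rw [h, Nat.mul_add_div (by norm_num)]
  ring

end Pool.Agent.TUR
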