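import Pool.Agent.TUR.AUG
import Pool.Agent.TUR.LOC

/-!
# TUR / EML : a member of `M` with two non-empty links in `O`

`e ∈ M`, `O = OO X M`, `F = Lk H e O`; every pair of `F` has a unique colour in `e` (`lk_color`).
Two pairs of different colours intersect, and a triangle with two edges of the same colour is
monochromatic.  If `F` has two disjoint pairs, they have the same colour and a pair of another
colour connects them; otherwise `F` is a star or a triangle.
-/

namespace Pool.Agent.TUR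

open Finset

variable {V : Type} [DecidableEq V] {X : Finset V} {H M : Finset (Finset V)} {t m : ℕ}

theorem eml_cross (hC : Cfg X H M t m) {e : Finset V} (he : e ∈ M) {p q : V} (hp : p ∈ e)
    (hq : q ∈ e) (hpq : p ≠ q) {α β : Finset V} (hα : α ∈ Lk H {p} (OO X M))
    (hβ : β ∈ Lk H {q} (OO X M)) : ¬ Disjoint α β := by
  intro hd
  rw [mem_Lk] at hα hβ
  obtain ⟨hα1, -, p', hp', hα3⟩ := hα
  obtain ⟨hβ1, -, q', hq', hβ3⟩ := hβ
  rw [Finset.mem_singleton] at hp' hq'
  subst hp' hq'
  have hO : ∀ w ∈ OO X M, w ∉ e := fun w hw => (mem_OO.1 hw).2 e he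
  refine aug2 hC he hα3 hβ3 ?_ ?_ ?_
  · intro w hw
    rcases Finset.mem_insert.1 hw with rfl | hw
    · exact Finset.mem_union_left _ hp
    · exact Finset.mem_union_right _ (hα1 hw)
  · intro w hw
    rcases Finset.mem_insert.1 hw with rfl | hw
    · exact Finset.mem_union_left _ hq
    · exact Finset.mem_union_right _ (hβ1 hw)
  · rw [Finset.disjoint_left]
    intro w hw hw'
    rcases Finset.mem_insert.1 hw with h | hw
    · rcases Finset.mem_insert.1 hw' with h' | hw'
      · exact hpq (h.symm.trans h')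
      · exact hO _ (hβ1 hw') (h ▸ hp)
    · rcases Finset.mem_insert.1 hw' with h' | hw'
      · exact hO _ (hα1 hw) (h' ▸ hq)
      · exact Finset.disjoint_left.1 hd hw hw'

private theorem c1 (hC : Cfg X H M t m) {e : Finset V} (he : e ∈ M) {p q : V} (hp : p ∈ e)
    (hq : q ∈ e) (hpq : p ≠ q) {x y z w : V} (hx : x ∈ OO X M) (hy : y ∈ OO X M)
    (hz : z ∈ OO X M) (hw : w ∈ OO X M) (h1 : Ed H p x y) (h2 : Ed H q z w) :
    x = z ∨ x = w ∨ y = z ∨ y = w := by
  by_contra hne
  simp only [not_or] at hne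
  obtain ⟨n1, n2, n3, n4⟩ := hne
  have hxy := (hC.good.ne h1).2.2
  have hzw := (hC.good.ne h2).2.2
  refine eml_cross hC he hp hq hpq (α := {x, y}) (β := {z, w}) ?_ ?_ ?_
  · rw [pair_mem_Lk hxy]; exact ⟨hx, hy, p, by simp, h1⟩
  · rw [pair_mem_Lk hzw]; exact ⟨hz, hw, q, by simp, h2⟩
  · rw [Finset.disjoint_left]
    intro v hv hv'
    simp only [Finset.mem_insert, Finset.mem_singleton] at hv hv'
    rcases hv with rfl | rfl <;> rcases hv' with h | h <;> first
      | exact n1 h | exact n2 h | exact n3 h | exact n4 h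

private theorem out {e : Finset V} {h : Finset V}
    (hh : h ∈ Lk H e (OO X M)) :
    ∃ x y r : V, x ∈ OO X M ∧ y ∈ OO X M ∧ r ∈ e ∧ x ≠ y ∧ h = {x, y} ∧ Ed H r x y := by
  rw [mem_Lk] at hh
  obtain ⟨h1, h2, r, hr, h3⟩ := hh
  obtain ⟨x, y, hxy, rfl⟩ := Finset.card_eq_two.1 h2
  exact ⟨x, y, r, h1 (by simp), h1 (by simp), hr, hxy, rfl, h3⟩

private theorem lemA (hC : Cfg X H M t m) {e : Finset V} (he : e ∈ M) {p q : V} (hp : p ∈ e)
    (hq : q ∈ e) (hpq : p ≠ q) {a1 a2 b1 b2 x : V} (ha1 : a1 ∈ OO X M) (ha2 : a2 ∈ OO X M)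
    (hb1 : b1 ∈ OO X M) (hb2 : b2 ∈ OO X M) (hx : x ∈ OO X M)
    (d1 : a1 ≠ b1) (d2 : a1 ≠ b2) (d3 : a2 ≠ b1) (d4 : a2 ≠ b2)
    (x1 : x ≠ a1) (x2 : x ≠ a2) (x3 : x ≠ b1) (x4 : x ≠ b2)
    (h1 : Ed H p a1 a2) (h2 : Ed H p b1 b2) (h3 : Ed H q a1 b1) (h4 : Ed H p a1 x) :
    (Lk H e (OO X M)).card ≤ m := by
  classical
  have hG := hC.good
  have heH : e ∈ H := hC.mat.1 he
  have hO : ∀ w ∈ OO X M, w ∉ e := fun w hw => (mem_OO.1 hw).2 e he
  have ha : a1 ≠ a2 := (hG.ne h1).2.2
  have hb : b1 ≠ b2 := (hG.ne h2).2.2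
  -- the non-edges of colour `p`
  have f1 : ¬ Ed H p a1 b2 := fun h =>
    hpq (lk_tri hG hq (hO _ hb2) h2.swap23 h.swap23 h3.swap23).symm
  have f2 : ¬ Ed H p b1 a2 := fun h =>
    hpq (lk_tri hG hq (hO _ ha2) h1.swap23 h.swap23 h3).symm
  have f3 : ¬ Ed H p a1 b1 := fun h =>
    hpq (lk_color hG heH hp hq (hO _ ha1) (hO _ hb1) h h3)
  have f4 : ∀ w ∈ OO X M, Ed H p a1 w → Ed H p b1 w → False := fun w hw h h' =>
    hpq (lk_tri hG hq (hO _ hw) h.swap23 h'.swap23 h3).symm
  set g : V → Finset V := fun w => if Ed H p a1 w then {a1, w} else {b1, w} with hg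
  set S : Finset V := {a1, a2, b1, b2} with hS
  have hScard : S.card = 4 := by
    rw [hS, Finset.card_insert_of_notMem (by simp [ha, d1, d2]),
      Finset.card_insert_of_notMem (by simp [d3, d4]), Finset.card_pair hb]
  have hSO : S ⊆ OO X M := by
    intro w hw
    simp only [hS, Finset.mem_insert, Finset.mem_singleton] at hw
    rcases hw with rfl | rfl | rfl | rfl <;> assumption
  have key : ∀ y z : V, z ∈ OO X M → (y = a1 ∨ y = b1) → Ed H p y z →
      ({y, z} : Finset V) ∈ (({{a1, a2}, {b1, b2}, {a1, b1}, {a1, b2}} :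
        Finset (Finset V)) ∪ (OO X M \ S).image g) := by
    intro y z hz hy hE
    by_cases hzS : z ∈ S
    · apply Finset.mem_union_left
      simp only [hS, Finset.mem_insert, Finset.mem_singleton] at hzS
      rcases hy with rfl | rfl
      · rcases hzS with rfl | rfl | rfl | rfl
        · exact absurd rfl (hG.ne hE).2.2
        · simp
        · exact absurd hE f3
        · exact absurd hE f1
      · rcases hzS with rfl | rfl | rfl | rfl
        · exact absurd hE.swap23 f3
        · exact absurd hE f2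
        · exact absurd rfl (hG.ne hE).2.2
        · simp
    · apply Finset.mem_union_right
      rw [Finset.mem_image]
      refine ⟨z, Finset.mem_sdiff.2 ⟨hz, hzS⟩, ?_⟩
      rcases hy with rfl | rfl
      · simp only [hg]; rw [if_pos hE]
      · simp only [hg]; rw [if_neg (fun h => f4 z hz h hE)]
  have sub : Lk H e (OO X M) ⊆ (({{a1, a2}, {b1, b2}, {a1, b1}, {a1, b2}} :
        Finset (Finset V)) ∪ (OO X M \ S).image g) := by
    intro h hh
    obtain ⟨y, z, r, hy, hz, hr, hyz, rfl, hE⟩ := out hh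
    by_cases hrp : r = p
    · subst hrp
      rcases c1 hC he hr hq hpq hy hz ha1 hb1 hE h3 with h | h | h | h
      · exact key y z hz (Or.inl h) hE
      · exact key y z hz (Or.inr h) hE
      · rw [Finset.pair_comm y z]; exact key z y hy (Or.inl h) hE.swap23
      · rw [Finset.pair_comm y z]; exact key z y hy (Or.inr h) hE.swap23
    · apply Finset.mem_union_left
      have k1 := c1 hC he hr hp hrp hy hz ha1 ha2 hE h1
      have k2 := c1 hC he hr hp hrp hy hz hb1 hb2 hE h2
      have k3 := c1 hC he hr hp hrp hy hz ha1 hx hE h4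
      have : (y = a1 ∧ (z = b1 ∨ z = b2)) ∨ (z = a1 ∧ (y = b1 ∨ y = b2)) := by
        rcases k3 with rfl | rfl | rfl | rfl
        · left
          refine ⟨rfl, ?_⟩
          rcases k2 with h | h | h | h
          · exact absurd h d1
          · exact absurd h d2
          · exact Or.inl h
          · exact Or.inr h
        · exfalso
          rcases k1 with h | h | h | h
          · exact x1 h
          · exact x2 h
          · subst h
            rcases k2 with h | h | h | h
            · exact x3 h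
            · exact x4 h
            · exact d1 h
            · exact d2 h
          · subst h
            rcases k2 with h | h | h | h
            · exact x3 h
            · exact x4 h
            · exact d3 h
            · exact d4 h
        · right
          refine ⟨rfl, ?_⟩
          rcases k2 with h | h | h | h
          · exact Or.inl h
          · exact Or.inr h
          · exact absurd h d1
          · exact absurd h d2
        · exfalso
          rcases k1 with h | h | h | h
          · subst h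
            rcases k2 with h | h | h | h
            · exact d1 h
            · exact d2 h
            · exact x3 h
            · exact x4 h
          · subst h
            rcases k2 with h | h | h | h
            · exact d3 h
            · exact d4 h
            · exact x3 h
            · exact x4 h
          · exact x1 h
          · exact x2 h
      rcases this with ⟨rfl, rfl | rfl⟩ | ⟨rfl, rfl | rfl⟩
      · simp
      · simp
      · rw [Finset.pair_comm y z]; simp
      · rw [Finset.pair_comm y z]; simp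
  have hle := Finset.card_le_card sub
  have h5 := Finset.card_union_le ({{a1, a2}, {b1, b2}, {a1, b1}, {a1, b2}} :
        Finset (Finset V)) ((OO X M \ S).image g)
  have h6 : ((OO X M \ S).image g).card ≤ m - 4 := by
    refine Finset.card_image_le.trans ?_
    rw [Finset.card_sdiff_of_subset hSO, hC.card_OO, hScard]
  have h7 : ({{a1, a2}, {b1, b2}, {a1, b1}, {a1, b2}} : Finset (Finset V)).card ≤ 4 :=
    Finset.card_le_four
  have h8 : 4 ≤ m := by
    rw [← hScard, ← hC.card_OO]; exact Finset.card_le_card hSO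
  omega

private theorem case1 (hC : Cfg X H M t m) {e : Finset V} (he : e ∈ M) {p q : V} (hp : p ∈ e)
    (hq : q ∈ e) (hpq : p ≠ q) {a1 a2 b1 b2 : V} (ha1 : a1 ∈ OO X M) (ha2 : a2 ∈ OO X M)
    (hb1 : b1 ∈ OO X M) (hb2 : b2 ∈ OO X M)
    (d1 : a1 ≠ b1) (d2 : a1 ≠ b2) (d3 : a2 ≠ b1) (d4 : a2 ≠ b2)
    (h1 : Ed H p a1 a2) (h2 : Ed H p b1 b2) (h3 : Ed H q a1 b1) :
    (Lk H e (OO X M)).card ≤ m ∨
      ∃ S ⊆ OO X M, S.card = 4 ∧ Lk H e (OO X M) ⊆ S.powersetCard 2 := by
  have hG := hC.good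
  have ha : a1 ≠ a2 := (hG.ne h1).2.2
  have hb : b1 ≠ b2 := (hG.ne h2).2.2
  set S : Finset V := {a1, a2, b1, b2} with hS
  have hScard : S.card = 4 := by
    rw [hS, Finset.card_insert_of_notMem (by simp [ha, d1, d2]),
      Finset.card_insert_of_notMem (by simp [d3, d4]), Finset.card_pair hb]
  have hSO : S ⊆ OO X M := by
    intro w hw
    simp only [hS, Finset.mem_insert, Finset.mem_singleton] at hw
    rcases hw with rfl | rfl | rfl | rfl <;> assumption
  by_cases hsub : Lk H e (OO X M) ⊆ S.powersetCard 2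
  · exact Or.inr ⟨S, hSO, hScard, hsub⟩
  left
  obtain ⟨h, hh, hhS⟩ := Finset.not_subset.1 hsub
  have main : ∀ y z r : V, y ∈ OO X M → z ∈ OO X M → r ∈ e → Ed H r y z → z ∉ S →
      (Lk H e (OO X M)).card ≤ m := by
    intro y z r hy hz hr hE hzS
    have z1 : z ≠ a1 := fun h => hzS (by simp [hS, h])
    have z2 : z ≠ a2 := fun h => hzS (by simp [hS, h])
    have z3 : z ≠ b1 := fun h => hzS (by simp [hS, h])
    have z4 : z ≠ b2 := fun h => hzS (by simp [hS, h])
    have hrp : r = p := by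
      by_contra hrp
      rcases c1 hC he hr hp hrp hy hz ha1 ha2 hE h1 with h | h | h | h
      · subst h
        rcases c1 hC he hr hp hrp hy hz hb1 hb2 hE h2 with h | h | h | h
        · exact d1 h
        · exact d2 h
        · exact z3 h
        · exact z4 h
      · subst h
        rcases c1 hC he hr hp hrp hy hz hb1 hb2 hE h2 with h | h | h | h
        · exact d3 h
        · exact d4 h
        · exact z3 h
        · exact z4 h
      · exact z1 h
      · exact z2 h
    subst hrp
    rcases c1 hC he hr hq hpq hy hz ha1 hb1 hE h3 with h | h | h | h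
    · subst h
      exact lemA hC he hr hq hpq ha1 ha2 hb1 hb2 hz d1 d2 d3 d4 z1 z2 z3 z4 h1 h2 h3 hE
    · subst h
      exact lemA hC he hr hq hpq hb1 hb2 ha1 ha2 hz d1.symm d3.symm d2.symm d4.symm
        z3 z4 z1 z2 h2 h1 h3.swap23 hE
    · exact absurd h z1
    · exact absurd h z3
  obtain ⟨y, z, r, hy, hz, hr, hyz, rfl, hE⟩ := out hh
  by_cases hzS : z ∈ S
  · by_cases hyS : y ∈ S
    · exfalso
      apply hhS
      rw [Finset.mem_powersetCard]
      refine ⟨?_, Finset.card_pair hyz⟩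
      intro w hw
      simp only [Finset.mem_insert, Finset.mem_singleton] at hw
      rcases hw with rfl | rfl
      · exact hyS
      · exact hzS
    · exact main z y r hz hy hr hE.swap23 hyS
  · exact main y z r hy hz hr hE hzS

private theorem case1' (hC : Cfg X H M t m) {e : Finset V} (he : e ∈ M) {p q : V} (hp : p ∈ e)
    (hq : q ∈ e) (hpq : p ≠ q) {u1 u2 v1 v2 x y : V} (hu1 : u1 ∈ OO X M) (hu2 : u2 ∈ OO X M)
    (hv1 : v1 ∈ OO X M) (hv2 : v2 ∈ OO X M)
    (d1 : u1 ≠ v1) (d2 : u1 ≠ v2) (d3 : u2 ≠ v1) (d4 : u2 ≠ v2)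
    (h1 : Ed H p u1 u2) (h2 : Ed H p v1 v2) (h3 : Ed H q x y)
    (hx : x = u1 ∨ x = u2) (hy : y = v1 ∨ y = v2) :
    (Lk H e (OO X M)).card ≤ m ∨
      ∃ S ⊆ OO X M, S.card = 4 ∧ Lk H e (OO X M) ⊆ S.powersetCard 2 := by
  rcases hx with rfl | rfl <;> rcases hy with rfl | rfl
  · exact case1 hC he hp hq hpq hu1 hu2 hv1 hv2 d1 d2 d3 d4 h1 h2 h3
  · exact case1 hC he hp hq hpq hu1 hu2 hv2 hv1 d2 d1 d4 d3 h1 h2.swap23 h3
  · exact case1 hC he hp hq hpq hu2 hu1 hv1 hv2 d3 d4 d1 d2 h1.swap23 h2 h3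
  · exact case1 hC he hp hq hpq hu2 hu1 hv2 hv1 d4 d3 d2 d1 h1.swap23 h2.swap23 h3

private theorem case1'' (hC : Cfg X H M t m) {e : Finset V} (he : e ∈ M) {p q : V} (hp : p ∈ e)
    (hq : q ∈ e) (hpq : p ≠ q) {u1 u2 v1 v2 x y : V} (hu1 : u1 ∈ OO X M) (hu2 : u2 ∈ OO X M)
    (hv1 : v1 ∈ OO X M) (hv2 : v2 ∈ OO X M) (hx : x ∈ OO X M) (hy : y ∈ OO X M)
    (d1 : u1 ≠ v1) (d2 : u1 ≠ v2) (d3 : u2 ≠ v1) (d4 : u2 ≠ v2)
    (h1 : Ed H p u1 u2) (h2 : Ed H p v1 v2) (h3 : Ed H q x y) :
    (Lk H e (OO X M)).card ≤ m ∨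
      ∃ S ⊆ OO X M, S.card = 4 ∧ Lk H e (OO X M) ⊆ S.powersetCard 2 := by
  have k1 := c1 hC he hq hp (Ne.symm hpq) hx hy hu1 hu2 h3 h1
  have k2 := c1 hC he hq hp (Ne.symm hpq) hx hy hv1 hv2 h3 h2
  by_cases hxu : x = u1 ∨ x = u2
  · have hyv : y = v1 ∨ y = v2 := by
      rcases hxu with rfl | rfl
      · rcases k2 with h | h | h | h
        · exact absurd h d1
        · exact absurd h d2
        · exact Or.inl h
        · exact Or.inr h
      · rcases k2 with h | h | h | h
        · exact absurd h d3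
        · exact absurd h d4
        · exact Or.inl h
        · exact Or.inr h
    exact case1' hC he hp hq hpq hu1 hu2 hv1 hv2 d1 d2 d3 d4 h1 h2 h3 hxu hyv
  · rw [not_or] at hxu
    have hyu : y = u1 ∨ y = u2 := by
      rcases k1 with h | h | h | h
      · exact absurd h hxu.1
      · exact absurd h hxu.2
      · exact Or.inl h
      · exact Or.inr h
    have hxv : x = v1 ∨ x = v2 := by
      rcases hyu with rfl | rfl
      · rcases k2 with h | h | h | h
        · exact Or.inl h
        · exact Or.inr h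
        · exact absurd h d1
        · exact absurd h d2
      · rcases k2 with h | h | h | h
        · exact Or.inl h
        · exact Or.inr h
        · exact absurd h d3
        · exact absurd h d4
    exact case1' hC he hp hq hpq hu1 hu2 hv1 hv2 d1 d2 d3 d4 h1 h2 h3.swap23 hyu hxv

private theorem star {O : Finset V} {F : Finset (Finset V)} {x : V}
    (hF : ∀ h ∈ F, ∃ y z : V, y ∈ O ∧ z ∈ O ∧ y ≠ z ∧ h = {y, z}) (hx : ∀ h ∈ F, x ∈ h) :
    F.card ≤ O.card := by
  have : F ⊆ O.image (fun w => ({x, w} : Finset V)) := by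
    intro h hh
    obtain ⟨y, z, hy, hz, hyz, rfl⟩ := hF h hh
    have := hx _ hh
    rw [Finset.mem_insert, Finset.mem_singleton] at this
    rw [Finset.mem_image]
    rcases this with rfl | rfl
    · exact ⟨z, hz, rfl⟩
    · exact ⟨y, hy, Finset.pair_comm _ _⟩
  exact (Finset.card_le_card this).trans Finset.card_image_le

private theorem inter {O : Finset V} {F : Finset (Finset V)}
    (hF : ∀ h ∈ F, ∃ y z : V, y ∈ O ∧ z ∈ O ∧ y ≠ z ∧ h = {y, z})
    (hI : ∀ h ∈ F, ∀ k ∈ F, ¬ Disjoint h k) : F.card ≤ O.card := by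
  by_cases hne : F.Nonempty
  swap
  · rw [Finset.not_nonempty_iff_eq_empty] at hne; simp [hne]
  obtain ⟨α, hα⟩ := hne
  obtain ⟨x, y, hx, hy, hxy, hαe⟩ := hF α hα
  have meet : ∀ h ∈ F, ∀ a b : V, ({a, b} : Finset V) ∈ F → a ∉ h → b ∈ h := by
    intro h hh a b hab ha
    by_contra hb
    apply hI h hh _ hab
    rw [Finset.disjoint_right]
    intro w hw
    simp only [Finset.mem_insert, Finset.mem_singleton] at hw
    rcases hw with rfl | rfl
    · exact ha
    · exact hb
  rw [hαe] at hα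
  by_cases h1 : ∀ h ∈ F, x ∈ h
  · exact star hF h1
  by_cases h2 : ∀ h ∈ F, y ∈ h
  · exact star hF h2
  push Not at h1 h2
  obtain ⟨β, hβ, hxβ⟩ := h1
  obtain ⟨γ, hγ, hyγ⟩ := h2
  have hyβ : y ∈ β := meet β hβ x y hα hxβ
  have hxγ : x ∈ γ := meet γ hγ y x (by rw [Finset.pair_comm]; exact hα) hyγ
  obtain ⟨z, hz, hyz, hβe⟩ : ∃ z ∈ O, y ≠ z ∧ β = {y, z} := by
    obtain ⟨a, b, ha, hb, hab, rfl⟩ := hF β hβ
    simp only [Finset.mem_insert, Finset.mem_singleton] at hyβ
    rcases hyβ with rfl | rfl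
    · exact ⟨b, hb, hab, rfl⟩
    · exact ⟨a, ha, hab.symm, Finset.pair_comm _ _⟩
  have hxz : x ≠ z := by
    rintro rfl
    exact hxβ (by simp [hβe])
  rw [hβe] at hβ
  have hzγ : z ∈ γ := meet γ hγ y z hβ hyγ
  have hγe : γ = {x, z} := by
    obtain ⟨a, b, ha, hb, hab, rfl⟩ := hF γ hγ
    symm
    apply Finset.eq_of_subset_of_card_le
    · intro w hw
      simp only [Finset.mem_insert, Finset.mem_singleton] at hw
      rcases hw with rfl | rfl
      · exact hxγ
      · exact hzγ
    · rw [Finset.card_pair hab, Finset.card_pair hxz]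
  rw [hγe] at hγ
  have sub : F ⊆ {{x, y}, {y, z}, {x, z}} := by
    intro h hh
    have k1 := meet h hh x y hα
    have k2 := meet h hh y z hβ
    have k3 := meet h hh x z hγ
    obtain ⟨a, b, ha, hb, hab, hhe⟩ := hF h hh
    have hcard : h.card = 2 := by rw [hhe, Finset.card_pair hab]
    have fin : ∀ c d : V, c ≠ d → c ∈ h → d ∈ h → h = {c, d} := by
      intro c d hcd hc hd
      symm
      apply Finset.eq_of_subset_of_card_le
      · intro w hw
        simp only [Finset.mem_insert, Finset.mem_singleton] at hw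
        rcases hw with rfl | rfl
        · exact hc
        · exact hd
      · rw [hcard, Finset.card_pair hcd]
    simp only [Finset.mem_insert, Finset.mem_singleton]
    by_cases hxh : x ∈ h
    · by_cases hyh : y ∈ h
      · exact Or.inl (fin x y hxy hxh hyh)
      · exact Or.inr (Or.inr (fin x z hxz hxh (k2 hyh)))
    · exact Or.inr (Or.inl (fin y z hyz (k1 hxh) (k3 hxh)))
  have h3 : ({x, y, z} : Finset V) ⊆ O := by
    intro w hw
    simp only [Finset.mem_insert, Finset.mem_singleton] at hw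
    rcases hw with rfl | rfl | rfl <;> assumption
  have h4 : ({x, y, z} : Finset V).card = 3 :=
    Finset.card_eq_three.2 ⟨x, y, z, hxy, hxz, hyz, rfl⟩
  calc F.card ≤ ({{x, y}, {y, z}, {x, z}} : Finset (Finset V)).card := Finset.card_le_card sub
    _ ≤ 3 := Finset.card_le_three
    _ ≤ O.card := by rw [← h4]; exact Finset.card_le_card h3

theorem eml (hC : Cfg X H M t m) {e : Finset V} (he : e ∈ M) {p q : V} (hp : p ∈ e)
    (hq : q ∈ e) (hpq : p ≠ q) (h1 : (Lk H {p} (OO X M)).Nonempty)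
    (h2 : (Lk H {q} (OO X M)).Nonempty) :
    (Lk H e (OO X M)).card ≤ m ∨
      ∃ S ⊆ OO X M, S.card = 4 ∧ Lk H e (OO X M) ⊆ S.powersetCard 2 := by
  have hG := hC.good
  have get : ∀ r : V, (Lk H {r} (OO X M)).Nonempty →
      ∃ x ∈ OO X M, ∃ y ∈ OO X M, Ed H r x y := by
    rintro r ⟨h, hh⟩
    rw [mem_Lk] at hh
    obtain ⟨k1, k2, r', hr, k3⟩ := hh
    rw [Finset.mem_singleton] at hr
    subst hr
    obtain ⟨x, y, hxy, rfl⟩ := Finset.card_eq_two.1 k2
    exact ⟨x, k1 (by simp), y, k1 (by simp), k3⟩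
  obtain ⟨x, hx, y, hy, hE1⟩ := get p h1
  obtain ⟨x', hx', y', hy', hE2⟩ := get q h2
  by_cases hI : ∀ h ∈ Lk H e (OO X M), ∀ k ∈ Lk H e (OO X M), ¬ Disjoint h k
  · left
    rw [← hC.card_OO]
    refine inter ?_ hI
    intro h hh
    obtain ⟨a, b, r, ha, hb, -, hab, rfl, -⟩ := out hh
    exact ⟨a, b, ha, hb, hab, rfl⟩
  push Not at hI
  obtain ⟨α, hα, β, hβ, hd⟩ := hI
  obtain ⟨u1, u2, r, hu1, hu2, hr, hu, rfl, hEr⟩ := out hα
  obtain ⟨v1, v2, s, hv1, hv2, hs, hv, rfl, hEs⟩ := out hβ
  rw [Finset.disjoint_left] at hd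
  have d1 : u1 ≠ v1 := fun h => hd (a := u1) (by simp) (by simp [h])
  have d2 : u1 ≠ v2 := fun h => hd (a := u1) (by simp) (by simp [h])
  have d3 : u2 ≠ v1 := fun h => hd (a := u2) (by simp) (by simp [h])
  have d4 : u2 ≠ v2 := fun h => hd (a := u2) (by simp) (by simp [h])
  have hrs : r = s := by
    by_contra hrs
    rcases c1 hC he hr hs hrs hu1 hu2 hv1 hv2 hEr hEs with h | h | h | h
    · exact d1 h
    · exact d2 h
    · exact d3 h
    · exact d4 h
  subst hrs
  by_cases hpr : r = p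
  · subst hpr
    exact case1'' hC he hr hq hpq hu1 hu2 hv1 hv2 hx' hy' d1 d2 d3 d4 hEr hEs hE2
  · exact case1'' hC he hr hp hpr hu1 hu2 hv1 hv2 hx hy d1 d2 d3 d4 hEr hEs hE1

end Pool.Agent.TUR
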