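import Pool.Agent.TUR.Defs

/-!
# TUR / EZR : the links of two vertices

`L_p = Lk H {p} W`, `L_q = Lk H {q} W`, `p ≠ q`, `p, q ∉ W`.
`ezr_deg`: if `{x,y} ∈ L_p` and `{x,y}` is also covered by some `r ≠ p`, `r ∉ W` (`Ed H r x y`),
`x ≠ y ∈ W`, then no `u ∈ W` has both `{u,x}, {u,y} ∈ L_p`: `pux, puy ∈ H` and `xyr ∈ H` give
`r ∈ {p,u}`.  Hence the number of pairs of `L_p` meeting `{x,y}` is at most `1 + (|W|-2)`:
`|L_p| ≤ |Lk H {p} (W \ {x,y})| + (|W| - 1)`.
`ezr`: strong induction on `|W|`.  If `L_p ∩ L_q = ∅` then `|L_p| + |L_q| ≤ C(|W|,2) ≤ 2⌊|W|^2/4⌋`.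
Otherwise let `{x,y} ∈ L_p ∩ L_q`, `W' = W \ {x,y}`: by `ezr_deg` (with `r = q`, resp. `r = p`)
`|L_p| + |L_q| ≤ 2(|W|-1) + 2⌊(|W|-2)^2/4⌋ = 2⌊|W|^2/4⌋`.
-/

namespace Pool.Agent.TUR

open Finset

variable {V : Type} [DecidableEq V] {X : Finset V} {H : Finset (Finset V)}

theorem ezr_deg (hG : Good X H) {p r x y : V} {W : Finset V} (hpr : p ≠ r)
    (hr : r ∉ W) (hx : x ∈ W) (hy : y ∈ W) (hxy : x ≠ y) (h1 : Ed H p x y) (h2 : Ed H r x y) :
    (Lk H {p} W).card ≤ (Lk H {p} (W \ {x, y})).card + (W.card - 1) := by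
  classical
  have hno : ∀ u ∈ W, Ed H p u x → Ed H p u y → False := by
    intro u hu hux huy
    rcases hG.key hux huy h2.rot with h | h
    · exact hpr h.symm
    · exact hr (h ▸ hu)
  have hsub : Lk H {p} W ⊆ Lk H {p} (W \ {x, y}) ∪ insert {x, y}
      ((W \ {x, y}).image (fun u => if Ed H p u x then ({u, x} : Finset V) else {u, y})) := by
    intro q hq
    obtain ⟨hqW, hqc, p', hp', hqH⟩ := mem_Lk.1 hq
    rw [Finset.mem_singleton] at hp'
    subst hp'
    obtain ⟨s, t, hst, rfl⟩ := Finset.card_eq_two.1 hqc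
    have hsW : s ∈ W := hqW (by simp)
    have htW : t ∈ W := hqW (by simp)
    have hE : Ed H p' s t := hqH
    have key : ∀ s t : V, s ≠ t → s ∈ W → t ∈ W → Ed H p' s t → (s = x ∨ s = y) →
        ({s, t} : Finset V) ∈ insert {x, y}
      ((W \ {x, y}).image (fun u => if Ed H p' u x then ({u, x} : Finset V) else {u, y})) := by
      intro s t hst hsW htW hE hs
      by_cases ht : t = x ∨ t = y
      · have : ({s, t} : Finset V) = {x, y} := by
          rcases hs with rfl | rfl <;> rcases ht with rfl | rfl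
          · exact absurd rfl hst
          · rfl
          · exact Finset.pair_comm _ _
          · exact absurd rfl hst
        rw [this]; exact Finset.mem_insert_self _ _
      · apply Finset.mem_insert_of_mem
        rw [Finset.mem_image]
        refine ⟨t, ?_, ?_⟩
        · rw [Finset.mem_sdiff]
          refine ⟨htW, ?_⟩
          simpa using ht
        · rcases hs with rfl | rfl
          · rw [if_pos hE.swap23]; exact Finset.pair_comm _ _
          · have : ¬ Ed H p' t x := fun h => hno t htW h hE.swap23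
            rw [if_neg this]; exact Finset.pair_comm _ _
    by_cases hs : s = x ∨ s = y
    · exact Finset.mem_union_right _ (key s t hst hsW htW hE hs)
    · by_cases ht : t = x ∨ t = y
      · have := key t s hst.symm htW hsW hE.swap23 ht
        rw [Finset.pair_comm t s] at this
        exact Finset.mem_union_right _ this
      · apply Finset.mem_union_left
        rw [mem_Lk]
        refine ⟨?_, hqc, p', by simp, hqH⟩
        intro z hz
        rw [Finset.mem_insert, Finset.mem_singleton] at hz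
        rw [Finset.mem_sdiff]
        rcases hz with rfl | rfl
        · exact ⟨hsW, by simpa using hs⟩
        · exact ⟨htW, by simpa using ht⟩
  have hc2 : ({x, y} : Finset V).card = 2 := Finset.card_pair hxy
  have hsubW : ({x, y} : Finset V) ⊆ W := by
    intro z hz
    rw [Finset.mem_insert, Finset.mem_singleton] at hz
    rcases hz with rfl | rfl
    · exact hx
    · exact hy
  have hW2 : 2 ≤ W.card := hc2 ▸ Finset.card_le_card hsubW
  have hcW : (W \ {x, y}).card = W.card - 2 := by
    rw [Finset.card_sdiff_of_subset hsubW, hc2]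
  calc (Lk H {p} W).card ≤ _ := Finset.card_le_card hsub
    _ ≤ (Lk H {p} (W \ {x, y})).card + _ := Finset.card_union_le _ _
    _ ≤ (Lk H {p} (W \ {x, y})).card + ((W \ {x, y}).card + 1) := by
        apply Nat.add_le_add_left
        refine (Finset.card_insert_le _ _).trans ?_
        exact Nat.add_le_add_right Finset.card_image_le 1
    _ = _ := by rw [hcW]; omega

private lemma choose_le (n : ℕ) : n.choose 2 ≤ 2 * (n ^ 2 / 4) := by
  rw [Nat.choose_two_right]
  rcases Nat.even_or_odd' n with ⟨k, rfl | rfl⟩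
  · have h1 : (2 * k) ^ 2 / 4 = k ^ 2 := by
      rw [show (2 * k) ^ 2 = 4 * k ^ 2 by ring]; exact Nat.mul_div_cancel_left _ (by norm_num)
    rw [h1]
    apply Nat.div_le_of_le_mul
    calc 2 * k * (2 * k - 1) ≤ 2 * k * (2 * k) := Nat.mul_le_mul_left _ (by omega)
      _ = 2 * (2 * k ^ 2) := by ring
  · have h1 : (2 * k + 1) ^ 2 / 4 = k ^ 2 + k := by
      rw [show (2 * k + 1) ^ 2 = 4 * (k ^ 2 + k) + 1 by ring]; omega
    rw [h1]
    apply Nat.div_le_of_le_mul
    rw [show 2 * k + 1 - 1 = 2 * k by omega]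
    nlinarith

private lemma sq_step (n : ℕ) (hn : 2 ≤ n) :
    2 * (n - 1) + 2 * ((n - 2) ^ 2 / 4) = 2 * (n ^ 2 / 4) := by
  obtain ⟨m, rfl⟩ := Nat.exists_eq_add_of_le hn
  rw [show 2 + m - 2 = m by omega, show 2 + m - 1 = m + 1 by omega,
    show (2 + m) ^ 2 = m ^ 2 + 4 * (m + 1) by ring]
  omega

theorem ezr (hG : Good X H) {p q : V} (hpq : p ≠ q) (W : Finset V) (hp : p ∉ W) (hq : q ∉ W) :
    (Lk H {p} W).card + (Lk H {q} W).card ≤ 2 * (W.card ^ 2 / 4) := by
  classical
  induction' hn : W.card using Nat.strong_induction_on with n ih generalizing W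
  by_cases hdis : Disjoint (Lk H {p} W) (Lk H {q} W)
  · rw [← Finset.card_union_of_disjoint hdis]
    have hs : Lk H {p} W ∪ Lk H {q} W ⊆ W.powersetCard 2 := by
      intro z hz
      rw [Finset.mem_union] at hz
      rw [Finset.mem_powersetCard]
      rcases hz with h | h
      · exact ⟨(mem_Lk.1 h).1, (mem_Lk.1 h).2.1⟩
      · exact ⟨(mem_Lk.1 h).1, (mem_Lk.1 h).2.1⟩
    refine (Finset.card_le_card hs).trans ?_
    rw [Finset.card_powersetCard, hn]
    exact choose_le n
  · rw [Finset.not_disjoint_iff] at hdis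
    obtain ⟨z, hz1, hz2⟩ := hdis
    obtain ⟨x, y, hxy, rfl⟩ := Finset.card_eq_two.1 (mem_Lk.1 hz1).2.1
    obtain ⟨hx, hy, p', hp', hE1⟩ := (pair_mem_Lk hxy).1 hz1
    obtain ⟨-, -, q', hq', hE2⟩ := (pair_mem_Lk hxy).1 hz2
    rw [Finset.mem_singleton] at hp' hq'
    subst hp' hq'
    have hc2 : ({x, y} : Finset V).card = 2 := Finset.card_pair hxy
    have hsubW : ({x, y} : Finset V) ⊆ W := by
      intro z hz
      rw [Finset.mem_insert, Finset.mem_singleton] at hz
      rcases hz with rfl | rfl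
      · exact hx
      · exact hy
    have hW2 : 2 ≤ W.card := hc2 ▸ Finset.card_le_card hsubW
    have hcW : (W \ {x, y}).card = n - 2 := by
      rw [Finset.card_sdiff_of_subset hsubW, hc2, hn]
    have h1 := ezr_deg hG hpq hq hx hy hxy hE1 hE2
    have h2 := ezr_deg hG hpq.symm hp hx hy hxy hE2 hE1
    have h3 := ih (n - 2) (by omega) (W \ {x, y}) (fun h => hp (Finset.mem_sdiff.1 h).1)
      (fun h => hq (Finset.mem_sdiff.1 h).1) hcW
    have h4 := sq_step n (by omega)
    rw [hn] at h1 h2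
    omega

end Pool.Agent.TUR
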