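import Pool.Agent.TUR.EML
import Pool.Agent.TUR.EZR
import Pool.Agent.TUR.TUN

/-!
# TUR / EPR : two members of `M`, `m ≥ 5`

`G_e = Lk H e O`, `G_f = Lk H f O`, `O = OO X M`, `|O| = m ≥ 5`, `q = ⌊m^2/4⌋`.
Call `e` single if at most one `p ∈ e` has `Lk H {p} O ≠ ∅` (then `G_e = Lk H {p} O` for some `p ∈ e`),
else multi (`eml` applies: `|G_e| ≤ max m 6`).
* both multi: `2 max m 6 ≤ 2q` (`m = 5: 12 ≤ 12`, `m ≥ 6: m ≤ q`).
* both single: `ezr` (`p ∈ e`, `p' ∈ f` are different and not in `O`).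
* `e` multi, `f` single, `G_f = Lk H {r} O` (the other case is symmetric).
  If `G_e ∩ G_f = ∅`: `|G_e| + |G_f| ≤ C(m,2) ≤ 2q`.
  Otherwise let `{x,y} ∈ G_e ∩ G_f`, `Ed H p x y` with `p ∈ e`: by `ezr_deg` (for `r` and the other
  vertex `p`) `|G_f| ≤ C(m-2,2) + m - 1`.
  `|G_e| ≤ m`: `m + C(m-2,2) + m - 1 ≤ 2q` for `m ≥ 5`.
  Otherwise `|G_e| > m ≥ 5` and `G_e ⊆` pairs of a 4-set `S`, so `m = 5`, `|G_e| = 6`, `G_e` = all pairs
  of `S`.  Then `G_f` has no triangle: a triangle of `Lk H {r} O` contains two vertices of `S` (`|O| = 5`),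
  say `{x,y} ⊆ S` and `z` is the third vertex: `rzx, rzy ∈ H` and `xyp ∈ H` with `p ∈ e` give
  `p ∈ {r,z}`, contradiction.  So `4|G_f| ≤ 25` (`mantel`), `|G_f| ≤ 6`, total `12 = 2q`.
-/

namespace Pool.Agent.TUR

open Finset

variable {V : Type} [DecidableEq V] {X : Finset V} {H M : Finset (Finset V)} {t m : ℕ}

private theorem epr_q (m : ℕ) : ∃ q, m ^ 2 / 4 = q ∧ m * m ≤ 4 * q + 1 := by
  refine ⟨_, rfl, ?_⟩
  obtain ⟨k, rfl | rfl⟩ := Nat.even_or_odd' m
  · have h : (2 * k) ^ 2 = 4 * (k * k) := by ring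
    rw [h, Nat.mul_div_cancel_left _ (by norm_num)]
    nlinarith
  · have h : (2 * k + 1) ^ 2 = 4 * (k * k + k) + 1 := by ring
    rw [h]
    have h2 : (4 * (k * k + k) + 1) / 4 = k * k + k := by omega
    rw [h2]
    nlinarith

private theorem epr_choose (n : ℕ) : 2 * n.choose 2 = n * (n - 1) := by
  rw [Nat.choose_two_right]
  exact Nat.two_mul_div_two_of_even (Nat.even_mul_pred_self n)

private theorem epr_lk (H : Finset (Finset V)) (e W : Finset V) : Lk H e W ⊆ W.powersetCard 2 := by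
  intro p hp
  rw [mem_Lk] at hp
  exact Finset.mem_powersetCard.2 ⟨hp.1, hp.2.1⟩

private theorem epr_cases (hC : Cfg X H M t m) {e : Finset V} (he : e ∈ M) :
    (∃ p ∈ e, Lk H e (OO X M) = Lk H {p} (OO X M)) ∨ ((Lk H e (OO X M)).card ≤ m ∨
      ∃ S ⊆ OO X M, S.card = 4 ∧ Lk H e (OO X M) ⊆ S.powersetCard 2) := by
  by_cases h : ∃ p ∈ e, ∃ q ∈ e, p ≠ q ∧ (Lk H {p} (OO X M)).Nonempty ∧ (Lk H {q} (OO X M)).Nonempty
  · obtain ⟨p, hp, q, hq, hpq, h1, h2⟩ := h
    exact Or.inr (eml hC he hp hq hpq h1 h2)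
  · left
    have hsub : ∀ p ∈ e, Lk H {p} (OO X M) ⊆ Lk H e (OO X M) := by
      intro p hp α hα
      rw [mem_Lk] at hα ⊢
      obtain ⟨h1, h2, x, hx, h3⟩ := hα
      rw [Finset.mem_singleton] at hx
      subst hx
      exact ⟨h1, h2, x, hp, h3⟩
    have hsup : ∀ α ∈ Lk H e (OO X M), ∃ x ∈ e, α ∈ Lk H {x} (OO X M) := by
      intro α hα
      rw [mem_Lk] at hα
      obtain ⟨h1, h2, x, hx, h3⟩ := hα
      exact ⟨x, hx, mem_Lk.2 ⟨h1, h2, x, Finset.mem_singleton_self x, h3⟩⟩
    by_cases h' : ∃ p ∈ e, (Lk H {p} (OO X M)).Nonempty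
    · obtain ⟨p, hp, h1⟩ := h'
      refine ⟨p, hp, Finset.Subset.antisymm ?_ (hsub p hp)⟩
      intro α hα
      obtain ⟨x, hx, h2⟩ := hsup α hα
      by_cases hpx : p = x
      · rw [hpx]; exact h2
      · exact absurd ⟨p, hp, x, hx, hpx, h1, α, h2⟩ h
    · obtain ⟨p, hp⟩ : e.Nonempty := by
        rw [← Finset.card_pos, hC.card_e he]
        norm_num
      refine ⟨p, hp, Finset.Subset.antisymm ?_ (hsub p hp)⟩
      intro α hα
      obtain ⟨x, hx, h2⟩ := hsup α hα
      exact absurd ⟨x, hx, α, h2⟩ h'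

omit [DecidableEq V] in
private theorem epr_four {S : Finset V} (hS : S.card = 4) {E : Finset (Finset V)}
    (hE : E ⊆ S.powersetCard 2) : E.card ≤ 6 := by
  have := Finset.card_le_card hE
  rw [Finset.card_powersetCard, hS] at this
  exact this

private theorem epr_mix (hC : Cfg X H M t m) (hm : 5 ≤ m) {e f : Finset V} (he : e ∈ M) (hf : f ∈ M)
    (hef : e ≠ f) (h1 : (Lk H e (OO X M)).card ≤ m ∨
      ∃ S ⊆ OO X M, S.card = 4 ∧ Lk H e (OO X M) ⊆ S.powersetCard 2)
    {r : V} (hr : r ∈ f) (h2 : Lk H f (OO X M) = Lk H {r} (OO X M)) :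
    (Lk H e (OO X M)).card + (Lk H f (OO X M)).card ≤ 2 * (m ^ 2 / 4) := by
  have hd : Disjoint e f := hC.mat.2 e he f hf hef
  obtain ⟨q, hq, hq1⟩ := epr_q m
  rw [hq]
  have hne : ∀ p ∈ e, p ≠ r := fun p hp h => Finset.disjoint_left.1 hd hp (h ▸ hr)
  have hO : ∀ g ∈ M, ∀ p ∈ g, p ∉ OO X M := fun g hg p hp h => (mem_OO.1 h).2 g hg hp
  by_cases hdis : Disjoint (Lk H e (OO X M)) (Lk H f (OO X M))
  · rw [← Finset.card_union_of_disjoint hdis]
    have h3 := Finset.card_le_card (Finset.union_subset (epr_lk H e (OO X M)) (epr_lk H f (OO X M)))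
    rw [Finset.card_powersetCard, hC.card_OO] at h3
    have h4 := epr_choose m
    obtain ⟨j, rfl⟩ : ∃ j, m = j + 5 := ⟨m - 5, by omega⟩
    have e1 : (j + 5) * (j + 5 - 1) = j * j + 9 * j + 20 := by
      rw [Nat.add_sub_assoc (by norm_num)]
      ring
    have e2 : (j + 5) * (j + 5) = j * j + 10 * j + 25 := by ring
    rw [e1] at h4
    rw [e2] at hq1
    omega
  · rw [Finset.not_disjoint_iff] at hdis
    obtain ⟨α, hαe, hαf⟩ := hdis
    rw [h2] at hαf
    have hα := mem_Lk.1 hαe
    obtain ⟨x, y, hxy, rfl⟩ := Finset.card_eq_two.1 hα.2.1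
    obtain ⟨hx, hy, p, hp, hpe⟩ := (pair_mem_Lk hxy).1 hαe
    obtain ⟨-, -, r', hr', hre⟩ := (pair_mem_Lk hxy).1 hαf
    rw [Finset.mem_singleton] at hr'
    subst hr'
    by_cases hm1 : (Lk H e (OO X M)).card ≤ m
    · have h3 := ezr_deg hC.good (p := r') (r := p) (W := OO X M) (hne p hp).symm (hO e he p hp) hx hy hxy
        hre hpe
      have h4 := Finset.card_le_card (epr_lk H {r'} (OO X M \ {x, y}))
      rw [Finset.card_powersetCard] at h4
      have h5 : (OO X M \ {x, y}).card = m - 2 := by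
        rw [Finset.card_sdiff_of_subset, hC.card_OO, Finset.card_pair hxy]
        intro z hz
        rw [Finset.mem_insert, Finset.mem_singleton] at hz
        rcases hz with rfl | rfl
        · exact hx
        · exact hy
      rw [h5] at h4
      have h6 := epr_choose (m - 2)
      rw [hC.card_OO] at h3
      rw [h2]
      obtain ⟨j, rfl⟩ : ∃ j, m = j + 5 := ⟨m - 5, by omega⟩
      have e1 : (j + 5 - 2) * (j + 5 - 2 - 1) = j * j + 5 * j + 6 := by
        have e3 : j + 5 - 2 = j + 3 := by omega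
        have e4 : j + 3 - 1 = j + 2 := by omega
        rw [e3, e4]
        ring
      have e2 : (j + 5) * (j + 5) = j * j + 10 * j + 25 := by ring
      rw [e1] at h6
      rw [e2] at hq1
      omega
    · rcases h1 with h1 | ⟨S, hS, hS4, hSs⟩
      · exact absurd h1 hm1
      · have h3 := epr_four hS4 hSs
        have hm5 : m = 5 := by omega
        have h6 : (Lk H e (OO X M)).card = 6 := by omega
        have hSe : Lk H e (OO X M) = S.powersetCard 2 := by
          refine Finset.eq_of_subset_of_card_le hSs ?_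
          rw [Finset.card_powersetCard, hS4, h6]
          exact le_refl 6
        have hout : ∀ z ∈ OO X M, ∀ w ∈ OO X M, z ∉ S → w ∉ S → z = w := by
          intro z hz w hw hzS hwS
          have h7 : (OO X M \ S).card = 1 := by
            rw [Finset.card_sdiff_of_subset hS, hC.card_OO, hS4, hm5]
          obtain ⟨u, hu⟩ := Finset.card_eq_one.1 h7
          have h8 : z ∈ OO X M \ S := Finset.mem_sdiff.2 ⟨hz, hzS⟩
          have h9 : w ∈ OO X M \ S := Finset.mem_sdiff.2 ⟨hw, hwS⟩
          rw [hu, Finset.mem_singleton] at h8 h9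
          rw [h8, h9]
        have hcore : ∀ x y z : V, x ≠ y → x ≠ z → y ≠ z → x ∈ S → y ∈ S → z ∈ OO X M →
            Ed H r' x z → Ed H r' y z → False := by
          intro x y z hxy hxz hyz hxS hyS hz h7 h8
          have h9 : ({x, y} : Finset V) ∈ Lk H e (OO X M) := by
            rw [hSe, Finset.mem_powersetCard]
            refine ⟨?_, Finset.card_pair hxy⟩
            intro w hw
            rw [Finset.mem_insert, Finset.mem_singleton] at hw
            rcases hw with rfl | rfl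
            · exact hxS
            · exact hyS
          obtain ⟨-, -, p', hp', h10⟩ := (pair_mem_Lk hxy).1 h9
          rcases hC.good.key h7.swap23 h8.swap23 h10.rot with h11 | h11
          · exact hne p' hp' h11
          · exact hO e he p' hp' (h11 ▸ hz)
        have hK : NoK3 (Lk H {r'} (OO X M)) := by
          intro x y z hxy hxz hyz h7 h8 h9
          obtain ⟨hx1, hy1, p1, hp1, g1⟩ := (pair_mem_Lk hxy).1 h7
          obtain ⟨-, hz1, p2, hp2, g2⟩ := (pair_mem_Lk hxz).1 h8
          obtain ⟨-, -, p3, hp3, g3⟩ := (pair_mem_Lk hyz).1 h9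
          rw [Finset.mem_singleton] at hp1 hp2 hp3
          subst hp1 hp2 hp3
          by_cases hxS : x ∈ S
          · by_cases hyS : y ∈ S
            · exact hcore x y z hxy hxz hyz hxS hyS hz1 g2 g3
            · have hzS : z ∈ S := by
                by_contra hzS
                exact hyz (hout y hy1 z hz1 hyS hzS)
              exact hcore x z y hxz hxy hyz.symm hxS hzS hy1 g1 g3.swap23
          · have hyS : y ∈ S := by
              by_contra hyS
              exact hxy (hout x hx1 y hy1 hxS hyS)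
            have hzS : z ∈ S := by
              by_contra hzS
              exact hxz (hout x hx1 z hz1 hxS hzS)
            exact hcore y z x hyz hxy.symm hxz.symm hyS hzS hx1 g1.swap23 g2.swap23
        have h7 := mantel (OO X M) (Lk H {r'} (OO X M)) (epr_lk H {r'} (OO X M)) hK
        rw [hC.card_OO, hm5] at h7
        rw [h2, h6]
        rw [hm5] at hq hq1
        omega

theorem epr (hC : Cfg X H M t m) (hm : 5 ≤ m) {e f : Finset V} (he : e ∈ M) (hf : f ∈ M)
    (hef : e ≠ f) :
    (Lk H e (OO X M)).card + (Lk H f (OO X M)).card ≤ 2 * (m ^ 2 / 4) := by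
  have hd : Disjoint e f := hC.mat.2 e he f hf hef
  have hO : ∀ g ∈ M, ∀ p ∈ g, p ∉ OO X M := fun g hg p hp h => (mem_OO.1 h).2 g hg hp
  rcases epr_cases hC he with ⟨p, hp, h1⟩ | h1
  · rcases epr_cases hC hf with ⟨r, hr, h2⟩ | h2
    · rw [h1, h2]
      have hpr : p ≠ r := fun h => Finset.disjoint_left.1 hd hp (h ▸ hr)
      have h3 := ezr hC.good hpr (OO X M) (hO e he p hp) (hO f hf r hr)
      rwa [hC.card_OO] at h3
    · rw [add_comm]
      exact epr_mix hC hm hf he hef.symm h2 hp h1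
  · rcases epr_cases hC hf with ⟨r, hr, h2⟩ | h2
    · exact epr_mix hC hm he hf hef h1 hr h2
    · have h3 : (Lk H e (OO X M)).card ≤ max m 6 := by
        rcases h1 with h1 | ⟨S, -, hS, hs⟩
        · exact h1.trans (le_max_left _ _)
        · exact (epr_four hS hs).trans (le_max_right _ _)
      have h4 : (Lk H f (OO X M)).card ≤ max m 6 := by
        rcases h2 with h2 | ⟨S, -, hS, hs⟩
        · exact h2.trans (le_max_left _ _)
        · exact (epr_four hS hs).trans (le_max_right _ _)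
      obtain ⟨q, hq, hq1⟩ := epr_q m
      rw [hq]
      have h5 : max m 6 ≤ q := by
        obtain ⟨j, rfl⟩ : ∃ j, m = j + 5 := ⟨m - 5, by omega⟩
        have e2 : (j + 5) * (j + 5) = j * j + 10 * j + 25 := by ring
        rw [e2] at hq1
        rcases Nat.eq_zero_or_pos j with rfl | hj
        · have h6 : (0 + 5) ^ 2 / 4 = 6 := by norm_num
          rw [h6] at hq
          rw [← hq]
          exact le_of_eq (by norm_num)
        · refine max_le ?_ ?_ <;> omega
      omega

end Pool.Agent.TUR
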