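import Pool.Agent.TUR.EPR

/-!
# TUR / ESM : the sum of the link graphs in `O`, all `m`

`G_e = Lk H e O`, `|O| = m`, `z_e = zE H e O = #{o ∈ O : dg H e o = 0}`.  For `t ≥ 3`:
`∑_e |G_e| ≤ t ⌊m^2/4⌋ + ∑_e z_e`.
-/

namespace Pool.Agent.TUR

open Finset

variable {V : Type} [DecidableEq V] {X : Finset V} {H M : Finset (Finset V)} {t m : ℕ}

theorem esm_rainbow (hC : Cfg X H M t m) {e : Finset V} (he : e ∈ M) {a b c x y z : V}
    (hab : a ≠ b) (hac : a ≠ c) (hbc : b ≠ c) (ha : a ∈ e) (hb : b ∈ e) (hc : c ∈ e)
    (hx : x ∈ OO X M) (hy : y ∈ OO X M) (hz : z ∈ OO X M)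
    (h1 : Ed H a x y) (h2 : Ed H b y z) (h3 : Ed H c x z) : dg H e x = 0 := by
  have hG := hC.good
  have hE : e = {a, b, c} := by
    symm
    apply Finset.eq_of_subset_of_card_le
    · intro w hw
      simp only [Finset.mem_insert, Finset.mem_singleton] at hw
      rcases hw with rfl | rfl | rfl <;> assumption
    · rw [hC.card_e he, Finset.card_eq_three.2 ⟨a, b, c, hab, hac, hbc, rfl⟩]
  have habc : Ed H a b c := by
    have := hC.mat.1 he
    rw [hE] at this
    exact this
  have hO : ∀ w ∈ OO X M, w ∉ e := fun w hw => (mem_OO.1 hw).2 e he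
  have hxy := (hG.ne h1).2.2
  have hyz := (hG.ne h2).2.2
  have hxz := (hG.ne h3).2.2
  unfold dg
  rw [Finset.card_eq_zero, Finset.filter_eq_empty_iff]
  intro r hr hmem
  have hr' : r = a ∨ r = b ∨ r = c := by
    rw [hE] at hr
    simpa using hr
  rcases hr' with rfl | rfl | rfl
  · have : e.erase r = {b, c} := by
      rw [hE, Finset.erase_insert (by simp [hab, hac])]
    rw [this] at hmem
    have hm : Ed H x b c := hmem
    -- `bcx, bcr`, `x r y`
    rcases hG.key hm.rot habc.rot h1.swap12 with h | h
    · exact hO y hy (h ▸ hb)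
    · exact hO y hy (h ▸ hc)
  · have : e.erase r = {a, c} := by
      rw [hE, Finset.insert_comm, Finset.erase_insert (by simp [hab.symm, hbc])]
    rw [this] at hmem
    refine aug2 hC he hmem h2 ?_ ?_ ?_
    · intro w hw
      simp only [Finset.mem_insert, Finset.mem_singleton] at hw
      rcases hw with rfl | rfl | rfl
      · exact Finset.mem_union_right _ hx
      · exact Finset.mem_union_left _ ha
      · exact Finset.mem_union_left _ hc
    · intro w hw
      simp only [Finset.mem_insert, Finset.mem_singleton] at hw
      rcases hw with rfl | rfl | rfl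
      · exact Finset.mem_union_left _ hb
      · exact Finset.mem_union_right _ hy
      · exact Finset.mem_union_right _ hz
    · rw [Finset.disjoint_left]
      intro w hw hw'
      simp only [Finset.mem_insert, Finset.mem_singleton] at hw hw'
      rcases hw with rfl | rfl | rfl
      · rcases hw' with h | h | h
        · exact hO _ hx (h ▸ hb)
        · exact hxy h
        · exact hxz h
      · rcases hw' with h | h | h
        · exact hab h
        · exact hO _ hy (h ▸ ha)
        · exact hO _ hz (h ▸ ha)
      · rcases hw' with h | h | h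
        · exact hbc h.symm
        · exact hO _ hy (h ▸ hc)
        · exact hO _ hz (h ▸ hc)
  · have : e.erase r = {a, b} := by
      rw [hE]
      ext w
      simp only [Finset.mem_erase, Finset.mem_insert, Finset.mem_singleton]
      constructor
      · rintro ⟨h, h' | h' | h'⟩
        · exact Or.inl h'
        · exact Or.inr h'
        · exact absurd h' h
      · rintro (rfl | rfl)
        · exact ⟨hac, Or.inl rfl⟩
        · exact ⟨hbc, Or.inr (Or.inl rfl)⟩
    rw [this] at hmem
    have hm : Ed H x a b := hmem
    rcases hG.key hm.rot habc h3.swap12 with h | h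
    · exact hO z hz (h ▸ ha)
    · exact hO z hz (h ▸ hb)

/-- a triangle of `Lk H e O` is monochromatic or rainbow -/
private theorem tri (hC : Cfg X H M t m) {e : Finset V} (he : e ∈ M) (hK : ¬ NoK3 (Lk H e (OO X M))) :
    ∃ x ∈ OO X M, ∃ y ∈ OO X M, ∃ z ∈ OO X M, x ≠ y ∧ x ≠ z ∧ y ≠ z ∧
      ((∃ p ∈ e, Ed H p x y ∧ Ed H p y z ∧ Ed H p x z) ∨
        (dg H e x = 0 ∧ dg H e y = 0 ∧ dg H e z = 0)) := by
  have hG := hC.good
  have hO : ∀ w ∈ OO X M, w ∉ e := fun w hw => (mem_OO.1 hw).2 e he
  unfold NoK3 at hK
  push Not at hK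
  obtain ⟨x, y, z, hxy, hxz, hyz, k1, k2, k3, -⟩ := hK
  rw [pair_mem_Lk hxy] at k1
  rw [pair_mem_Lk hxz] at k2
  rw [pair_mem_Lk hyz] at k3
  obtain ⟨hx, hy, a, ha, h1⟩ := k1
  obtain ⟨-, hz, c, hc, h3⟩ := k2
  obtain ⟨-, -, b, hb, h2⟩ := k3
  refine ⟨x, hx, y, hy, z, hz, hxy, hxz, hyz, ?_⟩
  by_cases hab : a = b
  · left
    subst hab
    have : c = a := lk_tri hG hc (hO y hy) h1.swap23 h2 h3
    subst this
    exact ⟨c, hc, h1, h2, h3⟩
  by_cases hac : a = c
  · left
    subst hac
    have : b = a := lk_tri hG hb (hO x hx) h1 h3 h2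
    subst this
    exact ⟨b, hb, h1, h2, h3⟩
  by_cases hbc : b = c
  · left
    subst hbc
    have : a = b := lk_tri hG ha (hO z hz) h3.swap23 h2.swap23 h1
    subst this
    exact ⟨a, ha, h1, h2, h3⟩
  right
  refine ⟨?_, ?_, ?_⟩
  · exact esm_rainbow hC he hab hac hbc ha hb hc hx hy hz h1 h2 h3
  · exact esm_rainbow hC he hbc (Ne.symm hab) (Ne.symm hac) hb hc ha hy hz hx h2 h3.swap23
      h1.swap23
  · exact esm_rainbow hC he (Ne.symm hac) (Ne.symm hbc) hab hc ha hb hz hx hy h3.swap23 h1
      h2.swap23

private theorem lk_card_le (hC : Cfg X H M t m) (e : Finset V) :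
    (Lk H e (OO X M)).card ≤ m.choose 2 := by
  have : Lk H e (OO X M) ⊆ (OO X M).powersetCard 2 := Finset.filter_subset _ _
  refine (Finset.card_le_card this).trans ?_
  rw [Finset.card_powersetCard, hC.card_OO]

theorem esm (hC : Cfg X H M t m) (ht : 3 ≤ t) :
    ∑ e ∈ M, (Lk H e (OO X M)).card ≤ t * (m ^ 2 / 4) + ∑ e ∈ M, zE H e (OO X M) := by
  classical
  have hG := hC.good
  by_cases hm : 5 ≤ m
  · refine le_trans ?_ (Nat.le_add_right _ _)
    by_cases hall : ∀ e ∈ M, (Lk H e (OO X M)).card ≤ m ^ 2 / 4
    · calc ∑ e ∈ M, (Lk H e (OO X M)).card ≤ ∑ _e ∈ M, m ^ 2 / 4 := Finset.sum_le_sum hall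
        _ = t * (m ^ 2 / 4) := by rw [Finset.sum_const, hC.cardM, smul_eq_mul]
    · push Not at hall
      obtain ⟨e, he, hbig⟩ := hall
      rw [← Finset.add_sum_erase M _ he]
      have h1 : ∀ f ∈ M.erase e, (Lk H f (OO X M)).card ≤
          2 * (m ^ 2 / 4) - (Lk H e (OO X M)).card := by
        intro f hf
        rw [Finset.mem_erase] at hf
        have := epr hC hm he hf.2 (Ne.symm hf.1)
        omega
      have h2 := Finset.sum_le_sum h1
      rw [Finset.sum_const, Finset.card_erase_of_mem he, hC.cardM, smul_eq_mul] at h2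
      obtain ⟨s, rfl⟩ : ∃ s, t = s + 3 := ⟨t - 3, by omega⟩
      have h0 : (M.erase e).Nonempty := by
        rw [← Finset.card_pos, Finset.card_erase_of_mem he, hC.cardM]; omega
      obtain ⟨f, hf⟩ := h0
      rw [Finset.mem_erase] at hf
      have h3 := epr hC hm he hf.2 (Ne.symm hf.1)
      generalize (Lk H e (OO X M)).card = g at *
      generalize m ^ 2 / 4 = q at *
      obtain ⟨d, hd⟩ : ∃ d, g = q + d := ⟨g - q, by omega⟩
      obtain ⟨k, hk⟩ : ∃ k, q = d + k := ⟨q - d, by omega⟩
      have h4 : 2 * q - g = k := by omega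
      rw [h4] at h2
      have h5 : s + 3 - 1 = s + 2 := by omega
      rw [h5] at h2
      subst hd
      subst hk
      nlinarith
  · by_cases hmono : ∃ e ∈ M, ∃ x ∈ OO X M, ∃ y ∈ OO X M, ∃ z ∈ OO X M,
      x ≠ y ∧ x ≠ z ∧ y ≠ z ∧ (∃ p ∈ e, Ed H p x y ∧ Ed H p y z ∧ Ed H p x z)
    · refine le_trans ?_ (Nat.le_add_right _ _)
      obtain ⟨e, he, x, hx, y, hy, z, hz, hxy, hxz, hyz, p, hp, h1, h2, h3⟩ := hmono
      have hT3 : ({x, y, z} : Finset V) ⊆ OO X M := by
        intro w hw
        simp only [Finset.mem_insert, Finset.mem_singleton] at hw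
        rcases hw with rfl | rfl | rfl <;> assumption
      have hm3 : 3 ≤ m := by
        rw [← hC.card_OO, ← Finset.card_eq_three.2 ⟨x, y, z, hxy, hxz, hyz, rfl⟩]
        exact Finset.card_le_card hT3
      have hbound : ∀ f ∈ M.erase e, (Lk H f (OO X M)).card ≤ m.choose 2 - 3 := by
        intro f hf
        rw [Finset.mem_erase] at hf
        have hdis : Disjoint e f := hC.mat.2 e he f hf.2 (Ne.symm hf.1)
        have hOf : ∀ w ∈ OO X M, w ∉ f := fun w hw => (mem_OO.1 hw).2 f hf.2
        have nk : ∀ a b c : V, a ∈ OO X M → b ∈ OO X M → c ∈ OO X M → a ≠ b →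
            Ed H p c a → Ed H p c b → ({a, b} : Finset V) ∉ Lk H f (OO X M) := by
          intro a b c ha hb hc hab k1 k2 hmem
          rw [pair_mem_Lk hab] at hmem
          obtain ⟨-, -, r, hr, k3⟩ := hmem
          rcases hG.key k1 k2 k3.rot with h | h
          · exact Finset.disjoint_left.1 hdis hp (h ▸ hr)
          · exact hOf c hc (h ▸ hr)
        have sub : Lk H f (OO X M) ⊆ ((OO X M).powersetCard 2) \ {{x, y}, {y, z}, {x, z}} := by
          intro h hh
          rw [Finset.mem_sdiff]
          refine ⟨(Finset.filter_subset _ _) hh, ?_⟩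
          intro hh'
          simp only [Finset.mem_insert, Finset.mem_singleton] at hh'
          rcases hh' with rfl | rfl | rfl
          · exact nk x y z hx hy hz hxy h3.swap23 h2.swap23 hh
          · exact nk y z x hy hz hx hyz h1 h3 hh
          · exact nk x z y hx hz hy hxz h1.swap23 h2 hh
        refine (Finset.card_le_card sub).trans ?_
        rw [Finset.card_sdiff_of_subset, Finset.card_powersetCard, hC.card_OO]
        · have : ({{x, y}, {y, z}, {x, z}} : Finset (Finset V)).card = 3 := by
            apply Finset.card_eq_three.2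
            refine ⟨{x, y}, {y, z}, {x, z}, ?_, ?_, ?_, rfl⟩
            · intro h
              have : x ∈ ({y, z} : Finset V) := by rw [← h]; simp
              simp only [Finset.mem_insert, Finset.mem_singleton] at this
              rcases this with h | h
              · exact hxy h
              · exact hxz h
            · intro h
              have : y ∈ ({x, z} : Finset V) := by rw [← h]; simp
              simp only [Finset.mem_insert, Finset.mem_singleton] at this
              rcases this with h | h
              · exact hxy h.symm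
              · exact hyz h
            · intro h
              have : y ∈ ({x, z} : Finset V) := by rw [← h]; simp
              simp only [Finset.mem_insert, Finset.mem_singleton] at this
              rcases this with h | h
              · exact hxy h.symm
              · exact hyz h
          rw [this]
        · intro h hh
          simp only [Finset.mem_insert, Finset.mem_singleton] at hh
          rw [Finset.mem_powersetCard]
          rcases hh with rfl | rfl | rfl
          · refine ⟨fun w hw => hT3 ?_, Finset.card_pair hxy⟩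
            simp only [Finset.mem_insert, Finset.mem_singleton] at hw ⊢
            tauto
          · refine ⟨fun w hw => hT3 ?_, Finset.card_pair hyz⟩
            simp only [Finset.mem_insert, Finset.mem_singleton] at hw ⊢
            tauto
          · refine ⟨fun w hw => hT3 ?_, Finset.card_pair hxz⟩
            simp only [Finset.mem_insert, Finset.mem_singleton] at hw ⊢
            tauto
      have hsum := Finset.sum_le_sum hbound
      rw [Finset.sum_const, Finset.card_erase_of_mem he, hC.cardM, smul_eq_mul] at hsum
      rw [← Finset.add_sum_erase M _ he]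
      have he' := lk_card_le hC e
      have h34 : m = 3 ∨ m = 4 := by omega
      rcases h34 with rfl | rfl
      · have c1 : Nat.choose 3 2 = 3 := by decide
        have c2 : 3 ^ 2 / 4 = 2 := by norm_num
        rw [c1] at hsum he'
        rw [Nat.sub_self, Nat.mul_zero] at hsum
        rw [c2]
        omega
      · have c1 : Nat.choose 4 2 = 6 := by decide
        have c2 : 4 ^ 2 / 4 = 4 := by norm_num
        rw [c1] at hsum he'
        rw [c2]
        omega
    · have hle : ∀ e ∈ M, (Lk H e (OO X M)).card ≤ m ^ 2 / 4 + zE H e (OO X M) := by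
        intro e he
        by_cases hK : NoK3 (Lk H e (OO X M))
        · have := mantel (OO X M) (Lk H e (OO X M)) (Finset.filter_subset _ _) hK
          rw [hC.card_OO] at this
          omega
        · obtain ⟨x, hx, y, hy, z, hz, hxy, hxz, hyz, h | ⟨k1, k2, k3⟩⟩ := tri hC he hK
          · exact absurd ⟨e, he, x, hx, y, hy, z, hz, hxy, hxz, hyz, h⟩ hmono
          · have hz3 : 3 ≤ zE H e (OO X M) := by
              rw [← Finset.card_eq_three.2 ⟨x, y, z, hxy, hxz, hyz, rfl⟩]
              apply Finset.card_le_card
              intro w hw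
              simp only [Finset.mem_insert, Finset.mem_singleton] at hw
              rw [Finset.mem_filter]
              rcases hw with rfl | rfl | rfl
              · exact ⟨hx, k1⟩
              · exact ⟨hy, k2⟩
              · exact ⟨hz, k3⟩
            have he' := lk_card_le hC e
            have hm4 : m < 5 := by omega
            interval_cases m
            · simp at he'
              simp [he']
            · simp at he'
              simp [he']
            · have c1 : Nat.choose 2 2 = 1 := by decide
              rw [c1] at he'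
              omega
            · have c1 : Nat.choose 3 2 = 3 := by decide
              rw [c1] at he'
              norm_num
              omega
            · have c1 : Nat.choose 4 2 = 6 := by decide
              rw [c1] at he'
              norm_num
              omega
      calc ∑ e ∈ M, (Lk H e (OO X M)).card ≤ ∑ e ∈ M, (m ^ 2 / 4 + zE H e (OO X M)) :=
            Finset.sum_le_sum hle
        _ = t * (m ^ 2 / 4) + ∑ e ∈ M, zE H e (OO X M) := by
            rw [Finset.sum_add_distrib, Finset.sum_const, hC.cardM, smul_eq_mul]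

end Pool.Agent.TUR
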