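import Pool.Agent.TUR.Defs

/-!
# TUR / LBD : the lower bound

Parts `A = [0,s)`, `B = [s, s+⌊(n-s)/2⌋)`, `C = [s+⌊(n-s)/2⌋, n)` of `Fin n` (`s ≤ n`); `H` is the set of all
`{a,b,c}`, `a ∈ A, b ∈ B, c ∈ C` (e.g. the image of `A ×ˢ B ×ˢ C`; the map is injective since the parts are
disjoint).  `|H| = s ⌊(n-s)/2⌋ ⌈(n-s)/2⌉ = s ((n-s)^2/4)`.
`F5`-free: an edge meets each part in exactly one vertex; if `abc, abd` are edges then `c` and `d` are in the
same part (the one containing neither `a` nor `b`), so no edge contains both.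
Matchings: different members of a matching have different (disjoint) traces on `A`, each nonempty: choose the
unique vertex in `A`: an injection of the matching into `A`, so its size is at most `s`.
-/

namespace Pool.Agent.TUR

open Finset

private def part (s k x : ℕ) : ℕ := if x < s then 0 else if x < s + k then 1 else 2

private theorem part_lt (s k x : ℕ) : part s k x < 3 := by
  unfold part
  split_ifs <;> omega

private theorem card_val {n : ℕ} (T : Finset ℕ) (hT : ∀ x ∈ T, x < n) :
    ((Finset.univ : Finset (Fin n)).filter (fun x : Fin n => (x : ℕ) ∈ T)).card = T.card := by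
  rw [← Finset.card_map Fin.valEmbedding]
  congr 1
  ext y
  simp only [Finset.mem_map, Finset.mem_filter, Finset.mem_univ, true_and, Fin.valEmbedding_apply]
  constructor
  · rintro ⟨a, ha, rfl⟩
    exact ha
  · intro hy
    exact ⟨⟨y, hT y hy⟩, hy, rfl⟩

/-- the part number `i` -/
private def PP (n s k i : ℕ) : Finset (Fin n) :=
  Finset.univ.filter (fun x => part s k (x : ℕ) = i)

private theorem card0 {n s k : ℕ} (hs : s ≤ n) : (PP n s k 0).card = s := by
  have h : PP n s k 0 = Finset.univ.filter (fun x : Fin n => (x : ℕ) ∈ Finset.range s) := by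
    unfold PP
    refine Finset.filter_congr fun x _ => ?_
    unfold part
    rw [Finset.mem_range]
    split_ifs <;> constructor <;> intro hh <;> first | omega | exact hh.elim
  rw [h, card_val _ (fun x hx => lt_of_lt_of_le (Finset.mem_range.1 hx) hs), Finset.card_range]

private theorem card1 {n s k : ℕ} (hs : s + k ≤ n) : (PP n s k 1).card = k := by
  have h : PP n s k 1 = Finset.univ.filter (fun x : Fin n => (x : ℕ) ∈ Finset.Ico s (s + k)) := by
    unfold PP
    refine Finset.filter_congr fun x _ => ?_
    unfold part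
    rw [Finset.mem_Ico]
    split_ifs <;> constructor <;> intro hh <;> first | omega | exact hh.elim
  rw [h, card_val _ (fun x hx => lt_of_lt_of_le (Finset.mem_Ico.1 hx).2 hs), Nat.card_Ico]
  omega

private theorem card2 {n s k : ℕ} (hs : s + k ≤ n) : (PP n s k 2).card = n - (s + k) := by
  have h : PP n s k 2 = Finset.univ.filter (fun x : Fin n => (x : ℕ) ∈ Finset.Ico (s + k) n) := by
    unfold PP
    refine Finset.filter_congr fun x _ => ?_
    have := x.2
    unfold part
    rw [Finset.mem_Ico]
    split_ifs <;> constructor <;> intro hh <;> first | omega | exact hh.elim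
  rw [h, card_val _ (fun x hx => (Finset.mem_Ico.1 hx).2), Nat.card_Ico]

/-- the complete 3-partite 3-graph -/
private def HH (n s k : ℕ) : Finset (Finset (Fin n)) :=
  (PP n s k 0 ×ˢ (PP n s k 1 ×ˢ PP n s k 2)).image (fun q => {q.1, q.2.1, q.2.2})

private theorem mem_HH {n s k : ℕ} {h : Finset (Fin n)} : h ∈ HH n s k ↔
    ∃ a b c : Fin n, part s k a = 0 ∧ part s k b = 1 ∧ part s k c = 2 ∧ ({a, b, c} : Finset (Fin n)) = h := by
  unfold HH PP
  simp only [Finset.mem_image, Finset.mem_product, Finset.mem_filter, Finset.mem_univ, true_and]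
  constructor
  · rintro ⟨⟨a, b, c⟩, ⟨ha, hb, hc⟩, rfl⟩
    exact ⟨a, b, c, ha, hb, hc, rfl⟩
  · rintro ⟨a, b, c, ha, hb, hc, rfl⟩
    exact ⟨(a, b, c), ⟨ha, hb, hc⟩, rfl⟩

private theorem part_ne {n s k : ℕ} {h : Finset (Fin n)} (hh : h ∈ HH n s k) {x y : Fin n}
    (hx : x ∈ h) (hy : y ∈ h) (hxy : x ≠ y) : part s k x ≠ part s k y := by
  obtain ⟨a, b, c, ha, hb, hc, rfl⟩ := mem_HH.1 hh
  simp only [Finset.mem_insert, Finset.mem_singleton] at hx hy
  rcases hx with rfl | rfl | rfl <;> rcases hy with rfl | rfl | rfl <;>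
    first
      | exact absurd rfl hxy
      | omega

theorem lbd (n s : ℕ) (hs : s ≤ n) :
    ∃ H : Finset (Finset (Fin n)), (∀ h ∈ H, h.card = 3) ∧ F5Free H ∧
      (∀ M : Finset (Finset (Fin n)), Mat H M → M.card ≤ s) ∧
      H.card = s * ((n - s) ^ 2 / 4) := by
  obtain ⟨k, hk⟩ : ∃ k, k = (n - s) / 2 := ⟨_, rfl⟩
  have hkn : s + k ≤ n := by omega
  refine ⟨HH n s k, ?_, ?_, ?_, ?_⟩
  · intro h hh
    obtain ⟨a, b, c, ha, hb, hc, rfl⟩ := mem_HH.1 hh
    refine Finset.card_eq_three.2 ⟨a, b, c, ?_, ?_, ?_, rfl⟩
    · rintro rfl; omega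
    · rintro rfl; omega
    · rintro rfl; omega
  · intro a b c d e hab hac had hae hbc hbd hbe hcd hce hde h1 h2 h3
    have e1 := part_ne h1 (x := a) (y := b) (by simp) (by simp) hab
    have e2 := part_ne h1 (x := a) (y := c) (by simp) (by simp) hac
    have e3 := part_ne h1 (x := b) (y := c) (by simp) (by simp) hbc
    have e4 := part_ne h2 (x := a) (y := d) (by simp) (by simp) had
    have e5 := part_ne h2 (x := b) (y := d) (by simp) (by simp) hbd
    have e6 := part_ne h3 (x := c) (y := d) (by simp) (by simp) hcd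
    have l1 := part_lt s k a
    have l2 := part_lt s k b
    have l3 := part_lt s k c
    have l4 := part_lt s k d
    omega
  · intro M hM
    have hne : ∀ h ∈ M, (h ∩ PP n s k 0).Nonempty := by
      intro h hh
      obtain ⟨a, b, c, ha, hb, hc, rfl⟩ := mem_HH.1 (hM.1 hh)
      refine ⟨a, Finset.mem_inter.2 ⟨by simp, ?_⟩⟩
      unfold PP
      rw [Finset.mem_filter]
      exact ⟨Finset.mem_univ _, ha⟩
    have hpd : (M : Set (Finset (Fin n))).PairwiseDisjoint (fun h => h ∩ PP n s k 0) := by
      intro h hh h' hh' hne'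
      exact (hM.2 h hh h' hh' hne').mono Finset.inter_subset_left Finset.inter_subset_left
    refine (Finset.card_le_card_biUnion hpd hne).trans ?_
    refine (Finset.card_le_card (Finset.biUnion_subset.2 fun h _ => Finset.inter_subset_right)).trans ?_
    rw [card0 hs]
  · unfold HH
    rw [Finset.card_image_of_injOn, Finset.card_product, Finset.card_product, card0 hs, card1 hkn,
      card2 hkn]
    · congr 1
      rcases Nat.even_or_odd' (n - s) with ⟨j, hj | hj⟩
      · have hkj : k = j := by omega
        have h2 : n - (s + k) = j := by omega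
        rw [h2, hkj, hj]
        have : (2 * j) ^ 2 = 4 * (j * j) := by ring
        rw [this, Nat.mul_div_cancel_left _ (by norm_num)]
      · have hkj : k = j := by omega
        have h2 : n - (s + k) = j + 1 := by omega
        rw [h2, hkj, hj]
        have : (2 * j + 1) ^ 2 = 4 * (j * (j + 1)) + 1 := by ring
        rw [this]
        omega
    · rintro ⟨a, b, c⟩ h1 ⟨a', b', c'⟩ h2 heq
      simp only [PP, Finset.coe_product, Set.mem_prod, Finset.mem_coe, Finset.mem_filter,
        Finset.mem_univ, true_and] at h1 h2 heq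
      obtain ⟨ha, hb, hc⟩ := h1
      obtain ⟨ha', hb', hc'⟩ := h2
      have m1 : a ∈ ({a', b', c'} : Finset (Fin n)) := by rw [← heq]; simp
      have m2 : b ∈ ({a', b', c'} : Finset (Fin n)) := by rw [← heq]; simp
      have m3 : c ∈ ({a', b', c'} : Finset (Fin n)) := by rw [← heq]; simp
      simp only [Finset.mem_insert, Finset.mem_singleton] at m1 m2 m3
      have r1 : a = a' := by
        rcases m1 with h | h | h
        · exact h
        · rw [h] at ha; omega
        · rw [h] at ha; omega
      have r2 : b = b' := by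
        rcases m2 with h | h | h
        · rw [h] at hb; omega
        · exact h
        · rw [h] at hb; omega
      have r3 : c = c' := by
        rcases m3 with h | h | h
        · rw [h] at hc; omega
        · rw [h] at hc; omega
        · exact h
      rw [r1, r2, r3]

end Pool.Agent.TUR
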