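import Pool.Agent.TUR.ABO
import Pool.Agent.TUR.DECB
import Pool.Agent.TUR.EPR

/-!
# TUR / LOW : matching number at most 2

`low_dg3`: `e ∈ H`, `dg H e o = 3`, `o ∉ e`, i.e. `e = {a,b,c}` and `abo, aco, bco ∈ H`.  Then no other
`o' ∉ e` has `dg H e o' ≠ 0`: if e.g. `abo' ∈ H`: `coa, cob ∈ H` and `abo' ∈ H` give
`o' ∈ {c,o}` (`Good.key`), so `o' = o`.

`low1` (`t = 1`, `M = {e}`, `m ≥ 9`): by `dec`: `2|H| ≤ 2 AA + ∑_o 2 dg H e o + 2 |Lk H e O|`
(`M.offDiag = ∅`).  `AA ≤ 1` (an edge inside `VM M = e` is `e`), `|Lk H e O| ≤ C(m,2)`,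
`∑_o dg H e o ≤ 2m` (if some `dg = 3`, all others are `0` by `low_dg3`; otherwise all are `≤ 2`).
So `|H| ≤ 1 + 2m + C(m,2) ≤ 3 ⌊m^2/4⌋` for `m ≥ 9`  (`3 ⌊m^2/4⌋ ≥ 3(m^2-1)/4`; `m = 9`: `55 ≤ 60`).
`X.card = 3 + m`, so `(X.card - 3)^2/4 = m^2/4`.

`low2` (`t = 2`, `M = {e,f}`, `m ≥ 6`): `abound` applies: `VM (M.erase e) = f` has only 3 elements, so
`NoK4` is trivial; `2 AA ≤ 16`.  For `o ∈ O`: `ℓ(o) := dg H e o + dg H f o + off H e f o ≤ 3 + min (dg H e o) (dg H f o)`
(`off_add_dg`, `off_comm`), where `2 ∑ dg + ∑_{offDiag} off = 2 ℓ(o)`.  If some `ℓ(o) ≥ 6`, then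
`dg H e o = dg H f o = 3` and by `low_dg3` every other `o'` has `ℓ(o') = off ≤ 3`:
`∑ ℓ ≤ 6 + 3(m-1) ≤ 5m`.  Otherwise `∑ ℓ ≤ 5m`.  `epr`: `|Lk e| + |Lk f| ≤ 2⌊m^2/4⌋`.
So `|H| ≤ 8 + 5m + 2⌊m^2/4⌋ ≤ 3⌊(m+3)^2/4⌋` for `m ≥ 6` (`X.card - 3 = m + 3`).

`low`: `t = 0`: `M = ∅`, `OO X M = X`, so `H = ∅` by `aug0`.
-/

namespace Pool.Agent.TUR

open Finset

variable {V : Type} [DecidableEq V] {X : Finset V} {H M : Finset (Finset V)} {t m : ℕ}

private theorem erase_rep (hG : Good X H) {e : Finset V} (he : e ∈ H) {r : V} (hr : r ∈ e) :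
    ∃ p q : V, p ∈ e ∧ q ∈ e ∧ e.erase r = {p, q} ∧ e.erase p = {r, q} ∧ e.erase q = {r, p} := by
  have hc : (e.erase r).card = 2 := by rw [Finset.card_erase_of_mem hr, hG.card3 e he]
  obtain ⟨p, q, hpq, h⟩ := Finset.card_eq_two.1 hc
  have hp : p ∈ e.erase r := by rw [h]; simp
  have hq : q ∈ e.erase r := by rw [h]; simp
  rw [Finset.mem_erase] at hp hq
  have he' : e = {r, p, q} := by rw [← Finset.insert_erase hr, h]
  refine ⟨p, q, hp.2, hq.2, h, ?_, ?_⟩
  · rw [he', Finset.insert_comm, Finset.erase_insert (by simp [hp.1, hpq])]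
  · rw [he', Finset.pair_comm p q, Finset.insert_comm,
      Finset.erase_insert (by simp [hq.1, hpq.symm])]

theorem low_dg3 (hG : Good X H) {e : Finset V} (he : e ∈ H) {o o' : V} (ho : o ∉ e)
    (ho' : o' ∉ e) (hne : o ≠ o') (h3 : dg H e o = 3) : dg H e o' = 0 := by
  unfold dg at h3 ⊢
  have hall : e.filter (fun r => insert o (e.erase r) ∈ H) = e :=
    Finset.eq_of_subset_of_card_le (Finset.filter_subset _ _) (by rw [h3, hG.card3 e he])
  rw [Finset.card_eq_zero, Finset.filter_eq_empty_iff]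
  intro r hr hH
  obtain ⟨p, q, hp, hq, e1, e2, e3⟩ := erase_rep hG he hr
  have hp' : insert o (e.erase p) ∈ H := by
    rw [← hall] at hp
    exact (Finset.mem_filter.1 hp).2
  have hq' : insert o (e.erase q) ∈ H := by
    rw [← hall] at hq
    exact (Finset.mem_filter.1 hq).2
  rw [e2] at hp'
  rw [e3] at hq'
  rw [e1] at hH
  have k1 : Ed H o r q := hp'
  have k2 : Ed H o r p := hq'
  have k3 : Ed H o' p q := hH
  rcases hG.key k1.swap12 k2.swap12 k3.swap13 with h | h
  · exact ho' (h ▸ hr)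
  · exact hne h.symm

private theorem Lk_card_le {e W : Finset V} : 2 * (Lk H e W).card ≤ W.card * (W.card - 1) := by
  have h : (Lk H e W).card ≤ (W.powersetCard 2).card := Finset.card_le_card (Finset.filter_subset _ _)
  rw [Finset.card_powersetCard, Nat.choose_two_right] at h
  have := Nat.mul_div_le (W.card * (W.card - 1)) 2
  omega

theorem low1 (hC : Cfg X H M 1 m) (hm : 9 ≤ m) : H.card ≤ 3 * (m ^ 2 / 4) := by
  obtain ⟨e, rfl⟩ := Finset.card_eq_one.1 hC.cardM
  have heM : e ∈ ({e} : Finset (Finset V)) := Finset.mem_singleton_self e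
  have heH : e ∈ H := hC.mat.1 heM
  have hdec := dec hC
  have hAA : AA H {e} ≤ 1 := by
    unfold AA
    rw [← Finset.card_singleton e]
    refine Finset.card_le_card fun h hh => ?_
    rw [Finset.mem_filter] at hh
    have hs : h ⊆ e := by
      intro x hx
      obtain ⟨e', he', hx'⟩ := mem_VM.1 (hh.2 hx)
      rw [Finset.mem_singleton] at he'
      exact he' ▸ hx'
    rw [Finset.mem_singleton]
    exact Finset.eq_of_subset_of_card_le hs (by rw [hC.good.card3 e heH, hC.good.card3 h hh.1])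
  have hod : ({e} : Finset (Finset V)).offDiag = ∅ := by simp
  have hO : ∀ o ∈ OO X {e}, o ∉ e := fun o ho => (mem_OO.1 ho).2 e heM
  have hcO : (OO X {e}).card = m := hC.card_OO
  have hsum : ∑ o ∈ OO X {e}, dg H e o ≤ 2 * m := by
    by_cases hex : ∃ o ∈ OO X {e}, dg H e o = 3
    · obtain ⟨o, ho, h3⟩ := hex
      rw [← Finset.add_sum_erase _ _ ho, h3]
      have : ∑ x ∈ (OO X {e}).erase o, dg H e x = 0 := by
        refine Finset.sum_eq_zero fun x hx => ?_
        rw [Finset.mem_erase] at hx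
        exact low_dg3 hC.good heH (hO o ho) (hO x hx.2) (Ne.symm hx.1) h3
      omega
    · push Not at hex
      have : ∑ o ∈ OO X {e}, dg H e o ≤ (OO X {e}).card • 2 := by
        refine Finset.sum_le_card_nsmul _ _ _ fun o ho => ?_
        have h1 := hex o ho
        have h2 := dg_le hC.good heH o
        omega
      rw [hcO, smul_eq_mul] at this
      omega
  have hLk := Lk_card_le (H := H) (e := e) (W := OO X {e})
  rw [hcO] at hLk
  rw [hod] at hdec
  simp only [Finset.sum_singleton, Finset.sum_empty, add_zero] at hdec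
  rw [← Finset.mul_sum] at hdec
  have hmm : m * (m - 1) = m ^ 2 - m := by
    rw [Nat.mul_sub, mul_one, pow_two]
  rw [hmm] at hLk
  have hq : m ^ 2 ≤ 4 * (m ^ 2 / 4) + 3 := by omega
  have hmle : 9 * m ≤ m ^ 2 := by nlinarith
  omega

private theorem low_abound (hC : Cfg X H M 2 m) {e f : Finset V} (hM : M = {e, f})
    (hef : e ≠ f) : AA H M ≤ 8 := by
  have hk : ∀ g ∈ M, NoK4 (Lk H g (VM (M.erase g))) := by
    intro g hg w1 w2 w3 w4 n12 n13 n14 n23 n24 n34 h12 h13 h14 h23 h24 h34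
    rw [pair_mem_Lk n12] at h12
    rw [pair_mem_Lk n34] at h34
    have hc : (VM (M.erase g)).card = 3 := by
      have hMat : Mat H (M.erase g) := hC.mat.subset (Finset.erase_subset _ _)
      rw [hMat.card_VM hC.good, Finset.card_erase_of_mem hg, hC.cardM]
    have hsub : ({w1, w2, w3, w4} : Finset V) ⊆ VM (M.erase g) := by
      intro w hw
      simp only [Finset.mem_insert, Finset.mem_singleton] at hw
      rcases hw with rfl | rfl | rfl | rfl
      · exact h12.1
      · exact h12.2.1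
      · exact h34.1
      · exact h34.2.1
    have hc4 : ({w1, w2, w3, w4} : Finset V).card = 4 := by
      rw [Finset.card_insert_of_notMem (by simp [n12, n13, n14]),
        Finset.card_insert_of_notMem (by simp [n23, n24]), Finset.card_pair n34]
    have := Finset.card_le_card hsub
    omega
  have := abound hC hk
  omega

private theorem low_ell (hC : Cfg X H M 2 m) (hm : 6 ≤ m) {e f : Finset V} (he : e ∈ M)
    (hf : f ∈ M) (hef : e ≠ f) :
    ∑ o ∈ OO X M, (dg H e o + dg H f o + off H e f o) ≤ 5 * m := by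
  have heH : e ∈ H := hC.mat.1 he
  have hfH : f ∈ H := hC.mat.1 hf
  have hd : Disjoint e f := hC.mat.2 e he f hf hef
  have hOe : ∀ o ∈ OO X M, o ∉ e := fun o ho => (mem_OO.1 ho).2 e he
  have hOf : ∀ o ∈ OO X M, o ∉ f := fun o ho => (mem_OO.1 ho).2 f hf
  have hcO : (OO X M).card = m := hC.card_OO
  have k1 : ∀ o ∈ OO X M, off H e f o + dg H e o ≤ 3 := fun o ho =>
    off_add_dg hC.good heH hfH hd (hOe o ho) (hOf o ho)
  have k2 : ∀ o ∈ OO X M, off H e f o + dg H f o ≤ 3 := by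
    intro o ho
    rw [off_comm]
    exact off_add_dg hC.good hfH heH hd.symm (hOf o ho) (hOe o ho)
  by_cases hex : ∃ o ∈ OO X M, 6 ≤ dg H e o + dg H f o + off H e f o
  · obtain ⟨o, ho, h6⟩ := hex
    have j1 := k1 o ho
    have j2 := k2 o ho
    have d1 : dg H e o = 3 := by omega
    have d2 : dg H f o = 3 := by omega
    rw [← Finset.add_sum_erase _ _ ho]
    have hle : ∑ x ∈ (OO X M).erase o, (dg H e x + dg H f x + off H e f x) ≤
        ((OO X M).erase o).card • 3 := by
      refine Finset.sum_le_card_nsmul _ _ _ fun x hx => ?_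
      rw [Finset.mem_erase] at hx
      have z1 := low_dg3 hC.good heH (hOe o ho) (hOe x hx.2) (Ne.symm hx.1) d1
      have z2 := low_dg3 hC.good hfH (hOf o ho) (hOf x hx.2) (Ne.symm hx.1) d2
      have j3 := k1 x hx.2
      omega
    rw [Finset.card_erase_of_mem ho, hcO, smul_eq_mul] at hle
    omega
  · push Not at hex
    have hle : ∑ x ∈ OO X M, (dg H e x + dg H f x + off H e f x) ≤ (OO X M).card • 5 := by
      refine Finset.sum_le_card_nsmul _ _ _ fun x hx => ?_
      have := hex x hx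
      omega
    rw [hcO, smul_eq_mul] at hle
    omega

theorem low2 (hC : Cfg X H M 2 m) (hm : 6 ≤ m) : H.card ≤ 3 * ((m + 3) ^ 2 / 4) := by
  obtain ⟨e, f, hef, hM⟩ := Finset.card_eq_two.1 hC.cardM
  have he : e ∈ M := by rw [hM]; simp
  have hf : f ∈ M := by rw [hM]; simp
  have hdec := dec hC
  have hAA := low_abound hC hM hef
  have hell := low_ell hC hm he hf hef
  have hepr := epr hC (by omega) he hf hef
  have hod : M.offDiag = {(e, f), (f, e)} := by
    rw [hM]
    ext ⟨x, y⟩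
    simp only [Finset.mem_offDiag, Finset.mem_insert, Finset.mem_singleton, Prod.mk.injEq]
    constructor
    · rintro ⟨rfl | rfl, rfl | rfl, hne⟩
      · exact absurd rfl hne
      · exact Or.inl ⟨rfl, rfl⟩
      · exact Or.inr ⟨rfl, rfl⟩
      · exact absurd rfl hne
    · rintro (⟨rfl, rfl⟩ | ⟨rfl, rfl⟩)
      · exact ⟨Or.inl rfl, Or.inr rfl, hef⟩
      · exact ⟨Or.inr rfl, Or.inl rfl, Ne.symm hef⟩
  have hfun : ∀ o, 2 * ∑ g ∈ M, dg H g o + ∑ q ∈ M.offDiag, off H q.1 q.2 o =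
      2 * (dg H e o + dg H f o + off H e f o) := by
    intro o
    have hne : ((e, f) : Finset V × Finset V) ≠ (f, e) := by
      intro h
      exact hef (Prod.mk.inj h).1
    rw [hod, Finset.sum_pair hne, hM, Finset.sum_pair hef]
    simp only
    rw [off_comm H f e o]
    ring
  have hLk : ∑ g ∈ M, (Lk H g (OO X M)).card =
      (Lk H e (OO X M)).card + (Lk H f (OO X M)).card := by
    conv_lhs => rw [hM, Finset.sum_pair hef]
    rw [hM]
  rw [Finset.sum_congr rfl (fun o _ => hfun o), ← Finset.mul_sum, hLk] at hdec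
  have hq : (m + 3) ^ 2 ≤ 4 * ((m + 3) ^ 2 / 4) + 3 := by omega
  have hq2 : 4 * (m ^ 2 / 4) ≤ m ^ 2 := Nat.mul_div_le _ _
  have hexp : (m + 3) ^ 2 = m ^ 2 + 6 * m + 9 := by ring
  have hmle : 6 * m ≤ m ^ 2 := by nlinarith
  omega

theorem low (hC : Cfg X H M t m) (ht : t ≤ 2) (hX : 12 ≤ X.card) :
    H.card ≤ 3 * ((X.card - 3) ^ 2 / 4) := by
  have hXc := hC.cardX
  interval_cases t
  · have hM : M = ∅ := Finset.card_eq_zero.1 hC.cardM
    have hH : H = ∅ := by
      rw [Finset.eq_empty_iff_forall_notMem]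
      intro h hh
      refine aug0 hC hh ?_
      intro x hx
      rw [mem_OO]
      refine ⟨hC.good.sub h hh hx, ?_⟩
      intro e he
      rw [hM] at he
      simp at he
    rw [hH]
    simp
  · have h1 := low1 hC (by omega)
    have h2 : X.card - 3 = m := by omega
    rw [h2]
    exact h1
  · have h1 := low2 hC (by omega)
    have h2 : X.card - 3 = m + 3 := by omega
    rw [h2]
    exact h1

end Pool.Agent.TUR
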