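import Pool.Agent.TUR.T4
import Pool.Agent.TUR.LOW
import Pool.Agent.TUR.LBD

/-!
# TUR / FIN : the upper bound for all `s ≥ 3`, `n ≥ 3(s+1)`
-/

namespace Pool.Agent.TUR

open Finset

theorem fin_step (t N : ℕ) (h : 2 * t + 1 ≤ N) :
    t * (N ^ 2 / 4) ≤ (t + 1) * ((N - 1) ^ 2 / 4) := by
  obtain ⟨k, hk⟩ : ∃ k, N = 2 * k ∨ N = 2 * k + 1 := ⟨N / 2, by omega⟩
  rcases hk with rfl | rfl
  · -- N = 2k, k ≥ t + 1
    obtain ⟨j, rfl⟩ : ∃ j, k = j + 1 := ⟨k - 1, by omega⟩
    have h1 : (2 * (j + 1)) ^ 2 / 4 = (j + 1) ^ 2 := by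
      rw [show (2 * (j + 1)) ^ 2 = 4 * (j + 1) ^ 2 by ring]; omega
    have h2 : (2 * (j + 1) - 1) ^ 2 / 4 = j * (j + 1) := by
      have : 2 * (j + 1) - 1 = 2 * j + 1 := by omega
      rw [this, show (2 * j + 1) ^ 2 = 4 * (j * (j + 1)) + 1 by ring]; omega
    rw [h1, h2]
    have ht : t ≤ j := by omega
    nlinarith
  · -- N = 2k+1, k ≥ t
    have h1 : (2 * k + 1) ^ 2 / 4 = k * (k + 1) := by
      rw [show (2 * k + 1) ^ 2 = 4 * (k * (k + 1)) + 1 by ring]; omega
    have h2 : (2 * k + 1 - 1) ^ 2 / 4 = k ^ 2 := by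
      have : 2 * k + 1 - 1 = 2 * k := by omega
      rw [this, show (2 * k) ^ 2 = 4 * k ^ 2 by ring]; omega
    rw [h1, h2]
    have ht : t ≤ k := by omega
    nlinarith

theorem fin_mono (n t s : ℕ) (hts : t ≤ s) (hn : 3 * s ≤ n) :
    t * ((n - t) ^ 2 / 4) ≤ s * ((n - s) ^ 2 / 4) := by
  induction s, hts using Nat.le_induction with
  | base => exact le_rfl
  | succ s hs ih =>
    refine (ih (by omega)).trans ?_
    have := fin_step s (n - s) (by omega)
    rwa [show n - s - 1 = n - (s + 1) by omega] at this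

theorem fin_upper (n s : ℕ) (hs : 3 ≤ s) (hn : 3 * (s + 1) ≤ n) (H : Finset (Finset (Fin n)))
    (h3 : ∀ h ∈ H, h.card = 3) (hF : F5Free H)
    (hM : ∀ M : Finset (Finset (Fin n)), Mat H M → M.card ≤ s) :
    H.card ≤ s * ((n - s) ^ 2 / 4) := by
  obtain ⟨M, hMm, hmax⟩ := exists_max H
  have hG : Good (Finset.univ : Finset (Fin n)) H := ⟨h3, fun _ _ => Finset.subset_univ _, hF⟩
  have hcard : 3 * M.card ≤ n := by
    rw [← hMm.card_VM hG]
    exact (Finset.card_le_univ _).trans (le_of_eq (Fintype.card_fin n))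
  have hC : Cfg (Finset.univ : Finset (Fin n)) H M M.card (n - 3 * M.card) := by
    refine ⟨hG, hMm, rfl, hmax, ?_⟩
    rw [Finset.card_univ, Fintype.card_fin]; omega
  have hts := hM M hMm
  by_cases ht : 3 ≤ M.card
  · have h1 := ps_all (Fin n) M.card (n - 3 * M.card) ht _ _ _ hC
    unfold gg at h1
    rw [show 2 * M.card + (n - 3 * M.card) = n - M.card by omega] at h1
    exact h1.trans (fin_mono n M.card s hts (by omega))
  · have h1 := low hC (by omega) (by rw [Finset.card_univ, Fintype.card_fin]; omega)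
    rw [Finset.card_univ, Fintype.card_fin] at h1
    exact h1.trans (fin_mono n 3 s hs (by omega))

end Pool.Agent.TUR
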