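import Pool.Agent.TUR.LOC

/-!
# TUR / KFO : a `K_4` in the union of the links of `e` is a `K_4` in one link or a Fano plane

Suppose `Lk H e W` contains a `K_4` on distinct `w1,..,w4 ∈ W` (`W` disjoint from `e`, `e ∈ H`).
Every pair `{wi,wj}` has a colour `p ∈ e` with `Ed H p wi wj` (`pair_mem_Lk`), unique by
`lk_color`.  By `lk_tri`, if two edges of a triangle have the same colour then so has the third.

Case 1: `w1w2` and `w1w3` have the same colour `p`: then also `w2w3`.  If one of `w1w4,w2w4,w3w4`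
has colour `p`, all six have colour `p`: `Mono`.  Otherwise two of the three edges at `w4` have the
same colour (only two other colours in `e`), say `w1w4,w2w4` colour `q ≠ p`: then `w1w2` has
colour `q`, contradiction.
In the same way: whenever two adjacent edges have the same colour, the triangle is monochromatic and
we get `Mono` (by symmetry; it is convenient to prove the case of a monochromatic triangle
`x,y,z` and a fourth vertex `u` as a lemma for arbitrary names, and to note that `Mono` can be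
permuted).
Case 2: adjacent edges always have different colours: `w1w2,w1w3,w1w4` have three different colours
`a,b,c`, so `e = {a,b,c}` (`e.card = 3`).  `w3w4` is adjacent to `w1w3` and `w1w4`, so it has colour
`a`; similarly `w2w4` has colour `b` (adjacent to `w1w2 : a` and `w1w4 : c`), `w2w3` has colour `c`.
So `Fano H a b c w1 w2 w3 w4`.
-/

namespace Pool.Agent.TUR

open Finset

variable {V : Type} [DecidableEq V] {X : Finset V} {H : Finset (Finset V)}

private theorem mono_of_tri (hG : Good X H) {e : Finset V} (he : e ∈ H) {x y z u p qx qy qz : V}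
    (hxy : x ≠ y) (hxz : x ≠ z) (hxu : x ≠ u) (hyz : y ≠ z) (hyu : y ≠ u) (hzu : z ≠ u)
    (hx : x ∉ e) (hy : y ∉ e) (hz : z ∉ e) (hu : u ∉ e) (hp : p ∈ e)
    (hqx : qx ∈ e) (hqy : qy ∈ e) (hqz : qz ∈ e)
    (h1 : Ed H p x y) (h2 : Ed H p x z) (h3 : Ed H p y z)
    (k1 : Ed H qx x u) (k2 : Ed H qy y u) (k3 : Ed H qz z u) : Mono H p x y z u := by
  have hall : qx = p ∧ qy = p ∧ qz = p := by
    by_cases c1 : qx = p
    · subst c1
      exact ⟨rfl, lk_tri hG hqy hx h1 k1 k2, lk_tri hG hqz hx h2 k1 k3⟩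
    by_cases c2 : qy = p
    · subst c2
      exact absurd (lk_tri hG hqx hy h1.swap23 k2 k1) c1
    by_cases c3 : qz = p
    · subst c3
      exact absurd (lk_tri hG hqx hz h2.swap23 k3 k1) c1
    exfalso
    have hcard : (e.erase p).card = 2 := by
      rw [Finset.card_erase_of_mem hp, hG.card3 e he]
    have e1 : qx ∈ e.erase p := Finset.mem_erase.2 ⟨c1, hqx⟩
    have e2 : qy ∈ e.erase p := Finset.mem_erase.2 ⟨c2, hqy⟩
    have e3 : qz ∈ e.erase p := Finset.mem_erase.2 ⟨c3, hqz⟩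
    have n12 : qx ≠ qy := by
      rintro rfl
      exact c1 (lk_tri hG hp hu k1.swap23 k2.swap23 h1).symm
    have n13 : qx ≠ qz := by
      rintro rfl
      exact c1 (lk_tri hG hp hu k1.swap23 k3.swap23 h2).symm
    have n23 : qy ≠ qz := by
      rintro rfl
      exact c2 (lk_tri hG hp hu k2.swap23 k3.swap23 h3).symm
    have hsub : ({qx, qy, qz} : Finset V) ⊆ e.erase p := by
      intro w hw
      simp only [Finset.mem_insert, Finset.mem_singleton] at hw
      rcases hw with rfl | rfl | rfl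
      · exact e1
      · exact e2
      · exact e3
    have := Finset.card_le_card hsub
    rw [hcard, Finset.card_eq_three.2 ⟨qx, qy, qz, n12, n13, n23, rfl⟩] at this
    omega
  obtain ⟨r1, r2, r3⟩ := hall
  subst r1
  subst r2
  subst r3
  have npx : qz ≠ x := by rintro rfl; exact hx hp
  have npy : qz ≠ y := by rintro rfl; exact hy hp
  have npz : qz ≠ z := by rintro rfl; exact hz hp
  have npu : qz ≠ u := by rintro rfl; exact hu hp
  exact ⟨by simp [npx, npy, npz, npu, hxy, hxz, hxu, hyz, hyu, hzu], h1, h2, k1, h3, k2, k3⟩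

private theorem tri_or (hG : Good X H) {e : Finset V} {x y z a b c : V}
    (hx : x ∉ e) (hy : y ∉ e) (hz : z ∉ e) (ha : a ∈ e) (hb : b ∈ e) (hc : c ∈ e)
    (h1 : Ed H a x y) (h2 : Ed H b x z) (h3 : Ed H c y z) :
    (a = b ∧ a = c) ∨ (a ≠ b ∧ a ≠ c ∧ b ≠ c) := by
  by_cases c1 : a = b
  · subst c1
    exact Or.inl ⟨rfl, (lk_tri hG hc hx h1 h2 h3).symm⟩
  by_cases c2 : a = c
  · subst c2
    exact absurd (lk_tri hG hb hy h1.swap23 h3 h2).symm c1
  by_cases c3 : b = c
  · subst c3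
    exact absurd (lk_tri hG ha hz h2.swap23 h3.swap23 h1) c1
  exact Or.inr ⟨c1, c2, c3⟩

theorem k4_cases (hG : Good X H) {e : Finset V} (he : e ∈ H) (W : Finset V)
    (hW : Disjoint W e) :
    NoK4 (Lk H e W) ∨
    (∃ a w1 w2 w3 w4 : V, a ∈ e ∧ w1 ∈ W ∧ w2 ∈ W ∧ w3 ∈ W ∧ w4 ∈ W ∧ Mono H a w1 w2 w3 w4) ∨
    (∃ a b c w1 w2 w3 w4 : V, e = {a, b, c} ∧ w1 ∈ W ∧ w2 ∈ W ∧ w3 ∈ W ∧ w4 ∈ W ∧
      Fano H a b c w1 w2 w3 w4) := by
  by_cases hNo : NoK4 (Lk H e W)
  · exact Or.inl hNo
  right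
  unfold NoK4 at hNo
  push Not at hNo
  obtain ⟨w1, w2, w3, w4, n12, n13, n14, n23, n24, n34, h12, h13, h14, h23, h24, h34, -⟩ := hNo
  rw [pair_mem_Lk n12] at h12
  rw [pair_mem_Lk n13] at h13
  rw [pair_mem_Lk n14] at h14
  rw [pair_mem_Lk n23] at h23
  rw [pair_mem_Lk n24] at h24
  rw [pair_mem_Lk n34] at h34
  obtain ⟨m1, m2, p12, i12, E12⟩ := h12
  obtain ⟨-, m3, p13, i13, E13⟩ := h13
  obtain ⟨-, m4, p14, i14, E14⟩ := h14
  obtain ⟨-, -, p23, i23, E23⟩ := h23
  obtain ⟨-, -, p24, i24, E24⟩ := h24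
  obtain ⟨-, -, p34, i34, E34⟩ := h34
  have o1 : w1 ∉ e := Finset.disjoint_left.1 hW m1
  have o2 : w2 ∉ e := Finset.disjoint_left.1 hW m2
  have o3 : w3 ∉ e := Finset.disjoint_left.1 hW m3
  have o4 : w4 ∉ e := Finset.disjoint_left.1 hW m4
  rcases tri_or hG o1 o2 o3 i12 i13 i23 E12 E13 E23 with ⟨r1, r2⟩ | ⟨a1, a2, a3⟩
  · subst r1
    subst r2
    exact Or.inl ⟨p12, w1, w2, w3, w4, i12, m1, m2, m3, m4,
      mono_of_tri hG he n12 n13 n14 n23 n24 n34 o1 o2 o3 o4 i12 i14 i24 i34 E12 E13 E23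
        E14 E24 E34⟩
  rcases tri_or hG o1 o2 o4 i12 i14 i24 E12 E14 E24 with ⟨r1, r2⟩ | ⟨b1, b2, b3⟩
  · subst r1
    subst r2
    exact Or.inl ⟨p12, w1, w2, w4, w3, i12, m1, m2, m4, m3,
      mono_of_tri hG he n12 n14 n13 n24 n23 n34.symm o1 o2 o4 o3 i12 i13 i23 i34 E12 E14 E24
        E13 E23 E34.swap23⟩
  rcases tri_or hG o1 o3 o4 i13 i14 i34 E13 E14 E34 with ⟨r1, r2⟩ | ⟨c1, c2, c3⟩
  · subst r1
    subst r2
    exact Or.inl ⟨p13, w1, w3, w4, w2, i13, m1, m3, m4, m2,
      mono_of_tri hG he n13 n14 n12 n34 n23.symm n24.symm o1 o3 o4 o2 i13 i12 i23 i24 E13 E14 E34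
        E12 E23.swap23 E24.swap23⟩
  rcases tri_or hG o2 o3 o4 i23 i24 i34 E23 E24 E34 with ⟨r1, r2⟩ | ⟨d1, d2, d3⟩
  · subst r1
    subst r2
    exact Or.inl ⟨p23, w2, w3, w4, w1, i23, m2, m3, m4, m1,
      mono_of_tri hG he n23 n24 n12.symm n34 n13.symm n14.symm o2 o3 o4 o1 i23 i12 i13 i14
        E23 E24 E34 E12.swap23 E13.swap23 E14.swap23⟩
  right
  have hsub : ({p12, p13, p14} : Finset V) ⊆ e := by
    intro w hw
    simp only [Finset.mem_insert, Finset.mem_singleton] at hw
    rcases hw with rfl | rfl | rfl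
    · exact i12
    · exact i13
    · exact i14
  have hcard : ({p12, p13, p14} : Finset V).card = 3 :=
    Finset.card_eq_three.2 ⟨p12, p13, p14, a1, b1, c1, rfl⟩
  have heq : ({p12, p13, p14} : Finset V) = e :=
    Finset.eq_of_subset_of_card_le hsub (by rw [hcard, hG.card3 e he])
  have j34 : p34 = p12 := by
    rw [← heq] at i34
    simp only [Finset.mem_insert, Finset.mem_singleton] at i34
    rcases i34 with h | h | h
    · exact h
    · exact absurd h.symm c2
    · exact absurd h.symm c3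
  have j24 : p24 = p13 := by
    rw [← heq] at i24
    simp only [Finset.mem_insert, Finset.mem_singleton] at i24
    rcases i24 with h | h | h
    · exact absurd h.symm b2
    · exact h
    · exact absurd h.symm b3
  have j23 : p23 = p14 := by
    rw [← heq] at i23
    simp only [Finset.mem_insert, Finset.mem_singleton] at i23
    rcases i23 with h | h | h
    · exact absurd h.symm a2
    · exact absurd h.symm a3
    · exact h
  rw [j34] at E34
  rw [j24] at E24
  rw [j23] at E23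
  have habc : Ed H p12 p13 p14 := by
    unfold Ed
    rw [heq]
    exact he
  have key : ∀ {p w : V}, p ∈ e → w ∉ e → p ≠ w := by
    intro p w hp hw h
    exact hw (h ▸ hp)
  refine ⟨p12, p13, p14, w1, w2, w3, w4, heq.symm, m1, m2, m3, m4,
    ⟨?_, habc, E12, E34, E13, E24, E14, E23⟩⟩
  simp [a1, b1, c1, key i12 o1, key i12 o2, key i12 o3, key i12 o4, key i13 o1, key i13 o2,
    key i13 o3, key i13 o4, key i14 o1, key i14 o2, key i14 o3, key i14 o4, n12, n13, n14, n23,
    n24, n34]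

end Pool.Agent.TUR
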