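import Pool.Agent.TUR.Defs

/-!
# TUR / MON : a `K_4` in the link of `a ∈ e ∈ M` inside the other members of `M` needs `t ≥ 5`

(k1) an edge `wi wj z` has `z = a` (as in XMO: `a wk wi, a wk wj` and `a wl wi, a wl wj` with `k,l` the
other two indices, `Good.key`).
Each `wi` is in some member `fi` of `M.erase e`.  If `fi = fj`, `i ≠ j`, then `fi = {wi,wj,v}` is an
edge, so `v = a` by (k1); but `a ∈ e` and `fi ≠ e` are disjoint.  So `f1,..,f4` are distinct members of
`M.erase e`, whose card is `t - 1`.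
-/

namespace Pool.Agent.TUR

open Finset

variable {V : Type} [DecidableEq V] {X : Finset V} {H M : Finset (Finset V)} {t m : ℕ}

private theorem MON_gen (hG : Good X H) {a u v k l z : V} (hkl : k ≠ l) (h1 : Ed H a u k)
    (h2 : Ed H a v k) (h3 : Ed H a u l) (h4 : Ed H a v l) (h : Ed H u v z) : z = a := by
  rcases hG.key h1.swap23 h2.swap23 h with h5 | h5
  · exact h5
  · rcases hG.key h3.swap23 h4.swap23 h with h6 | h6
    · exact h6
    · exact absurd (h5.symm.trans h6) hkl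

/-- Two elements of a member `f` of the matching with the property of `MON_gen` are equal. -/
private theorem MON_dis (hC : Cfg X H M t m) {e f : Finset V} (he : e ∈ M) {a u v k l : V}
    (ha : a ∈ e) (huv : u ≠ v) (hkl : k ≠ l) (h1 : Ed H a u k)
    (h2 : Ed H a v k) (h3 : Ed H a u l) (h4 : Ed H a v l) (hf : f ∈ M.erase e) (hu : u ∈ f)
    (hv : v ∈ f) : False := by
  have hfM : f ∈ M := Finset.mem_of_mem_erase hf
  have hfe : f ≠ e := Finset.ne_of_mem_erase hf
  have hc : f.card = 3 := hC.card_e hfM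
  have h5 : ({u, v} : Finset V) ⊆ f := by
    intro x hx
    rw [Finset.mem_insert, Finset.mem_singleton] at hx
    rcases hx with rfl | rfl
    · exact hu
    · exact hv
  have h6 : (f \ {u, v}).card = 1 := by
    rw [Finset.card_sdiff_of_subset h5, hc, Finset.card_pair huv]
  obtain ⟨z, hz⟩ := Finset.card_eq_one.1 h6
  have h7 : f = {u, v, z} := by
    have h8 : f = (f \ {u, v}) ∪ {u, v} := (Finset.sdiff_union_of_subset h5).symm
    rw [h8, hz]
    ext x
    simp only [Finset.mem_union, Finset.mem_insert, Finset.mem_singleton]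
    tauto
  have h9 : Ed H u v z := by
    show ({u, v, z} : Finset V) ∈ H
    rw [← h7]; exact hC.mat.1 hfM
  have h10 := MON_gen hC.good hkl h1 h2 h3 h4 h9
  have h11 : a ∈ f := by
    rw [h7, ← h10]; simp
  exact Finset.disjoint_left.1 (hC.mat.2 f hfM e he hfe) h11 ha

theorem mono_pair (hG : Good X H) {a w1 w2 w3 w4 z : V} (hm : Mono H a w1 w2 w3 w4)
    (h : Ed H w1 w2 z) : z = a := by
  have hnd := hm.nd
  simp only [List.nodup_cons, List.mem_cons, List.not_mem_nil, or_false, not_or] at hnd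
  exact MON_gen hG (by tauto) hm.e13 hm.e23 hm.e14 hm.e24 h

theorem mono_t (hC : Cfg X H M t m) {e : Finset V} (he : e ∈ M) {a w1 w2 w3 w4 : V}
    (ha : a ∈ e) (h1 : w1 ∈ VM (M.erase e)) (h2 : w2 ∈ VM (M.erase e))
    (h3 : w3 ∈ VM (M.erase e)) (h4 : w4 ∈ VM (M.erase e)) (hm : Mono H a w1 w2 w3 w4) :
    5 ≤ t := by
  have hnd := hm.nd
  simp only [List.nodup_cons, List.mem_cons, List.not_mem_nil, or_false, not_or] at hnd
  obtain ⟨⟨n1, n2, n3, n4⟩, ⟨n5, n6, n7⟩, ⟨n8, n9⟩, n10, -⟩ := hnd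
  obtain ⟨f1, hf1, k1⟩ := mem_VM.1 h1
  obtain ⟨f2, hf2, k2⟩ := mem_VM.1 h2
  obtain ⟨f3, hf3, k3⟩ := mem_VM.1 h3
  obtain ⟨f4, hf4, k4⟩ := mem_VM.1 h4
  have d12 : f1 ≠ f2 := fun hh => MON_dis hC he ha n5 n10 hm.e13 hm.e23 hm.e14 hm.e24 hf1 k1
    (hh ▸ k2)
  have d13 : f1 ≠ f3 := fun hh => MON_dis hC he ha n6 n9 hm.e12 hm.e23.swap23 hm.e14 hm.e34 hf1 k1
    (hh ▸ k3)
  have d14 : f1 ≠ f4 := fun hh => MON_dis hC he ha n7 n8 hm.e12 hm.e24.swap23 hm.e13
    hm.e34.swap23 hf1 k1 (hh ▸ k4)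
  have d23 : f2 ≠ f3 := fun hh => MON_dis hC he ha n8 n7 hm.e12.swap23 hm.e13.swap23 hm.e24
    hm.e34 hf2 k2 (hh ▸ k3)
  have d24 : f2 ≠ f4 := fun hh => MON_dis hC he ha n9 n6 hm.e12.swap23 hm.e14.swap23 hm.e23
    hm.e34.swap23 hf2 k2 (hh ▸ k4)
  have d34 : f3 ≠ f4 := fun hh => MON_dis hC he ha n10 n5 hm.e13.swap23 hm.e14.swap23
    hm.e23.swap23 hm.e24.swap23 hf3 k3 (hh ▸ k4)
  have hsub : ({f1, f2, f3, f4} : Finset (Finset V)) ⊆ M.erase e := by
    intro x hx
    simp only [Finset.mem_insert, Finset.mem_singleton] at hx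
    rcases hx with rfl | rfl | rfl | rfl <;> assumption
  have hc := Finset.card_le_card hsub
  have h4c : ({f1, f2, f3, f4} : Finset (Finset V)).card = 4 := by
    rw [Finset.card_insert_of_notMem, Finset.card_insert_of_notMem, Finset.card_pair d34]
    · simp only [Finset.mem_insert, Finset.mem_singleton, not_or]
      exact ⟨d23, d24⟩
    · simp only [Finset.mem_insert, Finset.mem_singleton, not_or]
      exact ⟨d12, d13, d14⟩
  rw [h4c, Finset.card_erase_of_mem he, hC.cardM] at hc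
  omega

end Pool.Agent.TUR
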