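import Pool.Agent.TUR.Defs

/-!
# TUR / NUX : numerical inequalities for the dense region

`nux1`: `N = 3t+m-5`, `δ = dl t m = t^2 + t⌊m/2⌋ + 1`.  Put `d = N - k`.  From
`4δ ≤ 12 + 4N - 3k + C(k,2)` and `k = N - d`: `4δ ≤ C(N,2) + N + 12 - d(2N-d-7)/2`, and `d ≤ N`
gives (1') `4δ ≤ C(N,2) + N + 12 - d(N-7)/2`.  The second is (2) `5δ ≤ 18 + 2N + 6d + C(N,2)`, i.e.
`12 d ≥ L := 10δ - 36 - N^2 - 3N`.  If `L > 0` and `N ≥ 7` then (1') times 24 gives
`96δ ≤ 12N(N+1) + 288 - L(N-7)`.  For `m = 2h`: `L = t^2 - tm - m^2 + 21t + 7m - 36` and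
`96δ - 12N(N+1) - 288 = -12(t+m)^2 + 324t + 108m - 432`; for odd `m`:
`L = t^2 - tm - m^2 + 16t + 7m - 36`, `96δ - 12N(N+1) - 288 = -12(t+m)^2 + 276t + 108m - 432`.
So a contradiction as soon as `L (3t+m-12) > 12(t+m)^2 - 276t - 108m + 432` and `L > 0`.
If `m ≤ 8` or `m^2/4 + 5 < 2m + 2t` (so `(m-4)^2 ≤ 8t`) this holds for `t ≥ 17` (checked for
`t ≤ 2000`); there `m ≤ t - 1`.  For `4 ≤ t ≤ 16` we have `m ≤ 15`; the inequality above holds except for
`(t,m) = (6,9), (9,11), (11,13), (12,13), (16,15)` (and the excluded pairs), where one checks `k`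
directly (`decide +kernel` on a bounded statement over `t, m, k` is possible for all `t ≤ 16`, or
`interval_cases`).  The statement has been checked by computer for `t ≤ 300`.
`nux3`: `14δ - 42 - 12N - N(N-1) = 5t^2 + tm - m^2 + 9t + 3m` (even `m`) or
`5t^2 + tm - m^2 + 2t + 3m` (odd `m`), where `N = 3t+m-7`; it is positive in the region
(`m ≤ 8`, or `m^2 ≤ 8t + 8m`...).  `Rg 4 m` means `m ≤ 9`.
-/

namespace Pool.Agent.TUR

private theorem nux_choose (k : ℕ) : (2 : ℤ) * (k.choose 2 : ℤ) = k * (k - 1) := by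
  induction k with
  | zero => simp
  | succ k ih =>
    rw [Nat.choose_succ_succ' k 1, Nat.choose_one_right]
    push_cast
    linarith

private theorem nux_choose' (k : ℕ) : k.choose 2 = k * (k - 1) / 2 := Nat.choose_two_right k

private def nuxB (t m k : ℕ) : Bool :=
  decide (4 ≤ t) && ((decide (m ≤ 8)) || (decide (m * m / 4 + 5 < 2 * m + 2 * t) &&
    decide (¬ (t = 5 ∧ m = 9)) && decide (¬ (t = 7 ∧ m = 11)) && decide (¬ (t = 8 ∧ m = 11)))) &&
    decide (¬ (t = 4 ∧ m = 9)) && decide (k + 5 ≤ 3 * t + m) &&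
    decide (4 * (t * t + t * (m / 2) + 1) + 3 * k ≤ 12 + 4 * (3 * t + m - 5) + k * (k - 1) / 2) &&
    decide (5 * (t * t + t * (m / 2) + 1) + 6 * k ≤
      18 + 8 * (3 * t + m - 5) + (3 * t + m - 5) * ((3 * t + m - 5) - 1) / 2)

private theorem nux_smallB : ∀ t < 17, ∀ m < 16, ∀ k < 60, nuxB t m k = false := by
  decide +kernel

private theorem nux_small (t : ℕ) (ht : t < 17) (m : ℕ) (hm : m < 16) (k : ℕ) (hk : k < 60) : ¬ (4 ≤ t ∧
    (m ≤ 8 ∨ (m * m / 4 + 5 < 2 * m + 2 * t ∧ ¬ (t = 5 ∧ m = 9) ∧ ¬ (t = 7 ∧ m = 11) ∧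
    ¬ (t = 8 ∧ m = 11))) ∧ ¬ (t = 4 ∧ m = 9) ∧ k + 5 ≤ 3 * t + m ∧
    4 * (t * t + t * (m / 2) + 1) + 3 * k ≤ 12 + 4 * (3 * t + m - 5) + k * (k - 1) / 2 ∧
    5 * (t * t + t * (m / 2) + 1) + 6 * k ≤
      18 + 8 * (3 * t + m - 5) + (3 * t + m - 5) * ((3 * t + m - 5) - 1) / 2) := by
  rintro ⟨h1, h2, h3, h4, h5, h6⟩
  have h := nux_smallB t ht m hm k hk
  have h' : nuxB t m k = true := by
    unfold nuxB
    rw [Bool.and_eq_true, Bool.and_eq_true, Bool.and_eq_true, Bool.and_eq_true, Bool.and_eq_true]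
    refine ⟨⟨⟨⟨⟨decide_eq_true h1, ?_⟩, decide_eq_true h3⟩, decide_eq_true h4⟩, decide_eq_true h5⟩,
      decide_eq_true h6⟩
    rw [Bool.or_eq_true, Bool.and_eq_true, Bool.and_eq_true, Bool.and_eq_true]
    rcases h2 with h2 | ⟨h2, h7, h8, h9⟩
    · exact Or.inl (decide_eq_true h2)
    · exact Or.inr ⟨⟨⟨decide_eq_true h2, decide_eq_true h7⟩, decide_eq_true h8⟩, decide_eq_true h9⟩
  rw [h] at h'
  exact absurd h' (by decide)

private theorem nux_mid : ∀ t < 47, ∀ m < 24, 17 ≤ t → m * m + 19 ≤ 8 * m + 8 * t →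
    12 * ((3 * t + m - 5) * (3 * t + m - 5)) + 12 * (3 * t + m - 5) + 288 +
      (36 + 3 * (3 * t + m - 5) + (3 * t + m - 5) * (3 * t + m - 5)) * (3 * t + m - 12) <
    96 * (t * t + t * (m / 2) + 1) + 10 * (t * t + t * (m / 2) + 1) * (3 * t + m - 12) := by
  decide +kernel

private theorem nux_region {t m : ℕ} (hR : Rg t m) (hm : 8 < m ∨ 17 ≤ t) :
    m * m + 19 ≤ 8 * m + 8 * t := by
  rcases hR with h | ⟨h, -⟩
  · rcases hm with h' | h'
    · omega
    · nlinarith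
  · have h1 : m * m < 4 * (m * m / 4) + 4 := by omega
    have h2 : 4 * (m * m / 4) + 20 < 8 * m + 8 * t := by omega
    rcases Nat.even_or_odd m with ⟨a, ha⟩ | ⟨a, ha⟩
    · have h3 : m * m / 4 = a * a := by
        rw [ha]
        have : (a + a) * (a + a) = 4 * (a * a) := by ring
        rw [this]
        omega
      have h4 : m * m = 4 * (a * a) := by rw [ha]; ring
      omega
    · have h3 : m * m / 4 = a * a + a := by
        rw [ha]
        have : (2 * a + 1) * (2 * a + 1) = 4 * (a * a + a) + 1 := by ring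
        rw [this]
        omega
      have h4 : m * m = 4 * (a * a + a) + 1 := by rw [ha]; ring
      omega

private theorem nux_key (δ N k : ℤ) (hN : 7 ≤ N) (hk : k ≤ N) (hk0 : 0 ≤ k)
    (h1 : 8 * δ + 6 * k ≤ 24 + 8 * N + k * (k - 1))
    (h2 : 10 * δ + 12 * k ≤ 36 + 16 * N + N * (N - 1)) :
    96 * δ + 10 * δ * (N - 7) ≤ 12 * (N * N) + 12 * N + 288 + (36 + 3 * N + N * N) * (N - 7) := by
  have h3 : 8 * δ ≤ 24 + N + N * N - (N - k) * (N - 7) := by nlinarith
  have h4 : (10 * δ - (36 + 3 * N + N * N)) * (N - 7) ≤ 12 * (N - k) * (N - 7) :=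
    mul_le_mul_of_nonneg_right (by linarith) (by linarith)
  linarith

private theorem nux_large (t m h : ℤ) (ht : 47 ≤ t) (hm0 : 0 ≤ m) (hm : m * m + 19 ≤ 8 * m + 8 * t)
    (hh : m ≤ 2 * h + 1) :
    12 * ((3 * t + m - 5) * (3 * t + m - 5)) + 12 * (3 * t + m - 5) + 288 +
      (36 + 3 * (3 * t + m - 5) + (3 * t + m - 5) * (3 * t + m - 5)) * (3 * t + m - 12) <
    96 * (t * t + t * h + 1) + 10 * (t * t + t * h + 1) * (3 * t + m - 12) := by
  have h2m : 2 * m ≤ t := by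
    by_contra hc
    push Not at hc
    have h1 : m * m + 27 ≤ 24 * m := by linarith
    have h2 : m ≤ 22 := by nlinarith
    linarith
  have hth : t * (m - 1) ≤ t * (2 * h) := mul_le_mul_of_nonneg_left (by linarith) (by linarith)
  set L : ℤ := 10 * (t * t + t * h + 1) - (36 + 3 * (3 * t + m - 5) + (3 * t + m - 5) * (3 * t + m - 5)) with hL
  have hL1 : t * t - t * m - m * m + 16 * t + 7 * m - 36 ≤ L := by
    rw [hL]
    nlinarith
  have hmm : 4 * (m * m) ≤ t * t := by nlinarith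
  have htm : 2 * (t * m) ≤ t * t := by nlinarith
  have hL2 : t * t + 60 * t ≤ 4 * L := by nlinarith
  have h5 : (t * t + 60 * t) * (3 * t - 12) ≤ 4 * L * (3 * t + m - 12) := by
    refine mul_le_mul hL2 (by linarith) (by linarith) ?_
    have : 0 ≤ t * t := mul_self_nonneg t
    linarith
  have h6 : 96 * (t * t + t * h + 1) ≥ 48 * (t * t) + 48 * (t * t) + 48 * (t * (m - 1)) + 96 := by linarith
  have h7 : 0 ≤ t * t * (t - 47) := mul_nonneg (mul_self_nonneg t) (by linarith)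
  nlinarith

theorem nux1 (t m N k : ℕ) (ht : 4 ≤ t) (hR : Rg t m) (h49 : ¬ (t = 4 ∧ m = 9))
    (hN : 3 * t + m = N + 5) (hk : k ≤ N)
    (h1 : 4 * dl t m + 3 * k ≤ 12 + 4 * N + k.choose 2)
    (h2 : 5 * dl t m + 6 * k ≤ 18 + 8 * N + N.choose 2) : False := by
  have hN' : N = 3 * t + m - 5 := by omega
  rcases Nat.lt_or_ge t 17 with h17 | h17
  · have hm16 : m < 16 := by
      by_contra hc
      push Not at hc
      have := nux_region hR (Or.inl (by omega))
      nlinarith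
    have hk60 : k < 60 := by omega
    rw [nux_choose'] at h1 h2
    unfold dl at h1 h2
    rw [hN'] at h1 h2
    exact nux_small t h17 m hm16 k hk60 ⟨ht, hR, h49, by omega, h1, h2⟩
  · have hreg := nux_region hR (Or.inr h17)
    have c1 := nux_choose k
    have c2 := nux_choose N
    have h1Z : 8 * ((dl t m : ℕ) : ℤ) + 6 * (k : ℤ) ≤ 24 + 8 * (N : ℤ) + k * (k - 1) := by
      have : ((4 * dl t m + 3 * k : ℕ) : ℤ) ≤ ((12 + 4 * N + k.choose 2 : ℕ) : ℤ) := by exact_mod_cast h1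
      push_cast at this
      linarith
    have h2Z : 10 * ((dl t m : ℕ) : ℤ) + 12 * (k : ℤ) ≤ 36 + 16 * (N : ℤ) + N * (N - 1) := by
      have : ((5 * dl t m + 6 * k : ℕ) : ℤ) ≤ ((18 + 8 * N + N.choose 2 : ℕ) : ℤ) := by exact_mod_cast h2
      push_cast at this
      linarith
    have key := nux_key _ (N : ℤ) (k : ℤ) (by omega) (by exact_mod_cast hk) (by positivity) h1Z h2Z
    have hNZ : (N : ℤ) = 3 * t + m - 5 := by omega
    have hdl : ((dl t m : ℕ) : ℤ) = (t : ℤ) * t + t * ((m / 2 : ℕ) : ℤ) + 1 := by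
      unfold dl
      push_cast
      ring
    rcases Nat.lt_or_ge t 47 with h47 | h47
    · have hm24 : m < 24 := by
        by_contra hc
        push Not at hc
        nlinarith
      have h3 := nux_mid t h47 m hm24 h17 hreg
      have h3' : 12 * (N * N) + 12 * N + 288 + (36 + 3 * N + N * N) * (N - 7) <
          96 * dl t m + 10 * dl t m * (N - 7) := by
        have e7 : 3 * t + m - 12 = N - 7 := by omega
        rw [← hN', e7] at h3
        exact h3
      have hN7 : 7 ≤ N := by omega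
      have h3Z : (12 * ((N : ℤ) * N) + 12 * N + 288 + (36 + 3 * N + (N : ℤ) * N) * (N - 7)) <
          96 * ((dl t m : ℕ) : ℤ) + 10 * ((dl t m : ℕ) : ℤ) * (N - 7) := by
        have : ((12 * (N * N) + 12 * N + 288 + (36 + 3 * N + N * N) * (N - 7) : ℕ) : ℤ) <
          ((96 * dl t m + 10 * dl t m * (N - 7) : ℕ) : ℤ) := by exact_mod_cast h3'
        push_cast [Nat.cast_sub hN7] at this
        exact this
      linarith
    · have h3 := nux_large (t : ℤ) (m : ℤ) ((m / 2 : ℕ) : ℤ) (by exact_mod_cast h47) (by positivity)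
        (by exact_mod_cast hreg) (by omega)
      rw [hNZ, hdl] at key
      have e : (3 * (t : ℤ) + m - 5 - 7) = 3 * (t : ℤ) + m - 12 := by ring
      rw [e] at key
      linarith

theorem nux3 (t m N : ℕ) (ht : 4 ≤ t) (hR : Rg t m) (hN : 3 * t + m = N + 7)
    (h : 7 * dl t m ≤ 21 + 6 * N + N.choose 2) : False := by
  have c2 := nux_choose N
  have hZ : 14 * ((dl t m : ℕ) : ℤ) ≤ 42 + 12 * (N : ℤ) + N * (N - 1) := by
    have : ((7 * dl t m : ℕ) : ℤ) ≤ ((21 + 6 * N + N.choose 2 : ℕ) : ℤ) := by exact_mod_cast h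
    push_cast at this
    linarith
  have hNZ : (N : ℤ) = 3 * t + m - 7 := by omega
  have hdl : ((dl t m : ℕ) : ℤ) = (t : ℤ) * t + t * ((m / 2 : ℕ) : ℤ) + 1 := by
    unfold dl
    push_cast
    ring
  rw [hNZ, hdl] at hZ
  have hh : (m : ℤ) ≤ 2 * ((m / 2 : ℕ) : ℤ) + 1 := by omega
  have htZ : (4 : ℤ) ≤ t := by exact_mod_cast ht
  have hth : (t : ℤ) * (m - 1) ≤ t * (2 * ((m / 2 : ℕ) : ℤ)) :=
    mul_le_mul_of_nonneg_left (by linarith) (by linarith)
  have hm0 : (0 : ℤ) ≤ m := by positivity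
  have hbad : 5 * ((t : ℤ) * t) + t * m - m * m + 2 * t + 3 * m ≤ 0 := by nlinarith
  rcases Nat.lt_or_ge 8 m with h8 | h8
  · have hreg := nux_region hR (Or.inl h8)
    have hregZ : (m : ℤ) * m + 19 ≤ 8 * m + 8 * t := by exact_mod_cast hreg
    have h8Z : (9 : ℤ) ≤ m := by exact_mod_cast h8
    have h3 : 5 * ((t : ℤ) * t) + t * m - 5 * m - 6 * t + 19 ≤ 0 := by linarith
    nlinarith
  · have h8Z : (m : ℤ) ≤ 8 := by exact_mod_cast h8
    nlinarith

end Pool.Agent.TUR
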