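import Pool.Agent.TUR.LOC

/-!
# TUR / POI : the inequality for one uncovered vertex `o`

`o ∈ OO X M` is in no member of `M`.  For `e ∈ M` put `d_e = dg H e o ≤ 3`, `c_e = d_e - 1` if
`d_e ≥ 1`, else `0`.  For `e ≠ f`: `off H e f o ≤ 3 - d_e` and `≤ 3 - d_f` (`off_add_dg`,
`off_comm`).  So `(2 - off)^+ ≥ max (c_e) (c_f)`, hence summing over ordered pairs
`S2 := ∑_{(e,f)} (2 - off)^+ ≥ ∑_{(e,f)} (c_e + c_f)/2 = (t-1) ∑ c_e`
(`∑_{(e,f) ∈ offDiag} c_e = (t-1) ∑ c_e`).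
`3 off - 6 = yy(off) - 2 (2-off)^+` for `off ∈ {0,1,2,3}` and `d_e - 1 = c_e - [d_e = 0]`.
`po4` (`t ≥ 4`): `6 ∑ d_e + 3 ∑ off = 6t + 6∑c - 6 zO + 6 t(t-1) + ∑ yy - 2 S2
 ≤ 6t^2 + ∑ yy - 6 zO + (6 - 2(t-1)) ∑ c ≤ 6t^2 + ∑ yy - 6 zO`.
`po3` (`t = 3`): `off = 2 + [off=3] - (2-off)^+`, so
`2∑d + ∑off ≤ 2t + 2∑c - 2 zO + 2t(t-1) + #{off=3} - 2∑c = 18 - 2 zO + #{off = 3}`.
`po3'` : the pairs with `off = 3` have `d_e = d_f = 0`, so with `z = zO ≤ 3` there are at most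
`z(z-1) ≤ 2z` ordered ones; so `2∑d + ∑off ≤ 18`.
-/

namespace Pool.Agent.TUR

open Finset

variable {V : Type} [DecidableEq V] {X : Finset V} {H M : Finset (Finset V)} {t m : ℕ}

private theorem poi_sum {α : Type*} [DecidableEq α] (M : Finset α) (F : α → ℤ) :
    ∑ q ∈ M.offDiag, F q.1 = ((M.card : ℤ) - 1) * ∑ e ∈ M, F e ∧
    ∑ q ∈ M.offDiag, F q.2 = ((M.card : ℤ) - 1) * ∑ e ∈ M, F e := by
  have h1 : ∑ q ∈ M ×ˢ M, F q.1 = (M.card : ℤ) * ∑ e ∈ M, F e := by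
    rw [Finset.sum_product, Finset.mul_sum]
    refine Finset.sum_congr rfl fun e _ => ?_
    simp
  have h2 : ∑ q ∈ M ×ˢ M, F q.2 = (M.card : ℤ) * ∑ e ∈ M, F e := by
    rw [Finset.sum_product]
    simp
  rw [← Finset.diag_union_offDiag, Finset.sum_union (Finset.disjoint_diag_offDiag M)] at h1 h2
  rw [Finset.sum_diag] at h1 h2
  constructor <;> linarith

private theorem poi_d {α : Type*} [DecidableEq α] (M : Finset α) (d : α → ℕ) :
    (∑ e ∈ M, (d e : ℤ)) + ((M.filter (fun e => d e = 0)).card : ℤ) =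
      M.card + ∑ e ∈ M, ((d e - 1 : ℕ) : ℤ) := by
  have h1 : ((M.filter (fun e => d e = 0)).card : ℤ) = ∑ e ∈ M, if d e = 0 then 1 else 0 := by
    rw [Finset.card_filter]
    push_cast
    rfl
  have h2 : (M.card : ℤ) = ∑ e ∈ M, 1 := by simp
  rw [h1, h2, ← Finset.sum_add_distrib, ← Finset.sum_add_distrib]
  refine Finset.sum_congr rfl fun e _ => ?_
  split_ifs with h
  · simp [h]
  · omega

private theorem poi_pair (hC : Cfg X H M t m) {o : V} (ho : o ∈ OO X M) :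
    ∀ q ∈ M.offDiag, off H q.1 q.2 o + dg H q.1 o ≤ 3 ∧ off H q.1 q.2 o + dg H q.2 o ≤ 3 := by
  intro q hq
  rw [Finset.mem_offDiag] at hq
  obtain ⟨h1, h2, h3⟩ := hq
  have ho' := (mem_OO.mp ho).2
  have hd := hC.mat.2 _ h1 _ h2 h3
  have a1 := off_add_dg hC.good (hC.mat.1 h1) (hC.mat.1 h2) hd (ho' _ h1) (ho' _ h2)
  have a2 := off_add_dg hC.good (hC.mat.1 h2) (hC.mat.1 h1) hd.symm (ho' _ h2) (ho' _ h1)
  rw [off_comm] at a2
  exact ⟨a1, a2⟩

private theorem poi_card_offDiag {α : Type*} [DecidableEq α] (M : Finset α) :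
    (M.offDiag.card : ℤ) = M.card * (M.card - 1) := by
  rw [Finset.offDiag_card]
  have : M.card ≤ M.card * M.card := by nlinarith [Nat.zero_le M.card]
  push_cast [this]
  ring

theorem po4 (hC : Cfg X H M t m) (ht : 4 ≤ t) {o : V} (ho : o ∈ OO X M) :
    3 * (2 * ∑ e ∈ M, (dg H e o : ℤ) + ∑ q ∈ M.offDiag, (off H q.1 q.2 o : ℤ)) ≤
      6 * (t : ℤ) ^ 2 + ∑ q ∈ M.offDiag, yy (off H q.1 q.2 o) - 6 * (zO H M o : ℤ) := by
  have hp := poi_pair hC ho
  obtain ⟨s1, s2⟩ := poi_sum M (fun e => ((dg H e o - 1 : ℕ) : ℤ))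
  have hd := poi_d M (fun e => dg H e o)
  have hc := poi_card_offDiag M
  rw [hC.cardM] at s1 s2 hd hc
  have hz : (zO H M o : ℤ) = ((M.filter (fun e => dg H e o = 0)).card : ℤ) := rfl
  rw [← hz] at hd
  have hpair : ∀ q ∈ M.offDiag, 3 * (off H q.1 q.2 o : ℤ) ≤
      6 + yy (off H q.1 q.2 o) - ((dg H q.1 o - 1 : ℕ) : ℤ) - ((dg H q.2 o - 1 : ℕ) : ℤ) := by
    intro q hq
    obtain ⟨a1, a2⟩ := hp q hq
    generalize off H q.1 q.2 o = k at *
    generalize dg H q.1 o = d1 at *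
    generalize dg H q.2 o = d2 at *
    unfold yy
    split_ifs with h
    · omega
    · omega
  have hsum := Finset.sum_le_sum hpair
  rw [← Finset.mul_sum, Finset.sum_sub_distrib, Finset.sum_sub_distrib, Finset.sum_add_distrib,
    Finset.sum_const, s1, s2, nsmul_eq_mul, hc] at hsum
  have hcn : 0 ≤ ∑ e ∈ M, ((dg H e o - 1 : ℕ) : ℤ) := Finset.sum_nonneg fun e _ => by positivity
  have ht' : (4 : ℤ) ≤ t := by exact_mod_cast ht
  nlinarith

theorem po3 (hC : Cfg X H M 3 m) {o : V} (ho : o ∈ OO X M) :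
    2 * ∑ e ∈ M, dg H e o + ∑ q ∈ M.offDiag, off H q.1 q.2 o + 2 * zO H M o ≤
      18 + (M.offDiag.filter (fun q => off H q.1 q.2 o = 3)).card := by
  have hp := poi_pair hC ho
  obtain ⟨s1, s2⟩ := poi_sum M (fun e => ((dg H e o - 1 : ℕ) : ℤ))
  have hd := poi_d M (fun e => dg H e o)
  have hc := poi_card_offDiag M
  rw [hC.cardM] at s1 s2 hd hc
  have hz : (zO H M o : ℤ) = ((M.filter (fun e => dg H e o = 0)).card : ℤ) := rfl
  rw [← hz] at hd
  have hpair : ∀ q ∈ M.offDiag, 2 * (off H q.1 q.2 o : ℤ) ≤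
      4 + 2 * (if off H q.1 q.2 o = 3 then 1 else 0) - ((dg H q.1 o - 1 : ℕ) : ℤ) -
        ((dg H q.2 o - 1 : ℕ) : ℤ) := by
    intro q hq
    obtain ⟨a1, a2⟩ := hp q hq
    generalize off H q.1 q.2 o = k at *
    generalize dg H q.1 o = d1 at *
    generalize dg H q.2 o = d2 at *
    split_ifs with h
    · omega
    · omega
  have hsum := Finset.sum_le_sum hpair
  rw [← Finset.mul_sum, Finset.sum_sub_distrib, Finset.sum_sub_distrib, Finset.sum_add_distrib,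
    Finset.sum_const, s1, s2, nsmul_eq_mul, hc, ← Finset.mul_sum] at hsum
  have hcard : (((M.offDiag.filter (fun q => off H q.1 q.2 o = 3)).card : ℕ) : ℤ) =
      ∑ q ∈ M.offDiag, if off H q.1 q.2 o = 3 then (1 : ℤ) else 0 := by
    rw [Finset.card_filter]
    push_cast
    rfl
  rw [← hcard] at hsum
  generalize (M.offDiag.filter (fun q => off H q.1 q.2 o = 3)).card = N at *
  have hfin : 2 * ∑ e ∈ M, (dg H e o : ℤ) + ∑ q ∈ M.offDiag, (off H q.1 q.2 o : ℤ) + 2 * (zO H M o : ℤ) ≤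
      18 + (N : ℤ) := by
    push_cast at *
    linarith
  exact_mod_cast hfin

theorem po3' (hC : Cfg X H M 3 m) {o : V} (ho : o ∈ OO X M) :
    2 * ∑ e ∈ M, dg H e o + ∑ q ∈ M.offDiag, off H q.1 q.2 o ≤ 18 := by
  have h1 := po3 hC ho
  have h2 : (M.offDiag.filter (fun q => off H q.1 q.2 o = 3)).card ≤ 2 * zO H M o := by
    have hsub : M.offDiag.filter (fun q => off H q.1 q.2 o = 3) ⊆
        (M.filter (fun e => dg H e o = 0)).offDiag := by
      intro q hq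
      rw [Finset.mem_filter] at hq
      obtain ⟨a1, a2⟩ := poi_pair hC ho q hq.1
      have hq' := Finset.mem_offDiag.mp hq.1
      rw [Finset.mem_offDiag, Finset.mem_filter, Finset.mem_filter]
      have h3 := hq.2
      exact ⟨⟨hq'.1, by omega⟩, ⟨hq'.2.1, by omega⟩, hq'.2.2⟩
    have h3 := Finset.card_le_card hsub
    rw [Finset.offDiag_card] at h3
    have h4 : (M.filter (fun e => dg H e o = 0)).card ≤ 3 :=
      (Finset.card_filter_le _ _).trans (le_of_eq hC.cardM)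
    have h5 : zO H M o = (M.filter (fun e => dg H e o = 0)).card := rfl
    rw [h5]
    generalize (M.filter (fun e => dg H e o = 0)).card = z at *
    interval_cases z <;> omega
  omega

end Pool.Agent.TUR
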