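import Pool.Agent.TUR.DEL
import Pool.Agent.TUR.DUB
import Pool.Agent.TUR.TUN

/-!
# TUR / QLE : for `m = 4, 5` at most three uncovered vertices have `off = 3`

Suppose at least 4 vertices `o ∈ O` have `off H e f o = 3` (`|O| = m ∈ {4,5}`).
By `off_add_dg` they have `dg H e o = 0`; so `∑_{o ∈ O} dg H e o ≤ 0` (`m = 4`) or `≤ 3` (`m = 5`).
`dub`: `meet H e ≤ 1 + ∑_{x ∈ X \ e} dg H e x + |Lk H e (X \ e)|`, `X \ e = VM (M.erase e) ∪ O`.
`∑_{x ∈ VM (M.erase e)} dg H e x = ∑_{g ∈ M.erase e} ∑_{x ∈ g} dg H e x ≤ 3(t-2)` (`dg_sum_le`; the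
term of `f` is `0` by `dg_zero_of_off`).
`turan4`: `3|Lk| ≤ (3(t-1)+m)^2`: `|Lk| ≤ 3(t-1)^2 + 8(t-1) + 5` (`m = 4`),
`|Lk| ≤ 3(t-1)^2 + 10(t-1) + 8` (`m = 5`).
So `meet H e ≤ 3t^2 + 5t - 5` resp. `3t^2 + 7t - 1`, but `edge_deg` and `gg_eq` give
`meet H e ≥ gg t m + 1 - gg (t-1) m = 3t^2 - 3t + 1 + (2t-1)m + ⌊m^2/4⌋ + 1` which is `3t^2 + 5t + 2` resp.
`3t^2 + 7t + 3`.  Contradiction.
-/

namespace Pool.Agent.TUR

open Finset

variable {V : Type} [DecidableEq V] {X : Finset V} {H M : Finset (Finset V)} {t m : ℕ}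

theorem q_le3 (hC : Cfg X H M t m) (ht : 4 ≤ t) (hm : m = 4 ∨ m = 5) (ih : PS V (t - 1) m)
    (hbig : gg t m < H.card) {e f : Finset V} (he : e ∈ M) (hf : f ∈ M) (hef : e ≠ f)
    (hK : NoK4 (Lk H e (X \ e))) :
    ((OO X M).filter (fun o => off H e f o = 3)).card ≤ 3 := by
  by_contra hcon
  have h4 : 4 ≤ ((OO X M).filter (fun o => off H e f o = 3)).card := by omega
  have hG := hC.good
  have heH : e ∈ H := hC.mat.1 he
  have hfH : f ∈ H := hC.mat.1 hf
  have hd : Disjoint e f := hC.mat.2 e he f hf hef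
  have hO : (OO X M).card = m := hC.card_OO
  -- the sum over the uncovered vertices
  have hsumO : ∑ o ∈ OO X M, dg H e o + 12 ≤ 3 * m := by
    have h5 : ∀ o ∈ OO X M, dg H e o + 3 * (if off H e f o = 3 then 1 else 0) ≤ 3 := by
      intro o ho
      have hoe : o ∉ e := (mem_OO.1 ho).2 e he
      have hof : o ∉ f := (mem_OO.1 ho).2 f hf
      split_ifs with h6
      · have := off_add_dg hG heH hfH hd hoe hof
        omega
      · have := dg_le hG heH o
        omega
    have h6 := Finset.sum_le_sum h5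
    rw [Finset.sum_add_distrib, ← Finset.mul_sum, ← Finset.card_filter, Finset.sum_const, hO,
      smul_eq_mul] at h6
    omega
  -- the sum over the covered vertices
  have hdisj : Set.PairwiseDisjoint (↑(M.erase e)) (id : Finset V → Finset V) := by
    intro g hg g' hg' hne
    exact hC.mat.2 g (Finset.mem_of_mem_erase hg) g' (Finset.mem_of_mem_erase hg') hne
  have hsumV : ∑ x ∈ VM (M.erase e), dg H e x + 3 ≤ 3 * (t - 1) := by
    unfold VM
    rw [Finset.sum_biUnion hdisj]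
    have hfe : f ∈ M.erase e := Finset.mem_erase.2 ⟨hef.symm, hf⟩
    obtain ⟨o, ho⟩ : ((OO X M).filter (fun o => off H e f o = 3)).Nonempty := by
      rw [← Finset.card_pos]; omega
    rw [Finset.mem_filter] at ho
    have hoe : o ∉ e := (mem_OO.1 ho.1).2 e he
    have hof : o ∉ f := (mem_OO.1 ho.1).2 f hf
    have hz := dg_zero_of_off hG heH hfH hd hoe hof ho.2
    have h5 : ∀ g ∈ M.erase e, ∑ x ∈ id g, dg H e x + 3 * (if g = f then 1 else 0) ≤ 3 := by
      intro g hg
      split_ifs with h6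
      · rw [h6]
        have : ∑ x ∈ id f, dg H e x = 0 := hz
        omega
      · have hgM := Finset.mem_of_mem_erase hg
        have := dg_sum_le hG heH (hC.mat.1 hgM)
          (hC.mat.2 e he g hgM (Finset.ne_of_mem_erase hg).symm)
        have h7 : ∑ x ∈ id g, dg H e x = ∑ x ∈ g, dg H e x := rfl
        omega
    have h6 := Finset.sum_le_sum h5
    rw [Finset.sum_add_distrib, ← Finset.mul_sum, Finset.sum_ite_eq', if_pos hfe,
      Finset.sum_const, Finset.card_erase_of_mem he, hC.cardM, smul_eq_mul] at h6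
    omega
  -- the decomposition of the vertex set
  have hXe : X \ e ⊆ VM (M.erase e) ∪ OO X M := by
    intro x hx
    rw [Finset.mem_sdiff] at hx
    rw [Finset.mem_union]
    by_cases h5 : ∃ g ∈ M, x ∈ g
    · obtain ⟨g, hg, hxg⟩ := h5
      left
      exact mem_VM.2 ⟨g, Finset.mem_erase.2 ⟨fun h => hx.2 (h ▸ hxg), hg⟩, hxg⟩
    · right
      exact mem_OO.2 ⟨hx.1, fun g hg hxg => h5 ⟨g, hg, hxg⟩⟩
  have hsum : ∑ x ∈ X \ e, dg H e x ≤ ∑ x ∈ VM (M.erase e), dg H e x + ∑ o ∈ OO X M, dg H e o := by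
    refine le_trans (Finset.sum_le_sum_of_subset hXe) ?_
    have := Finset.sum_union_inter (s₁ := VM (M.erase e)) (s₂ := OO X M) (f := dg H e)
    omega
  have hdub := dub hG heH
  have hcard : (X \ e).card + 3 = 3 * t + m := by
    have h5 : e ⊆ X := hG.sub e heH
    have h6 := Finset.card_sdiff_add_card_eq_card h5
    rw [hG.card3 e heH, hC.cardX] at h6
    exact h6
  have htur := turan4 (X \ e) (Lk H e (X \ e)) (Finset.filter_subset _ _) hK
  have hed := edge_deg hC he ih hbig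
  obtain ⟨T, rfl⟩ : ∃ T, t = T + 1 := ⟨t - 1, by omega⟩
  have hc2 : (X \ e).card = 3 * T + m := by omega
  rw [hc2] at htur
  rw [gg_eq, gg_eq, Nat.add_sub_cancel] at hed
  rw [Nat.add_sub_cancel] at hsumV
  generalize (Lk H e (X \ e)).card = L at *
  generalize meet H e = D at *
  generalize ∑ x ∈ X \ e, dg H e x = S at *
  generalize ∑ x ∈ VM (M.erase e), dg H e x = S1 at *
  generalize ∑ x ∈ OO X M, dg H e x = S2 at *
  rcases hm with rfl | rfl
  · norm_num at hed hsumO htur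
    have hL : L ≤ 3 * T ^ 2 + 8 * T + 5 := by nlinarith
    nlinarith
  · norm_num at hed hsumO htur
    have hL : L ≤ 3 * T ^ 2 + 10 * T + 8 := by nlinarith
    nlinarith

end Pool.Agent.TUR
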