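import Pool.Agent.TUR.RBW
import Pool.Agent.TUR.AUG
import Pool.Agent.TUR.LOC

/-!
# TUR / RBT : transport of `rbw` to two members `e ≠ f` of the matching

`e, f ∈ M` have 3 elements: choose bijections `α : Fin 3 ≃ e`, `β : Fin 3 ≃ f` (`Finset.equivFin`
with `card = 3`, or `Finset.orderIso`-free: write `e = {a0,a1,a2}`).  For `o ∈ OO X M` let
`B o = univ.filter (fun q => {o, α q.1, β q.2} ∈ H)`; `(B o).card = off H e f o`.
`hB`: `off_mat` (`o ∉ e`, `o ∉ f`, `e, f` disjoint) in both coordinates.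
`hR`: a rainbow perfect matching gives three pairwise disjoint edges
`{o1, α p1.1, β p1.2}, ...` of `H` inside `e ∪ f ∪ OO X M`, contradiction to `aug3`.
`|OO X M| = m` (`Cfg.card_OO`).
-/

namespace Pool.Agent.TUR

open Finset

variable {V : Type} [DecidableEq V] {X : Finset V} {H M : Finset (Finset V)} {t m : ℕ}

private theorem rbt_enum {e : Finset V} (h : e.card = 3) :
    ∃ α : Fin 3 → V, Function.Injective α ∧ (∀ i, α i ∈ e) ∧ ∀ x ∈ e, ∃ i, α i = x := by
  refine ⟨fun i => ((Finset.equivFinOfCardEq h).symm i : V), ?_, ?_, ?_⟩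
  · intro a b hab
    exact (Finset.equivFinOfCardEq h).symm.injective (Subtype.ext hab)
  · intro i
    exact ((Finset.equivFinOfCardEq h).symm i).2
  · intro x hx
    exact ⟨Finset.equivFinOfCardEq h ⟨x, hx⟩, by simp⟩

private theorem rbt_disj {a1 b1 c1 a2 b2 c2 : V} (h1 : a1 ≠ a2) (h2 : a1 ≠ b2) (h3 : a1 ≠ c2)
    (h4 : b1 ≠ a2) (h5 : b1 ≠ b2) (h6 : b1 ≠ c2) (h7 : c1 ≠ a2) (h8 : c1 ≠ b2) (h9 : c1 ≠ c2) :
    Disjoint ({a1, b1, c1} : Finset V) {a2, b2, c2} := by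
  rw [Finset.disjoint_left]
  intro x hx hy
  simp only [Finset.mem_insert, Finset.mem_singleton] at hx hy
  rcases hx with rfl | rfl | rfl <;> rcases hy with hy | hy | hy <;> contradiction

theorem y_bound (hC : Cfg X H M t m) {e f : Finset V} (he : e ∈ M) (hf : f ∈ M) (hef : e ≠ f) :
    (6 ≤ m → ∑ o ∈ OO X M, yy (off H e f o) ≤ 9) ∧
    (7 ≤ m → ∑ o ∈ OO X M, yy (off H e f o) ≤ 6) := by
  have hG := hC.good
  have heH := hC.mat.1 he
  have hfH := hC.mat.1 hf
  have hd : Disjoint e f := hC.mat.2 e he f hf hef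
  obtain ⟨α, hαi, hαe, hαs⟩ := rbt_enum (hC.card_e he)
  obtain ⟨β, hβi, hβf, hβs⟩ := rbt_enum (hC.card_e hf)
  have hαf : ∀ i, α i ∉ f := fun i => Finset.disjoint_left.mp hd (hαe i)
  have hβe : ∀ i, β i ∉ e := fun i => Finset.disjoint_right.mp hd (hβf i)
  have hαβ : ∀ i j, α i ≠ β j := fun i j h => hαf i (h ▸ hβf j)
  have hOe : ∀ o ∈ OO X M, o ∉ e := fun o ho => (mem_OO.mp ho).2 e he
  have hOf : ∀ o ∈ OO X M, o ∉ f := fun o ho => (mem_OO.mp ho).2 f hf
  set B : V → Finset (Fin 3 × Fin 3) := fun o =>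
    univ.filter (fun q => ({o, α q.1, β q.2} : Finset V) ∈ H) with hBdef
  have hBm : ∀ o q, q ∈ B o ↔ Ed H o (α q.1) (β q.2) := by
    intro o q
    rw [hBdef]
    simp only [Finset.mem_filter, Finset.mem_univ, true_and]
    rfl
  have hcard : ∀ o, (B o).card = off H e f o := by
    intro o
    have himg : (B o).image (fun q => (α q.1, β q.2)) =
        (e ×ˢ f).filter (fun q => ({o, q.1, q.2} : Finset V) ∈ H) := by
      ext ⟨x, y⟩
      simp only [Finset.mem_image, Finset.mem_filter, Finset.mem_product, Prod.mk.injEq]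
      constructor
      · rintro ⟨q, hq, rfl, rfl⟩
        exact ⟨⟨hαe _, hβf _⟩, (hBm o q).mp hq⟩
      · rintro ⟨⟨hx, hy⟩, h⟩
        obtain ⟨i, rfl⟩ := hαs x hx
        obtain ⟨j, rfl⟩ := hβs y hy
        exact ⟨(i, j), (hBm o (i, j)).mpr h, rfl, rfl⟩
    unfold off
    rw [← himg, Finset.card_image_of_injective]
    rintro ⟨a, b⟩ ⟨a', b'⟩ hab
    simp only [Prod.mk.injEq] at hab
    rw [hαi hab.1, hβi hab.2]
  have key := rbw (OO X M) B ?_ ?_
  · rw [hC.card_OO] at key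
    simp_rw [hcard] at key
    exact key
  · intro o ho p hp q hq hpq
    rw [hBm] at hp hq
    rcases hpq with h | h
    · rw [← h] at hq
      have := off_mat hG hfH (hαf p.1) (hOf o ho) (hβf p.2) (hβf q.2) hp hq
      exact Prod.ext h (hβi this)
    · rw [← h] at hq
      have := off_mat hG heH (hβe p.2) (hOe o ho) (hαe p.1) (hαe q.1) hp.swap23 hq.swap23
      exact Prod.ext (hαi this) h
  · intro o1 h1 o2 h2 o3 h3 h12 h13 h23 p1 hp1 p2 hp2 p3 hp3 a12 a13 a23 b12 b13 b23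
    rw [hBm] at hp1 hp2 hp3
    have hOα : ∀ o ∈ OO X M, ∀ i, o ≠ α i := fun o ho i h => hOe o ho (h ▸ hαe i)
    have hOβ : ∀ o ∈ OO X M, ∀ i, o ≠ β i := fun o ho i h => hOf o ho (h ▸ hβf i)
    have hsub : ∀ o ∈ OO X M, ∀ i j, ({o, α i, β j} : Finset V) ⊆ e ∪ f ∪ OO X M := by
      intro o ho i j x hx
      simp only [Finset.mem_insert, Finset.mem_singleton] at hx
      simp only [Finset.mem_union]
      rcases hx with rfl | rfl | rfl
      · exact Or.inr ho
      · exact Or.inl (Or.inl (hαe i))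
      · exact Or.inl (Or.inr (hβf j))
    have hdis : ∀ o ∈ OO X M, ∀ o' ∈ OO X M, o ≠ o' → ∀ i i' j j' : Fin 3, i ≠ i' → j ≠ j' →
        Disjoint ({o, α i, β j} : Finset V) {o', α i', β j'} := by
      intro o ho o' ho' hoo i i' j j' hi hj
      exact rbt_disj hoo (hOα o ho i') (hOβ o ho j') (hOα o' ho' i).symm (fun h => hi (hαi h))
        (hαβ i j') (hOβ o' ho' j).symm (hαβ i' j).symm (fun h => hj (hβi h))
    exact aug3 hC he hf hef hp1 hp2 hp3 (hsub o1 h1 _ _) (hsub o2 h2 _ _) (hsub o3 h3 _ _)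
      (hdis o1 h1 o2 h2 h12 _ _ _ _ a12 b12) (hdis o1 h1 o3 h3 h13 _ _ _ _ a13 b13)
      (hdis o2 h2 o3 h3 h23 _ _ _ _ a23 b23)

end Pool.Agent.TUR
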