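import Pool.Agent.TUR.Defs

/-!
# TUR / RBW : rainbow perfect matchings in `K_{3,3}`

`B o` (`o ∈ O`) are matchings in `Fin 3 × Fin 3` (so `|B o| ≤ 3`), and there is no rainbow perfect
matching: no distinct `o1,o2,o3 ∈ O` and `pi ∈ B oi` with distinct first and distinct second coordinates.
`yy` of the cardinalities: `3 ↦ 3, 2 ↦ 0, 1 ↦ -1, 0 ↦ -2`.  Let `m = |O|`, `q` the number of `o` with
`|B o| = 3` (`B o` a perfect matching = the graph of a permutation).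
If `q ≤ 2`: the sum is `≤ 3q ≤ 6`.
If `q ≥ 3`, take `o1,o2,o3` with perfect matchings (permutations) `s1,s2,s3`.  If they are pairwise
different there is a rainbow perfect matching [all 3 of the same parity: they are pairwise disjoint
and any permutation of the other parity meets each of them in exactly one edge, and these three edges
form that permutation; two of one parity `s,s'` and one `r` of the other parity: `r` meets `s` in one
edge, `s'` in another edge, and the third edge of `r` is taken from `o3`] - or check the 6^3 cases by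
`decide`.  If all three are equal, `s1` itself is rainbow.  So exactly two are equal, say
`s1 = s2 = s`, `s3 = s' ≠ s`; `s'` shares no edge with `s` (if `p ∈ s ∩ s'`, the matching `s` with
`p` from `o3` and the other two edges from `o1, o2` is rainbow).  For another `o4`: `B o4` has no edge
`p` of `s` (same reason: the two other edges of `s` from `o1,o2`), and no edge `p` outside `s ∪ s'`:
(`p`, one edge of `s` and one edge of `s'` form a perfect matching: the permutation through `p` of the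
other parity meets `s` in one edge, `s'` in one edge, and `p` is its edge in the third permutation of
the parity class of `s`).  So `B o4 ⊆ s'`.  For two others `o4 ≠ o5`, `p ∈ B o4`, `p' ∈ B o5` imply
`p = p'` (otherwise `p, p'` and the third edge of `s'` from `o3`).  So
`|B o4| + |B o5| ≤ 3` - more precisely if one has `≥ 2` elements the other is empty.
Let `O' = O \ {o1,o2,o3}`, `|O'| = m-3`.  If some `o4 ∈ O'` has `|B o4| ≥ 2`, all others are empty: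
the sum is `≤ 9 + 3 - 2(m-4) = 20 - 2m`.  Otherwise all `|B o| ≤ 1` on `O'`: the sum is
`≤ 9 - (m-3) = 12 - m`.  Both are `≤ 9` for `m ≥ 6` and `≤ 6` for `m ≥ 7`.
(Checked by computer for all `m ≤ 9`.)
-/

namespace Pool.Agent.TUR

open Finset

private theorem rbw_dec1 : ∀ s1 s2 s3 : Equiv.Perm (Fin 3),
    (∃ i j k : Fin 3, i ≠ j ∧ i ≠ k ∧ j ≠ k ∧ s1 i ≠ s2 j ∧ s1 i ≠ s3 k ∧ s2 j ≠ s3 k) ∨
    (s1 = s2 ∧ ∀ i, s1 i ≠ s3 i) ∨ (s1 = s3 ∧ ∀ i, s1 i ≠ s2 i) ∨ (s2 = s3 ∧ ∀ i, s2 i ≠ s1 i) := by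
  decide +kernel

private theorem rbw_dec2a : ∀ s s' : Equiv.Perm (Fin 3), ∀ a b : Fin 3, (∃ i, s i = s' i) ∨ b = s' a ∨
    (s (a + 1) ≠ b ∧ s (a + 2) ≠ b) ∨
    (s (a + 1) ≠ s' (a + 2) ∧ s (a + 1) ≠ b ∧ s' (a + 2) ≠ b) ∨
    (s (a + 2) ≠ s' (a + 1) ∧ s (a + 2) ≠ b ∧ s' (a + 1) ≠ b) := by
  decide +kernel

private theorem rbw_dec2b : ∀ a : Fin 3, a + 1 ≠ a + 2 ∧ a + 2 ≠ a + 1 ∧ a + 1 ≠ a ∧ a + 2 ≠ a := by
  decide

private theorem rbw_dec2 (s s' : Equiv.Perm (Fin 3)) (h : ∀ i, s i ≠ s' i) (a b : Fin 3) (hb : b ≠ s' a) :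
    (∃ i j : Fin 3, i ≠ j ∧ i ≠ a ∧ j ≠ a ∧ s i ≠ s j ∧ s i ≠ b ∧ s j ≠ b) ∨
    (∃ i j : Fin 3, i ≠ j ∧ i ≠ a ∧ j ≠ a ∧ s i ≠ s' j ∧ s i ≠ b ∧ s' j ≠ b) := by
  obtain ⟨e1, e2, e3, e4⟩ := rbw_dec2b a
  rcases rbw_dec2a s s' a b with ⟨i, hi⟩ | h1 | ⟨h1, h2⟩ | ⟨h1, h2, h3⟩ | ⟨h1, h2, h3⟩
  · exact absurd hi (h i)
  · exact absurd h1 hb
  · exact Or.inl ⟨a + 1, a + 2, e1, e3, e4, fun h => e1 (s.injective h), h1, h2⟩
  · exact Or.inr ⟨a + 1, a + 2, e1, e3, e4, h1, h2, h3⟩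
  · exact Or.inr ⟨a + 2, a + 1, e2, e4, e3, h1, h2, h3⟩

private theorem rbw_dec3 : ∀ a b : Fin 3, ∃ c : Fin 3, a ≠ c ∧ b ≠ c := by
  decide

private theorem rbw_card {s : Finset (Fin 3 × Fin 3)}
    (hs : ∀ p ∈ s, ∀ q ∈ s, (p.1 = q.1 ∨ p.2 = q.2) → p = q) : s.card ≤ 3 := by
  have h : s.card ≤ (Finset.univ : Finset (Fin 3)).card :=
    Finset.card_le_card_of_injOn Prod.fst (fun _ _ => Finset.mem_univ _)
      (fun p hp q hq h => hs p hp q hq (Or.inl h))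
  simpa using h

private theorem rbw_perm {s : Finset (Fin 3 × Fin 3)}
    (hs : ∀ p ∈ s, ∀ q ∈ s, (p.1 = q.1 ∨ p.2 = q.2) → p = q) (h3 : s.card = 3) :
    ∃ σ : Equiv.Perm (Fin 3), ∀ i, (i, σ i) ∈ s := by
  have him : s.image Prod.fst = Finset.univ := by
    refine Finset.eq_univ_of_card _ ?_
    rw [Finset.card_image_of_injOn (fun p hp q hq h => hs p hp q hq (Or.inl h)), h3]
    simp
  have hex : ∀ i : Fin 3, ∃ b : Fin 3, (i, b) ∈ s := by
    intro i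
    have : i ∈ s.image Prod.fst := by rw [him]; exact Finset.mem_univ i
    obtain ⟨⟨a, b⟩, h1, h2⟩ := Finset.mem_image.1 this
    simp only at h2
    subst h2
    exact ⟨b, h1⟩
  choose f hf using hex
  have hinj : Function.Injective f := by
    intro i j hij
    have := hs _ (hf i) _ (hf j) (Or.inr hij)
    exact congrArg Prod.fst this
  exact ⟨Equiv.ofBijective f (Finite.injective_iff_bijective.1 hinj), fun i => hf i⟩

private theorem rbw_yy3 {k : ℕ} (h : k ≤ 3) : yy k ≤ 3 := by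
  unfold yy
  split_ifs
  · exact le_rfl
  · have : (k : ℤ) ≤ 3 := by exact_mod_cast h
    linarith

private theorem rbw_yy0 {k : ℕ} (h : k ≤ 2) : yy k ≤ 0 := by
  unfold yy
  rw [if_neg (by omega)]
  have : (k : ℤ) ≤ 2 := by exact_mod_cast h
  linarith

private theorem rbw_yy1 {k : ℕ} (h : k ≤ 1) : yy k ≤ -1 := by
  unfold yy
  rw [if_neg (by omega)]
  have : (k : ℤ) ≤ 1 := by exact_mod_cast h
  linarith

private theorem rbw_main {ι : Type} [DecidableEq ι] (O : Finset ι) (B : ι → Finset (Fin 3 × Fin 3))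
    (hB : ∀ o ∈ O, ∀ p ∈ B o, ∀ q ∈ B o, (p.1 = q.1 ∨ p.2 = q.2) → p = q)
    (hR : ∀ o1 ∈ O, ∀ o2 ∈ O, ∀ o3 ∈ O, o1 ≠ o2 → o1 ≠ o3 → o2 ≠ o3 →
      ∀ p1 ∈ B o1, ∀ p2 ∈ B o2, ∀ p3 ∈ B o3, p1.1 ≠ p2.1 → p1.1 ≠ p3.1 → p2.1 ≠ p3.1 →
        p1.2 ≠ p2.2 → p1.2 ≠ p3.2 → p2.2 ≠ p3.2 → False)
    (o1 o2 o3 : ι) (m1 : o1 ∈ O) (m2 : o2 ∈ O) (m3 : o3 ∈ O) (n12 : o1 ≠ o2) (n13 : o1 ≠ o3) (n23 : o2 ≠ o3)
    (s s' : Equiv.Perm (Fin 3)) (h1 : ∀ i, (i, s i) ∈ B o1) (h2 : ∀ i, (i, s i) ∈ B o2)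
    (h3 : ∀ i, (i, s' i) ∈ B o3) (hd : ∀ i, s i ≠ s' i) :
    (6 ≤ O.card → ∑ o ∈ O, yy (B o).card ≤ 9) ∧ (7 ≤ O.card → ∑ o ∈ O, yy (B o).card ≤ 6) := by
  set O' : Finset ι := ((O.erase o1).erase o2).erase o3 with hO'
  have hmem : ∀ o ∈ O', o ∈ O ∧ o ≠ o1 ∧ o ≠ o2 ∧ o ≠ o3 := by
    intro o ho
    rw [hO', Finset.mem_erase, Finset.mem_erase, Finset.mem_erase] at ho
    exact ⟨ho.2.2.2, ho.2.2.1, ho.2.1, ho.1⟩
  have m2' : o2 ∈ O.erase o1 := Finset.mem_erase.2 ⟨n12.symm, m2⟩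
  have m3' : o3 ∈ (O.erase o1).erase o2 := Finset.mem_erase.2 ⟨n23.symm, Finset.mem_erase.2 ⟨n13.symm, m3⟩⟩
  have hcard : O'.card + 3 = O.card := by
    rw [hO', Finset.card_erase_of_mem m3', Finset.card_erase_of_mem m2', Finset.card_erase_of_mem m1]
    have h1 := Finset.card_pos.2 ⟨o3, m3'⟩
    rw [Finset.card_erase_of_mem m2', Finset.card_erase_of_mem m1] at h1
    omega
  have hsum : ∑ o ∈ O, yy (B o).card =
      yy (B o1).card + (yy (B o2).card + (yy (B o3).card + ∑ o ∈ O', yy (B o).card)) := by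
    rw [hO', Finset.add_sum_erase _ (fun o => yy (B o).card) m3', Finset.add_sum_erase _ (fun o => yy (B o).card) m2',
      Finset.add_sum_erase _ (fun o => yy (B o).card) m1]
  have hsub : ∀ o ∈ O', ∀ p ∈ B o, p.2 = s' p.1 := by
    intro o ho p hp
    obtain ⟨ho, e1, e2, e3⟩ := hmem o ho
    by_contra hne
    rcases rbw_dec2 s s' hd p.1 p.2 hne with ⟨i, j, a1, a2, a3, a4, a5, a6⟩ | ⟨i, j, a1, a2, a3, a4, a5, a6⟩
    · exact hR o1 m1 o2 m2 o ho n12 e1.symm e2.symm _ (h1 i) _ (h2 j) p hp a1 a2 a3 a4 a5 a6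
    · exact hR o1 m1 o3 m3 o ho n13 e1.symm e3.symm _ (h1 i) _ (h3 j) p hp a1 a2 a3 a4 a5 a6
  have heq : ∀ o ∈ O', ∀ o' ∈ O', o ≠ o' → ∀ p ∈ B o, ∀ p' ∈ B o', p = p' := by
    intro o ho o' ho' hoo p hp p' hp'
    have e := hsub o ho p hp
    have e' := hsub o' ho' p' hp'
    obtain ⟨hoO, -, -, f3⟩ := hmem o ho
    obtain ⟨hoO', -, -, f3'⟩ := hmem o' ho'
    by_contra hne
    have hne1 : p.1 ≠ p'.1 := by
      intro h
      exact hne (Prod.ext h (by rw [e, e', h]))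
    obtain ⟨c, c1, c2⟩ := rbw_dec3 p.1 p'.1
    refine hR o hoO o' hoO' o3 m3 hoo f3 f3' p hp p' hp' _ (h3 c) hne1 c1 c2 ?_ ?_ ?_
    · rw [e, e']
      exact fun h => hne1 (s'.injective h)
    · rw [e]
      exact fun h => c1 (s'.injective h)
    · rw [e']
      exact fun h => c2 (s'.injective h)
  have b1 := rbw_yy3 (rbw_card (hB o1 m1))
  have b2 := rbw_yy3 (rbw_card (hB o2 m2))
  have b3 := rbw_yy3 (rbw_card (hB o3 m3))
  have hcardZ : ((O'.card : ℕ) : ℤ) + 3 = O.card := by exact_mod_cast hcard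
  by_cases hex : ∃ o4 ∈ O', 2 ≤ (B o4).card
  · obtain ⟨o4, ho4, h4⟩ := hex
    have hemp : ∀ o ∈ O'.erase o4, yy (B o).card ≤ -2 := by
      intro o ho
      rw [Finset.mem_erase] at ho
      have : B o = ∅ := by
        by_contra hne
        obtain ⟨p', hp'⟩ := Finset.nonempty_iff_ne_empty.2 hne
        have : (B o4).card ≤ 1 := Finset.card_le_one.2 fun p hp q hq =>
          (heq o4 ho4 o ho.2 ho.1.symm p hp p' hp').trans (heq o4 ho4 o ho.2 ho.1.symm q hq p' hp').symm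
        omega
      rw [this, Finset.card_empty]
      unfold yy
      norm_num
    have b4 := rbw_yy3 (rbw_card (hB o4 (hmem o4 ho4).1))
    have b5 := Finset.sum_le_sum hemp
    rw [Finset.sum_const, Finset.card_erase_of_mem ho4, nsmul_eq_mul] at b5
    have hpos : 1 ≤ O'.card := Finset.card_pos.2 ⟨o4, ho4⟩
    rw [Nat.cast_sub hpos] at b5
    have b6 : yy (B o4).card + ∑ o ∈ O'.erase o4, yy (B o).card = ∑ o ∈ O', yy (B o).card :=
      Finset.add_sum_erase O' (fun o => yy (B o).card) ho4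
    push_cast at b5
    rw [hsum, ← b6]
    constructor
    · intro h
      have hZ : (6 : ℤ) ≤ O.card := by exact_mod_cast h
      linarith
    · intro h
      have hZ : (7 : ℤ) ≤ O.card := by exact_mod_cast h
      linarith
  · push Not at hex
    have b5 : ∑ o ∈ O', yy (B o).card ≤ ∑ o ∈ O', (-1 : ℤ) :=
      Finset.sum_le_sum fun o ho => rbw_yy1 (by have := hex o ho; omega)
    rw [Finset.sum_const, nsmul_eq_mul] at b5
    rw [hsum]
    constructor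
    · intro h
      have hZ : (6 : ℤ) ≤ O.card := by exact_mod_cast h
      linarith
    · intro h
      have hZ : (7 : ℤ) ≤ O.card := by exact_mod_cast h
      linarith

theorem rbw {ι : Type} [DecidableEq ι] (O : Finset ι) (B : ι → Finset (Fin 3 × Fin 3))
    (hB : ∀ o ∈ O, ∀ p ∈ B o, ∀ q ∈ B o, (p.1 = q.1 ∨ p.2 = q.2) → p = q)
    (hR : ∀ o1 ∈ O, ∀ o2 ∈ O, ∀ o3 ∈ O, o1 ≠ o2 → o1 ≠ o3 → o2 ≠ o3 →
      ∀ p1 ∈ B o1, ∀ p2 ∈ B o2, ∀ p3 ∈ B o3, p1.1 ≠ p2.1 → p1.1 ≠ p3.1 → p2.1 ≠ p3.1 →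
        p1.2 ≠ p2.2 → p1.2 ≠ p3.2 → p2.2 ≠ p3.2 → False) :
    (6 ≤ O.card → ∑ o ∈ O, yy (B o).card ≤ 9) ∧ (7 ≤ O.card → ∑ o ∈ O, yy (B o).card ≤ 6) := by
  rcases Nat.lt_or_ge (O.filter (fun o => (B o).card = 3)).card 3 with hq | hq
  · have h1 : ∑ o ∈ O, yy (B o).card ≤ ∑ o ∈ O, (if (B o).card = 3 then (3 : ℤ) else 0) := by
      refine Finset.sum_le_sum fun o ho => ?_
      have hc := rbw_card (hB o ho)
      split_ifs with h
      · exact rbw_yy3 hc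
      · exact rbw_yy0 (by omega)
    rw [← Finset.sum_filter, Finset.sum_const, nsmul_eq_mul] at h1
    have h2 : (((O.filter (fun o => (B o).card = 3)).card : ℕ) : ℤ) ≤ 2 := by
      have : (O.filter (fun o => (B o).card = 3)).card ≤ 2 := by omega
      exact_mod_cast this
    constructor
    · intro _
      linarith
    · intro _
      linarith
  · obtain ⟨o1, o2, o3, h1, h2, h3, n12, n13, n23⟩ := Finset.two_lt_card_iff.1 hq
    rw [Finset.mem_filter] at h1 h2 h3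
    obtain ⟨s1, hs1⟩ := rbw_perm (hB o1 h1.1) h1.2
    obtain ⟨s2, hs2⟩ := rbw_perm (hB o2 h2.1) h2.2
    obtain ⟨s3, hs3⟩ := rbw_perm (hB o3 h3.1) h3.2
    rcases rbw_dec1 s1 s2 s3 with ⟨i, j, k, a1, a2, a3, a4, a5, a6⟩ | ⟨e, hd⟩ | ⟨e, hd⟩ | ⟨e, hd⟩
    · exact (hR o1 h1.1 o2 h2.1 o3 h3.1 n12 n13 n23 _ (hs1 i) _ (hs2 j) _ (hs3 k) a1 a2 a3 a4 a5 a6).elim
    · exact rbw_main O B hB hR o1 o2 o3 h1.1 h2.1 h3.1 n12 n13 n23 s1 s3 hs1 (e ▸ hs2) hs3 hd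
    · exact rbw_main O B hB hR o1 o3 o2 h1.1 h3.1 h2.1 n13 n12 n23.symm s1 s2 hs1 (e ▸ hs3) hs2 hd
    · exact rbw_main O B hB hR o2 o3 o1 h2.1 h3.1 h1.1 n23 n12.symm n13.symm s2 s1 hs2 (e ▸ hs3) hs1 hd

end Pool.Agent.TUR
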