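import Pool.Agent.TUR.AUG
import Pool.Agent.TUR.LOC

/-!
# TUR / SPG : a pair `(e,f)` with `off = 3` has a poor member

`o ∈ O = OO X M`, `off H e f o = 3`.  Let `G'_e` be the pairs of `Lk H e O` not containing `o`,
`G'_f` similarly.
(x) every `α ∈ G'_e` meets every `β ∈ G'_f`: let `insert p α ∈ H`, `p ∈ e`, `insert p' β ∈ H`,
  `p' ∈ f`.  By `off_eq3` the three pairs `(x,y)` with `oxy ∈ H` form a bijection between `e` and `f`;
  at most one of them contains `p` and at most one contains `p'`, so one of them, `(x,y)`, avoids both.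
  If `α, β` were disjoint, `insert p α, insert p' β, {o,x,y}` would be three disjoint edges inside
  `e ∪ f ∪ O`: contradiction to `aug3`.
(y) so `|G'_e| ≤ m-2` or `|G'_f| ≤ m-2` (`m ≥ 9`; `O \ {o}` has `m-1` vertices): if `G'_f` has two
  disjoint pairs, every `α ∈ G'_e` is one of the four pairs joining them, so `|G'_e| ≤ 4`.  Otherwise
  `G'_f` is intersecting: a star (`≤ m-2` pairs in `O \ {o}`) or at most 3 pairs (a triangle).
(z) `|Lk H e O| ≤ |G'_e| + (m-1)` (pairs containing `o`).
Hence `|Lk H e O| ≤ 2m-3` or `|Lk H f O| ≤ 2m-3`.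
-/

namespace Pool.Agent.TUR

open Finset

variable {V : Type} [DecidableEq V] {X : Finset V} {H M : Finset (Finset V)} {t m : ℕ}

private theorem SPG_pair {β : Finset V} (h2 : β.card = 2) {a : V} (ha : a ∈ β) :
    ∃ x, x ≠ a ∧ β = {a, x} := by
  have h1 : (β.erase a).card = 1 := by rw [Finset.card_erase_of_mem ha, h2]
  obtain ⟨x, hx⟩ := Finset.card_eq_one.1 h1
  refine ⟨x, ?_, ?_⟩
  · have : x ∈ β.erase a := by rw [hx]; simp
    exact Finset.ne_of_mem_erase this
  · rw [← Finset.insert_erase ha, hx]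

private theorem SPG_star {W : Finset V} {B : Finset (Finset V)} {a : V}
    (hB : ∀ β ∈ B, β ⊆ W ∧ β.card = 2) (ha : a ∈ W) (h : ∀ β ∈ B, a ∈ β) :
    B.card + 1 ≤ W.card := by
  have h1 : B ⊆ (W.erase a).image (fun x => ({a, x} : Finset V)) := by
    intro β hβ
    obtain ⟨x, hxa, hx⟩ := SPG_pair (hB β hβ).2 (h β hβ)
    rw [Finset.mem_image]
    refine ⟨x, Finset.mem_erase.2 ⟨hxa, (hB _ hβ).1 (by rw [hx]; simp)⟩, hx.symm⟩
  have h2 := (Finset.card_le_card h1).trans Finset.card_image_le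
  rw [Finset.card_erase_of_mem ha] at h2
  have h3 : 0 < W.card := Finset.card_pos.2 ⟨a, ha⟩
  omega

private theorem SPG_two {α : Finset V} (h2 : α.card = 2) {x y : V} (hx : x ∈ α) (hy : y ∈ α)
    (hxy : x ≠ y) : α = {x, y} := by
  symm
  apply Finset.eq_of_subset_of_card_le
  · intro z hz
    rw [Finset.mem_insert, Finset.mem_singleton] at hz
    rcases hz with rfl | rfl <;> assumption
  · rw [h2, Finset.card_pair hxy]

private theorem SPG_cross {W : Finset V} {A B : Finset (Finset V)} (hW : 5 ≤ W.card)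
    (hA : ∀ β ∈ A, β ⊆ W ∧ β.card = 2) (hB : ∀ β ∈ B, β ⊆ W ∧ β.card = 2)
    (h : ∀ α ∈ A, ∀ β ∈ B, ¬ Disjoint α β) :
    A.card + 1 ≤ W.card ∨ B.card + 1 ≤ W.card := by
  by_cases hd : ∃ β ∈ B, ∃ β' ∈ B, Disjoint β β'
  · left
    obtain ⟨β, hβ, β', hβ', hdis⟩ := hd
    obtain ⟨a, b, hab, rfl⟩ := Finset.card_eq_two.1 (hB β hβ).2
    obtain ⟨c, d, hcd, rfl⟩ := Finset.card_eq_two.1 (hB β' hβ').2
    have h1 : A ⊆ {{a, c}, {a, d}, {b, c}, {b, d}} := by
      intro α hα
      obtain ⟨x, hx, hx'⟩ := Finset.not_disjoint_iff.1 (h α hα _ hβ)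
      obtain ⟨y, hy, hy'⟩ := Finset.not_disjoint_iff.1 (h α hα _ hβ')
      have hxy : x ≠ y := by
        rintro rfl
        exact Finset.disjoint_left.1 hdis hx' hy'
      have h2 : α = {x, y} := SPG_two (hA α hα).2 hx hy hxy
      rw [Finset.mem_insert, Finset.mem_singleton] at hx' hy'
      rcases hx' with rfl | rfl <;> rcases hy' with rfl | rfl <;> simp [h2]
    have h3 := (Finset.card_le_card h1).trans Finset.card_le_four
    omega
  · right
    have hd' : ∀ β ∈ B, ∀ β' ∈ B, ¬ Disjoint β β' := by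
      intro β hβ β' hβ' hh
      exact hd ⟨β, hβ, β', hβ', hh⟩
    rcases B.eq_empty_or_nonempty with rfl | ⟨β0, hβ0⟩
    · rw [Finset.card_empty]; omega
    obtain ⟨a, b, hab, rfl⟩ := Finset.card_eq_two.1 (hB β0 hβ0).2
    have haW : a ∈ W := (hB _ hβ0).1 (by simp)
    have hbW : b ∈ W := (hB _ hβ0).1 (by simp)
    by_cases hsa : ∀ β ∈ B, a ∈ β
    · exact SPG_star hB haW hsa
    by_cases hsb : ∀ β ∈ B, b ∈ β
    · exact SPG_star hB hbW hsb
    rw [not_forall] at hsa hsb
    obtain ⟨β1, h1'⟩ := hsa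
    obtain ⟨β2, h2'⟩ := hsb
    rw [Classical.not_imp] at h1' h2'
    obtain ⟨h1, h1a⟩ := h1'
    obtain ⟨h2, h2b⟩ := h2'
    have hb1 : b ∈ β1 := by
      obtain ⟨x, hx, hx'⟩ := Finset.not_disjoint_iff.1 (hd' _ hβ0 _ h1)
      rw [Finset.mem_insert, Finset.mem_singleton] at hx
      rcases hx with rfl | rfl
      · exact (h1a hx').elim
      · exact hx'
    have ha2 : a ∈ β2 := by
      obtain ⟨x, hx, hx'⟩ := Finset.not_disjoint_iff.1 (hd' _ hβ0 _ h2)
      rw [Finset.mem_insert, Finset.mem_singleton] at hx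
      rcases hx with rfl | rfl
      · exact hx'
      · exact (h2b hx').elim
    obtain ⟨c, hcb, rfl⟩ := SPG_pair (hB _ h1).2 hb1
    obtain ⟨d, hda, rfl⟩ := SPG_pair (hB _ h2).2 ha2
    have hcd : c = d := by
      obtain ⟨x, hx, hx'⟩ := Finset.not_disjoint_iff.1 (hd' _ h1 _ h2)
      rw [Finset.mem_insert, Finset.mem_singleton] at hx hx'
      rcases hx with rfl | rfl
      · exact (h2b (by simpa using hx')).elim
      · rcases hx' with h3 | h3
        · exact (h1a (by rw [h3]; simp)).elim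
        · exact h3
    subst hcd
    have h3 : B ⊆ {{a, b}, {b, c}, {a, c}} := by
      intro β hβ
      obtain ⟨x, hx, hx'⟩ := Finset.not_disjoint_iff.1 (hd' _ hβ _ hβ0)
      obtain ⟨y, hy, hy'⟩ := Finset.not_disjoint_iff.1 (hd' _ hβ _ h1)
      obtain ⟨z, hz, hz'⟩ := Finset.not_disjoint_iff.1 (hd' _ hβ _ h2)
      rw [Finset.mem_insert, Finset.mem_singleton] at hx' hy' hz'
      by_cases haβ : a ∈ β
      · obtain ⟨w, hwa, rfl⟩ := SPG_pair (hB _ hβ).2 haβ
        have hya : y ≠ a := by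
          rintro rfl
          rcases hy' with h4 | h4
          · exact hab h4
          · exact hda h4.symm
        rw [Finset.mem_insert, Finset.mem_singleton] at hy
        rcases hy with h4 | h4
        · exact (hya h4).elim
        subst h4
        rcases hy' with rfl | rfl <;> simp
      · have hb : b ∈ β := by
          rcases hx' with rfl | rfl
          · exact (haβ hx).elim
          · exact hx
        have hc : c ∈ β := by
          rcases hz' with rfl | rfl
          · exact (haβ hz).elim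
          · exact hz
        rw [SPG_two (hB _ hβ).2 hb hc hcb.symm]
        simp
    have h4 := (Finset.card_le_card h3).trans Finset.card_le_three
    omega

private theorem SPG_split {e O : Finset V} {o : V} (ho : o ∈ O) :
    (Lk H e O).card + 1 ≤ ((Lk H e O).filter (fun p => o ∉ p)).card + O.card := by
  have h1 := Finset.card_filter_add_card_filter_not (s := Lk H e O) (fun p => o ∈ p)
  have h2 : ((Lk H e O).filter (fun p => o ∈ p)).card + 1 ≤ O.card := by
    apply SPG_star (a := o) _ ho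
    · intro β hβ
      exact (Finset.mem_filter.1 hβ).2
    · intro β hβ
      have := mem_Lk.1 (Finset.mem_filter.1 hβ).1
      exact ⟨this.1, this.2.1⟩
  omega

theorem spg (hC : Cfg X H M t m) (hm : 9 ≤ m) {e f : Finset V} (he : e ∈ M) (hf : f ∈ M)
    (hef : e ≠ f) {o : V} (ho : o ∈ OO X M) (h3 : off H e f o = 3) :
    (Lk H e (OO X M)).card + 3 ≤ 2 * m ∨ (Lk H f (OO X M)).card + 3 ≤ 2 * m := by
  have hd : Disjoint e f := hC.mat.2 e he f hf hef
  have hO : ∀ {z g}, g ∈ M → z ∈ g → z ∉ OO X M := by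
    intro z g hg hz hzO
    exact (mem_OO.1 hzO).2 g hg hz
  have hoe : o ∉ e := fun h => hO he h ho
  have hof : o ∉ f := fun h => hO hf h ho
  have heH := hC.mat.1 he
  have hfH := hC.mat.1 hf
  obtain ⟨hp1, -⟩ := off_eq3 hC.good heH hfH hd hoe hof h3
  have hcr : ∀ α ∈ (Lk H e (OO X M)).filter (fun p => o ∉ p),
      ∀ β ∈ (Lk H f (OO X M)).filter (fun p => o ∉ p), ¬ Disjoint α β := by
    intro α hα β hβ hdis
    obtain ⟨hα1, hoα⟩ := Finset.mem_filter.1 hα
    obtain ⟨hβ1, hoβ⟩ := Finset.mem_filter.1 hβ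
    obtain ⟨hαO, hα2, p, hp, hpα⟩ := mem_Lk.1 hα1
    obtain ⟨hβO, hβ2, p', hp', hpβ⟩ := mem_Lk.1 hβ1
    -- a pair avoiding both
    obtain ⟨x, y, hx, hy, hxp, hyp, hxy⟩ : ∃ x y, x ∈ e ∧ y ∈ f ∧ x ≠ p ∧ y ≠ p' ∧ Ed H o x y := by
      have hc : (e.erase p).card = 2 := by
        rw [Finset.card_erase_of_mem hp, hC.card_e he]
      obtain ⟨q, r, hqr, hqr'⟩ := Finset.card_eq_two.1 hc
      have hq : q ∈ e.erase p := by rw [hqr']; simp
      have hr : r ∈ e.erase p := by rw [hqr']; simp
      obtain ⟨y1, hy1, hy1'⟩ := hp1 q (Finset.mem_of_mem_erase hq)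
      obtain ⟨y2, hy2, hy2'⟩ := hp1 r (Finset.mem_of_mem_erase hr)
      by_cases h1 : y1 = p'
      · by_cases h2 : y2 = p'
        · exfalso
          subst h1
          subst h2
          apply hqr
          exact off_mat hC.good heH (fun h => Finset.disjoint_left.1 hd h hp') hoe
            (Finset.mem_of_mem_erase hq) (Finset.mem_of_mem_erase hr) hy1'.swap23 hy2'.swap23
        · exact ⟨r, y2, Finset.mem_of_mem_erase hr, hy2, Finset.ne_of_mem_erase hr, h2, hy2'⟩
      · exact ⟨q, y1, Finset.mem_of_mem_erase hq, hy1, Finset.ne_of_mem_erase hq, h1, hy1'⟩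
    have hne : ∀ {u v}, u ∈ e → v ∈ f → u ≠ v := by
      rintro u v hu hv rfl
      exact Finset.disjoint_left.1 hd hu hv
    have hxα : x ∉ α := fun h => hO he hx (hαO h)
    have hyα : y ∉ α := fun h => hO hf hy (hαO h)
    have hxβ : x ∉ β := fun h => hO he hx (hβO h)
    have hyβ : y ∉ β := fun h => hO hf hy (hβO h)
    have hpβ' : p ∉ β := fun h => hO he hp (hβO h)
    have hpα' : p' ∉ α := fun h => hO hf hp' (hαO h)
    have hpo : p ≠ o := by rintro rfl; exact hoe hp
    have hpo' : p' ≠ o := by rintro rfl; exact hof hp'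
    apply aug3 hC he hf hef hpα hpβ hxy
    · intro z hz
      rcases Finset.mem_insert.1 hz with rfl | h
      · simp [hp]
      · exact Finset.mem_union_right _ (hαO h)
    · intro z hz
      rcases Finset.mem_insert.1 hz with rfl | h
      · simp [hp']
      · exact Finset.mem_union_right _ (hβO h)
    · intro z hz
      simp only [Finset.mem_insert, Finset.mem_singleton] at hz
      rcases hz with rfl | rfl | rfl
      · exact Finset.mem_union_right _ ho
      · simp [hx]
      · simp [hy]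
    · rw [Finset.disjoint_insert_left, Finset.mem_insert, not_or, Finset.disjoint_insert_right]
      exact ⟨⟨hne hp hp', hpβ'⟩, hpα', hdis⟩
    · rw [Finset.disjoint_insert_left]
      refine ⟨?_, ?_⟩
      · simp only [Finset.mem_insert, Finset.mem_singleton, not_or]
        exact ⟨hpo, hxp.symm, hne hp hy⟩
      · rw [Finset.disjoint_insert_right, Finset.disjoint_insert_right,
          Finset.disjoint_singleton_right]
        exact ⟨hoα, hxα, hyα⟩
    · rw [Finset.disjoint_insert_left]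
      refine ⟨?_, ?_⟩
      · simp only [Finset.mem_insert, Finset.mem_singleton, not_or]
        exact ⟨hpo', (hne hx hp').symm, hyp.symm⟩
      · rw [Finset.disjoint_insert_right, Finset.disjoint_insert_right,
          Finset.disjoint_singleton_right]
        exact ⟨hoβ, hxβ, hyβ⟩
  have hsub : ∀ {g : Finset V}, ∀ β ∈ (Lk H g (OO X M)).filter (fun p => o ∉ p),
      β ⊆ (OO X M).erase o ∧ β.card = 2 := by
    intro g β hβ
    obtain ⟨hβ1, hoβ⟩ := Finset.mem_filter.1 hβ
    obtain ⟨h1, h2, -⟩ := mem_Lk.1 hβ1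
    refine ⟨?_, h2⟩
    intro z hz
    refine Finset.mem_erase.2 ⟨?_, h1 hz⟩
    rintro rfl
    exact hoβ hz
  have hcO := hC.card_OO
  have hcW : ((OO X M).erase o).card = m - 1 := by
    rw [Finset.card_erase_of_mem ho, hcO]
  have hfin := SPG_cross (W := (OO X M).erase o) (by omega) hsub hsub hcr
  have hs1 := SPG_split (H := H) (e := e) ho
  have hs2 := SPG_split (H := H) (e := f) ho
  rw [hcO] at hs1 hs2
  rw [hcW] at hfin
  rcases hfin with h | h
  · left; omega
  · right; omega

end Pool.Agent.TUR
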