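import Pool.Agent.TUR.Defs

/-!
# TUR / SPN : the counting inequality in the sparse region

`M` a set with `t ≥ 4` elements, `¬ Rg t m`, so `m ≥ 9`; `q = ⌊m^2/4⌋`, `F = q + 3 - 2m` (`≥ 5`).
`g e + g f ≤ 2q` for `e ≠ f`.  `K = {e : g e + 3 ≤ 2m}`, `κ = |K|`; `g e ≤ q - F` on `K`.
`Γ ⊆ M.offDiag`, every pair of `Γ` meets `K`.  `Vt = Γ.image fst ∪ Γ.image snd`, `v = |Vt|`.
Claim: `|Γ| + ∑ g ≤ t q + v`.

* `∑ g ≤ t q - κ F` if `t - κ ≠ 1`; `∑ g ≤ t q - (κ-1) F` if `t - κ = 1`.  (The sum of `g` over the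
  elements outside `K` is `≤ (t-κ) q` if there are `≥ 2` of them (sum the pair inequalities) or none;
  if there is exactly one, `l`, then `κ = t-1 ≥ 3` and `g l + g k ≤ 2q` for one `k ∈ K`, and the other
  `κ - 1` elements have `g ≤ q - F`.)
* With `k' = |K ∩ Vt|`: `Γ ⊆` the pairs of `Vt.offDiag` meeting `K`, so
  `|Γ| ≤ v(v-1) - (v-k')(v-k'-1) = k'(2v-k'-1)`, `k' ≤ κ`, `k' ≤ v ≤ t`.
* So it is enough that `k'(2v-k'-1) ≤ v + κF` (resp. `v + (κ-1)F` if `κ = t-1`).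
  `¬ Rg t m` gives `m ≥ 9` and [`F ≥ 2t-2` or `(t,m) ∈ {(5,9),(7,11),(8,11)}`].
  If `F ≥ 2t-2`: `k'(2v-k'-1) ≤ k'(2t-2) ≤ κF`; if `κ = t-1`:
  `k'(2v-k'-1) ≤ k'(2t-k'-1) ≤ (t-1)t ≤ (t-2)(2t-2) ≤ (κ-1)F` (as `t ≥ 4`; `k'(2t-k'-1)` is increasing
  for `k' ≤ t-1`).
  In the three exceptional cases `F = 5, 11, 11` and it is a finite check over `k' ≤ κ ≤ t, k' ≤ v ≤ t`
  (checked by computer).
-/

namespace Pool.Agent.TUR

open Finset

private theorem SPN_sum {ι : Type} [DecidableEq ι] (L : Finset ι) (g : ι → ℕ) (Q : ℕ)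
    (hL : L.card ≠ 1) (hg : ∀ e ∈ L, ∀ f ∈ L, e ≠ f → g e + g f ≤ 2 * Q) :
    ∑ e ∈ L, g e ≤ L.card * Q := by
  by_cases h : ∀ e ∈ L, g e ≤ Q
  · have := Finset.sum_le_sum h
    rwa [Finset.sum_const, smul_eq_mul] at this
  · push Not at h
    obtain ⟨e0, he0, hlt⟩ := h
    have hc : 2 ≤ L.card := by
      have : 0 < L.card := Finset.card_pos.2 ⟨e0, he0⟩
      omega
    obtain ⟨f0, hf0⟩ : (L.erase e0).Nonempty := by
      rw [← Finset.card_pos, Finset.card_erase_of_mem he0]; omega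
    have hf0L := Finset.mem_of_mem_erase hf0
    have hne : e0 ≠ f0 := (Finset.ne_of_mem_erase hf0).symm
    rw [← Finset.add_sum_erase L g he0, ← Finset.add_sum_erase (L.erase e0) g hf0]
    have h1 : ∑ e ∈ (L.erase e0).erase f0, g e ≤ ((L.erase e0).erase f0).card * Q := by
      have h2 : ∀ e ∈ (L.erase e0).erase f0, g e ≤ Q := by
        intro e he
        have he1 := Finset.mem_of_mem_erase he
        have he2 := Finset.mem_of_mem_erase he1
        have := hg e0 he0 e he2 (Finset.ne_of_mem_erase he1).symm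
        omega
      have := Finset.sum_le_sum h2
      rwa [Finset.sum_const, smul_eq_mul] at this
    rw [Finset.card_erase_of_mem hf0, Finset.card_erase_of_mem he0] at h1
    have h3 := hg e0 he0 f0 hf0L hne
    obtain ⟨c, hc'⟩ : ∃ c, L.card = c + 2 := ⟨L.card - 2, by omega⟩
    rw [hc'] at h1 ⊢
    have h4 : (c + 2 - 1 - 1) = c := by omega
    rw [h4] at h1
    nlinarith

private theorem SPN_num (t m v κ k F : ℕ) (ht : 4 ≤ t) (hR : ¬ Rg t m)
    (hF : F + 2 * m = m ^ 2 / 4 + 3) (hkκ : k ≤ κ) (hκ : κ ≤ t) (hkv : k ≤ v) (hv : v ≤ t) :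
    (κ + 1 ≠ t → k * (2 * v - k - 1) ≤ v + κ * F) ∧
      (κ + 1 = t → k * (2 * v - k - 1) ≤ v + (κ - 1) * F) := by
  unfold Rg at hR
  rw [not_or] at hR
  obtain ⟨hm, hR⟩ := hR
  have hm9 : 9 ≤ m := by omega
  by_cases h1 : m * m / 4 + 5 < 2 * m + 2 * t
  · have h2 : (t = 5 ∧ m = 9) ∨ (t = 7 ∧ m = 11) ∨ (t = 8 ∧ m = 11) := by
      by_contra h3
      rw [not_or, not_or] at h3
      exact hR ⟨h1, h3.1, h3.2.1, h3.2.2⟩
    rcases h2 with ⟨rfl, rfl⟩ | ⟨rfl, rfl⟩ | ⟨rfl, rfl⟩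
    · have hF5 : F = 5 := by norm_num at hF; omega
      subst hF5
      have key : ∀ κ v k : Fin 6, (k : ℕ) ≤ κ → (k : ℕ) ≤ v →
          ((κ : ℕ) + 1 ≠ 5 → (k : ℕ) * (2 * v - k - 1) ≤ v + κ * 5) ∧
          ((κ : ℕ) + 1 = 5 → (k : ℕ) * (2 * v - k - 1) ≤ v + (κ - 1) * 5) := by decide +kernel
      exact key ⟨κ, by omega⟩ ⟨v, by omega⟩ ⟨k, by omega⟩ hkκ hkv
    · have hF5 : F = 11 := by norm_num at hF; omega
      subst hF5
      have key : ∀ κ v k : Fin 8, (k : ℕ) ≤ κ → (k : ℕ) ≤ v →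
          ((κ : ℕ) + 1 ≠ 7 → (k : ℕ) * (2 * v - k - 1) ≤ v + κ * 11) ∧
          ((κ : ℕ) + 1 = 7 → (k : ℕ) * (2 * v - k - 1) ≤ v + (κ - 1) * 11) := by decide +kernel
      exact key ⟨κ, by omega⟩ ⟨v, by omega⟩ ⟨k, by omega⟩ hkκ hkv
    · have hF5 : F = 11 := by norm_num at hF; omega
      subst hF5
      have key : ∀ κ v k : Fin 9, (k : ℕ) ≤ κ → (k : ℕ) ≤ v →
          ((κ : ℕ) + 1 ≠ 8 → (k : ℕ) * (2 * v - k - 1) ≤ v + κ * 11) ∧
          ((κ : ℕ) + 1 = 8 → (k : ℕ) * (2 * v - k - 1) ≤ v + (κ - 1) * 11) := by decide +kernel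
      exact key ⟨κ, by omega⟩ ⟨v, by omega⟩ ⟨k, by omega⟩ hkκ hkv
  · have hF2 : 2 * t ≤ F + 2 := by
      have h3 : m ^ 2 = m * m := by ring
      rw [h3] at hF
      omega
    rcases Nat.eq_zero_or_pos k with hk0 | hk0
    · subst hk0
      exact ⟨fun _ => by simp, fun _ => by simp⟩
    constructor
    · intro _
      have h4 : k * (2 * v - k - 1) ≤ κ * F := Nat.mul_le_mul hkκ (by omega)
      omega
    · intro hκt
      obtain ⟨T, rfl⟩ : ∃ T, t = T + 4 := ⟨t - 4, by omega⟩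
      have hκT : κ = T + 3 := by omega
      subst hκT
      have h5 : (T + 3 - 1) * F ≥ (T + 2) * (2 * T + 6) := by
        have : T + 3 - 1 = T + 2 := by omega
        rw [this]
        exact Nat.mul_le_mul le_rfl (by omega)
      have h6 : k * (2 * v - k - 1) ≤ (T + 3) * (T + 4) := by
        obtain ⟨j, hj⟩ : ∃ j, T + 3 = k + j := ⟨T + 3 - k, by omega⟩
        have h7 : 2 * v - k - 1 ≤ T + 4 + j := by omega
        calc k * (2 * v - k - 1) ≤ k * (T + 4 + j) := Nat.mul_le_mul le_rfl h7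
          _ ≤ (T + 3) * (T + 4) := by
            have h8 : T + 4 = k + j + 1 := by omega
            rw [h8, hj]
            nlinarith [Nat.zero_le (j * j), Nat.zero_le j]
      nlinarith

theorem spn {ι : Type} [DecidableEq ι] (M : Finset ι) (t m : ℕ) (ht : 4 ≤ t) (hM : M.card = t)
    (hR : ¬ Rg t m) (Γ : Finset (ι × ι)) (hΓ : Γ ⊆ M.offDiag) (g : ι → ℕ)
    (hg : ∀ e ∈ M, ∀ f ∈ M, e ≠ f → g e + g f ≤ 2 * (m ^ 2 / 4))
    (hK : ∀ q ∈ Γ, g q.1 + 3 ≤ 2 * m ∨ g q.2 + 3 ≤ 2 * m) :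
    Γ.card + ∑ e ∈ M, g e ≤
      t * (m ^ 2 / 4) + (Γ.image Prod.fst ∪ Γ.image Prod.snd).card := by
  have hm9 : 9 ≤ m := by
    unfold Rg at hR
    omega
  have hq : 2 * m ≤ m ^ 2 / 4 := by
    rw [Nat.le_div_iff_mul_le (by norm_num)]
    nlinarith
  obtain ⟨F, hF⟩ : ∃ F, F + 2 * m = m ^ 2 / 4 + 3 := ⟨m ^ 2 / 4 + 3 - 2 * m, by omega⟩
  set Q := m ^ 2 / 4 with hQ
  set Vt := Γ.image Prod.fst ∪ Γ.image Prod.snd with hVt
  set K := M.filter (fun e => g e + 3 ≤ 2 * m) with hKdef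
  have hVM : Vt ⊆ M := by
    intro x hx
    rw [hVt, Finset.mem_union, Finset.mem_image, Finset.mem_image] at hx
    rcases hx with ⟨p, hp, rfl⟩ | ⟨p, hp, rfl⟩
    · exact (Finset.mem_offDiag.1 (hΓ hp)).1
    · exact (Finset.mem_offDiag.1 (hΓ hp)).2.1
  -- the number of pairs
  have hΓc : Γ.card ≤ (Vt ∩ K).card * (2 * Vt.card - (Vt ∩ K).card - 1) := by
    have h1 : Γ ⊆ Vt.offDiag \ (Vt \ K).offDiag := by
      intro p hp
      have hp1 := Finset.mem_offDiag.1 (hΓ hp)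
      rw [Finset.mem_sdiff, Finset.mem_offDiag, Finset.mem_offDiag]
      refine ⟨⟨?_, ?_, hp1.2.2⟩, ?_⟩
      · exact Finset.mem_union_left _ (Finset.mem_image_of_mem _ hp)
      · exact Finset.mem_union_right _ (Finset.mem_image_of_mem _ hp)
      · rintro ⟨h2, h3, _⟩
        rcases hK p hp with h4 | h4
        · exact (Finset.mem_sdiff.1 h2).2 (Finset.mem_filter.2 ⟨hp1.1, h4⟩)
        · exact (Finset.mem_sdiff.1 h3).2 (Finset.mem_filter.2 ⟨hp1.2.1, h4⟩)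
    have h2 := Finset.card_le_card h1
    have h3 : (Vt \ K).offDiag ⊆ Vt.offDiag := Finset.offDiag_mono Finset.sdiff_subset
    rw [Finset.card_sdiff_of_subset h3, Finset.offDiag_card, Finset.offDiag_card] at h2
    have h4 : (Vt \ K).card + (Vt ∩ K).card = Vt.card := Finset.card_sdiff_add_card_inter Vt K
    obtain ⟨a, ha⟩ : ∃ a, (Vt \ K).card = a := ⟨_, rfl⟩
    obtain ⟨k, hk⟩ : ∃ k, (Vt ∩ K).card = k := ⟨_, rfl⟩
    rw [ha, hk] at h4
    rw [ha, ← h4] at h2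
    rw [hk, ← h4]
    refine le_trans h2 ?_
    rcases Nat.eq_zero_or_pos k with rfl | hk0
    · simp
    · obtain ⟨j, rfl⟩ : ∃ j, k = j + 1 := ⟨k - 1, by omega⟩
      have h5 : 2 * (a + (j + 1)) - (j + 1) - 1 = 2 * a + j := by omega
      rw [h5]
      have h6 : (a + (j + 1)) * (a + (j + 1)) - (a + (j + 1)) = (a + j + 1) * (a + j) := by
        have : (a + (j + 1)) * (a + (j + 1)) = (a + j + 1) * (a + j) + (a + (j + 1)) := by ring
        rw [this, Nat.add_sub_cancel]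
      rw [h6]
      have h7 : (a + j + 1) * (a + j) = a * a + 2 * a * j + j * j + a + j := by ring
      have h8 : (j + 1) * (2 * a + j) = 2 * a * j + j * j + 2 * a + j := by ring
      rw [h7, h8]
      have h9 : a * a = (a * a - a) + a := by
        have : a ≤ a * a := Nat.le_mul_self a
        omega
      generalize a * a = A at *
      omega
  have hkκ : (Vt ∩ K).card ≤ K.card := Finset.card_le_card Finset.inter_subset_right
  have hkv : (Vt ∩ K).card ≤ Vt.card := Finset.card_le_card Finset.inter_subset_left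
  have hvt : Vt.card ≤ t := hM ▸ Finset.card_le_card hVM
  have hKM : K ⊆ M := Finset.filter_subset _ _
  have hκt : K.card ≤ t := hM ▸ Finset.card_le_card hKM
  obtain ⟨hn1, hn2⟩ := SPN_num t m Vt.card K.card (Vt ∩ K).card F ht hR hF hkκ hκt hkv hvt
  have hsplit : ∑ e ∈ M, g e = ∑ e ∈ M \ K, g e + ∑ e ∈ K, g e := by
    rw [Finset.sum_sdiff hKM]
  have hLc : (M \ K).card + K.card = t := by
    rw [← hM]; exact Finset.card_sdiff_add_card_eq_card hKM
  have hgK : ∀ e ∈ K, g e + F ≤ Q := by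
    intro e he
    have := (Finset.mem_filter.1 he).2
    omega
  have hsumK : ∀ K' ⊆ K, ∑ e ∈ K', g e + K'.card * F ≤ K'.card * Q := by
    intro K' hK'
    have h1 : ∀ e ∈ K', g e + F ≤ Q := fun e he => hgK e (hK' he)
    have h2 := Finset.sum_le_sum h1
    rw [Finset.sum_add_distrib, Finset.sum_const, Finset.sum_const, smul_eq_mul, smul_eq_mul] at h2
    exact h2
  by_cases hL1 : (M \ K).card = 1
  · obtain ⟨l, hl⟩ := Finset.card_eq_one.1 hL1
    have hlM : l ∈ M := by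
      have : l ∈ M \ K := by rw [hl]; exact Finset.mem_singleton_self l
      exact (Finset.mem_sdiff.1 this).1
    have hlK : l ∉ K := by
      have : l ∈ M \ K := by rw [hl]; exact Finset.mem_singleton_self l
      exact (Finset.mem_sdiff.1 this).2
    obtain ⟨k0, hk0⟩ : K.Nonempty := by
      rw [← Finset.card_pos]; omega
    have h1 := hg l hlM k0 (hKM hk0) (fun h => hlK (h ▸ hk0))
    have h2 := hsumK (K.erase k0) (Finset.erase_subset _ _)
    rw [Finset.card_erase_of_mem hk0] at h2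
    have h3 : ∑ e ∈ K, g e = g k0 + ∑ e ∈ K.erase k0, g e := (Finset.add_sum_erase K g hk0).symm
    have h4 : ∑ e ∈ M \ K, g e = g l := by rw [hl, Finset.sum_singleton]
    have h5 := hn2 (by omega)
    have h6 : t = (K.card - 1) + 2 := by omega
    rw [hsplit, h4, h3]
    have h7 : t * Q = (K.card - 1) * Q + 2 * Q := by rw [h6]; ring
    rw [h7]
    omega
  · have h1 := SPN_sum (M \ K) g Q hL1 (fun e he f hf hef =>
      hg e (Finset.mem_sdiff.1 he).1 f (Finset.mem_sdiff.1 hf).1 hef)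
    have h2 := hsumK K (Finset.Subset.refl K)
    have h5 := hn1 (by omega)
    have h7 : t * Q = (M \ K).card * Q + K.card * Q := by rw [← hLc]; ring
    rw [hsplit, h7]
    omega

end Pool.Agent.TUR
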