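import Pool.Agent.TUR.T3A
import Pool.Agent.TUR.DECB
import Pool.Agent.TUR.POI
import Pool.Agent.TUR.ESM

/-!
# TUR / T3 : matching number 3
-/

namespace Pool.Agent.TUR

open Finset

variable {V : Type} [DecidableEq V] {X : Finset V} {H M : Finset (Finset V)} {t m : ℕ}

theorem card_Lk_le (hC : Cfg X H M t m) (e : Finset V) :
    (Lk H e (OO X M)).card ≤ m.choose 2 := by
  calc (Lk H e (OO X M)).card ≤ ((OO X M).powersetCard 2).card := Finset.card_filter_le _ _
    _ = m.choose 2 := by rw [Finset.card_powersetCard, hC.card_OO]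

theorem sum_zO_eq (M : Finset (Finset V)) (O : Finset V) (H : Finset (Finset V)) :
    ∑ o ∈ O, zO H M o = ∑ e ∈ M, zE H e O := by
  unfold zO zE
  simp_rw [Finset.card_filter]
  exact Finset.sum_comm

theorem sum_q_eq (M : Finset (Finset V)) (O : Finset V) (H : Finset (Finset V)) :
    ∑ o ∈ O, (M.offDiag.filter (fun q => off H q.1 q.2 o = 3)).card =
      ∑ q ∈ M.offDiag, (O.filter (fun o => off H q.1 q.2 o = 3)).card := by
  simp_rw [Finset.card_filter]
  exact Finset.sum_comm

/-- if every pair has at most three uncovered vertices with `off = 3`, the sum over the pairs is at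
most `3 |Gam|` -/
theorem sum_q_le (X : Finset V) (H M : Finset (Finset V))
    (hq : ∀ q ∈ M.offDiag, ((OO X M).filter (fun o => off H q.1 q.2 o = 3)).card ≤ 3) :
    ∑ q ∈ M.offDiag, ((OO X M).filter (fun o => off H q.1 q.2 o = 3)).card ≤
      3 * (Gam X H M M).card := by
  have h1 : ∑ q ∈ M.offDiag, ((OO X M).filter (fun o => off H q.1 q.2 o = 3)).card ≤
      ∑ q ∈ M.offDiag, if (∃ o ∈ OO X M, off H q.1 q.2 o = 3) then 3 else 0 := by
    refine Finset.sum_le_sum (fun q hq' => ?_)
    split_ifs with h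
    · exact hq q hq'
    · rw [Nat.le_zero, Finset.card_eq_zero, Finset.filter_eq_empty_iff]
      intro o ho h3
      exact h ⟨o, ho, h3⟩
  refine h1.trans ?_
  rw [← Finset.sum_filter, Finset.sum_const, smul_eq_mul, mul_comm]
  rfl

private theorem T3_small (hC : Cfg X H M 3 m)
    (hq : ∀ q ∈ M.offDiag, ((OO X M).filter (fun o => off H q.1 q.2 o = 3)).card ≤ 3) :
    H.card ≤ gg 3 m := by
  have hA := t3a hC
  have hd := dec hC
  have he := esm hC le_rfl
  have hs : ∑ o ∈ OO X M, (2 * ∑ e ∈ M, dg H e o + ∑ q ∈ M.offDiag, off H q.1 q.2 o) +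
      2 * ∑ o ∈ OO X M, zO H M o ≤
      18 * m + ∑ o ∈ OO X M, (M.offDiag.filter (fun q => off H q.1 q.2 o = 3)).card := by
    rw [Finset.mul_sum, ← Finset.sum_add_distrib]
    calc _ ≤ ∑ o ∈ OO X M, (18 + (M.offDiag.filter (fun q => off H q.1 q.2 o = 3)).card) :=
          Finset.sum_le_sum (fun o ho => po3 hC ho)
      _ = _ := by rw [Finset.sum_add_distrib, Finset.sum_const, hC.card_OO, smul_eq_mul]; ring
  rw [sum_q_eq, sum_zO_eq] at hs
  have hq' := sum_q_le X H M hq
  rw [gg_eq]
  have : 3 ^ 3 + 3 ^ 2 * m + 3 * (m ^ 2 / 4) = 27 + 9 * m + 3 * (m ^ 2 / 4) := by norm_num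
  omega

private theorem T3_offDiag {α : Type} [DecidableEq α] (e f g : α) (h1 : e ≠ f) (h2 : e ≠ g)
    (h3 : f ≠ g) (F : α × α → ℕ) :
    ∑ q ∈ ({e, f, g} : Finset α).offDiag, F q =
      F (e, f) + F (e, g) + F (f, e) + F (f, g) + F (g, e) + F (g, f) := by
  have : ({e, f, g} : Finset α).offDiag = {(e, f), (e, g), (f, e), (f, g), (g, e), (g, f)} := by
    ext ⟨a, b⟩
    simp only [Finset.mem_offDiag, Finset.mem_insert, Finset.mem_singleton, Prod.mk.injEq]
    constructor
    · rintro ⟨h | h | h, h' | h' | h', hne⟩ <;> subst h <;> subst h' <;> simp_all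
    · rintro (⟨rfl, rfl⟩ | ⟨rfl, rfl⟩ | ⟨rfl, rfl⟩ | ⟨rfl, rfl⟩ | ⟨rfl, rfl⟩ | ⟨rfl, rfl⟩) <;>
        simp_all [Ne.symm h1, Ne.symm h2, Ne.symm h3]
  rw [this]
  rw [Finset.sum_insert, Finset.sum_insert, Finset.sum_insert, Finset.sum_insert,
    Finset.sum_insert, Finset.sum_singleton]
  · ring
  all_goals simp [h1, h2, h3, Ne.symm h1, Ne.symm h2, Ne.symm h3]

private theorem T3_sum {α : Type} [DecidableEq α] (e f g : α) (h1 : e ≠ f) (h2 : e ≠ g)
    (h3 : f ≠ g) (F : α → ℕ) :
    ∑ q ∈ ({e, f, g} : Finset α), F q = F e + F f + F g := by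
  rw [Finset.sum_insert (by simp [h1, h2]), Finset.sum_insert (by simp [h3]),
    Finset.sum_singleton]
  ring

private theorem T3_third (hC : Cfg X H M 3 m) {e f : Finset V} (he : e ∈ M) (hf : f ∈ M)
    (hef : e ≠ f) : ∃ g, e ≠ g ∧ f ≠ g ∧ M = {e, f, g} := by
  have h1 : ((M.erase e).erase f).card = 1 := by
    rw [Finset.card_erase_of_mem (Finset.mem_erase.2 ⟨Ne.symm hef, hf⟩),
      Finset.card_erase_of_mem he, hC.cardM]
  obtain ⟨g, hg⟩ := Finset.card_eq_one.1 h1
  have hg' : g ∈ (M.erase e).erase f := by rw [hg]; simp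
  rw [Finset.mem_erase, Finset.mem_erase] at hg'
  refine ⟨g, Ne.symm hg'.2.1, Ne.symm hg'.1, ?_⟩
  rw [← Finset.insert_erase he, ← Finset.insert_erase (Finset.mem_erase.2 ⟨Ne.symm hef, hf⟩), hg]

private theorem T3_large (hC : Cfg X H M 3 m) (hm : 5 ≤ m) : H.card ≤ gg 3 m := by
  have hA := t3a hC
  have hd := dec hC
  have hs : ∑ o ∈ OO X M, (2 * ∑ e ∈ M, dg H e o + ∑ q ∈ M.offDiag, off H q.1 q.2 o) ≤
      18 * m := by
    calc _ ≤ ∑ o ∈ OO X M, 18 := Finset.sum_le_sum (fun o ho => po3' hC ho)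
      _ = _ := by rw [Finset.sum_const, hC.card_OO, smul_eq_mul]; ring
  obtain ⟨e, f, g, h1, h2, h3, hM⟩ := Finset.card_eq_three.1 hC.cardM
  have heM : e ∈ M := by rw [hM]; simp
  have hfM : f ∈ M := by rw [hM]; simp
  have hgM : g ∈ M := by rw [hM]; simp
  have p1 := epr hC hm heM hfM h1
  have p2 := epr hC hm heM hgM h2
  have p3 := epr hC hm hfM hgM h3
  have hsum : ∑ e ∈ M, (Lk H e (OO X M)).card =
      (Lk H e (OO X M)).card + (Lk H f (OO X M)).card + (Lk H g (OO X M)).card := by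
    conv_lhs => rw [show (∑ e ∈ M, (Lk H e (OO X M)).card) =
      ∑ e ∈ ({e, f, g} : Finset (Finset V)), (Lk H e (OO X M)).card from by rw [← hM]]
    exact T3_sum e f g h1 h2 h3 _
  rw [hsum] at hd
  rw [gg_eq]
  have : 3 ^ 3 + 3 ^ 2 * m + 3 * (m ^ 2 / 4) = 27 + 9 * m + 3 * (m ^ 2 / 4) := by norm_num
  omega

private theorem T3_four (hC : Cfg X H M 3 4) {e f : Finset V} (he : e ∈ M) (hf : f ∈ M)
    (hef : e ≠ f) (hq : 4 ≤ ((OO X M).filter (fun o => off H e f o = 3)).card) :
    H.card ≤ gg 3 4 := by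
  have hA := t3a hC
  have hd := dec hC
  obtain ⟨g, heg, hfg, hM⟩ := T3_third hC he hf hef
  have hg : g ∈ M := by rw [hM]; simp
  have hall : ∀ o ∈ OO X M, off H e f o = 3 := by
    have hsub : (OO X M).filter (fun o => off H e f o = 3) = OO X M := by
      apply Finset.eq_of_subset_of_card_le (Finset.filter_subset _ _)
      rw [hC.card_OO]; exact hq
    intro o ho
    rw [← hsub] at ho
    exact (Finset.mem_filter.1 ho).2
  have hLk : ∑ e ∈ M, (Lk H e (OO X M)).card ≤ 18 := by
    calc _ ≤ ∑ e ∈ M, 6 := Finset.sum_le_sum (fun e _ => (card_Lk_le hC e).trans (by decide))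
      _ = 18 := by rw [Finset.sum_const, hC.cardM]; rfl
  have hne : (OO X M).Nonempty := by
    rw [← Finset.card_pos, hC.card_OO]; norm_num
  obtain ⟨o0, ho0⟩ := hne
  have hmem : ∀ a ∈ M, ∀ b ∈ M, a ≠ b → ∀ o ∈ OO X M, off H a b o = 3 →
      (a, b) ∈ Gam X H M M ∧ (b, a) ∈ Gam X H M M := by
    intro a ha b hb hab o ho h3
    unfold Gam
    refine ⟨Finset.mem_filter.2 ⟨Finset.mem_offDiag.2 ⟨ha, hb, hab⟩, o, ho, h3⟩,
      Finset.mem_filter.2 ⟨Finset.mem_offDiag.2 ⟨hb, ha, Ne.symm hab⟩, o, ho, ?_⟩⟩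
    rw [off_comm]; exact h3
  have hg1 := hmem e he f hf hef o0 ho0 (hall o0 ho0)
  rw [gg_eq]
  norm_num
  by_cases hcard : 4 ≤ (Gam X H M M).card
  · have hs : ∑ o ∈ OO X M, (2 * ∑ e ∈ M, dg H e o + ∑ q ∈ M.offDiag, off H q.1 q.2 o) ≤
        18 * 4 := by
      calc _ ≤ ∑ o ∈ OO X M, 18 := Finset.sum_le_sum (fun o ho => po3' hC ho)
        _ = _ := by rw [Finset.sum_const, hC.card_OO, smul_eq_mul]
    omega
  · have h2 : 2 ≤ (Gam X H M M).card := by
      have : ({(e, f), (f, e)} : Finset (Finset V × Finset V)) ⊆ Gam X H M M := by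
        intro x hx
        rw [Finset.mem_insert, Finset.mem_singleton] at hx
        rcases hx with rfl | rfl
        · exact hg1.1
        · exact hg1.2
      calc 2 = ({(e, f), (f, e)} : Finset (Finset V × Finset V)).card := by
            rw [Finset.card_pair]; intro h; exact hef (Prod.mk.inj h).1
        _ ≤ _ := Finset.card_le_card this
    have hno : ∀ a ∈ M, ∀ o ∈ OO X M, (a = e ∨ a = f) → off H a g o ≠ 3 := by
      intro a ha o ho hae h3
      apply hcard
      have hag : a ≠ g := by rcases hae with rfl | rfl <;> assumption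
      have hg2 := hmem a ha g hg hag o ho h3
      have : ({(e, f), (f, e), (a, g), (g, a)} : Finset (Finset V × Finset V)) ⊆
          Gam X H M M := by
        intro x hx
        simp only [Finset.mem_insert, Finset.mem_singleton] at hx
        rcases hx with rfl | rfl | rfl | rfl
        · exact hg1.1
        · exact hg1.2
        · exact hg2.1
        · exact hg2.2
      refine le_trans (le_of_eq ?_) (Finset.card_le_card this)
      have hae' : a = e ∨ a = f := hae
      rw [Finset.card_insert_of_notMem, Finset.card_insert_of_notMem,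
        Finset.card_pair]
      · intro h; exact hag (Prod.mk.inj h).1
      · simp only [Finset.mem_insert, Finset.mem_singleton, Prod.mk.injEq, not_or, not_and]
        exact ⟨fun _ h => heg h, fun h => absurd h hfg⟩
      · simp only [Finset.mem_insert, Finset.mem_singleton, Prod.mk.injEq, not_or, not_and]
        exact ⟨fun h => absurd h hef, fun _ h => hfg h, fun h => absurd h heg⟩
    have hdis : ∀ a ∈ M, ∀ b ∈ M, a ≠ b → Disjoint a b := hC.mat.2
    have hs : ∑ o ∈ OO X M, (2 * ∑ e ∈ M, dg H e o + ∑ q ∈ M.offDiag, off H q.1 q.2 o) ≤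
        16 * 4 := by
      calc _ ≤ ∑ o ∈ OO X M, 16 := Finset.sum_le_sum (fun o ho => ?_)
        _ = _ := by rw [Finset.sum_const, hC.card_OO, smul_eq_mul]
      have hoe : ∀ a ∈ M, o ∉ a := (mem_OO.1 ho).2
      have s1 : ∑ e ∈ M, dg H e o = dg H e o + dg H f o + dg H g o := by
        conv_lhs => rw [hM]
        exact T3_sum e f g hef heg hfg _
      have s2 : ∑ q ∈ M.offDiag, off H q.1 q.2 o =
          off H e f o + off H e g o + off H f e o + off H f g o + off H g e o + off H g f o := by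
        conv_lhs => rw [hM]
        exact T3_offDiag e f g hef heg hfg (fun q => off H q.1 q.2 o)
      have c1 := off_comm H f e o
      have c2 := off_comm H g e o
      have c3 := off_comm H g f o
      have a0 := hall o ho
      have a1 := off_add_dg hC.good (hC.mat.1 he) (hC.mat.1 hf) (hdis e he f hf hef)
        (hoe e he) (hoe f hf)
      have a2 := off_add_dg hC.good (hC.mat.1 hf) (hC.mat.1 he) (hdis f hf e he (Ne.symm hef))
        (hoe f hf) (hoe e he)
      have a3 := off_add_dg hC.good (hC.mat.1 hg) (hC.mat.1 he) (hdis g hg e he (Ne.symm heg))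
        (hoe g hg) (hoe e he)
      have a4 := off_add_dg hC.good (hC.mat.1 hg) (hC.mat.1 hf) (hdis g hg f hf (Ne.symm hfg))
        (hoe g hg) (hoe f hf)
      have n1 := hno e he o ho (Or.inl rfl)
      have n2 := hno f hf o ho (Or.inr rfl)
      have l1 := off_le hC.good (hC.mat.1 he) (hC.mat.1 hg) (hdis e he g hg heg)
        (hoe e he) (hoe g hg)
      have l2 := off_le hC.good (hC.mat.1 hf) (hC.mat.1 hg) (hdis f hf g hg hfg)
        (hoe f hf) (hoe g hg)
      rw [s1, s2]
      omega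
    omega

theorem ps3 (V : Type) [DecidableEq V] (m : ℕ) : PS V 3 m := by
  intro X H M hC
  by_cases hm : 5 ≤ m
  · exact T3_large hC hm
  · by_cases hq : ∀ q ∈ M.offDiag, ((OO X M).filter (fun o => off H q.1 q.2 o = 3)).card ≤ 3
    · exact T3_small hC hq
    · simp only [not_forall, not_le] at hq
      obtain ⟨⟨e, f⟩, hef, h4⟩ := hq
      rw [Finset.mem_offDiag] at hef
      have : m = 4 := by
        have h1 : ((OO X M).filter (fun o => off H e f o = 3)).card ≤ m := by
          rw [← hC.card_OO]; exact Finset.card_filter_le _ _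
        have h4' : 3 < ((OO X M).filter (fun o => off H e f o = 3)).card := h4
        omega
      subst this
      exact T3_four hC hef.1 hef.2.1 hef.2.2 h4

end Pool.Agent.TUR
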