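import Pool.Agent.TUR.XFA

/-!
# TUR / XFB : counting the edges around a Fano plane

`F` the 7 points, `R = X \ F`, `|R| = N`.  For every edge `h` (`h ⊆ X`, `h.card = 3`):
* `|h ∩ F| = 3`: `h ⊆ F`, at most 7 edges (`fano_in`);
* `|h ∩ F| = 2`: `h = insert u p`, `u ∈ R`, `p ⊆ F` a pair: at most `3 N` (`fano_two`);
* `|h ∩ F| = 1`: `h ↦ h ∩ R` is injective into the pairs of `R` (`fano_one`): at most `C(N,2)`.
`fano_meet`: the sum of the three bounds.
`fano_deg`: `7δ ≤ ∑ v ∈ F, deg v = ∑ h, |h ∩ F| ≤ 3*7 + 2*3N + C(N,2)`.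
(Put the common part in a private lemma with the three numbers `c3 ≤ 7, c2 ≤ 3N, c1 ≤ C(N,2)`.)
-/

namespace Pool.Agent.TUR

open Finset

variable {V : Type} [DecidableEq V] {X : Finset V} {H : Finset (Finset V)}

private theorem XFB_cardF {a b c w1 w2 w3 w4 : V} (hF : Fano H a b c w1 w2 w3 w4) :
    ({a, b, c, w1, w2, w3, w4} : Finset V).card = 7 := by
  have h1 := List.toFinset_card_of_nodup hF.nd
  have h2 : ([a, b, c, w1, w2, w3, w4] : List V).toFinset =
      ({a, b, c, w1, w2, w3, w4} : Finset V) := by
    simp [List.toFinset_cons]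
  rw [h2] at h1
  exact h1

private theorem XFB_sub (hG : Good X H) {a b c w1 w2 w3 w4 : V} (hF : Fano H a b c w1 w2 w3 w4) :
    ({a, b, c, w1, w2, w3, w4} : Finset V) ⊆ X := by
  obtain ⟨h1, h2, h3⟩ := hG.mem hF.abc
  obtain ⟨_, h4, h5⟩ := hG.mem hF.a12
  obtain ⟨_, h6, h7⟩ := hG.mem hF.a34
  intro x hx
  simp only [Finset.mem_insert, Finset.mem_singleton] at hx
  rcases hx with rfl | rfl | rfl | rfl | rfl | rfl | rfl <;> assumption

private theorem XFB_count (hG : Good X H) {a b c w1 w2 w3 w4 : V}
    (hF : Fano H a b c w1 w2 w3 w4) {N : ℕ} (hN : X.card = N + 7) :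
    (H.filter (fun h => (h ∩ ({a, b, c, w1, w2, w3, w4} : Finset V)).card = 3)).card ≤ 7 ∧
    (H.filter (fun h => (h ∩ ({a, b, c, w1, w2, w3, w4} : Finset V)).card = 2)).card ≤ 3 * N ∧
    (H.filter (fun h => (h ∩ ({a, b, c, w1, w2, w3, w4} : Finset V)).card = 1)).card ≤
      N.choose 2 := by
  have hin := fano_in hG hF
  have htwo := fun {u : V} => fano_two hG hF (u := u)
  have hone := fun {x y u u' : V} => fano_one hG hF (x := x) (y := y) (u := u) (u' := u')
  have hc7 := XFB_cardF hF
  have hs := XFB_sub hG hF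
  generalize ({a, b, c, w1, w2, w3, w4} : Finset V) = F at *
  have hR : (X \ F).card = N := by
    rw [Finset.card_sdiff_of_subset hs]; omega
  refine ⟨?_, ?_, ?_⟩
  · refine le_trans (Finset.card_le_card ?_) hin
    intro h hh
    rw [Finset.mem_filter] at hh ⊢
    refine ⟨hh.1, ?_⟩
    have h1 : h ∩ F = h := Finset.eq_of_subset_of_card_le Finset.inter_subset_left
      (by rw [hh.2, hG.card3 h hh.1])
    exact Finset.inter_eq_left.1 h1
  · have h1 : H.filter (fun h => (h ∩ F).card = 2) ⊆
        (X \ F).biUnion (fun u => H.filter (fun h => (h ∩ F).card = 2 ∧ u ∈ h)) := by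
      intro h hh
      rw [Finset.mem_filter] at hh
      have h2 : (h \ F).card = 1 := by
        have := Finset.card_sdiff_add_card_inter h F
        rw [hG.card3 h hh.1, hh.2] at this
        omega
      obtain ⟨u, hu⟩ := Finset.card_eq_one.1 h2
      have hu' : u ∈ h \ F := by rw [hu]; exact Finset.mem_singleton_self u
      rw [Finset.mem_sdiff] at hu'
      rw [Finset.mem_biUnion]
      exact ⟨u, Finset.mem_sdiff.2 ⟨hG.sub h hh.1 hu'.1, hu'.2⟩,
        Finset.mem_filter.2 ⟨hh.1, hh.2, hu'.1⟩⟩
    refine le_trans (Finset.card_le_card h1) (le_trans Finset.card_biUnion_le ?_)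
    have h3 : ∀ u ∈ X \ F, (H.filter (fun h => (h ∩ F).card = 2 ∧ u ∈ h)).card ≤ 3 := by
      intro u hu
      have huF : u ∉ F := (Finset.mem_sdiff.1 hu).2
      refine le_trans ?_ (htwo huF)
      refine Finset.card_le_card_of_injOn (fun h => h ∩ F) ?_ ?_
      · intro h hh
        have hh' := Finset.mem_filter.1 (Finset.mem_coe.1 hh)
        have h4 : insert u (h ∩ F) = h := by
          apply Finset.eq_of_subset_of_card_le
          · intro x hx
            rcases Finset.mem_insert.1 hx with rfl | hx
            · exact hh'.2.2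
            · exact (Finset.mem_inter.1 hx).1
          · rw [hG.card3 h hh'.1, Finset.card_insert_of_notMem, hh'.2.1]
            intro hx
            exact huF (Finset.mem_inter.1 hx).2
        refine Finset.mem_coe.2 (Finset.mem_filter.2 ⟨Finset.mem_powersetCard.2
          ⟨Finset.inter_subset_right, hh'.2.1⟩, ?_⟩)
        show insert u (h ∩ F) ∈ H
        rw [h4]; exact hh'.1
      · intro h hh h' hh' heq
        have hh1 := Finset.mem_filter.1 (Finset.mem_coe.1 hh)
        have hh2 := Finset.mem_filter.1 (Finset.mem_coe.1 hh')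
        have key : ∀ g ∈ H, (g ∩ F).card = 2 → u ∈ g → insert u (g ∩ F) = g := by
          intro g hg hg2 hug
          apply Finset.eq_of_subset_of_card_le
          · intro x hx
            rcases Finset.mem_insert.1 hx with rfl | hx
            · exact hug
            · exact (Finset.mem_inter.1 hx).1
          · rw [hG.card3 g hg, Finset.card_insert_of_notMem, hg2]
            intro hx
            exact huF (Finset.mem_inter.1 hx).2
        rw [← key h hh1.1 hh1.2.1 hh1.2.2, ← key h' hh2.1 hh2.2.1 hh2.2.2]
        have heq' : h ∩ F = h' ∩ F := heq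
        rw [heq']
    refine le_trans (Finset.sum_le_sum h3) ?_
    rw [Finset.sum_const, hR, smul_eq_mul, mul_comm]
  · have h1 : (H.filter (fun h => (h ∩ F).card = 1)).card ≤ ((X \ F).powersetCard 2).card := by
      refine Finset.card_le_card_of_injOn (fun h => h \ F) ?_ ?_
      · intro h hh
        have hh' := Finset.mem_filter.1 (Finset.mem_coe.1 hh)
        refine Finset.mem_coe.2 (Finset.mem_powersetCard.2 ⟨?_, ?_⟩)
        · exact Finset.sdiff_subset_sdiff (hG.sub h hh'.1) (le_refl F)
        · have := Finset.card_sdiff_add_card_inter h F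
          rw [hG.card3 h hh'.1, hh'.2] at this
          show (h \ F).card = 2
          omega
      · intro h hh h' hh' heq
        have hh1 := Finset.mem_filter.1 (Finset.mem_coe.1 hh)
        have hh2 := Finset.mem_filter.1 (Finset.mem_coe.1 hh')
        have heq' : h \ F = h' \ F := heq
        have hcd : (h \ F).card = 2 := by
          have := Finset.card_sdiff_add_card_inter h F
          rw [hG.card3 h hh1.1, hh1.2] at this
          omega
        obtain ⟨u, u', huu, hu⟩ := Finset.card_eq_two.1 hcd
        obtain ⟨x, hx⟩ := Finset.card_eq_one.1 hh1.2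
        obtain ⟨y, hy⟩ := Finset.card_eq_one.1 hh2.2
        have hxF : x ∈ F := by
          have : x ∈ h ∩ F := by rw [hx]; exact Finset.mem_singleton_self x
          exact (Finset.mem_inter.1 this).2
        have hyF : y ∈ F := by
          have : y ∈ h' ∩ F := by rw [hy]; exact Finset.mem_singleton_self y
          exact (Finset.mem_inter.1 this).2
        have huF : u ∉ F := by
          have : u ∈ h \ F := by rw [hu]; simp
          exact (Finset.mem_sdiff.1 this).2
        have huF' : u' ∉ F := by
          have : u' ∈ h \ F := by rw [hu]; simp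
          exact (Finset.mem_sdiff.1 this).2
        have e1 : h = {x, u, u'} := by
          have := Finset.sdiff_union_inter h F
          rw [hu, hx] at this
          rw [← this]
          ext z; simp only [Finset.mem_union, Finset.mem_insert, Finset.mem_singleton]; tauto
        have e2 : h' = {y, u, u'} := by
          have := Finset.sdiff_union_inter h' F
          rw [← heq', hu, hy] at this
          rw [← this]
          ext z; simp only [Finset.mem_union, Finset.mem_insert, Finset.mem_singleton]; tauto
        have h3 : x = y := hone hxF hyF huF huF' (by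
          show ({x, u, u'} : Finset V) ∈ H
          rw [← e1]; exact hh1.1) (by
          show ({y, u, u'} : Finset V) ∈ H
          rw [← e2]; exact hh2.1)
        rw [e1, e2, h3]
    rw [Finset.card_powersetCard, hR] at h1
    exact h1

theorem fano_meet (hG : Good X H) {a b c w1 w2 w3 w4 : V} (hF : Fano H a b c w1 w2 w3 w4)
    {N : ℕ} (hN : X.card = N + 7) :
    meet H ({a, b, c, w1, w2, w3, w4} : Finset V) ≤ 7 + 3 * N + N.choose 2 := by
  obtain ⟨h3, h2, h1⟩ := XFB_count hG hF hN
  generalize ({a, b, c, w1, w2, w3, w4} : Finset V) = F at *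
  have hsub : H.filter (fun h => ¬ Disjoint h F) ⊆
      (H.filter (fun h => (h ∩ F).card = 3) ∪ H.filter (fun h => (h ∩ F).card = 2)) ∪
        H.filter (fun h => (h ∩ F).card = 1) := by
    intro h hh
    rw [Finset.mem_filter] at hh
    have h4 : (h ∩ F).card ≠ 0 := by
      intro h0
      exact hh.2 (Finset.disjoint_iff_inter_eq_empty.2 (Finset.card_eq_zero.1 h0))
    have h5 : (h ∩ F).card ≤ 3 := by
      rw [← hG.card3 h hh.1]; exact Finset.card_le_card Finset.inter_subset_left
    simp only [Finset.mem_union, Finset.mem_filter]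
    have h6 : (h ∩ F).card = 3 ∨ (h ∩ F).card = 2 ∨ (h ∩ F).card = 1 := by omega
    rcases h6 with h6 | h6 | h6
    · exact Or.inl (Or.inl ⟨hh.1, h6⟩)
    · exact Or.inl (Or.inr ⟨hh.1, h6⟩)
    · exact Or.inr ⟨hh.1, h6⟩
  have h7 := Finset.card_le_card hsub
  have h8 := Finset.card_union_le (H.filter (fun h => (h ∩ F).card = 3) ∪
    H.filter (fun h => (h ∩ F).card = 2)) (H.filter (fun h => (h ∩ F).card = 1))
  have h9 := Finset.card_union_le (H.filter (fun h => (h ∩ F).card = 3))
    (H.filter (fun h => (h ∩ F).card = 2))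
  unfold meet
  omega

theorem fano_deg (hG : Good X H) {a b c w1 w2 w3 w4 : V} (hF : Fano H a b c w1 w2 w3 w4)
    {N : ℕ} (hN : X.card = N + 7) {δ : ℕ} (hδ : ∀ v ∈ X, δ ≤ deg H v) :
    7 * δ ≤ 21 + 6 * N + N.choose 2 := by
  obtain ⟨h3, h2, h1⟩ := XFB_count hG hF hN
  have hc7 := XFB_cardF hF
  have hs := XFB_sub hG hF
  generalize ({a, b, c, w1, w2, w3, w4} : Finset V) = F at *
  have hdeg : 7 * δ ≤ ∑ v ∈ F, deg H v := by
    rw [← hc7, ← smul_eq_mul, ← Finset.sum_const]
    exact Finset.sum_le_sum fun v hv => hδ v (hs hv)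
  have hdc : ∑ v ∈ F, deg H v = ∑ h ∈ H, (h ∩ F).card := by
    simp only [deg, Finset.card_filter]
    rw [Finset.sum_comm]
    refine Finset.sum_congr rfl fun h _ => ?_
    rw [← Finset.card_filter]
    congr 1
    ext v
    simp only [Finset.mem_filter, Finset.mem_inter]
    tauto
  have hsplit : ∑ h ∈ H, (h ∩ F).card ≤ ∑ h ∈ H, (3 * (if (h ∩ F).card = 3 then 1 else 0) +
      2 * (if (h ∩ F).card = 2 then 1 else 0) + (if (h ∩ F).card = 1 then 1 else 0)) := by
    refine Finset.sum_le_sum fun h hh => ?_
    have h5 : (h ∩ F).card ≤ 3 := by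
      rw [← hG.card3 h hh]; exact Finset.card_le_card Finset.inter_subset_left
    generalize (h ∩ F).card = k at *
    interval_cases k <;> simp
  rw [Finset.sum_add_distrib, Finset.sum_add_distrib, ← Finset.mul_sum, ← Finset.mul_sum,
    ← Finset.card_filter, ← Finset.card_filter, ← Finset.card_filter] at hsplit
  omega

end Pool.Agent.TUR
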