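import Pool.Agent.TUR.ABO
import Pool.Agent.TUR.KFO
import Pool.Agent.TUR.XFB
import Pool.Agent.TUR.MON

/-!
# TUR / T3A : the bound for the edges inside `VM M`, `t = 3`

If `NoK4 (Lk H e (VM (M.erase e)))` for all `e ∈ M`: `abound` with `2 * 3^3 = 54`.
Otherwise for some `e ∈ M` use `k4_cases` with `W = VM (M.erase e)` (disjoint from `e`): `Mono` is
impossible by `mono_t` (`5 ≤ 3`); so there is a Fano plane `F = {a,b,c,w1,..,w4} ⊆ VM M`.
Let `H' = H.filter (· ⊆ VM M)`; it is `Good` on `VM M` (9 = 2 + 7 vertices, `Cfg.card_VM`), and `F` is a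
Fano plane of `H'`.  All edges of `H'` meet `F` (only 2 vertices of `VM M` are not in `F`), so
`AA H M = H'.card = meet H' F ≤ 7 + 3*2 + 1 = 14` (`fano_meet`, `N = 2`).
`(Gam X H M M).card ≤ M.offDiag.card = 6`.  `2*14 + 3*6 = 46 ≤ 54`.
-/

namespace Pool.Agent.TUR

open Finset

variable {V : Type} [DecidableEq V] {X : Finset V} {H M : Finset (Finset V)} {m : ℕ}

theorem t3a (hC : Cfg X H M 3 m) : 2 * AA H M + 3 * (Gam X H M M).card ≤ 54 := by
  by_cases hK : ∀ e ∈ M, NoK4 (Lk H e (VM (M.erase e)))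
  · have h := abound hC hK
    norm_num at h ⊢
    exact h
  push Not at hK
  obtain ⟨e, he, hne⟩ := hK
  have hsub : VM (M.erase e) ⊆ VM M := by
    intro x hx
    obtain ⟨f, hf, hxf⟩ := mem_VM.1 hx
    exact mem_VM.2 ⟨f, Finset.mem_of_mem_erase hf, hxf⟩
  have hd : Disjoint (VM (M.erase e)) e := by
    rw [Finset.disjoint_left]
    intro x hx hxe
    obtain ⟨f, hf, hxf⟩ := mem_VM.1 hx
    obtain ⟨h1, h2⟩ := Finset.mem_erase.1 hf
    exact (Finset.disjoint_left.1 (hC.mat.2 f h2 e he h1)) hxf hxe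
  rcases k4_cases hC.good (hC.mat.1 he) (VM (M.erase e)) hd with h | h | h
  · exact absurd h hne
  · obtain ⟨a, w1, w2, w3, w4, ha, h1, h2, h3, h4, hm⟩ := h
    have h5 := mono_t hC he ha h1 h2 h3 h4 hm
    omega
  obtain ⟨a, b, c, w1, w2, w3, w4, hee, h1, h2, h3, h4, hF⟩ := h
  have ea : a ∈ VM M := subset_VM he (by rw [hee]; simp)
  have eb : b ∈ VM M := subset_VM he (by rw [hee]; simp)
  have ec : c ∈ VM M := subset_VM he (by rw [hee]; simp)
  replace h1 := hsub h1
  replace h2 := hsub h2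
  replace h3 := hsub h3
  replace h4 := hsub h4
  have s3 : ∀ {x y z : V}, x ∈ VM M → y ∈ VM M → z ∈ VM M → Ed H x y z →
      Ed (H.filter (fun h => h ⊆ VM M)) x y z := by
    intro x y z hx hy hz hh
    refine Finset.mem_filter.2 ⟨hh, ?_⟩
    intro u hu
    simp only [Finset.mem_insert, Finset.mem_singleton] at hu
    rcases hu with rfl | rfl | rfl
    · exact hx
    · exact hy
    · exact hz
  have hG' : Good (VM M) (H.filter (fun h => h ⊆ VM M)) := by
    refine ⟨fun h hh => hC.good.card3 h (Finset.mem_filter.1 hh).1, fun h hh => (Finset.mem_filter.1 hh).2, ?_⟩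
    intro a b c d e' q1 q2 q3 q4 q5 q6 q7 q8 q9 q10 k1 k2 k3
    exact hC.good.f5 a b c d e' q1 q2 q3 q4 q5 q6 q7 q8 q9 q10 (Finset.mem_filter.1 k1).1
      (Finset.mem_filter.1 k2).1 (Finset.mem_filter.1 k3).1
  have hF' : Fano (H.filter (fun h => h ⊆ VM M)) a b c w1 w2 w3 w4 :=
    ⟨hF.nd, s3 ea eb ec hF.abc, s3 ea h1 h2 hF.a12, s3 ea h3 h4 hF.a34, s3 eb h1 h3 hF.b13,
      s3 eb h2 h4 hF.b24, s3 ec h1 h4 hF.c14, s3 ec h2 h3 hF.c23⟩
  have hVM : (VM M).card = 2 + 7 := by
    rw [hC.card_VM]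
  have hmeet := fano_meet hG' hF' hVM
  have hFs : ({a, b, c, w1, w2, w3, w4} : Finset V) ⊆ VM M := by
    intro u hu
    simp only [Finset.mem_insert, Finset.mem_singleton] at hu
    rcases hu with rfl | rfl | rfl | rfl | rfl | rfl | rfl
    · exact ea
    · exact eb
    · exact ec
    · exact h1
    · exact h2
    · exact h3
    · exact h4
  have hF7 : ({a, b, c, w1, w2, w3, w4} : Finset V).card = 7 := by
    have h7 := List.toFinset_card_of_nodup hF.nd
    have h8 : [a, b, c, w1, w2, w3, w4].toFinset = ({a, b, c, w1, w2, w3, w4} : Finset V) := by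
      simp
    rw [h8] at h7
    exact h7
  have hAA : AA H M ≤ meet (H.filter (fun h => h ⊆ VM M)) ({a, b, c, w1, w2, w3, w4} : Finset V) := by
    unfold AA meet
    generalize ({a, b, c, w1, w2, w3, w4} : Finset V) = F at hFs hF7
    refine Finset.card_le_card ?_
    intro h hh
    refine Finset.mem_filter.2 ⟨hh, ?_⟩
    intro hdis
    have q1 : h ⊆ VM M \ F := by
      intro x hx
      exact Finset.mem_sdiff.2 ⟨(Finset.mem_filter.1 hh).2 hx, Finset.disjoint_left.1 hdis hx⟩
    have q2 := Finset.card_le_card q1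
    have q3 := Finset.card_sdiff_add_card_eq_card hFs
    have q4 := hC.good.card3 h (Finset.mem_filter.1 hh).1
    omega
  have hGam : (Gam X H M M).card ≤ 6 := by
    unfold Gam
    refine (Finset.card_filter_le _ _).trans ?_
    rw [Finset.offDiag_card, hC.cardM]
  have hch : Nat.choose 2 2 = 1 := rfl
  rw [hch] at hmeet
  omega

end Pool.Agent.TUR
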