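import Pool.Agent.TUR.Defs

/-!
# TUR / XMO : degree sums around a `K_4` in a link

`Mono H a w1 w2 w3 w4`: all six `a wi wj` are edges.  `S = {a,w1,..,w4}`, `R = X \ S`, `|R| = N`.
By `Good.key`:
(k1) an edge `wi wj z` (`i ≠ j`) has `z = a`: with `k,l` the other two indices, `a wk wi, a wk wj ∈ H`
  give `z ∈ {a,wk}`, and `a wl wi, a wl wj` give `z ∈ {a,wl}`.
(k2) if `x ∈ R`, `a wi x ∈ H`, `j ≠ i`, `y ∈ R`, then `wj x y ∉ H` : `a wi x, a wi wj ∈ H` and
  `x wj y ∈ H` would give `y ∈ {a,wi}`.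
(k3) for `s ≠ s'` in `S` and `x,y ∈ R` not both `sxy, s'xy ∈ H`: there is an edge `s s' z` with
  `z ∈ S` (`z = a` or some `wj`), and `xys, xys' ∈ H` give `z ∈ {x,y}`.
For `x ∈ R` let `λ(x)` be the number of `i` with `a wi x ∈ H`.  `R1 = {x ∈ R : λ(x) ≤ 1}`,
`k = |R1|`.  So `∑ λ ≤ k + 4(N-k)`.
If `λ(x) ≥ 2` then no `wl x y` (`y ∈ R`) is an edge (k2: choose `i ≠ l` with `a wi x ∈ H`).

Count the edges `h` by `h ∩ S`:
 * `|h ∩ S| = 3`: `h = {a,wi,wj}`, six edges (k1 excludes `wi wj wk`);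
 * `|h ∩ S| = 2`: `h = {a,wi,x}`, `x ∈ R` (k1 excludes `wi wj x`): `∑ λ` edges;
 * `|h ∩ S| = 1`, `h = {s,x,y}`: `h ↦ {x,y}` is injective on these by (k3), so there are at most
   `C(N,2)` of them, and those with `s ≠ a` have `{x,y} ⊆ R1`: at most `C(k,2)`.
Hence `4δ ≤ ∑ deg wi = 2*6 + ∑λ + #(h = wi x y) ≤ 12 + k + 4(N-k) + C(k,2)` and
`5δ ≤ deg a + ∑ deg wi ≤ 3*6 + 2 ∑λ + C(N,2) ≤ 18 + 2(k+4(N-k)) + C(N,2)`.
-/

namespace Pool.Agent.TUR

open Finset

variable {V : Type} [DecidableEq V] {X : Finset V} {H : Finset (Finset V)}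

private instance edDec (H : Finset (Finset V)) (a b c : V) : Decidable (Ed H a b c) :=
  inferInstanceAs (Decidable (({a, b, c} : Finset V) ∈ H))

private structure Mn (X : Finset V) (H : Finset (Finset V)) (a : V) (W R : Finset V) : Prop where
  hW : W.card = 4
  haW : a ∉ W
  ed : ∀ w ∈ W, ∀ w' ∈ W, w ≠ w' → Ed H a w w'
  hR : ∀ x, x ∈ R ↔ x ∈ X ∧ x ≠ a ∧ x ∉ W

private lemma k1 (hG : Good X H) {a : V} {W R : Finset V} (h : Mn X H a W R) {w w' z : V}
    (hw : w ∈ W) (hw' : w' ∈ W) (hne : w ≠ w') (hE : Ed H w w' z) : z = a := by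
  have hsub : ({w, w'} : Finset V) ⊆ W := by
    intro y hy
    rw [Finset.mem_insert, Finset.mem_singleton] at hy
    rcases hy with rfl | rfl
    · exact hw
    · exact hw'
  have hc : (W \ {w, w'}).card = 2 := by
    rw [Finset.card_sdiff_of_subset hsub, Finset.card_pair hne, h.hW]
  obtain ⟨k, l, hkl, hEq⟩ := Finset.card_eq_two.1 hc
  have hk : k ∈ W \ {w, w'} := by rw [hEq]; simp
  have hl : l ∈ W \ {w, w'} := by rw [hEq]; simp
  have aux : ∀ k, k ∈ W \ {w, w'} → z = a ∨ z = k := by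
    intro k hk
    rw [Finset.mem_sdiff, Finset.mem_insert, Finset.mem_singleton, not_or] at hk
    exact hG.key (h.ed k hk.1 w hw hk.2.1) (h.ed k hk.1 w' hw' hk.2.2) hE
  rcases aux k hk with h1 | h1
  · exact h1
  · rcases aux l hl with h2 | h2
    · exact h2
    · exact absurd (h1.symm.trans h2) hkl

private lemma degw (hG : Good X H) {a : V} {W R : Finset V} (h : Mn X H a W R) {w : V}
    (hw : w ∈ W) :
    deg H w ≤ 3 + (R.filter (fun x => Ed H a w x)).card + (Lk H {w} R).card := by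
  classical
  have hwa : w ≠ a := fun e => h.haW (e ▸ hw)
  have hsub : H.filter (fun g => w ∈ g) ⊆
      ((W.erase w).image (fun w' => ({a, w, w'} : Finset V)) ∪
        (R.filter (fun x => Ed H a w x)).image (fun x => ({a, w, x} : Finset V))) ∪
        (Lk H {w} R).image (fun p => insert w p) := by
    intro g hg
    rw [Finset.mem_filter] at hg
    obtain ⟨hgH, hwg⟩ := hg
    obtain ⟨x, y, hg2⟩ : ∃ x y, g = {w, x, y} := by
      obtain ⟨p, q, r, -, -, -, rfl⟩ := hG.exists_eq hgH
      rw [Finset.mem_insert, Finset.mem_insert, Finset.mem_singleton] at hwg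
      rcases hwg with rfl | rfl | rfl
      · exact ⟨q, r, rfl⟩
      · exact ⟨p, r, by rw [Finset.insert_comm]⟩
      · refine ⟨p, q, ?_⟩
        ext z; simp only [Finset.mem_insert, Finset.mem_singleton]; tauto
    subst hg2
    have hE : Ed H w x y := hgH
    obtain ⟨n1, n2, n3⟩ := hG.ne hE
    obtain ⟨m1, m2, m3⟩ := hG.mem hE
    -- if one of the two is `a`
    have hA : ∀ y, Ed H w a y → ({w, a, y} : Finset V) ∈
        ((W.erase w).image (fun w' => ({a, w, w'} : Finset V)) ∪
        (R.filter (fun x => Ed H a w x)).image (fun x => ({a, w, x} : Finset V))) ∪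
        (Lk H {w} R).image (fun p => insert w p) := by
      intro y hy
      obtain ⟨n1, n2, n3⟩ := hG.ne hy
      obtain ⟨m1, m2, m3⟩ := hG.mem hy
      apply Finset.mem_union_left
      by_cases hyW : y ∈ W
      · apply Finset.mem_union_left
        rw [Finset.mem_image]
        exact ⟨y, Finset.mem_erase.2 ⟨n2.symm, hyW⟩, Finset.insert_comm _ _ _⟩
      · apply Finset.mem_union_right
        rw [Finset.mem_image]
        refine ⟨y, Finset.mem_filter.2 ⟨(h.hR y).2 ⟨m3, n3.symm, hyW⟩, hy.swap12⟩,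
          Finset.insert_comm _ _ _⟩
    by_cases hxa : x = a
    · subst hxa; exact hA y hE
    by_cases hya : y = a
    · subst hya
      have := hA x hE.swap23
      rwa [Finset.pair_comm] at this
    have hxW : x ∉ W := fun hx => hya (k1 hG h hw hx n1 hE)
    have hyW : y ∉ W := fun hy => hxa (k1 hG h hw hy n2 hE.swap23)
    apply Finset.mem_union_right
    rw [Finset.mem_image]
    refine ⟨{x, y}, ?_, rfl⟩
    rw [pair_mem_Lk n3]
    exact ⟨(h.hR x).2 ⟨m2, hxa, hxW⟩, (h.hR y).2 ⟨m3, hya, hyW⟩, w, by simp, hE⟩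
  have h3 : (W.erase w).card = 3 := by rw [Finset.card_erase_of_mem hw, h.hW]
  unfold deg
  refine (Finset.card_le_card hsub).trans ?_
  refine (Finset.card_union_le _ _).trans ?_
  refine Nat.add_le_add ?_ Finset.card_image_le
  refine (Finset.card_union_le _ _).trans ?_
  refine Nat.add_le_add ?_ Finset.card_image_le
  exact Finset.card_image_le.trans h3.le

private lemma dega (hG : Good X H) {a : V} {W R : Finset V} (h : Mn X H a W R) :
    deg H a ≤ 6 + (∑ w ∈ W, (R.filter (fun x => Ed H a w x)).card) + (Lk H {a} R).card := by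
  classical
  have hsub : H.filter (fun g => a ∈ g) ⊆
      ((W.powersetCard 2).image (fun p => insert a p) ∪
        W.biUnion (fun w => (R.filter (fun x => Ed H a w x)).image
          (fun x => ({a, w, x} : Finset V)))) ∪
        (Lk H {a} R).image (fun p => insert a p) := by
    intro g hg
    rw [Finset.mem_filter] at hg
    obtain ⟨hgH, hag⟩ := hg
    obtain ⟨x, y, hg2⟩ : ∃ x y, g = {a, x, y} := by
      obtain ⟨p, q, r, -, -, -, rfl⟩ := hG.exists_eq hgH
      rw [Finset.mem_insert, Finset.mem_insert, Finset.mem_singleton] at hag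
      rcases hag with rfl | rfl | rfl
      · exact ⟨q, r, rfl⟩
      · exact ⟨p, r, by rw [Finset.insert_comm]⟩
      · refine ⟨p, q, ?_⟩
        ext z; simp only [Finset.mem_insert, Finset.mem_singleton]; tauto
    subst hg2
    have hE : Ed H a x y := hgH
    obtain ⟨n1, n2, n3⟩ := hG.ne hE
    obtain ⟨m1, m2, m3⟩ := hG.mem hE
    by_cases hxW : x ∈ W
    · apply Finset.mem_union_left
      by_cases hyW : y ∈ W
      · apply Finset.mem_union_left
        rw [Finset.mem_image]
        refine ⟨{x, y}, ?_, rfl⟩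
        rw [Finset.mem_powersetCard]
        refine ⟨?_, Finset.card_pair n3⟩
        intro z hz
        rw [Finset.mem_insert, Finset.mem_singleton] at hz
        rcases hz with rfl | rfl
        · exact hxW
        · exact hyW
      · apply Finset.mem_union_right
        rw [Finset.mem_biUnion]
        refine ⟨x, hxW, ?_⟩
        rw [Finset.mem_image]
        exact ⟨y, Finset.mem_filter.2 ⟨(h.hR y).2 ⟨m3, n2.symm, hyW⟩, hE⟩, rfl⟩
    · by_cases hyW : y ∈ W
      · apply Finset.mem_union_left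
        apply Finset.mem_union_right
        rw [Finset.mem_biUnion]
        refine ⟨y, hyW, ?_⟩
        rw [Finset.mem_image]
        refine ⟨x, Finset.mem_filter.2 ⟨(h.hR x).2 ⟨m2, n1.symm, hxW⟩, hE.swap23⟩, ?_⟩
        rw [Finset.pair_comm]
      · apply Finset.mem_union_right
        rw [Finset.mem_image]
        refine ⟨{x, y}, ?_, rfl⟩
        rw [pair_mem_Lk n3]
        exact ⟨(h.hR x).2 ⟨m2, n1.symm, hxW⟩, (h.hR y).2 ⟨m3, n2.symm, hyW⟩, a, by simp, hE⟩
  unfold deg
  refine (Finset.card_le_card hsub).trans ?_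
  refine (Finset.card_union_le _ _).trans ?_
  refine Nat.add_le_add ?_ Finset.card_image_le
  refine (Finset.card_union_le _ _).trans ?_
  refine Nat.add_le_add ?_ ?_
  · refine Finset.card_image_le.trans ?_
    rw [Finset.card_powersetCard, h.hW]
    decide
  · refine Finset.card_biUnion_le.trans ?_
    exact Finset.sum_le_sum (fun w _ => Finset.card_image_le)

private lemma k3 (hG : Good X H) {s s' z : V} {R : Finset V} (hE : Ed H s s' z) (hz : z ∉ R) :
    Disjoint (Lk H {s} R) (Lk H {s'} R) := by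
  rw [Finset.disjoint_left]
  intro p hp hp'
  obtain ⟨x, y, hxy, rfl⟩ := Finset.card_eq_two.1 (mem_Lk.1 hp).2.1
  obtain ⟨hx, hy, q, hq, hE1⟩ := (pair_mem_Lk hxy).1 hp
  obtain ⟨-, -, q', hq', hE2⟩ := (pair_mem_Lk hxy).1 hp'
  rw [Finset.mem_singleton] at hq hq'
  subst hq hq'
  rcases hG.key hE1.rot hE2.rot hE with h | h
  · exact hz (h ▸ hx)
  · exact hz (h ▸ hy)

private lemma main (hG : Good X H) {δ : ℕ} (hδ : ∀ v ∈ X, δ ≤ deg H v) {a : V}
    {W R : Finset V} (h : Mn X H a W R) (haX : a ∈ X) (hWX : W ⊆ X) {N : ℕ} (hN : R.card = N) :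
    ∃ k ≤ N, 4 * δ + 3 * k ≤ 12 + 4 * N + k.choose 2 ∧
      5 * δ + 6 * k ≤ 18 + 8 * N + N.choose 2 := by
  classical
  have haR : a ∉ R := fun hh => ((h.hR a).1 hh).2.1 rfl
  have hWR : ∀ w ∈ W, w ∉ R := fun w hw hh => ((h.hR w).1 hh).2.2 hw
  set lam : V → ℕ := fun x => (W.filter (fun w => Ed H a w x)).card with hlam
  set R1 := R.filter (fun x => lam x ≤ 1) with hR1
  have hk2 : ∀ w ∈ W, ∀ x ∈ R, ∀ y ∈ R, Ed H w x y → lam x ≤ 1 := by
    intro w hw x hx y hy hE
    by_contra hcon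
    have h2 : 1 < (W.filter (fun w => Ed H a w x)).card := by
      have : ¬ lam x ≤ 1 := hcon
      simp only [hlam] at this
      omega
    obtain ⟨w', hw', hne⟩ := Finset.exists_mem_ne h2 w
    rw [Finset.mem_filter] at hw'
    rcases hG.key hw'.2 (h.ed w' hw'.1 w hw hne) hE.swap12 with h1 | h1
    · exact haR (h1 ▸ hy)
    · exact hWR w' hw'.1 (h1 ▸ hy)
  have hLsub : ∀ w ∈ W, Lk H {w} R ⊆ R1.powersetCard 2 := by
    intro w hw p hp
    obtain ⟨x, y, hxy, rfl⟩ := Finset.card_eq_two.1 (mem_Lk.1 hp).2.1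
    obtain ⟨hx, hy, q, hq, hE1⟩ := (pair_mem_Lk hxy).1 hp
    rw [Finset.mem_singleton] at hq
    subst hq
    rw [Finset.mem_powersetCard]
    refine ⟨?_, Finset.card_pair hxy⟩
    intro z hz
    rw [Finset.mem_insert, Finset.mem_singleton] at hz
    rw [hR1, Finset.mem_filter]
    rcases hz with rfl | rfl
    · exact ⟨hx, hk2 q hw z hx y hy hE1⟩
    · exact ⟨hy, hk2 q hw z hy x hx hE1.swap23⟩
  have hpd : ∀ w ∈ W, ∀ w' ∈ W, w ≠ w' → Disjoint (Lk H {w} R) (Lk H {w'} R) := by
    intro w hw w' hw' hne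
    exact k3 hG (h.ed w hw w' hw' hne).rot haR
  have hpa : ∀ w ∈ W, Disjoint (Lk H {w} R) (Lk H {a} R) := by
    intro w hw
    have : 1 < W.card := by rw [h.hW]; norm_num
    obtain ⟨w', hw', hne⟩ := Finset.exists_mem_ne this w
    exact k3 hG (h.ed w hw w' hw' hne.symm).swap12 (hWR w' hw')
  have hS1 : ∑ w ∈ W, (Lk H {w} R).card ≤ R1.card.choose 2 := by
    rw [← Finset.card_biUnion hpd, ← Finset.card_powersetCard]
    exact Finset.card_le_card (Finset.biUnion_subset.2 hLsub)
  have hS2 : (∑ w ∈ W, (Lk H {w} R).card) + (Lk H {a} R).card ≤ N.choose 2 := by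
    rw [← Finset.card_biUnion hpd, ← Finset.card_union_of_disjoint, ← hN,
      ← Finset.card_powersetCard]
    · apply Finset.card_le_card
      apply Finset.union_subset
      · refine Finset.biUnion_subset.2 fun w _ p hp => ?_
        rw [Finset.mem_powersetCard]
        exact ⟨(mem_Lk.1 hp).1, (mem_Lk.1 hp).2.1⟩
      · intro p hp
        rw [Finset.mem_powersetCard]
        exact ⟨(mem_Lk.1 hp).1, (mem_Lk.1 hp).2.1⟩
    · rw [Finset.disjoint_biUnion_left]
      exact hpa
  have hS3 : ∑ w ∈ W, (R.filter (fun x => Ed H a w x)).card = ∑ x ∈ R, lam x := by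
    simp only [hlam, Finset.card_filter]
    exact Finset.sum_comm
  have hlam4 : ∀ x, lam x ≤ 4 := by
    intro x
    rw [← h.hW]
    exact Finset.card_filter_le _ _
  have hS4 : ∑ x ∈ R, lam x + 3 * R1.card ≤ 4 * N := by
    have h1 : ∑ x ∈ R, (lam x + (if lam x ≤ 1 then 3 else 0)) ≤ ∑ x ∈ R, 4 := by
      refine Finset.sum_le_sum fun x _ => ?_
      have := hlam4 x
      split_ifs with h1 <;> omega
    rw [Finset.sum_add_distrib, ← Finset.sum_filter, Finset.sum_const, Finset.sum_const,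
      hN, smul_eq_mul, smul_eq_mul] at h1
    rw [hR1]
    linarith
  have hD : ∑ w ∈ W, δ ≤ ∑ w ∈ W, deg H w :=
    Finset.sum_le_sum fun w hw => hδ w (hWX hw)
  have hD2 : ∑ w ∈ W, deg H w ≤
      ∑ w ∈ W, (3 + (R.filter (fun x => Ed H a w x)).card + (Lk H {w} R).card) :=
    Finset.sum_le_sum fun w hw => degw hG h hw
  rw [Finset.sum_const, h.hW, smul_eq_mul] at hD
  rw [Finset.sum_add_distrib, Finset.sum_add_distrib, Finset.sum_const, h.hW, smul_eq_mul,
    hS3] at hD2
  have hA := dega hG h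
  have hA2 := hδ a haX
  rw [hS3] at hA
  refine ⟨R1.card, ?_, ?_, ?_⟩
  · rw [← hN]; exact Finset.card_filter_le _ _
  · linarith
  · linarith

theorem mono_bound (hG : Good X H) {δ : ℕ} (hδ : ∀ v ∈ X, δ ≤ deg H v) {a w1 w2 w3 w4 : V}
    (hm : Mono H a w1 w2 w3 w4) {N : ℕ} (hN : X.card = N + 5) :
    ∃ k ≤ N, 4 * δ + 3 * k ≤ 12 + 4 * N + k.choose 2 ∧
      5 * δ + 6 * k ≤ 18 + 8 * N + N.choose 2 := by
  classical
  have hnd := hm.nd
  simp only [List.nodup_cons, List.mem_cons, List.not_mem_nil, or_false, not_or,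
    List.nodup_nil, and_true, not_false_eq_true] at hnd
  obtain ⟨⟨d1, d2, d3, d4⟩, ⟨d5, d6, d7⟩, ⟨d8, d9⟩, d10⟩ := hnd
  obtain ⟨ma, m1, m2⟩ := hG.mem hm.e12
  obtain ⟨-, m3, m4⟩ := hG.mem hm.e34
  have hWX : ({w1, w2, w3, w4} : Finset V) ⊆ X := by
    intro z hz
    simp only [Finset.mem_insert, Finset.mem_singleton] at hz
    rcases hz with rfl | rfl | rfl | rfl <;> assumption
  have hW4 : ({w1, w2, w3, w4} : Finset V).card = 4 := by
    rw [Finset.card_insert_of_notMem, Finset.card_insert_of_notMem, Finset.card_pair d10]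
    · simp [d8, d9]
    · simp [d5, d6, d7]
  have haW : a ∉ ({w1, w2, w3, w4} : Finset V) := by simp [d1, d2, d3, d4]
  have hins : insert a ({w1, w2, w3, w4} : Finset V) ⊆ X := by
    intro z hz
    rw [Finset.mem_insert] at hz
    rcases hz with rfl | hz
    · exact ma
    · exact hWX hz
  have hMn : Mn X H a {w1, w2, w3, w4} (X \ insert a {w1, w2, w3, w4}) := by
    refine ⟨hW4, haW, ?_, ?_⟩
    · intro w hw w' hw' hne
      simp only [Finset.mem_insert, Finset.mem_singleton] at hw hw'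
      rcases hw with rfl | rfl | rfl | rfl <;> rcases hw' with rfl | rfl | rfl | rfl
      · exact absurd rfl hne
      · exact hm.e12
      · exact hm.e13
      · exact hm.e14
      · exact hm.e12.swap23
      · exact absurd rfl hne
      · exact hm.e23
      · exact hm.e24
      · exact hm.e13.swap23
      · exact hm.e23.swap23
      · exact absurd rfl hne
      · exact hm.e34
      · exact hm.e14.swap23
      · exact hm.e24.swap23
      · exact hm.e34.swap23
      · exact absurd rfl hne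
    · intro x
      rw [Finset.mem_sdiff, Finset.mem_insert, not_or]
  have hcR : (X \ insert a ({w1, w2, w3, w4} : Finset V)).card = N := by
    rw [Finset.card_sdiff_of_subset hins, Finset.card_insert_of_notMem haW, hW4, hN]
    omega
  exact main hG hδ hMn ma hWX hcR

end Pool.Agent.TUR
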