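import Pool.Agent.TUR.T3
import Pool.Agent.TUR.NUX
import Pool.Agent.TUR.XMO
import Pool.Agent.TUR.QLE
import Pool.Agent.TUR.RBT
import Pool.Agent.TUR.SPG
import Pool.Agent.TUR.SPN

/-!
# TUR / T4 : matching number at least 4, the induction
-/

namespace Pool.Agent.TUR

open Finset

variable {V : Type} [DecidableEq V] {X : Finset V} {H M : Finset (Finset V)} {t m : ℕ}

/-- the sum of `po4` over the uncovered vertices -/
private theorem T4_sum (hC : Cfg X H M t m) (ht : 4 ≤ t) :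
    6 * (H.card : ℤ) ≤ 6 * (AA H M : ℤ) + 6 * (t : ℤ) ^ 2 * m +
      ∑ q ∈ M.offDiag, ∑ o ∈ OO X M, yy (off H q.1 q.2 o) -
      6 * ∑ e ∈ M, (zE H e (OO X M) : ℤ) + 6 * ∑ e ∈ M, ((Lk H e (OO X M)).card : ℤ) := by
  have hd := dec hC
  have hd' : (2 * H.card : ℤ) ≤ 2 * AA H M +
      ∑ o ∈ OO X M, (2 * ∑ e ∈ M, (dg H e o : ℤ) + ∑ q ∈ M.offDiag, (off H q.1 q.2 o : ℤ)) +
      2 * ∑ e ∈ M, ((Lk H e (OO X M)).card : ℤ) := by exact_mod_cast hd
  have hs : 3 * ∑ o ∈ OO X M,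
      (2 * ∑ e ∈ M, (dg H e o : ℤ) + ∑ q ∈ M.offDiag, (off H q.1 q.2 o : ℤ)) ≤
      ∑ o ∈ OO X M, (6 * (t : ℤ) ^ 2 + ∑ q ∈ M.offDiag, yy (off H q.1 q.2 o) -
        6 * (zO H M o : ℤ)) := by
    rw [Finset.mul_sum]
    exact Finset.sum_le_sum (fun o ho => po4 hC ht ho)
  have hrhs : ∑ o ∈ OO X M, (6 * (t : ℤ) ^ 2 + ∑ q ∈ M.offDiag, yy (off H q.1 q.2 o) -
        6 * (zO H M o : ℤ)) = m * (6 * (t : ℤ) ^ 2) +
      ∑ q ∈ M.offDiag, ∑ o ∈ OO X M, yy (off H q.1 q.2 o) - 6 * ∑ o ∈ OO X M, (zO H M o : ℤ) := by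
    rw [Finset.sum_sub_distrib, Finset.sum_add_distrib, Finset.sum_const, hC.card_OO,
      ← Finset.mul_sum, nsmul_eq_mul]
    rw [Finset.sum_comm (s := OO X M) (t := M.offDiag)]
  rw [hrhs] at hs
  have hz : ∑ o ∈ OO X M, (zO H M o : ℤ) = ∑ e ∈ M, (zE H e (OO X M) : ℤ) := by
    exact_mod_cast sum_zO_eq M (OO X M) H
  rw [hz] at hs
  linarith

private theorem T4_yy_nonpos {k : ℕ} (h : k ≤ 3) (h3 : k ≠ 3) : yy k ≤ 0 := by
  unfold yy; rw [if_neg h3]; omega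

private theorem T4_ysum (hC : Cfg X H M t m) {c : ℕ}
    (hY : ∀ q ∈ M.offDiag, ∑ o ∈ OO X M, yy (off H q.1 q.2 o) ≤ c) :
    ∑ q ∈ M.offDiag, ∑ o ∈ OO X M, yy (off H q.1 q.2 o) ≤ c * (Gam X H M M).card := by
  have h1 : ∑ q ∈ M.offDiag, ∑ o ∈ OO X M, yy (off H q.1 q.2 o) ≤
      ∑ q ∈ M.offDiag, if (∃ o ∈ OO X M, off H q.1 q.2 o = 3) then (c : ℤ) else 0 := by
    refine Finset.sum_le_sum (fun q hq => ?_)
    split_ifs with h
    · exact hY q hq
    · apply Finset.sum_nonpos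
      intro o ho
      have hq' := Finset.mem_offDiag.1 hq
      have hoe := (mem_OO.1 ho).2
      exact T4_yy_nonpos (off_le hC.good (hC.mat.1 hq'.1) (hC.mat.1 hq'.2.1)
        (hC.mat.2 _ hq'.1 _ hq'.2.1 hq'.2.2) (hoe _ hq'.1) (hoe _ hq'.2.1))
        (fun h3 => h ⟨o, ho, h3⟩)
  refine h1.trans (le_of_eq ?_)
  rw [← Finset.sum_filter, Finset.sum_const, nsmul_eq_mul, mul_comm]
  rfl

private theorem T4_yq (hC : Cfg X H M t m) {q : Finset V × Finset V} (hq : q ∈ M.offDiag)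
    (h3 : ((OO X M).filter (fun o => off H q.1 q.2 o = 3)).card ≤ 3) :
    ∑ o ∈ OO X M, yy (off H q.1 q.2 o) ≤ ((9 : ℕ) : ℤ) := by
  have hq' := Finset.mem_offDiag.1 hq
  calc ∑ o ∈ OO X M, yy (off H q.1 q.2 o) ≤
      ∑ o ∈ OO X M, if off H q.1 q.2 o = 3 then (3 : ℤ) else 0 := by
        refine Finset.sum_le_sum (fun o ho => ?_)
        split_ifs with h
        · unfold yy; rw [if_pos h]
        · have hoe := (mem_OO.1 ho).2
          exact T4_yy_nonpos (off_le hC.good (hC.mat.1 hq'.1) (hC.mat.1 hq'.2.1)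
            (hC.mat.2 _ hq'.1 _ hq'.2.1 hq'.2.2) (hoe _ hq'.1) (hoe _ hq'.2.1)) h
    _ = 3 * ((OO X M).filter (fun o => off H q.1 q.2 o = 3)).card := by
        rw [← Finset.sum_filter, Finset.sum_const, nsmul_eq_mul, mul_comm]
    _ ≤ 3 * 3 := by gcongr; exact_mod_cast h3
    _ = _ := by norm_num

/-- the dense case -/
private theorem T4_dense (hC : Cfg X H M t m) (ht : 4 ≤ t) (hR : Rg t m)
    (ih1 : PS V (t - 1) (m + 2)) (ih2 : 1 ≤ m → PS V t (m - 1)) (ih3 : PS V (t - 1) m) :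
    H.card ≤ gg t m := by
  by_contra hbig
  rw [not_le] at hbig
  have hδ := min_deg hC (by omega) ih1 ih2 hbig
  -- no K4 in a link (general position)
  have hmono : ¬ (t = 4 ∧ m = 9) → ∀ a w1 w2 w3 w4 : V, ¬ Mono H a w1 w2 w3 w4 := by
    intro h49 a w1 w2 w3 w4 hm
    obtain ⟨N, hN⟩ : ∃ N, 3 * t + m = N + 5 := ⟨3 * t + m - 5, by omega⟩
    obtain ⟨k, hk, h1, h2⟩ := mono_bound hC.good hδ hm (N := N) (by rw [hC.cardX, hN])
    exact nux1 t m N k ht hR h49 hN hk h1 h2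
  have hfano : ∀ a b c w1 w2 w3 w4 : V, ¬ Fano H a b c w1 w2 w3 w4 := by
    intro a b c w1 w2 w3 w4 hF
    obtain ⟨N, hN⟩ : ∃ N, 3 * t + m = N + 7 := ⟨3 * t + m - 7, by omega⟩
    exact nux3 t m N ht hR hN (fano_deg hC.good hF (N := N) (by rw [hC.cardX, hN]) hδ)
  have hKM : ∀ e ∈ M, NoK4 (Lk H e (VM (M.erase e))) := by
    intro e he
    have hdis : Disjoint (VM (M.erase e)) e := by
      rw [Finset.disjoint_left]
      intro x hx hxe
      obtain ⟨f, hf, hxf⟩ := mem_VM.1 hx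
      rw [Finset.mem_erase] at hf
      exact Finset.disjoint_left.1 (hC.mat.2 f hf.2 e he hf.1) hxf hxe
    rcases k4_cases hC.good (hC.mat.1 he) (VM (M.erase e)) hdis with h | h | h
    · exact h
    · exfalso
      obtain ⟨a, w1, w2, w3, w4, ha, h1, h2, h3, h4, hm⟩ := h
      have h5 := mono_t hC he ha h1 h2 h3 h4 hm
      exact hmono (by omega) a w1 w2 w3 w4 hm
    · exfalso
      obtain ⟨a, b, c, w1, w2, w3, w4, -, -, -, -, -, hF⟩ := h
      exact hfano a b c w1 w2 w3 w4 hF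
  have hA := abound hC hKM
  have hq3 : m ≤ 5 → ∀ q ∈ M.offDiag,
      ((OO X M).filter (fun o => off H q.1 q.2 o = 3)).card ≤ 3 := by
    intro hm q hq
    rw [Finset.mem_offDiag] at hq
    by_cases h3 : m ≤ 3
    · calc _ ≤ (OO X M).card := Finset.card_filter_le _ _
        _ ≤ 3 := by rw [hC.card_OO]; exact h3
    · have hm' : m = 4 ∨ m = 5 := by omega
      have hK : NoK4 (Lk H q.1 (X \ q.1)) := by
        rcases k4_cases hC.good (hC.mat.1 hq.1) (X \ q.1) Finset.sdiff_disjoint with h | h | h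
        · exact h
        · exfalso
          obtain ⟨a, w1, w2, w3, w4, -, -, -, -, -, hm⟩ := h
          exact hmono (by omega) a w1 w2 w3 w4 hm
        · exfalso
          obtain ⟨a, b, c, w1, w2, w3, w4, -, -, -, -, -, hF⟩ := h
          exact hfano a b c w1 w2 w3 w4 hF
      exact q_le3 hC ht hm' ih3 hbig hq.1 hq.2.1 hq.2.2 hK
  have hY : ∀ q ∈ M.offDiag, ∑ o ∈ OO X M, yy (off H q.1 q.2 o) ≤ ((9 : ℕ) : ℤ) := by
    intro q hq
    by_cases hm : m ≤ 5
    · exact T4_yq hC hq (hq3 hm q hq)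
    · rw [Finset.mem_offDiag] at hq
      exact (y_bound hC hq.1 hq.2.1 hq.2.2).1 (by omega)
  have hYs := T4_ysum hC hY
  have hS := T4_sum hC ht
  have hE := esm hC (by omega : 3 ≤ t)
  have hE' : (∑ e ∈ M, ((Lk H e (OO X M)).card : ℤ)) ≤
      t * ((m ^ 2 / 4 : ℕ) : ℤ) + ∑ e ∈ M, (zE H e (OO X M) : ℤ) := by exact_mod_cast hE
  have hA' : 2 * (AA H M : ℤ) + 3 * ((Gam X H M M).card : ℤ) ≤ 2 * (t : ℤ) ^ 3 := by
    exact_mod_cast hA
  have hg : ((gg t m : ℕ) : ℤ) = (t : ℤ) ^ 3 + (t : ℤ) ^ 2 * m + t * ((m ^ 2 / 4 : ℕ) : ℤ) := by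
    rw [gg_eq]; push_cast; ring
  have hb : ((gg t m : ℕ) : ℤ) < (H.card : ℤ) := by exact_mod_cast hbig
  rw [hg] at hb
  push_cast at hYs hb hE' hS ⊢
  nlinarith

/-- the sparse case -/
private theorem T4_sparse (hC : Cfg X H M t m) (ht : 4 ≤ t) (hR : ¬ Rg t m)
    (ih : PS V t 0) : H.card ≤ gg t m := by
  have hm9 : 9 ≤ m := by
    by_contra h
    exact hR (Or.inl (by omega))
  -- the edges inside `VM M`
  have hA : AA H M ≤ t ^ 3 := by
    have hC' : Cfg (VM M) (H.filter (fun h => h ⊆ VM M)) M t 0 := by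
      refine ⟨hC.good.filter _ (fun h _ hh => hh), ?_, hC.cardM, ?_, ?_⟩
      · exact ⟨fun e he => Finset.mem_filter.2 ⟨hC.mat.1 he, subset_VM he⟩, hC.mat.2⟩
      · intro M' hM'
        exact hC.max M' ⟨hM'.1.trans (Finset.filter_subset _ _), hM'.2⟩
      · rw [hC.card_VM]; rfl
    have h1 := ih _ _ _ hC'
    rw [gg_eq] at h1
    have h2 : AA H M = (H.filter (fun h => h ⊆ VM M)).card := rfl
    rw [h2]
    simpa using h1
  have hY : ∀ q ∈ M.offDiag, ∑ o ∈ OO X M, yy (off H q.1 q.2 o) ≤ ((6 : ℕ) : ℤ) := by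
    intro q hq
    rw [Finset.mem_offDiag] at hq
    exact (y_bound hC hq.1 hq.2.1 hq.2.2).2 (by omega)
  have hYs := T4_ysum hC hY
  have hS := T4_sum hC ht
  have hsp := spn M t m ht hC.cardM hR (Gam X H M M) (Finset.filter_subset _ _)
    (fun e => (Lk H e (OO X M)).card)
    (fun e he f hf hef => epr hC (by omega) he hf hef)
    (by
      intro q hq
      obtain ⟨h1, o, ho, h3⟩ := Finset.mem_filter.1 hq
      rw [Finset.mem_offDiag] at h1
      exact spg hC hm9 h1.1 h1.2.1 h1.2.2 ho h3)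
  -- the endpoints of `Gam` have `zE ≥ 1`
  have hz : ((Gam X H M M).image Prod.fst ∪ (Gam X H M M).image Prod.snd).card ≤
      ∑ e ∈ M, zE H e (OO X M) := by
    have hsub : (Gam X H M M).image Prod.fst ∪ (Gam X H M M).image Prod.snd ⊆
        M.filter (fun e => 1 ≤ zE H e (OO X M)) := by
      intro e he
      rw [Finset.mem_union, Finset.mem_image, Finset.mem_image] at he
      have key : ∀ a ∈ M, ∀ b ∈ M, a ≠ b → ∀ o ∈ OO X M, off H a b o = 3 →
          1 ≤ zE H a (OO X M) := by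
        intro a ha b hb hab o ho h3
        have hoe := (mem_OO.1 ho).2
        have := off_add_dg hC.good (hC.mat.1 ha) (hC.mat.1 hb) (hC.mat.2 a ha b hb hab)
          (hoe a ha) (hoe b hb)
        unfold zE
        rw [Nat.one_le_iff_ne_zero, ← Nat.pos_iff_ne_zero, Finset.card_pos]
        exact ⟨o, Finset.mem_filter.2 ⟨ho, by omega⟩⟩
      rcases he with ⟨q, hq, rfl⟩ | ⟨q, hq, rfl⟩
      · obtain ⟨h1, o, ho, h3⟩ := Finset.mem_filter.1 hq
        rw [Finset.mem_offDiag] at h1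
        exact Finset.mem_filter.2 ⟨h1.1, key _ h1.1 _ h1.2.1 h1.2.2 o ho h3⟩
      · obtain ⟨h1, o, ho, h3⟩ := Finset.mem_filter.1 hq
        rw [Finset.mem_offDiag] at h1
        exact Finset.mem_filter.2 ⟨h1.2.1, key _ h1.2.1 _ h1.1 (Ne.symm h1.2.2) o ho
          (by rw [off_comm]; exact h3)⟩
    calc _ ≤ (M.filter (fun e => 1 ≤ zE H e (OO X M))).card := Finset.card_le_card hsub
      _ = ∑ e ∈ M.filter (fun e => 1 ≤ zE H e (OO X M)), 1 := by simp
      _ ≤ ∑ e ∈ M.filter (fun e => 1 ≤ zE H e (OO X M)), zE H e (OO X M) :=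
          Finset.sum_le_sum (fun e he => (Finset.mem_filter.1 he).2)
      _ ≤ _ := Finset.sum_le_sum_of_subset (Finset.filter_subset _ _)
  have hsp' : ((Gam X H M M).card : ℤ) + ∑ e ∈ M, ((Lk H e (OO X M)).card : ℤ) ≤
      t * ((m ^ 2 / 4 : ℕ) : ℤ) + ∑ e ∈ M, (zE H e (OO X M) : ℤ) := by
    have := hsp.trans (Nat.add_le_add_left hz _)
    exact_mod_cast this
  have hA' : (AA H M : ℤ) ≤ (t : ℤ) ^ 3 := by exact_mod_cast hA
  have hg : ((gg t m : ℕ) : ℤ) = (t : ℤ) ^ 3 + (t : ℤ) ^ 2 * m + t * ((m ^ 2 / 4 : ℕ) : ℤ) := by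
    rw [gg_eq]; push_cast; ring
  have : (H.card : ℤ) ≤ ((gg t m : ℕ) : ℤ) := by
    rw [hg]
    push_cast at hYs hS hsp' ⊢
    nlinarith
  exact_mod_cast this

theorem ps_all (V : Type) [DecidableEq V] : ∀ t m : ℕ, 3 ≤ t → PS V t m := by
  intro t
  induction t using Nat.strong_induction_on with
  | _ t iht =>
    intro m
    induction m using Nat.strong_induction_on with
    | _ m ihm =>
      intro ht
      by_cases h3 : t = 3
      · subst h3; exact ps3 V m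
      · have ht4 : 4 ≤ t := by omega
        intro X H M hC
        by_cases hR : Rg t m
        · exact T4_dense hC ht4 hR (iht (t - 1) (by omega) (m + 2) (by omega))
            (fun h1 => ihm (m - 1) (by omega) ht) (iht (t - 1) (by omega) m (by omega))
        · have hm : 0 < m := by
            rcases Nat.eq_zero_or_pos m with h | h
            · exact absurd (Or.inl (by omega)) hR
            · exact h
          exact T4_sparse hC ht4 hR (ihm 0 hm ht)

end Pool.Agent.TUR
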