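import Pool.Agent.TUR.Defs

/-!
# TUR / XFA : edges around a Fano plane

`F = {a,b,c,w1,w2,w3,w4}`, the seven lines `abc, aw1w2, aw3w4, bw1w3, bw2w4, cw1w4, cw2w3` are edges.
Any two points of `F` are on exactly one line; two different lines meet in exactly one point.
By `Good.key`:
(f1) if `xyz` is a line and `xyu ∈ H`, `u ≠ z`, then every edge `zuv` has `v ∈ {x,y}`.
(f2) an edge of `H` inside `F` is a line: if `xyu ∈ H`, `u ∈ F`, not a line, let `z` be the third point
  of the line `xy` and `v` the third point of the line `zu`; then `v ∈ {x,y}` by (f1), but then the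
  line `zuv` contains two points of the line `xyz`, so `u ∈ {x,y,z}`, contradiction.
(f3) for `u,u' ∉ F` at most one `x ∈ F` has `xuu' ∈ H`: for `x ≠ y` let `z` be the third point of
  the line; `uu'x, uu'y ∈ H` and `xyz ∈ H` give `z ∈ {u,u'}`.
(f4) for `u ∉ F` at most 3 pairs `xy ⊂ F` have `xyu ∈ H`.  Call these pairs `L`.
  (i) two pairs `xy, xy'` of `L` with a common point are on one line: `uxy, uxy' ∈ H`, `v` the third point
  of the line `yy'`: `v ∈ {u,x}`, so `v = x`.
  (ii) if `xy, xz ∈ L` on a line `ℓ = xyz`, then all pairs of `L` are inside `ℓ`: let `ww' ∈ L` be on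
  another line; by (i) it is disjoint from `{x,y}` and `{x,z}`, its line meets `ℓ` in `v ∈ {x,y,z}`,
  and by (f1) every edge `vuv'` has `v' ∈ {w,w'}`; but `x,y` resp. `z,x` are neighbours:
  `u v v'` is an edge for some `v' ∈ {x,y,z}`.  Contradiction.
  So either `L` is contained in the 3 pairs of a line or `L` consists of pairwise disjoint pairs of a
  7-element set: at most 3.
Count the edges meeting `F` by `|h ∩ F|`: 3: 7 edges (f2); 2: at most `3N` (f4); 1: at most `C(N,2)`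
(f3), where `N = |X \ F|`.
`fano_meet` is this count; for `fano_deg` weight it with `|h ∩ F|` = 3, 2, 1.
(The seven cases can be organised by a labelling `Fin 7 → V`, or by brute force using the seven
`Ed`-facts; (f4) can also be done by `decide`-style reasoning over the 21 pairs.)
-/

namespace Pool.Agent.TUR

open Finset

variable {V : Type} [DecidableEq V] {X : Finset V} {H : Finset (Finset V)}


private def xfaL (a b c w1 w2 w3 w4 : V) (i : Fin 7) : V := [a, b, c, w1, w2, w3, w4].get i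

/-- third point of the line through two points -/
private def xfaT (i j : Fin 7) : Fin 7 :=
  (![![0, 2, 1, 4, 3, 6, 5], ![2, 1, 0, 5, 6, 3, 4], ![1, 0, 2, 6, 5, 4, 3], ![4, 5, 6, 3, 0, 1, 2],
    ![3, 6, 5, 0, 4, 2, 1], ![6, 3, 4, 1, 2, 5, 0], ![5, 4, 3, 2, 1, 0, 6]] : Fin 7 → Fin 7 → Fin 7) i j

private def xfaS (l : Fin 7) : Finset (Fin 7) :=
  (![{0, 1, 2}, {0, 3, 4}, {0, 5, 6}, {1, 3, 5}, {1, 4, 6}, {2, 3, 6}, {2, 4, 5}] :
    Fin 7 → Finset (Fin 7)) l

private theorem xfa_inj {a b c w1 w2 w3 w4 : V} (hF : Fano H a b c w1 w2 w3 w4) :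
    Function.Injective (xfaL a b c w1 w2 w3 w4) := by
  have h := List.nodup_iff_injective_get.1 hF.nd
  exact h

private theorem xfa_ed {a b c w1 w2 w3 w4 : V} (hF : Fano H a b c w1 w2 w3 w4) {i j : Fin 7}
    (hij : i ≠ j) : Ed H (xfaL a b c w1 w2 w3 w4 i) (xfaL a b c w1 w2 w3 w4 j)
      (xfaL a b c w1 w2 w3 w4 (xfaT i j)) := by
  have h1 := hF.abc
  have h2 := hF.a12
  have h3 := hF.a34
  have h4 := hF.b13
  have h5 := hF.b24
  have h6 := hF.c14
  have h7 := hF.c23
  fin_cases i <;> fin_cases j <;>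
    first
    | exact absurd rfl hij
    | exact h1
    | exact h1.swap12
    | exact h1.swap23
    | exact h1.rot
    | exact h1.rot'
    | exact h1.swap13
    | exact h2
    | exact h2.swap12
    | exact h2.swap23
    | exact h2.rot
    | exact h2.rot'
    | exact h2.swap13
    | exact h3
    | exact h3.swap12
    | exact h3.swap23
    | exact h3.rot
    | exact h3.rot'
    | exact h3.swap13
    | exact h4
    | exact h4.swap12
    | exact h4.swap23
    | exact h4.rot
    | exact h4.rot'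
    | exact h4.swap13
    | exact h5
    | exact h5.swap12
    | exact h5.swap23
    | exact h5.rot
    | exact h5.rot'
    | exact h5.swap13
    | exact h6
    | exact h6.swap12
    | exact h6.swap23
    | exact h6.rot
    | exact h6.rot'
    | exact h6.swap13
    | exact h7
    | exact h7.swap12
    | exact h7.swap23
    | exact h7.rot
    | exact h7.rot'
    | exact h7.swap13

private theorem xfa_mem {a b c w1 w2 w3 w4 : V} {x : V} :
    x ∈ ({a, b, c, w1, w2, w3, w4} : Finset V) ↔ ∃ i, xfaL a b c w1 w2 w3 w4 i = x := by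
  have h : x ∈ ({a, b, c, w1, w2, w3, w4} : Finset V) ↔ x ∈ [a, b, c, w1, w2, w3, w4] := by simp
  rw [h, List.mem_iff_get]
  exact Iff.rfl

private theorem xfa_c1 : ∀ i j k : Fin 7, i ≠ j → i ≠ k → j ≠ k → k ≠ xfaT i j →
    xfaT (xfaT i j) k ≠ i ∧ xfaT (xfaT i j) k ≠ j ∧ xfaT i j ≠ k := by decide

private theorem xfa_c2 : ∀ i j : Fin 7, i ≠ j → ∃ l, ({i, j, xfaT i j} : Finset (Fin 7)) = xfaS l := by
  decide

private theorem xfa_c3 : ∀ i j : Fin 7, i ≠ j → xfaT i j ≠ i ∧ xfaT i j ≠ j := by decide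

private theorem xfa_c4 : ∀ i j t : Fin 7, i ≠ j → i ≠ t → j ≠ t → xfaT t j = i → t = xfaT i j := by
  decide

private theorem xfa_c5 : ∀ i j s t : Fin 7, i ≠ j → s ≠ t → s ≠ i → s ≠ j → s ≠ xfaT i j → t ≠ i →
    t ≠ j → t ≠ xfaT i j → xfaT s t = i ∨ xfaT s t = j ∨ xfaT s t = xfaT i j := by decide +kernel

private theorem xfa_c6 : ∀ i j : Fin 7, i ≠ j → xfaT j (xfaT i j) = i ∧ xfaT (xfaT i j) j = i ∧
    xfaT i (xfaT i j) = j := by decide

/-- first rule: two edges through a point outside and a common point of the plane -/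
private theorem xfa_p1 (hG : Good X H) {a b c w1 w2 w3 w4 : V} (hF : Fano H a b c w1 w2 w3 w4)
    {u : V} (hu : u ∉ ({a, b, c, w1, w2, w3, w4} : Finset V)) {i j k : Fin 7} (hjk : j ≠ k)
    (h1 : Ed H u (xfaL a b c w1 w2 w3 w4 i) (xfaL a b c w1 w2 w3 w4 j))
    (h2 : Ed H u (xfaL a b c w1 w2 w3 w4 i) (xfaL a b c w1 w2 w3 w4 k)) : xfaT j k = i := by
  rcases hG.key h1 h2 (xfa_ed hF hjk) with h | h
  · exact absurd (xfa_mem.2 ⟨_, h⟩) hu
  · exact xfa_inj hF h

/-- second rule -/
private theorem xfa_p2 (hG : Good X H) {a b c w1 w2 w3 w4 : V} (hF : Fano H a b c w1 w2 w3 w4)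
    {u : V} {s t x : Fin 7} (hst : s ≠ t)
    (h1 : Ed H u (xfaL a b c w1 w2 w3 w4 s) (xfaL a b c w1 w2 w3 w4 t))
    (h2 : Ed H u (xfaL a b c w1 w2 w3 w4 (xfaT s t)) (xfaL a b c w1 w2 w3 w4 x)) : x = s ∨ x = t := by
  rcases hG.key (xfa_ed hF hst) h1.rot h2.swap12 with h | h
  · exact Or.inl (xfa_inj hF h)
  · exact Or.inr (xfa_inj hF h)

/-- a third pair through the line of two pairs with a common point -/
private theorem xfa_p3 (hG : Good X H) {a b c w1 w2 w3 w4 : V} (hF : Fano H a b c w1 w2 w3 w4)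
    {u : V} (hu : u ∉ ({a, b, c, w1, w2, w3, w4} : Finset V)) {i j s t : Fin 7} (hij : i ≠ j)
    (hst : s ≠ t) (h1 : Ed H u (xfaL a b c w1 w2 w3 w4 i) (xfaL a b c w1 w2 w3 w4 j))
    (h2 : Ed H u (xfaL a b c w1 w2 w3 w4 i) (xfaL a b c w1 w2 w3 w4 (xfaT i j)))
    (h3 : Ed H u (xfaL a b c w1 w2 w3 w4 s) (xfaL a b c w1 w2 w3 w4 t)) :
    s = i ∨ s = j ∨ s = xfaT i j := by
  by_contra hno
  push Not at hno
  obtain ⟨n1, n2, n3⟩ := hno
  have c3 := xfa_c3 i j hij
  have c6 := xfa_c6 i j hij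
  by_cases t1 : t = i
  · subst t1
    have := xfa_p1 hG hF hu (i := t) (j := s) (k := j) n2 h3.swap23 h1
    exact n3 (xfa_c4 t j s hij (Ne.symm n1) (Ne.symm n2) this)
  by_cases t2 : t = j
  · subst t2
    have := xfa_p1 hG hF hu (i := t) (j := s) (k := i) n1 h3.swap23 h1.swap23
    have h4 := xfa_c4 t i s (Ne.symm hij) (Ne.symm n2) (Ne.symm n1) this
    have h5 : xfaT t i = xfaT i t := by revert hij; clear * -; revert i t; decide
    exact n3 (h4.trans h5)
  by_cases t3 : t = xfaT i j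
  · subst t3
    have := xfa_p1 hG hF hu (i := xfaT i j) (j := s) (k := i) n1 h3.swap23 h2.swap23
    have h4 := xfa_c4 (xfaT i j) i s c3.1 (Ne.symm n3) (Ne.symm n1) this
    have h5 : xfaT (xfaT i j) i = j := by revert hij; clear * -; revert i j; decide
    exact n2 (h4.trans h5)
  rcases xfa_c5 i j s t hij hst n1 n2 n3 t1 t2 t3 with h | h | h
  · rcases xfa_p2 hG hF hst h3 (x := j) (by rw [h]; exact h1) with h' | h'
    · exact n2 h'.symm
    · exact t2 h'.symm
  · rcases xfa_p2 hG hF hst h3 (x := i) (by rw [h]; exact h1.swap23) with h' | h'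
    · exact n1 h'.symm
    · exact t1 h'.symm
  · rcases xfa_p2 hG hF hst h3 (x := i) (by rw [h]; exact h2.swap23) with h' | h'
    · exact n1 h'.symm
    · exact t1 h'.symm

theorem fano_in (hG : Good X H) {a b c w1 w2 w3 w4 : V} (hF : Fano H a b c w1 w2 w3 w4) :
    (H.filter (fun h => h ⊆ ({a, b, c, w1, w2, w3, w4} : Finset V))).card ≤ 7 := by
  have hsub : H.filter (fun h => h ⊆ ({a, b, c, w1, w2, w3, w4} : Finset V)) ⊆
      (Finset.univ : Finset (Fin 7)).image
        (fun l => (xfaS l).image (xfaL a b c w1 w2 w3 w4)) := by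
    intro h hh
    obtain ⟨hH, hsF⟩ := Finset.mem_filter.1 hh
    obtain ⟨x, y, z, hxy, hxz, hyz, rfl⟩ := hG.exists_eq hH
    obtain ⟨i, rfl⟩ := xfa_mem.1 (hsF (by simp : x ∈ _))
    obtain ⟨j, rfl⟩ := xfa_mem.1 (hsF (by simp : y ∈ _))
    obtain ⟨k, rfl⟩ := xfa_mem.1 (hsF (by simp : z ∈ _))
    have hij : i ≠ j := fun h => hxy (by rw [h])
    have hik : i ≠ k := fun h => hxz (by rw [h])
    have hjk : j ≠ k := fun h => hyz (by rw [h])
    have hk : k = xfaT i j := by
      by_contra hk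
      obtain ⟨c1, c2, c3⟩ := xfa_c1 i j k hij hik hjk hk
      rcases hG.key (xfa_ed hF hij) hH (xfa_ed hF c3) with h | h
      · exact c1 (xfa_inj hF h)
      · exact c2 (xfa_inj hF h)
    obtain ⟨l, hl⟩ := xfa_c2 i j hij
    rw [Finset.mem_image]
    refine ⟨l, Finset.mem_univ _, ?_⟩
    rw [← hl, hk, Finset.image_insert, Finset.image_insert, Finset.image_singleton]
  refine (Finset.card_le_card hsub).trans (Finset.card_image_le.trans ?_)
  simp

theorem fano_two (hG : Good X H) {a b c w1 w2 w3 w4 : V} (hF : Fano H a b c w1 w2 w3 w4)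
    {u : V} (hu : u ∉ ({a, b, c, w1, w2, w3, w4} : Finset V)) :
    ((({a, b, c, w1, w2, w3, w4} : Finset V).powersetCard 2).filter
      (fun p => insert u p ∈ H)).card ≤ 3 := by
  classical
  set F : Finset V := {a, b, c, w1, w2, w3, w4} with hFdef
  set L := (F.powersetCard 2).filter (fun p => insert u p ∈ H) with hL
  have hmem : ∀ p ∈ L, ∃ i j : Fin 7, i ≠ j ∧
      p = {xfaL a b c w1 w2 w3 w4 i, xfaL a b c w1 w2 w3 w4 j} ∧
      Ed H u (xfaL a b c w1 w2 w3 w4 i) (xfaL a b c w1 w2 w3 w4 j) := by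
    intro p hp
    obtain ⟨hp1, hp2⟩ := Finset.mem_filter.1 hp
    obtain ⟨hpF, hp3⟩ := Finset.mem_powersetCard.1 hp1
    obtain ⟨x, y, hxy, rfl⟩ := Finset.card_eq_two.1 hp3
    obtain ⟨i, rfl⟩ := xfa_mem.1 (hpF (by simp : x ∈ _))
    obtain ⟨j, rfl⟩ := xfa_mem.1 (hpF (by simp : y ∈ _))
    exact ⟨i, j, fun h => hxy (by rw [h]), rfl, hp2⟩
  by_cases hdis : ∀ p ∈ L, ∀ q ∈ L, p ≠ q → Disjoint p q
  · have h1 : (L.biUnion id).card = ∑ p ∈ L, (id p : Finset V).card :=
      Finset.card_biUnion (fun p hp q hq hpq => hdis p hp q hq hpq)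
    have h2 : ∑ p ∈ L, (id p : Finset V).card = 2 * L.card := by
      rw [Finset.sum_congr rfl (fun p hp => (by
        obtain ⟨hp1, hp2⟩ := Finset.mem_filter.1 hp
        exact (Finset.mem_powersetCard.1 hp1).2 : (id p : Finset V).card = 2))]
      simp [mul_comm]
    have h3 : (L.biUnion id).card ≤ F.card := by
      apply Finset.card_le_card
      intro x hx
      obtain ⟨p, hp, hxp⟩ := Finset.mem_biUnion.1 hx
      obtain ⟨hp1, hp2⟩ := Finset.mem_filter.1 hp
      exact (Finset.mem_powersetCard.1 hp1).1 hxp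
    have h4 : F.card ≤ 7 := by
      have : F ⊆ (Finset.univ : Finset (Fin 7)).image (xfaL a b c w1 w2 w3 w4) := by
        intro x hx
        obtain ⟨i, hi⟩ := xfa_mem.1 hx
        exact Finset.mem_image.2 ⟨i, Finset.mem_univ _, hi⟩
      refine (Finset.card_le_card this).trans (Finset.card_image_le.trans ?_)
      simp
    omega
  · push Not at hdis
    obtain ⟨p, hp, q, hq, hpq, hnd⟩ := hdis
    obtain ⟨x, hxp, hxq⟩ := Finset.not_disjoint_iff.1 hnd
    have hform : ∀ p ∈ L, x ∈ p → ∃ i j : Fin 7, i ≠ j ∧ x = xfaL a b c w1 w2 w3 w4 i ∧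
        p = {xfaL a b c w1 w2 w3 w4 i, xfaL a b c w1 w2 w3 w4 j} ∧
        Ed H u (xfaL a b c w1 w2 w3 w4 i) (xfaL a b c w1 w2 w3 w4 j) := by
      intro p hp hxp
      obtain ⟨i, j, hij, rfl, he⟩ := hmem p hp
      rcases Finset.mem_insert.1 hxp with h | h
      · exact ⟨i, j, hij, h, rfl, he⟩
      · refine ⟨j, i, hij.symm, Finset.mem_singleton.1 h, Finset.pair_comm _ _, he.swap23⟩
    obtain ⟨i, j, hij, hxi, hpe, he⟩ := hform p hp hxp
    obtain ⟨i', k, hik, hxi', hqe, he'⟩ := hform q hq hxq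
    have hii : i' = i := xfa_inj hF (hxi'.symm.trans hxi)
    subst hii
    have hjk : j ≠ k := by
      rintro rfl
      exact hpq (hpe.trans hqe.symm)
    have hT := xfa_p1 hG hF hu hjk he he'
    have hk : k = xfaT i' j := by
      have h5 : xfaT k j = xfaT j k := by revert hjk; clear * -; revert j k; decide
      exact xfa_c4 i' j k hij hik hjk (h5.trans hT)
    rw [hk] at he'
    have hsub : L ⊆ (({xfaL a b c w1 w2 w3 w4 i', xfaL a b c w1 w2 w3 w4 j,
        xfaL a b c w1 w2 w3 w4 (xfaT i' j)} : Finset V)).powersetCard 2 := by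
      intro r hr
      obtain ⟨s, t, hst, rfl, he3⟩ := hmem r hr
      have g1 := xfa_p3 hG hF hu hij hst he he' he3
      have g2 := xfa_p3 hG hF hu hij hst.symm he he' he3.swap23
      rw [Finset.mem_powersetCard]
      constructor
      · intro y hy
        rw [Finset.mem_insert, Finset.mem_singleton] at hy
        rcases hy with rfl | rfl
        · rcases g1 with rfl | rfl | rfl <;> simp
        · rcases g2 with rfl | rfl | rfl <;> simp
      · exact Finset.card_pair (fun h => hst (xfa_inj hF h))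
    refine (Finset.card_le_card hsub).trans ?_
    rw [Finset.card_powersetCard]
    have h3 : ({xfaL a b c w1 w2 w3 w4 i', xfaL a b c w1 w2 w3 w4 j,
        xfaL a b c w1 w2 w3 w4 (xfaT i' j)} : Finset V).card ≤ 3 := Finset.card_le_three
    exact (Nat.choose_le_choose 2 h3).trans (by decide)

theorem fano_one (hG : Good X H) {a b c w1 w2 w3 w4 : V} (hF : Fano H a b c w1 w2 w3 w4)
    {x y u u' : V} (hx : x ∈ ({a, b, c, w1, w2, w3, w4} : Finset V))
    (hy : y ∈ ({a, b, c, w1, w2, w3, w4} : Finset V))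
    (hu : u ∉ ({a, b, c, w1, w2, w3, w4} : Finset V))
    (hu' : u' ∉ ({a, b, c, w1, w2, w3, w4} : Finset V))
    (h1 : Ed H x u u') (h2 : Ed H y u u') : x = y := by
  obtain ⟨i, rfl⟩ := xfa_mem.1 hx
  obtain ⟨j, rfl⟩ := xfa_mem.1 hy
  by_contra hne
  have hij : i ≠ j := fun h => hne (by rw [h])
  rcases hG.key h1.rot h2.rot (xfa_ed hF hij) with h | h
  · exact hu (xfa_mem.2 ⟨_, h⟩)
  · exact hu' (xfa_mem.2 ⟨_, h⟩)

end Pool.Agent.TUR
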